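import Pool.Agent.Work.MP_81c58b_co.TG.Stmts

/-!
MP_81c58b_co, block TG, item FINAL: the final theorem from `MAIN3`, `CONTACT` and `STRD`.
-/

set_option autoImplicit false

namespace Pool.Agent.Work.MP_81c58b_co.TG

namespace I_FINAL

open scoped Classical

theorem emb_inj {ρ : ℝ} (hρ : ρ = 1 ∨ ρ = -1) : Function.Injective (emb ρ) := by
  intro D E h
  have h0 := congrFun h 0
  have h1 := congrFun h 1
  have h2 := congrFun h 2
  simp only [emb, Matrix.cons_val_zero, Matrix.cons_val_one, Matrix.cons_val] at h0 h1 h2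
  rcases hρ with rfl | rfl
  · ext
    · exact h0
    · linarith
    · linarith
  · ext
    · exact h0
    · linarith
    · linarith

theorem inc_card (ρ : ℝ) (hρ : ρ = 1 ∨ ρ = -1) (R B : Finset Disc) :
    ((R ×ˢ B).filter (fun P => Inc (emb 1 P.1) (emb ρ P.2))).card ≤
      inc (R.image (emb 1)) (B.image (emb ρ)) := by
  unfold inc
  refine Finset.card_le_card_of_injOn (fun P => (emb 1 P.1, emb ρ P.2)) ?_ ?_
  · intro P hP
    rw [Finset.mem_coe, Finset.mem_filter, Finset.mem_product] at hP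
    rw [Finset.mem_coe, Finset.mem_filter, Finset.mem_product]
    exact ⟨⟨Finset.mem_image_of_mem _ hP.1.1, Finset.mem_image_of_mem _ hP.1.2⟩, hP.2⟩
  · intro P _ P' _ h
    have ha := congrArg Prod.fst h
    have hb := congrArg Prod.snd h
    exact Prod.ext (emb_inj (Or.inl rfl) ha) (emb_inj hρ hb)

theorem fib_card (R B : Finset Disc) (p : Disc → Disc → Prop)
    (h : ∀ D ∈ R, (B.filter (p D)).card ≤ 1) :
    ((R ×ˢ B).filter (fun P => p P.1 P.2)).card ≤ R.card := by
  have h1 : (R ×ˢ B).filter (fun P => p P.1 P.2) ⊆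
      R.biUnion (fun D => (B.filter (p D)).image (fun E => (D, E))) := by
    intro P hP
    rw [Finset.mem_filter, Finset.mem_product] at hP
    rw [Finset.mem_biUnion]
    refine ⟨P.1, hP.1.1, ?_⟩
    rw [Finset.mem_image]
    exact ⟨P.2, Finset.mem_filter.2 ⟨hP.1.2, hP.2⟩, rfl⟩
  calc _ ≤ _ := Finset.card_le_card h1
    _ ≤ ∑ D ∈ R, ((B.filter (p D)).image (fun E => (D, E))).card := Finset.card_biUnion_le
    _ ≤ ∑ _D ∈ R, 1 := Finset.sum_le_sum fun D hD => Finset.card_image_le.trans (h D hD)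
    _ = R.card := by simp

end I_FINAL

open I_FINAL in
theorem FINAL_pf (h1 : MAIN3) (h2 : CONTACT) (h3 : STRD) : FINAL := by
  classical
  obtain ⟨C, hC, hM⟩ := h1
  refine ⟨1 / 1000, by norm_num, 2 * C + 3, fun n R B hR hB hRr hBr hN => ?_⟩
  have hexp : (3 / 2 - 1 / 1000 : ℝ) = 1499 / 1000 := by norm_num
  rw [hexp]
  set X : ℝ := (n : ℝ) ^ ((1499 : ℝ) / 1000) with hX
  have hnX : (n : ℝ) ≤ X := by
    rcases Nat.eq_zero_or_pos n with h0 | h0
    · rw [hX, h0]
      rw [Nat.cast_zero, Real.zero_rpow (by norm_num)]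
    · have h1' : (1 : ℝ) ≤ n := by exact_mod_cast h0
      calc (n : ℝ) = (n : ℝ) ^ (1 : ℝ) := (Real.rpow_one _).symm
        _ ≤ _ := Real.rpow_le_rpow_of_exponent_le h1' (by norm_num)
  -- the pieces
  let I : ℝ → Finset (Disc × Disc) := fun ρ =>
    (R ×ˢ B).filter (fun P => Inc (emb 1 P.1) (emb ρ P.2))
  let J : ℝ → Finset (Disc × Disc) := fun ρ =>
    (R ×ˢ B).filter (fun P => q (emb ρ P.2 - emb 1 P.1) = 0 ∧ (emb ρ P.2 - emb 1 P.1) 1 = 0 ∧
      P.2 ≠ P.1)
  let D0 : Finset (Disc × Disc) := (R ×ˢ B).filter (fun P => P.2 = P.1)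
  have hI : ∀ ρ : ℝ, ρ = 1 ∨ ρ = -1 → ((I ρ).card : ℝ) ≤ C * X := by
    intro ρ hρ
    have hs := (h3 ρ R B hρ hRr hBr hN).1
    have hi : (I ρ).card ≤ inc (R.image (emb 1)) (B.image (emb ρ)) := inc_card ρ hρ R B
    have hm := hM _ _ n hs (Finset.card_image_le.trans hR) (Finset.card_image_le.trans hB)
    have hi' : ((I ρ).card : ℝ) ≤ (inc (R.image (emb 1)) (B.image (emb ρ)) : ℝ) := by
      exact_mod_cast hi
    refine hi'.trans ?_
    convert hm using 2
  have hJ : ∀ ρ : ℝ, ρ = 1 ∨ ρ = -1 → ((J ρ).card : ℝ) ≤ X := by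
    intro ρ hρ
    have hs := (h3 ρ R B hρ hRr hBr hN).2
    have hf : (J ρ).card ≤ R.card := by
      have h4 := fib_card R B (fun D E => q (emb ρ E - emb 1 D) = 0 ∧
        (emb ρ E - emb 1 D) 1 = 0 ∧ E ≠ D) fun D hD => by
          convert hs D hD
      convert h4
    have : ((J ρ).card : ℝ) ≤ n := by exact_mod_cast hf.trans hR
    linarith
  have hD0 : (D0.card : ℝ) ≤ X := by
    have hf : D0.card ≤ R.card := by
      refine fib_card R B (fun D E => E = D) fun D _ => ?_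
      rw [Finset.card_le_one]
      intro a ha b hb
      rw [Finset.mem_filter] at ha hb
      rw [ha.2, hb.2]
    have : (D0.card : ℝ) ≤ n := by exact_mod_cast hf.trans hR
    linarith
  have hsub : {P : Disc × Disc | P.1 ∈ R ∧ P.2 ∈ B ∧ Touch P.1 P.2} ⊆
      ((D0 ∪ (I 1 ∪ I (-1)) ∪ (J 1 ∪ J (-1)) : Finset (Disc × Disc)) : Set (Disc × Disc)) := by
    rintro ⟨D, E⟩ ⟨hD, hE, hT⟩
    have hDE : (D, E) ∈ R ×ˢ B := Finset.mem_product.2 ⟨hD, hE⟩
    simp only [Finset.coe_union, Set.mem_union, Finset.mem_coe]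
    by_cases heq : E = D
    · exact Or.inl (Or.inl (Finset.mem_filter.2 ⟨hDE, heq⟩))
    · have key : ∀ ρ : ℝ, q (emb ρ E - emb 1 D) = 0 → (D, E) ∈ I ρ ∨ (D, E) ∈ J ρ := by
        intro ρ hq
        by_cases h0 : (emb ρ E - emb 1 D) 1 = 0
        · exact Or.inr (Finset.mem_filter.2 ⟨hDE, hq, h0, heq⟩)
        · exact Or.inl (Finset.mem_filter.2 ⟨hDE, hq, h0⟩)
      rcases (h2 D E (hRr D hD) (hBr E hE) (fun h => heq h.symm)).1 hT with h | h
      · rcases key 1 h with h' | h'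
        · exact Or.inl (Or.inr (Or.inl h'))
        · exact Or.inr (Or.inl h')
      · rcases key (-1) h with h' | h'
        · exact Or.inl (Or.inr (Or.inr h'))
        · exact Or.inr (Or.inr h')
  have hcard : touching R B ≤ D0.card + ((I 1).card + (I (-1)).card) +
      ((J 1).card + (J (-1)).card) := by
    unfold touching
    refine (Set.ncard_le_ncard hsub (Finset.finite_toSet _)).trans ?_
    rw [Set.ncard_coe_finset]
    refine (Finset.card_union_le _ _).trans ?_
    refine add_le_add ((Finset.card_union_le _ _).trans ?_) (Finset.card_union_le _ _)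
    exact add_le_add le_rfl (Finset.card_union_le _ _)
  have hcard' : (touching R B : ℝ) ≤ (D0.card : ℝ) + ((I 1).card + (I (-1)).card) +
      ((J 1).card + (J (-1)).card) := by exact_mod_cast hcard
  have i1 := hI 1 (Or.inl rfl)
  have i2 := hI (-1) (Or.inr rfl)
  have j1 := hJ 1 (Or.inl rfl)
  have j2 := hJ (-1) (Or.inr rfl)
  have hX0 : 0 ≤ X := le_trans (Nat.cast_nonneg n) hnX
  nlinarith

end Pool.Agent.Work.MP_81c58b_co.TG
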