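import Pool.Agent.Work.MP_81c58b_co.TG.Sym5
import Pool.Agent.Work.MP_81c58b_co.TG.I_FINAL

/-! The final theorem for discs, for all sizes of the two families. -/

set_option autoImplicit false

namespace Pool.Agent.Work.MP_81c58b_co.TG

open I_FINAL in
theorem final5 (h1 : MAIN6) (h2 : CONTACT) (h3 : STRD) : ∃ C : ℝ, ∀ R B : Finset Disc,
    (∀ D ∈ R, 0 ≤ D.r) → (∀ D ∈ B, 0 ≤ D.r) → NoTriple ((R : Set Disc) ∪ B) →
    (touching R B : ℝ) ≤ C * ((max R.card B.card : ℝ) ^ ((1501 : ℝ) / 2000) *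
      (min R.card B.card : ℝ) ^ ((1497 : ℝ) / 2000) + R.card + B.card) := by
  classical
  obtain ⟨C, hC, hM⟩ := h1
  refine ⟨2 * C + 3, fun R B hRr hBr hN => ?_⟩
  set a : ℝ := (max R.card B.card : ℝ) ^ ((1501 : ℝ) / 2000) *
      (min R.card B.card : ℝ) ^ ((1497 : ℝ) / 2000) with ha
  have ha0 : 0 ≤ a := by rw [ha]; positivity
  have hR0 : (0 : ℝ) ≤ R.card := by positivity
  have hB0 : (0 : ℝ) ≤ B.card := by positivity
  have hmax : (max R.card B.card : ℝ) ≤ R.card + B.card := max_le (by linarith) (by linarith)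
  -- the pieces
  let I : ℝ → Finset (Disc × Disc) := fun ρ =>
    (R ×ˢ B).filter (fun P => Inc (emb 1 P.1) (emb ρ P.2))
  let J : ℝ → Finset (Disc × Disc) := fun ρ =>
    (R ×ˢ B).filter (fun P => q (emb ρ P.2 - emb 1 P.1) = 0 ∧ (emb ρ P.2 - emb 1 P.1) 1 = 0 ∧
      P.2 ≠ P.1)
  let D0 : Finset (Disc × Disc) := (R ×ˢ B).filter (fun P => P.2 = P.1)
  have hI : ∀ ρ : ℝ, ρ = 1 ∨ ρ = -1 → ((I ρ).card : ℝ) ≤ C * (a + (R.card + B.card)) := by
    intro ρ hρ
    have hs := (h3 ρ R B hρ hRr hBr hN).1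
    have hi : (I ρ).card ≤ inc (R.image (emb 1)) (B.image (emb ρ)) := inc_card ρ hρ R B
    have hcR : (R.image (emb 1)).card = R.card :=
      Finset.card_image_of_injective _ (emb_inj (Or.inl rfl))
    have hcB : (B.image (emb ρ)).card = B.card :=
      Finset.card_image_of_injective _ (emb_inj hρ)
    have hm := hM (R.image (emb 1)) (B.image (emb ρ)) (by convert hs)
    rw [hcR, hcB, ← ha] at hm
    have hi' : ((I ρ).card : ℝ) ≤ (inc (R.image (emb 1)) (B.image (emb ρ)) : ℝ) := by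
      exact_mod_cast hi
    refine hi'.trans (hm.trans ?_)
    apply mul_le_mul_of_nonneg_left _ hC.le
    linarith
  have hJ : ∀ ρ : ℝ, ρ = 1 ∨ ρ = -1 → ((J ρ).card : ℝ) ≤ R.card := by
    intro ρ hρ
    have hs := (h3 ρ R B hρ hRr hBr hN).2
    have hf : (J ρ).card ≤ R.card := by
      have h4 := fib_card R B (fun D E => q (emb ρ E - emb 1 D) = 0 ∧
        (emb ρ E - emb 1 D) 1 = 0 ∧ E ≠ D) fun D hD => by
          convert hs D hD
      convert h4
    exact_mod_cast hf
  have hD0 : (D0.card : ℝ) ≤ R.card := by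
    have hf : D0.card ≤ R.card := by
      refine fib_card R B (fun D E => E = D) fun D _ => ?_
      rw [Finset.card_le_one]
      intro a ha b hb
      rw [Finset.mem_filter] at ha hb
      rw [ha.2, hb.2]
    exact_mod_cast hf
  have hsub : {P : Disc × Disc | P.1 ∈ R ∧ P.2 ∈ B ∧ Touch P.1 P.2} ⊆
      ((D0 ∪ (I 1 ∪ I (-1)) ∪ (J 1 ∪ J (-1)) : Finset (Disc × Disc)) : Set (Disc × Disc)) := by
    rintro ⟨D, E⟩ ⟨hD, hE, hT⟩
    have hDE : (D, E) ∈ R ×ˢ B := Finset.mem_product.2 ⟨hD, hE⟩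
    simp only [Finset.coe_union, Set.mem_union, Finset.mem_coe]
    by_cases heq : E = D
    · exact Or.inl (Or.inl (Finset.mem_filter.2 ⟨hDE, heq⟩))
    · have key : ∀ ρ : ℝ, q (emb ρ E - emb 1 D) = 0 → (D, E) ∈ I ρ ∨ (D, E) ∈ J ρ := by
        intro ρ hq
        by_cases h0 : (emb ρ E - emb 1 D) 1 = 0
        · exact Or.inr (Finset.mem_filter.2 ⟨hDE, hq, h0, heq⟩)
        · exact Or.inl (Finset.mem_filter.2 ⟨hDE, hq, h0⟩)
      rcases (h2 D E (hRr D hD) (hBr E hE) (fun h => heq h.symm)).1 hT with h | h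
      · rcases key 1 h with h' | h'
        · exact Or.inl (Or.inr (Or.inl h'))
        · exact Or.inr (Or.inl h')
      · rcases key (-1) h with h' | h'
        · exact Or.inl (Or.inr (Or.inr h'))
        · exact Or.inr (Or.inr h')
  have hcard : touching R B ≤ D0.card + ((I 1).card + (I (-1)).card) +
      ((J 1).card + (J (-1)).card) := by
    unfold touching
    refine (Set.ncard_le_ncard hsub (Finset.finite_toSet _)).trans ?_
    rw [Set.ncard_coe_finset]
    refine (Finset.card_union_le _ _).trans ?_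
    refine add_le_add ((Finset.card_union_le _ _).trans ?_) (Finset.card_union_le _ _)
    exact add_le_add le_rfl (Finset.card_union_le _ _)
  have hcard' : (touching R B : ℝ) ≤ (D0.card : ℝ) + ((I 1).card + (I (-1)).card) +
      ((J 1).card + (J (-1)).card) := by exact_mod_cast hcard
  have i1 := hI 1 (Or.inl rfl)
  have i2 := hI (-1) (Or.inr rfl)
  have j1 := hJ 1 (Or.inl rfl)
  have j2 := hJ (-1) (Or.inr rfl)
  nlinarith

end Pool.Agent.Work.MP_81c58b_co.TG
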