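import Pool.Agent.Work.MP_81c58b_co.TG.Stmts

/-!
# MP_81c58b_co, block TG, item BEZ2
-/

set_option autoImplicit false

namespace Pool.Agent.Work.MP_81c58b_co.TG

open MvPolynomial
open Pool.Agent.Work.MP_916cc8_co (sameCl Part War CW Bez Clr)

namespace I_BEZ2

/-- a real quadratic with nonzero leading coefficient has at most two roots -/
theorem quad3 (A B C z1 z2 z3 : ℝ) (hA : A ≠ 0) (h1 : A * z1 ^ 2 + B * z1 + C = 0)
    (h2 : A * z2 ^ 2 + B * z2 + C = 0) (h3 : A * z3 ^ 2 + B * z3 + C = 0)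
    (h12 : z1 ≠ z2) (h13 : z1 ≠ z3) : z2 = z3 := by
  have e12 : A * (z1 + z2) + B = 0 := by
    have : (z1 - z2) * (A * (z1 + z2) + B) = 0 := by linear_combination h1 - h2
    rcases mul_eq_zero.mp this with h | h
    · exact absurd (sub_eq_zero.mp h) h12
    · exact h
  have e13 : A * (z1 + z3) + B = 0 := by
    have : (z1 - z3) * (A * (z1 + z3) + B) = 0 := by linear_combination h1 - h3
    rcases mul_eq_zero.mp this with h | h
    · exact absurd (sub_eq_zero.mp h) h13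
    · exact h
  have : A * (z2 - z3) = 0 := by linear_combination e12 - e13
  rcases mul_eq_zero.mp this with h | h
  · exact absurd h hA
  · exact sub_eq_zero.mp h

/-- the quadratic satisfied by the last coordinate -/
theorem quadEq (e0 e1 : ℝ) (r b : E3) (w : Fin 2 → ℝ) (hw : prE e0 e1 b = w)
    (hq : q (b - r) = 0) :
    (e0 ^ 2 + e1) * (b 2) ^ 2 +
      (2 * e0 * (w 0 - r 0) + (w 1 - r 1) - e1 * r 2) * (b 2) +
      ((w 0 - r 0) ^ 2 - (w 1 - r 1) * r 2) = 0 := by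
  subst hw
  simp only [q, prE, Pi.sub_apply, Matrix.cons_val_zero, Matrix.cons_val_one] at hq ⊢
  linear_combination hq

theorem eqOf (e0 e1 : ℝ) (a b : E3) (hp : prE e0 e1 a = prE e0 e1 b) (h2 : a 2 = b 2) :
    a = b := by
  have h0 := congrFun hp 0
  have h1 := congrFun hp 1
  simp only [prE, Matrix.cons_val_zero, Matrix.cons_val_one] at h0 h1
  funext i
  fin_cases i
  · simp only [Fin.zero_eta]
    rw [h2] at h0
    linarith
  · simp only [Fin.mk_one]
    rw [h2] at h1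
    linarith
  · exact h2

theorem evalS (V : MvPolynomial (Fin 3) ℝ) (e0 e1 : ℝ) (S : MvPolynomial (Fin 2) ℝ)
    (r b : E3) (hR : Res V e0 e1 r S) (hq : q (b - r) = 0) (hV : eval b V = 0) :
    eval (prE e0 e1 b) S = 0 := by
  have key : aeval ![((prE e0 e1 b 0 : ℝ) : ℂ), ((prE e0 e1 b 1 : ℝ) : ℂ)] S = 0 := by
    rw [hR.2]
    have hLC : LC e0 e1 ((prE e0 e1 b 0 : ℝ) : ℂ) ((prE e0 e1 b 1 : ℝ) : ℂ) ((b 2 : ℝ) : ℂ)
        = algebraMap ℝ ℂ ∘ b := by
      funext i
      fin_cases i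
      · simp [LC, prE]
      · simp [LC, prE]
      · simp [LC]
    refine ⟨((b 2 : ℝ) : ℂ), ?_, ?_⟩
    · rw [hLC]
      have : (((q (b - r) : ℝ)) : ℂ) = 0 := by rw [hq]; simp
      simpa [qC, q] using this
    · rw [hLC, MvPolynomial.aeval_algebraMap_apply]
      have : aeval b V = eval b V := by
        rw [MvPolynomial.aeval_eq_eval]
      rw [this, hV, map_zero]
  have h2 : (![((prE e0 e1 b 0 : ℝ) : ℂ), ((prE e0 e1 b 1 : ℝ) : ℂ)] : Fin 2 → ℂ)
      = algebraMap ℝ ℂ ∘ (prE e0 e1 b) := by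
    funext i
    fin_cases i <;> simp
  rw [h2, MvPolynomial.aeval_algebraMap_apply] at key
  have h3 : aeval (prE e0 e1 b) S = eval (prE e0 e1 b) S := by
    rw [MvPolynomial.aeval_eq_eval]
  rw [h3] at key
  exact (map_eq_zero (algebraMap ℝ ℂ)).mp key

end I_BEZ2

open I_BEZ2 in
theorem BEZ2_pf (hB : Bez) : BEZ2 := by
  classical
  intro V e0 e1 h S r hne hirr hRes hnd Z hZ
  have hrp : IsRelPrime h S := hirr.isRelPrime_iff_not_dvd.mpr hnd
  have hW : (Z.image (prE e0 e1)).card ≤ h.totalDegree * S.totalDegree := by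
    apply hB h S hrp
    intro z hz
    obtain ⟨b, hb, rfl⟩ := Finset.mem_image.mp hz
    obtain ⟨hinc, hh, hV⟩ := hZ b hb
    exact ⟨hh, evalS V e0 e1 S r b hRes hinc.1 hV⟩
  have hfib : Z.card ≤ 2 * (Z.image (prE e0 e1)).card := by
    apply Finset.card_le_mul_card_image
    intro w _
    by_contra hcon
    push Not at hcon
    obtain ⟨a, ha, b, hb, c, hc, hab, hac, hbc⟩ := Finset.two_lt_card.mp hcon
    rw [Finset.mem_filter] at ha hb hc
    have qa := quadEq e0 e1 r a w ha.2 (hZ a ha.1).1.1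
    have qb := quadEq e0 e1 r b w hb.2 (hZ b hb.1).1.1
    have qc := quadEq e0 e1 r c w hc.2 (hZ c hc.1).1.1
    have nab : a 2 ≠ b 2 := fun hh => hab (eqOf e0 e1 a b (ha.2.trans hb.2.symm) hh)
    have nac : a 2 ≠ c 2 := fun hh => hac (eqOf e0 e1 a c (ha.2.trans hc.2.symm) hh)
    have nbc : b 2 ≠ c 2 := fun hh => hbc (eqOf e0 e1 b c (hb.2.trans hc.2.symm) hh)
    exact nbc (quad3 _ _ _ _ _ _ hne qa qb qc nab nac)
  calc Z.card ≤ 2 * (Z.image (prE e0 e1)).card := hfib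
    _ ≤ 2 * (h.totalDegree * S.totalDegree) := Nat.mul_le_mul_left _ hW
    _ ≤ 2 * (h.totalDegree * (2 * V.totalDegree)) :=
        Nat.mul_le_mul_left _ (Nat.mul_le_mul_left _ hRes.1)
    _ = 4 * V.totalDegree * h.totalDegree := by ring

end Pool.Agent.Work.MP_81c58b_co.TG
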