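import Pool.Agent.Work.MP_81c58b_co.TG.Stmts

set_option autoImplicit false

namespace Pool.Agent.Work.MP_81c58b_co.TG

open MvPolynomial
open Pool.Agent.Work.MP_916cc8_co (sameCl Part War CW Bez Clr)
open scoped Classical

namespace I_CELLP

/-- the sign vector of `b` -/
noncomputable def sg {t : ℕ} (e0 e1 : ℝ) (g : Fin t → MvPolynomial (Fin 2) ℝ) (b : E3) :
    Fin t → Bool := fun j => decide (0 < eval (prE e0 e1 b) (g j))

lemma sameCl_of_sg {t : ℕ} {e0 e1 : ℝ} {g : Fin t → MvPolynomial (Fin 2) ℝ} {b b' : E3}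
    (h : ∀ j, eval (prE e0 e1 b) (g j) ≠ 0) (h' : ∀ j, eval (prE e0 e1 b') (g j) ≠ 0)
    (hs : sg e0 e1 g b = sg e0 e1 g b') :
    sameCl g (prE e0 e1 b) (prE e0 e1 b') := by
  intro j
  have hj := congrFun hs j
  simp only [sg, decide_eq_decide] at hj
  rcases lt_or_gt_of_ne (h j) with h1 | h1
  · have h2 : ¬ (0 < eval (prE e0 e1 b') (g j)) := fun hh => absurd (hj.2 hh) (not_lt.2 h1.le)
    have h3 : eval (prE e0 e1 b') (g j) < 0 := lt_of_le_of_ne (not_lt.1 h2) (h' j)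
    exact mul_pos_of_neg_of_neg h1 h3
  · exact mul_pos h1 (hj.1 h1)

lemma sg_of_sameCl {t : ℕ} {e0 e1 : ℝ} {g : Fin t → MvPolynomial (Fin 2) ℝ} {b b' : E3}
    (hs : sameCl g (prE e0 e1 b) (prE e0 e1 b')) : sg e0 e1 g b = sg e0 e1 g b' := by
  funext j
  simp only [sg, decide_eq_decide]
  constructor
  · intro h
    exact (pos_iff_pos_of_mul_pos (hs j)).1 h
  · intro h
    exact (pos_iff_pos_of_mul_pos (hs j)).2 h

lemma holder (ι : Type) (s : Finset ι) (a : ι → ℝ) (ha : ∀ i, 0 ≤ a i) :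
    ∑ i ∈ s, a i ^ ((2 : ℝ) / 3) ≤ (∑ i ∈ s, a i) ^ ((2 : ℝ) / 3) * (s.card : ℝ) ^ ((1 : ℝ) / 3) := by
  have hpq : Real.HolderConjugate ((3 : ℝ) / 2) 3 := by
    rw [Real.holderConjugate_iff]
    norm_num
  have h := Real.inner_le_Lp_mul_Lq s (fun i => a i ^ ((2 : ℝ) / 3)) (fun _ => (1 : ℝ)) hpq
  simp only [mul_one, abs_one, Real.one_rpow, Finset.sum_const, nsmul_eq_mul] at h
  have e1 : ∀ i, |a i ^ ((2 : ℝ) / 3)| ^ ((3 : ℝ) / 2) = a i := by
    intro i
    rw [abs_of_nonneg (Real.rpow_nonneg (ha i) _), ← Real.rpow_mul (ha i)]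
    norm_num
  simp only [e1] at h
  have e2 : (1 : ℝ) / (3 / 2) = 2 / 3 := by norm_num
  rw [e2] at h
  exact h

end I_CELLP

open I_CELLP

theorem CELLP_pf (h1 : VISP) (h2 : KST) : CELLP := by
  refine ⟨72, by norm_num, ?_⟩
  intro V e0 e1 d m0 t g R X hStr hd hV hcone hX hm0 W hW
  set G : ℕ := ∑ j, (g j).totalDegree with hG
  have hd0 : 0 < d := by linarith
  have hG0 : (0 : ℝ) ≤ (G : ℝ) := Nat.cast_nonneg _
  have hW0 : 0 ≤ W := by rw [hW]; positivity
  have hm0' : 0 ≤ m0 := le_trans (by positivity) (hm0 0)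
  -- classes
  set Xs : (Fin t → Bool) → Finset E3 := fun σ => X.filter (fun b => sg e0 e1 g b = σ) with hXs
  set Rs : (Fin t → Bool) → Finset E3 := fun σ => R.filter (fun r => ∃ b ∈ Xs σ, Inc r b) with hRs
  have h2t : (0 : ℝ) < (2 : ℝ) ^ t := by positivity
  -- size of the classes
  have hXcard : ∀ σ, ((Xs σ).card : ℝ) ≤ m0 / 2 ^ t := by
    intro σ
    rw [le_div_iff₀ h2t]
    rcases (Xs σ).eq_empty_or_nonempty with he | ⟨b0, hb0⟩
    · rw [he]; simpa using hm0'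
    · have hsub : Xs σ ⊆ X.filter (fun b => sameCl g (prE e0 e1 b0) (prE e0 e1 b)) := by
        intro b hb
        rw [Finset.mem_filter] at hb hb0 ⊢
        exact ⟨hb.1, sameCl_of_sg (hX b0 hb0.1).2 (hX b hb.1).2 (hb0.2.trans hb.2.symm)⟩
      have hc := Finset.card_le_card hsub
      have hc' : ((Xs σ).card : ℝ) ≤
          ((X.filter (fun b => sameCl g (prE e0 e1 b0) (prE e0 e1 b))).card : ℝ) := by
        exact_mod_cast hc
      have := hm0 (prE e0 e1 b0)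
      nlinarith
  -- number of classes of a red
  have hvis : ∀ r ∈ R, (((Finset.univ : Finset (Fin t → Bool)).filter
      (fun σ => r ∈ Rs σ)).card : ℝ) ≤ 36 * W := by
    intro r hr
    set S := (Finset.univ : Finset (Fin t → Bool)).filter (fun σ => r ∈ Rs σ) with hS
    have hex : ∀ σ : Fin t → Bool, ∃ b : E3, σ ∈ S → b ∈ Xs σ ∧ Inc r b := by
      intro σ
      by_cases hσ : σ ∈ S
      · rw [hS, Finset.mem_filter] at hσ
        have := hσ.2
        rw [hRs, Finset.mem_filter] at this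
        obtain ⟨b, hb, hi⟩ := this.2
        exact ⟨b, fun _ => ⟨hb, hi⟩⟩
      · exact ⟨0, fun h => absurd h hσ⟩
    choose bb hbb using hex
    have hinj : Set.InjOn bb S := by
      intro σ hσ σ' hσ' he
      have ha := (hbb σ hσ).1
      have hb := (hbb σ' hσ').1
      rw [hXs, Finset.mem_filter] at ha hb
      rw [← ha.2, ← hb.2, he]
    have hcard : (S.image bb).card = S.card := Finset.card_image_of_injOn hinj
    have hZ := h1 V e0 e1 t g r (S.image bb) (hcone r hr) (by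
      intro b hb
      rw [Finset.mem_image] at hb
      obtain ⟨σ, hσ, rfl⟩ := hb
      obtain ⟨ha, hi⟩ := hbb σ hσ
      rw [hXs, Finset.mem_filter] at ha
      exact ⟨hi, (hX _ ha.1).1, (hX _ ha.1).2⟩) (by
      intro b hb b' hb' hs
      rw [Finset.mem_image] at hb hb'
      obtain ⟨σ, hσ, rfl⟩ := hb
      obtain ⟨σ', hσ', rfl⟩ := hb'
      have ha := (hbb σ hσ).1
      have hc := (hbb σ' hσ').1
      rw [hXs, Finset.mem_filter] at ha hc
      have := sg_of_sameCl hs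
      rw [ha.2, hc.2] at this
      rw [this])
    rw [hcard, ← hG] at hZ
    have hZ' : (S.card : ℝ) ≤ 2 * (3 * (V.totalDegree : ℝ)) *
        (3 * (V.totalDegree : ℝ) + 6 * (G : ℝ) + 2) := by exact_mod_cast hZ
    refine hZ'.trans ?_
    have hV0 : (0 : ℝ) ≤ (V.totalDegree : ℝ) := Nat.cast_nonneg _
    have hA : 2 * (3 * (V.totalDegree : ℝ)) ≤ 6 * d := by linarith
    have hB : 3 * (V.totalDegree : ℝ) + 6 * (G : ℝ) + 2 ≤ 5 * d + 6 * G := by linarith
    calc 2 * (3 * (V.totalDegree : ℝ)) * (3 * (V.totalDegree : ℝ) + 6 * (G : ℝ) + 2)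
        ≤ (6 * d) * (5 * d + 6 * G) := by
          apply mul_le_mul hA hB <;> positivity
      _ ≤ 36 * W := by
          rw [hW]; nlinarith
  -- sum of the sizes of the `Rs σ`
  have hsumR : ∑ σ, ((Rs σ).card : ℝ) ≤ R.card * (36 * W) := by
    have e : ∀ σ, ((Rs σ).card : ℝ) = ∑ r ∈ R, (if r ∈ Rs σ then (1 : ℝ) else 0) := by
      intro σ
      have hE : R.filter (fun r => r ∈ Rs σ) = Rs σ := by
        ext r
        constructor
        · intro h; exact (Finset.mem_filter.1 h).2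
        · intro h; exact Finset.mem_filter.2 ⟨Finset.filter_subset _ _ h, h⟩
      rw [← Finset.sum_filter, Finset.sum_const, nsmul_eq_mul, mul_one, hE]
    simp only [e]
    rw [Finset.sum_comm]
    have : ∀ r ∈ R, ∑ σ : Fin t → Bool, (if r ∈ Rs σ then (1 : ℝ) else 0) ≤ 36 * W := by
      intro r hr
      have := hvis r hr
      rw [← Finset.sum_filter, Finset.sum_const, nsmul_eq_mul, mul_one]
      exact this
    calc ∑ r ∈ R, ∑ σ : Fin t → Bool, (if r ∈ Rs σ then (1 : ℝ) else 0)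
        ≤ ∑ r ∈ R, 36 * W := Finset.sum_le_sum this
      _ = R.card * (36 * W) := by rw [Finset.sum_const, nsmul_eq_mul]
  -- decomposition of the incidences
  have hdec : (inc R X : ℝ) ≤ ∑ σ, (inc (Rs σ) (Xs σ) : ℝ) := by
    have hN : inc R X ≤ ∑ σ, inc (Rs σ) (Xs σ) := by
      unfold inc
      have hsub : (R ×ˢ X).filter (fun z => Inc z.1 z.2) ⊆
          (Finset.univ : Finset (Fin t → Bool)).biUnion
            (fun σ => (Rs σ ×ˢ Xs σ).filter (fun z => Inc z.1 z.2)) := by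
        intro z hz
        rw [Finset.mem_filter, Finset.mem_product] at hz
        rw [Finset.mem_biUnion]
        refine ⟨sg e0 e1 g z.2, Finset.mem_univ _, ?_⟩
        rw [Finset.mem_filter, Finset.mem_product]
        have hx : z.2 ∈ Xs (sg e0 e1 g z.2) := by
          rw [hXs, Finset.mem_filter]; exact ⟨hz.1.2, rfl⟩
        refine ⟨⟨?_, hx⟩, hz.2⟩
        rw [hRs, Finset.mem_filter]
        exact ⟨hz.1.1, z.2, hx, hz.2⟩
      exact (Finset.card_le_card hsub).trans Finset.card_biUnion_le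
    exact_mod_cast hN
  have hkst : ∀ σ, (inc (Rs σ) (Xs σ) : ℝ) ≤
      2 * (m0 / 2 ^ t * ((Rs σ).card : ℝ) ^ ((2 : ℝ) / 3) + (Rs σ).card) := by
    intro σ
    have hsr : Rs σ ⊆ R := Finset.filter_subset _ _
    have hsx : Xs σ ⊆ X := Finset.filter_subset _ _
    have hStr' : Str (Rs σ) (Xs σ) :=
      ⟨fun r hr b hb b' hb' => hStr.h1 r (hsr hr) b (hsx hb) b' (hsx hb'),
        fun b hb r hr r' hr' => hStr.h2 b (hsx hb) r (hsr hr) r' (hsr hr')⟩
    refine (h2 _ _ hStr').trans ?_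
    have := mul_le_mul_of_nonneg_right (hXcard σ)
      (Real.rpow_nonneg (Nat.cast_nonneg (Rs σ).card) ((2 : ℝ) / 3))
    linarith
  have hhol := holder (Fin t → Bool) Finset.univ (fun σ => ((Rs σ).card : ℝ))
    (fun σ => Nat.cast_nonneg _)
  have hcardu : ((Finset.univ : Finset (Fin t → Bool)).card : ℝ) = 2 ^ t := by
    rw [Finset.card_univ]; simp
  rw [hcardu] at hhol
  have hsum0 : 0 ≤ ∑ σ, ((Rs σ).card : ℝ) := Finset.sum_nonneg fun _ _ => Nat.cast_nonneg _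
  have hpow : (∑ σ, ((Rs σ).card : ℝ)) ^ ((2 : ℝ) / 3) ≤
      36 * (R.card * W) ^ ((2 : ℝ) / 3) := by
    have hRW : 0 ≤ (R.card : ℝ) * W := by positivity
    calc (∑ σ, ((Rs σ).card : ℝ)) ^ ((2 : ℝ) / 3)
        ≤ (36 * (R.card * W)) ^ ((2 : ℝ) / 3) := by
          apply Real.rpow_le_rpow hsum0 _ (by norm_num)
          linarith
      _ = (36 : ℝ) ^ ((2 : ℝ) / 3) * (R.card * W) ^ ((2 : ℝ) / 3) := by
          rw [Real.mul_rpow (by norm_num) hRW]
      _ ≤ 36 * (R.card * W) ^ ((2 : ℝ) / 3) := by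
          apply mul_le_mul_of_nonneg_right _ (Real.rpow_nonneg hRW _)
          calc (36 : ℝ) ^ ((2 : ℝ) / 3) ≤ (36 : ℝ) ^ (1 : ℝ) :=
                Real.rpow_le_rpow_of_exponent_le (by norm_num) (by norm_num)
            _ = 36 := Real.rpow_one _
  have hfin : ∑ σ, ((Rs σ).card : ℝ) ^ ((2 : ℝ) / 3) ≤
      36 * (R.card * W) ^ ((2 : ℝ) / 3) * ((2 : ℝ) ^ t) ^ ((1 : ℝ) / 3) :=
    hhol.trans (mul_le_mul_of_nonneg_right hpow (Real.rpow_nonneg h2t.le _))
  have hdiv : m0 / 2 ^ t * (36 * (R.card * W) ^ ((2 : ℝ) / 3) * ((2 : ℝ) ^ t) ^ ((1 : ℝ) / 3)) =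
      36 * (m0 * (R.card * W / 2 ^ t) ^ ((2 : ℝ) / 3)) := by
    have hRW : 0 ≤ (R.card : ℝ) * W := by positivity
    rw [Real.div_rpow hRW h2t.le]
    have e3 : ((2 : ℝ) ^ t) ^ ((1 : ℝ) / 3) * ((2 : ℝ) ^ t) ^ ((2 : ℝ) / 3) = (2 : ℝ) ^ t := by
      rw [← Real.rpow_add h2t]
      norm_num
    have h3 : (0 : ℝ) < ((2 : ℝ) ^ t) ^ ((2 : ℝ) / 3) := Real.rpow_pos_of_pos h2t _
    field_simp
    linear_combination (m0 * (R.card * W) ^ ((2 : ℝ) / 3)) * e3
  calc (inc R X : ℝ) ≤ ∑ σ, (inc (Rs σ) (Xs σ) : ℝ) := hdec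
    _ ≤ ∑ σ, 2 * (m0 / 2 ^ t * ((Rs σ).card : ℝ) ^ ((2 : ℝ) / 3) + (Rs σ).card) :=
        Finset.sum_le_sum fun σ _ => hkst σ
    _ = 2 * (m0 / 2 ^ t * ∑ σ, ((Rs σ).card : ℝ) ^ ((2 : ℝ) / 3)) +
        2 * ∑ σ, ((Rs σ).card : ℝ) := by
        rw [← Finset.mul_sum, Finset.sum_add_distrib, Finset.mul_sum]; ring
    _ ≤ 2 * (m0 / 2 ^ t * (36 * (R.card * W) ^ ((2 : ℝ) / 3) * ((2 : ℝ) ^ t) ^ ((1 : ℝ) / 3))) +
        2 * (R.card * (36 * W)) := by
        have hq : 0 ≤ m0 / 2 ^ t := by positivity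
        have := mul_le_mul_of_nonneg_left hfin hq
        linarith
    _ = 72 * (R.card * W + m0 * (R.card * W / 2 ^ t) ^ ((2 : ℝ) / 3)) := by
        rw [hdiv]; ring

end Pool.Agent.Work.MP_81c58b_co.TG
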