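import Pool.Agent.Work.MP_81c58b_co.TG.Stmts

set_option autoImplicit false

namespace Pool.Agent.Work.MP_81c58b_co.TG

namespace I_CONI

/-- the restriction to the line of direction `nu t` through `b` -/
noncomputable def lineP (g : MvPolynomial (Fin 3) ℝ) (b : E3) (t : ℝ) : Polynomial ℝ :=
  MvPolynomial.aeval (fun i => Polynomial.C (b i) + Polynomial.C (nu t i) * Polynomial.X) g

lemma lineP_deg (g : MvPolynomial (Fin 3) ℝ) (b : E3) (t : ℝ) :
    (lineP g b t).natDegree ≤ g.totalDegree := by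
  have h := MvPolynomial.aeval_natDegree_le (m := g.totalDegree) (n := 1) g le_rfl
    (fun i => Polynomial.C (b i) + Polynomial.C (nu t i) * Polynomial.X) (fun i => by
      refine (Polynomial.natDegree_add_le _ _).trans ?_
      refine max_le ?_ ?_
      · simp
      · exact (Polynomial.natDegree_C_mul_le _ _).trans Polynomial.natDegree_X_le)
  simpa [lineP] using h

lemma lineP_eval (g : MvPolynomial (Fin 3) ℝ) (b : E3) (t s : ℝ) :
    (lineP g b t).eval s = MvPolynomial.eval (b + s • nu t) g := by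
  unfold lineP
  rw [← Polynomial.coe_evalRingHom, MvPolynomial.aeval_def, MvPolynomial.hom_eval₂]
  show _ = MvPolynomial.eval₂ (RingHom.id ℝ) (b + s • nu t) g
  congr 1
  · ext x; simp
  · funext i
    simp only [Polynomial.coe_evalRingHom, Polynomial.eval_add, Polynomial.eval_mul,
      Polynomial.eval_C, Polynomial.eval_X, Pi.add_apply, Pi.smul_apply, smul_eq_mul]
    ring

/-- the restriction in `t` for fixed `s` -/
noncomputable def tP (g : MvPolynomial (Fin 3) ℝ) (b : E3) (s : ℝ) : Polynomial ℝ :=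
  MvPolynomial.aeval ![Polynomial.C (b 0) + Polynomial.C s * Polynomial.X,
    Polynomial.C (b 1 + s), Polynomial.C (b 2) - Polynomial.C s * Polynomial.X ^ 2] g

lemma tP_eval (g : MvPolynomial (Fin 3) ℝ) (b : E3) (t s : ℝ) :
    (tP g b s).eval t = MvPolynomial.eval (b + s • nu t) g := by
  unfold tP
  rw [← Polynomial.coe_evalRingHom, MvPolynomial.aeval_def, MvPolynomial.hom_eval₂]
  show _ = MvPolynomial.eval₂ (RingHom.id ℝ) (b + s • nu t) g
  congr 1
  · ext x; simp
  · funext i
    fin_cases i <;> simp [nu, sub_eq_add_neg]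

noncomputable def ellP (e : E3) : Polynomial ℝ :=
  Polynomial.C (- e 1) * Polynomial.X ^ 2 + Polynomial.C (2 * e 0) * Polynomial.X +
    Polynomial.C (e 2)

lemma ellP_eval (e : E3) (t : ℝ) : (ellP e).eval t = ell e t := by
  simp [ellP, ell]

lemma ellP_ne (e : E3) (he : e ≠ 0) : ellP e ≠ 0 := by
  intro h
  apply he
  have h0 : ∀ t : ℝ, ell e t = 0 := fun t => by rw [← ellP_eval, h]; simp
  have a := h0 0
  have b := h0 1
  have c := h0 (-1)
  simp only [ell] at a b c
  have e2 : e 2 = 0 := by linarith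
  have e1 : e 1 = 0 := by linarith
  have e0 : e 0 = 0 := by linarith
  funext i
  fin_cases i <;> simp [e0, e1, e2]

lemma q_smul (l : ℝ) (u : E3) : q (l • u) = l ^ 2 * q u := by
  simp only [q, Pi.smul_apply, smul_eq_mul]; ring

lemma q_zero : q 0 = 0 := by simp [q]

lemma comb_ne (u v : E3) (hu : q u ≠ 0) (hv : q v ≠ 0) (huv : u ≠ v) :
    q u • v - q v • u ≠ 0 := by
  intro h
  have h1 : v = (q v / q u) • u := by
    have h2 : q u • v = q v • u := sub_eq_zero.mp h
    calc v = (q u)⁻¹ • (q u • v) := by rw [smul_smul, inv_mul_cancel₀ hu, one_smul]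
      _ = (q u)⁻¹ • (q v • u) := by rw [h2]
      _ = (q v / q u) • u := by rw [smul_smul]; congr 1; field_simp
  have h3 : q v = (q v / q u) ^ 2 * q u := by
    conv_lhs => rw [h1]
    rw [q_smul]
  have h4 : q u = q v := by
    field_simp at h3
    exact h3
  apply huv
  rw [h1, h4, div_self hv, one_smul]

lemma ell_lin (a b : ℝ) (u v : E3) (t : ℝ) :
    ell (a • v - b • u) t = a * ell v t - b * ell u t := by
  simp only [ell, Pi.sub_apply, Pi.smul_apply, smul_eq_mul]; ring

end I_CONI

open I_CONI in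
theorem CONI_pf (_h : SP3) : CONI := by
  classical
  intro g b hC Z hZ
  simp only [Cone, not_forall] at hC
  obtain ⟨s0, t0, h0⟩ := hC
  set P : Polynomial ℝ := tP g b s0 * (∏ b' ∈ Z, ellP (b' - b)) *
    ∏ z ∈ Z.offDiag, ellP (q (z.1 - b) • (z.2 - b) - q (z.2 - b) • (z.1 - b)) with hP
  have hd : ∀ b' ∈ Z, b' - b ≠ 0 := fun b' hb' h1 => (hZ b' hb').1 (by rw [h1]; exact q_zero)
  have hPne : P ≠ 0 := by
    rw [hP]
    refine mul_ne_zero (mul_ne_zero ?_ ?_) ?_
    · intro h1
      apply h0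
      rw [← tP_eval, h1]; simp
    · exact Finset.prod_ne_zero_iff.mpr (fun b' hb' => ellP_ne _ (hd b' hb'))
    · refine Finset.prod_ne_zero_iff.mpr (fun z hz => ellP_ne _ ?_)
      rw [Finset.mem_offDiag] at hz
      exact comb_ne _ _ (hZ _ hz.1).1 (hZ _ hz.2.1).1 (fun h1 => hz.2.2 (sub_left_injective h1))
  obtain ⟨t, ht⟩ : ∃ t : ℝ, P.eval t ≠ 0 := by
    by_contra hcon
    push Not at hcon
    exact hPne (Polynomial.funext (fun x => by rw [hcon x]; simp))
  rw [hP, Polynomial.eval_mul, Polynomial.eval_mul, Polynomial.eval_prod,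
    Polynomial.eval_prod] at ht
  have ht1 : (tP g b s0).eval t ≠ 0 := fun h1 => ht (by rw [h1]; simp)
  have ht2 : ∀ b' ∈ Z, ell (b' - b) t ≠ 0 := by
    intro b' hb' h1
    apply ht
    rw [Finset.prod_eq_zero hb' (by rw [ellP_eval]; exact h1)]
    simp
  have ht3 : ∀ z ∈ Z.offDiag,
      ell (q (z.1 - b) • (z.2 - b) - q (z.2 - b) • (z.1 - b)) t ≠ 0 := by
    intro z hz h1
    apply ht
    rw [Finset.prod_eq_zero (s := Z.offDiag) hz (by rw [ellP_eval]; exact h1)]
    simp
  have hL : lineP g b t ≠ 0 := by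
    intro h1
    apply ht1
    rw [tP_eval, ← lineP_eval, h1]; simp
  have hmap : ∀ b' ∈ Z, q (b' - b) / ell (b' - b) t ∈ (lineP g b t).roots.toFinset := by
    intro b' hb'
    rw [Multiset.mem_toFinset, Polynomial.mem_roots hL, Polynomial.IsRoot.def, lineP_eval]
    exact (hZ b' hb').2 t (ht2 b' hb')
  have hinj : Set.InjOn (fun b' => q (b' - b) / ell (b' - b) t) (Z : Set E3) := by
    intro u hu v hv huv
    by_contra hne
    have h3 := ht3 (u, v) (by rw [Finset.mem_offDiag]; exact ⟨hu, hv, hne⟩)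
    apply h3
    rw [ell_lin]
    have hu2 := ht2 u hu
    have hv2 := ht2 v hv
    simp only at huv
    rw [div_eq_div_iff hu2 hv2] at huv
    simp only
    linarith
  calc Z.card ≤ (lineP g b t).roots.toFinset.card :=
        Finset.card_le_card_of_injOn _ hmap hinj
    _ ≤ Multiset.card (lineP g b t).roots := Multiset.toFinset_card_le _
    _ ≤ (lineP g b t).natDegree := Polynomial.card_roots' _
    _ ≤ g.totalDegree := lineP_deg g b t

end Pool.Agent.Work.MP_81c58b_co.TG
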