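import Pool.Agent.Work.MP_81c58b_co.TG.Stmts

/-! MP_81c58b_co, block TG, item CONS: consecutive elements of a finite set of reals. -/

set_option autoImplicit false

namespace Pool.Agent.Work.MP_81c58b_co.TG

namespace I_CONS

open scoped Classical

/-- the elements of `S` above `x` -/
noncomputable def up (S : Finset ℝ) (x : ℝ) : Finset ℝ := S.filter (fun s => x < s)

/-- successor of `x` in `S` -/
noncomputable def nx (S : Finset ℝ) (x : ℝ) : ℝ :=
  if h : (up S x).Nonempty then (up S x).min' h else x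

/-- the elements of `S` with a successor -/
noncomputable def inn (S : Finset ℝ) : Finset ℝ := S.filter (fun x => (up S x).Nonempty)

theorem nx_mem {S : Finset ℝ} {x : ℝ} (hx : x ∈ inn S) : nx S x ∈ S ∧ x < nx S x := by
  have h := (Finset.mem_filter.mp hx).2
  have h1 : nx S x = (up S x).min' h := by simp only [nx, dif_pos h]
  have h2 := Finset.mem_filter.mp ((up S x).min'_mem h)
  rw [h1]
  exact h2

theorem nx_le {S : Finset ℝ} {x s : ℝ} (hx : x ∈ inn S) (hs : s ∈ S) (h : x < s) :
    nx S x ≤ s := by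
  have h0 := (Finset.mem_filter.mp hx).2
  have h1 : nx S x = (up S x).min' h0 := by simp only [nx, dif_pos h0]
  rw [h1]
  exact Finset.min'_le _ _ (Finset.mem_filter.mpr ⟨hs, h⟩)

theorem card_inn (S : Finset ℝ) : S.card ≤ (inn S).card + 1 := by
  rcases S.eq_empty_or_nonempty with h | h
  · subst h; simp
  · have hsub : S ⊆ insert (S.max' h) (inn S) := by
      intro x hx
      rw [Finset.mem_insert]
      by_cases hm : x = S.max' h
      · exact Or.inl hm
      · right
        refine Finset.mem_filter.mpr ⟨hx, S.max' h, Finset.mem_filter.mpr ⟨S.max'_mem h, ?_⟩⟩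
        exact lt_of_le_of_ne (S.le_max' x hx) hm
    exact (Finset.card_le_card hsub).trans (Finset.card_insert_le _ _)

theorem card_hit (S : Finset ℝ) (z : ℝ) :
    ((inn S).filter (fun x => z ∈ Set.Icc x (nx S x))).card ≤ 2 := by
  set W := (inn S).filter (fun x => z ∈ Set.Icc x (nx S x)) with hW
  rcases W.eq_empty_or_nonempty with h | h
  · rw [h]; simp
  · have hsub : W ⊆ {W.min' h, W.max' h} := by
      intro w hw
      rw [Finset.mem_insert, Finset.mem_singleton]
      by_contra hcon
      push Not at hcon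
      have h1 : W.min' h < w := lt_of_le_of_ne (W.min'_le w hw) (Ne.symm hcon.1)
      have h2 : w < W.max' h := lt_of_le_of_ne (W.le_max' w hw) hcon.2
      have ha := Finset.mem_filter.mp (W.min'_mem h)
      have hb := Finset.mem_filter.mp (W.max'_mem h)
      have hc := Finset.mem_filter.mp hw
      have hwS : w ∈ S := (Finset.mem_filter.mp hc.1).1
      have h3 : nx S (W.min' h) ≤ w := nx_le ha.1 hwS h1
      have h4 : z ≤ nx S (W.min' h) := ha.2.2
      have h5 : W.max' h ≤ z := hb.2.1
      linarith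
    calc W.card ≤ ({W.min' h, W.max' h} : Finset ℝ).card := Finset.card_le_card hsub
      _ ≤ 2 := Finset.card_le_two

end I_CONS

open scoped Classical in
theorem CONS_pf : CONS := by
  intro S Z
  have h1 := I_CONS.card_inn S
  -- elements with a successor: good or hit
  set G := (I_CONS.inn S).filter (fun x => ∀ z ∈ Z, z ∉ Set.Icc x (I_CONS.nx S x)) with hG
  have h2 : (I_CONS.inn S) ⊆ G ∪ Z.biUnion
      (fun z => (I_CONS.inn S).filter (fun x => z ∈ Set.Icc x (I_CONS.nx S x))) := by
    intro x hx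
    rw [Finset.mem_union]
    by_cases hg : ∀ z ∈ Z, z ∉ Set.Icc x (I_CONS.nx S x)
    · left
      exact Finset.mem_filter.mpr ⟨hx, hg⟩
    · right
      push Not at hg
      obtain ⟨z, hz, hzx⟩ := hg
      exact Finset.mem_biUnion.mpr ⟨z, hz, Finset.mem_filter.mpr ⟨hx, hzx⟩⟩
  have h3 : (Z.biUnion
      (fun z => (I_CONS.inn S).filter (fun x => z ∈ Set.Icc x (I_CONS.nx S x)))).card
      ≤ Z.card * 2 :=
    Finset.card_biUnion_le_card_mul _ _ _ (fun z _ => I_CONS.card_hit S z)
  have h4 := (Finset.card_le_card h2).trans (Finset.card_union_le _ _)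
  have h5 : G.card ≤ ((S ×ˢ S).filter (fun x => x.1 < x.2 ∧
      (∀ s ∈ S, s ∈ Set.Icc x.1 x.2 → s = x.1 ∨ s = x.2)
        ∧ ∀ z ∈ Z, z ∉ Set.Icc x.1 x.2)).card := by
    refine Finset.card_le_card_of_injOn (fun x => (x, I_CONS.nx S x)) ?_ ?_
    · intro x hx
      have hx' := Finset.mem_filter.mp (Finset.mem_coe.mp hx)
      have hS := (Finset.mem_filter.mp hx'.1).1
      have hn := I_CONS.nx_mem hx'.1
      refine Finset.mem_coe.mpr (Finset.mem_filter.mpr ⟨Finset.mem_product.mpr ⟨hS, hn.1⟩,
        hn.2, ?_, hx'.2⟩)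
      intro s hs hsI
      rcases eq_or_lt_of_le hsI.1 with h | h
      · exact Or.inl h.symm
      · exact Or.inr (le_antisymm hsI.2 (I_CONS.nx_le hx'.1 hs h))
    · intro x _ y _ hxy
      exact (Prod.mk.inj hxy).1
  omega

end Pool.Agent.Work.MP_81c58b_co.TG
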