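import Pool.Agent.Work.MP_81c58b_co.TG.Stmts

/-!
MP_81c58b_co, block TG, item CONT: number of contained cones.
-/

set_option autoImplicit false

namespace Pool.Agent.Work.MP_81c58b_co.TG

open MvPolynomial

namespace I_CONT

/-- the polynomial whose zeros are the points `(x, y)` over which the two cones meet -/
noncomputable def pp (b b' : E3) : MvPolynomial (Fin 2) ℝ :=
  C (b 2 - b' 2) * (X 1 - C (b 1)) * (X 1 - C (b' 1)) -
    (X 0 - C (b 0)) ^ 2 * (X 1 - C (b' 1)) + (X 0 - C (b' 0)) ^ 2 * (X 1 - C (b 1))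

theorem pp_eval (b b' : E3) (v : Fin 2 → ℝ) :
    eval v (pp b b') = (b 2 - b' 2) * (v 1 - b 1) * (v 1 - b' 1) -
      (v 0 - b 0) ^ 2 * (v 1 - b' 1) + (v 0 - b' 0) ^ 2 * (v 1 - b 1) := by
  simp [pp]

theorem pp_ne (b b' : E3) (h : b ≠ b') : pp b b' ≠ 0 := by
  intro h0
  apply h
  have hF : ∀ x y : ℝ, (b 2 - b' 2) * (y - b 1) * (y - b' 1) -
      (x - b 0) ^ 2 * (y - b' 1) + (x - b' 0) ^ 2 * (y - b 1) = 0 := by
    intro x y
    have := pp_eval b b' ![x, y]
    rw [h0] at this
    simpa using this.symm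
  have h1 : b 1 = b' 1 := by
    have e1 := hF 1 0
    have e2 := hF (-1) 0
    have e3 := hF 0 0
    nlinarith
  have h4 := hF 0 (b 1 + 1)
  have h5 := hF 1 (b 1 + 1)
  rw [← h1] at h4 h5
  ring_nf at h4 h5
  have h2 : b 0 = b' 0 := by linarith
  have h3 : b 2 = b' 2 := by
    rw [h2] at h4
    linarith
  funext i
  fin_cases i
  · exact h2
  · exact h1
  · exact h3

theorem exists_ne {n : ℕ} (g : MvPolynomial (Fin n) ℝ) (hg : g ≠ 0) :
    ∃ p : Fin n → ℝ, eval p g ≠ 0 := by
  by_contra h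
  push Not at h
  exact hg (MvPolynomial.funext fun x => by simpa using h x)

end I_CONT

open I_CONT in
theorem CONT_pf : CONT := by
  classical
  intro g hg Z hZ
  obtain ⟨p, hp⟩ := exists_ne g hg
  -- the polynomial `g(x, y, w*)`
  set G : MvPolynomial (Fin 2) ℝ := aeval ![X 0, X 1, C (p 2)] g with hG
  have hGev : ∀ v : Fin 2 → ℝ, eval v G = eval ![v 0, v 1, p 2] g := by
    intro v
    have h1 := MvPolynomial.comp_aeval_apply (![X 0, X 1, C (p 2)] : Fin 3 → MvPolynomial (Fin 2) ℝ)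
      (MvPolynomial.aeval v : MvPolynomial (Fin 2) ℝ →ₐ[ℝ] ℝ) g
    rw [hG, ← MvPolynomial.aeval_eq_eval, h1, ← MvPolynomial.aeval_eq_eval]
    have h2 : (fun i => (MvPolynomial.aeval v : MvPolynomial (Fin 2) ℝ →ₐ[ℝ] ℝ)
        ((![X 0, X 1, C (p 2)] : Fin 3 → MvPolynomial (Fin 2) ℝ) i)) = ![v 0, v 1, p 2] := by
      funext i
      fin_cases i <;> simp
    rw [h2]
  have hG0 : G ≠ 0 := by
    intro h0
    have := hGev ![p 0, p 1]
    rw [h0] at this
    apply hp
    have h2 : ![(![p 0, p 1] : Fin 2 → ℝ) 0, (![p 0, p 1] : Fin 2 → ℝ) 1, p 2] = p := by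
      funext i
      fin_cases i <;> simp
    rw [h2] at this
    simpa using this.symm
  set Q : MvPolynomial (Fin 2) ℝ := G * (∏ b ∈ Z, (X 1 - C (b 1))) *
    ∏ z ∈ Z.offDiag, pp z.1 z.2 with hQ
  have hQ0 : Q ≠ 0 := by
    rw [hQ]
    refine mul_ne_zero (mul_ne_zero hG0 ?_) ?_
    · rw [Finset.prod_ne_zero_iff]
      intro b _ h0
      have h1 := congrArg (eval ![0, b 1 + 1]) h0
      simp at h1
    · rw [Finset.prod_ne_zero_iff]
      intro z hz
      exact pp_ne _ _ (Finset.mem_offDiag.mp hz).2.2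
  obtain ⟨v, hv⟩ := exists_ne Q hQ0
  rw [hQ, map_mul, map_mul, map_prod, map_prod] at hv
  have hv1 : eval v G ≠ 0 := fun h => hv (by rw [h]; ring)
  have hv2 : ∀ b ∈ Z, v 1 - b 1 ≠ 0 := by
    intro b hb h
    apply hv
    have : ∏ b ∈ Z, eval v (X 1 - C (b 1)) = 0 :=
      Finset.prod_eq_zero hb (by simpa using h)
    rw [this]
    ring
  have hv3 : ∀ b ∈ Z, ∀ b' ∈ Z, b ≠ b' → eval v (pp b b') ≠ 0 := by
    intro b hb b' hb' hne h
    apply hv
    have : ∏ z ∈ Z.offDiag, eval v (pp z.1 z.2) = 0 :=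
      Finset.prod_eq_zero (Finset.mem_offDiag.mpr ⟨hb, hb', hne⟩ : (b, b') ∈ Z.offDiag) h
    rw [this]
    ring
  -- the univariate slice
  set h : Polynomial ℝ := aeval ![Polynomial.C (v 0), Polynomial.C (v 1), Polynomial.X] g with hh
  have hhev : ∀ w : ℝ, h.eval w = eval ![v 0, v 1, w] g := by
    intro w
    have h1 := MvPolynomial.comp_aeval_apply
      (![Polynomial.C (v 0), Polynomial.C (v 1), Polynomial.X] : Fin 3 → Polynomial ℝ)
      (Polynomial.aeval w : Polynomial ℝ →ₐ[ℝ] ℝ) g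
    rw [hh, ← Polynomial.coe_aeval_eq_eval, h1, ← MvPolynomial.aeval_eq_eval]
    have h2 : (fun i => (Polynomial.aeval w : Polynomial ℝ →ₐ[ℝ] ℝ)
        ((![Polynomial.C (v 0), Polynomial.C (v 1), Polynomial.X] : Fin 3 → Polynomial ℝ) i)) =
        ![v 0, v 1, w] := by
      funext i
      fin_cases i <;> simp
    rw [h2]
  have hh0 : h ≠ 0 := by
    intro h0
    have h1 := hhev (p 2)
    rw [h0] at h1
    rw [hGev] at hv1
    apply hv1
    simpa using h1.symm
  have hdeg : h.natDegree ≤ g.totalDegree := by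
    have := MvPolynomial.aeval_natDegree_le g (le_refl g.totalDegree)
      ![Polynomial.C (v 0), Polynomial.C (v 1), Polynomial.X] (n := 1) (by
        intro i
        fin_cases i <;> simp)
    simpa [hh] using this
  set w : E3 → ℝ := fun b => b 2 - (v 0 - b 0) ^ 2 / (v 1 - b 1) with hw
  have hroot : ∀ b ∈ Z, w b ∈ h.roots.toFinset := by
    intro b hb
    rw [Multiset.mem_toFinset, Polynomial.mem_roots hh0, Polynomial.IsRoot.def, hhev]
    have hs := hv2 b hb
    have hc := hZ b hb (v 1 - b 1) ((v 0 - b 0) / (v 1 - b 1))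
    have hpt : b + (v 1 - b 1) • nu ((v 0 - b 0) / (v 1 - b 1)) = ![v 0, v 1, w b] := by
      funext i
      fin_cases i
      · simp [nu]
        field_simp
        ring
      · simp [nu]
      · simp [nu, hw]
        field_simp
        ring
    rw [hpt] at hc
    exact hc
  have hinj : Set.InjOn w Z := by
    intro b hb b' hb' he
    by_contra hne
    apply hv3 b hb b' hb' hne
    rw [pp_eval]
    have h1 := hv2 b hb
    have h2 := hv2 b' hb'
    simp only [hw] at he
    field_simp at he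
    linear_combination he
  calc Z.card = (Z.image w).card := (Finset.card_image_of_injOn hinj).symm
    _ ≤ h.roots.toFinset.card := Finset.card_le_card (by
        intro x hx
        obtain ⟨b, hb, rfl⟩ := Finset.mem_image.mp hx
        exact hroot b hb)
    _ ≤ Multiset.card h.roots := Multiset.toFinset_card_le _
    _ ≤ h.natDegree := Polynomial.card_roots' h
    _ ≤ g.totalDegree := hdeg

end Pool.Agent.Work.MP_81c58b_co.TG
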