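import Pool.Agent.Work.MP_81c58b_co.TG.Stmts

/-!
# MP_81c58b_co, block TG, item CONTACT
-/

set_option autoImplicit false

namespace Pool.Agent.Work.MP_81c58b_co.TG

namespace I_CONTACT

lemma q_emb (ρ : ℝ) (D E : Disc) : q (emb ρ E - emb 1 D) =
    (E.x - D.x) ^ 2 + (E.y - D.y) ^ 2 - (ρ * E.r - D.r) ^ 2 := by
  simp only [q, emb, Pi.sub_apply, Matrix.cons_val_zero, Matrix.cons_val_one, Matrix.cons_val]
  ring

lemma mem_circle (D : Disc) (p : ℝ × ℝ) :
    p ∈ D.circle ↔ (p.1 - D.x) ^ 2 + (p.2 - D.y) ^ 2 = D.r ^ 2 := Iff.rfl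

lemma dist_pos {D E : Disc} (hD : 0 ≤ D.r) (hE : 0 ≤ E.r) (hne : D ≠ E)
    (h : E.r = D.r ∨ ((E.x - D.x) ^ 2 + (E.y - D.y) ^ 2 - (E.r - D.r) ^ 2) *
      ((E.x - D.x) ^ 2 + (E.y - D.y) ^ 2 - (E.r + D.r) ^ 2) = 0) :
    0 < (E.x - D.x) ^ 2 + (E.y - D.y) ^ 2 := by
  by_contra hcon
  have hx : (E.x - D.x) ^ 2 = 0 := by nlinarith [sq_nonneg (E.x - D.x), sq_nonneg (E.y - D.y)]
  have hy : (E.y - D.y) ^ 2 = 0 := by nlinarith [sq_nonneg (E.x - D.x), sq_nonneg (E.y - D.y)]
  have hx' : E.x - D.x = 0 := by simpa using hx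
  have hy' : E.y - D.y = 0 := by simpa using hy
  apply hne
  apply Disc.ext
  · linarith
  · linarith
  · rcases h with h | h
    · exact h.symm
    · rw [hx, hy] at h
      have h2 : (E.r - D.r) ^ 2 * (E.r + D.r) ^ 2 = 0 := by linarith
      rcases mul_eq_zero.mp h2 with h3 | h3
      · have : E.r - D.r = 0 := by simpa using h3
        linarith
      · have : E.r + D.r = 0 := by simpa using h3
        linarith

end I_CONTACT

open I_CONTACT in
theorem CONTACT_pf : CONTACT := by
  intro D E hD hE hne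
  have e1 : q (emb 1 E - emb 1 D) =
      (E.x - D.x) ^ 2 + (E.y - D.y) ^ 2 - (E.r - D.r) ^ 2 := by
    rw [q_emb]; ring
  have e2 : q (emb (-1) E - emb 1 D) =
      (E.x - D.x) ^ 2 + (E.y - D.y) ^ 2 - (E.r + D.r) ^ 2 := by
    rw [q_emb]; ring
  rw [e1, e2, ← mul_eq_zero]
  constructor
  · rintro ⟨p, ⟨hpD, hpE⟩, huniq⟩
    rw [mem_circle] at hpD hpE
    -- centres differ
    by_cases hd : 0 < (E.x - D.x) ^ 2 + (E.y - D.y) ^ 2
    swap
    · exfalso
      have hx : (E.x - D.x) ^ 2 = 0 := by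
        nlinarith [sq_nonneg (E.x - D.x), sq_nonneg (E.y - D.y)]
      have hy : (E.y - D.y) ^ 2 = 0 := by
        nlinarith [sq_nonneg (E.x - D.x), sq_nonneg (E.y - D.y)]
      have hx' : E.x = D.x := by
        have : E.x - D.x = 0 := by simpa using hx
        linarith
      have hy' : E.y = D.y := by
        have : E.y - D.y = 0 := by simpa using hy
        linarith
      have hr : E.r ^ 2 = D.r ^ 2 := by
        rw [← hpD, ← hpE, hx', hy']
      have hr' : E.r = D.r := by
        have := abs_eq_abs.mpr (sq_eq_sq_iff_eq_or_eq_neg.mp hr)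
        rwa [abs_of_nonneg hE, abs_of_nonneg hD] at this
      exact hne (Disc.ext hx'.symm hy'.symm hr'.symm)
    · -- the reflected point
      set d2 := (E.x - D.x) ^ 2 + (E.y - D.y) ^ 2 with hd2
      set w1 := E.x - D.x with hw1
      set w2 := E.y - D.y with hw2
      set c := (p.1 - D.x) * w2 - (p.2 - D.y) * w1 with hc
      have hd0 : d2 ≠ 0 := ne_of_gt hd
      -- p' = p - 2 (c / d2) (w2, - w1)
      set k := c / d2 with hk
      have hkd : k * d2 = c := by rw [hk]; field_simp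
      have h1 : ((p.1 - 2 * k * w2, p.2 + 2 * k * w1) : ℝ × ℝ) ∈ D.circle ∩ E.circle := by
        constructor
        · rw [mem_circle]
          show (p.1 - 2 * k * w2 - D.x) ^ 2 + (p.2 + 2 * k * w1 - D.y) ^ 2 = D.r ^ 2
          have : (p.1 - 2 * k * w2 - D.x) ^ 2 + (p.2 + 2 * k * w1 - D.y) ^ 2 =
              ((p.1 - D.x) ^ 2 + (p.2 - D.y) ^ 2) + 4 * k * (k * d2 - c) := by
            rw [hd2, hc]; ring
          rw [this, hkd, hpD]; ring
        · rw [mem_circle]
          show (p.1 - 2 * k * w2 - E.x) ^ 2 + (p.2 + 2 * k * w1 - E.y) ^ 2 = E.r ^ 2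
          have : (p.1 - 2 * k * w2 - E.x) ^ 2 + (p.2 + 2 * k * w1 - E.y) ^ 2 =
              ((p.1 - E.x) ^ 2 + (p.2 - E.y) ^ 2) + 4 * k * (k * d2 - c) := by
            rw [hd2, hc, hw1, hw2]; ring
          rw [this, hkd, hpE]; ring
      have h2 := huniq _ h1
      have h3 : k * w2 = 0 := by
        have := congrArg Prod.fst h2
        simp only at this
        linarith
      have h4 : k * w1 = 0 := by
        have := congrArg Prod.snd h2
        simp only at this
        linarith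
      have h5 : c = 0 := by
        have hk0 : k = 0 := by
          by_contra hk0
          have a1 : w2 = 0 := by
            rcases mul_eq_zero.mp h3 with h | h
            · exact absurd h hk0
            · exact h
          have a2 : w1 = 0 := by
            rcases mul_eq_zero.mp h4 with h | h
            · exact absurd h hk0
            · exact h
          apply hd0
          rw [hd2, a1, a2]; ring
        rw [← hkd, hk0, zero_mul]
      -- now use the identity
      have key : 4 * c ^ 2 = - ((d2 - (E.r - D.r) ^ 2) * (d2 - (E.r + D.r) ^ 2)) := by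
        have hdot : 2 * ((p.1 - D.x) * w1 + (p.2 - D.y) * w2) = d2 + D.r ^ 2 - E.r ^ 2 := by
          rw [← hpD, ← hpE, hd2, hw1, hw2]; ring
        have hsum : ((p.1 - D.x) * w1 + (p.2 - D.y) * w2) ^ 2 + c ^ 2 = D.r ^ 2 * d2 := by
          rw [← hpD, hc, hd2]; ring
        have : 4 * c ^ 2 = 4 * (D.r ^ 2 * d2) -
            (2 * ((p.1 - D.x) * w1 + (p.2 - D.y) * w2)) ^ 2 := by
          rw [← hsum]; ring
        rw [this, hdot]; ring
      rw [h5] at key
      linarith
  · intro h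
    have hd : 0 < (E.x - D.x) ^ 2 + (E.y - D.y) ^ 2 := dist_pos hD hE hne (Or.inr h)
    set d2 := (E.x - D.x) ^ 2 + (E.y - D.y) ^ 2 with hd2
    set w1 := E.x - D.x with hw1
    set w2 := E.y - D.y with hw2
    have hd0 : d2 ≠ 0 := ne_of_gt hd
    set s := (d2 + D.r ^ 2 - E.r ^ 2) / (2 * d2) with hs
    have hsd : 2 * (s * d2) = d2 + D.r ^ 2 - E.r ^ 2 := by rw [hs]; field_simp
    have hsq : s ^ 2 * d2 = D.r ^ 2 := by
      have h1 : (2 * (s * d2)) ^ 2 = 4 * (D.r ^ 2 * d2) := by
        rw [hsd]; linarith [h, show (d2 + D.r ^ 2 - E.r ^ 2) ^ 2 - 4 * (D.r ^ 2 * d2) =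
          (d2 - (E.r - D.r) ^ 2) * (d2 - (E.r + D.r) ^ 2) by ring]
      have h2 : (s ^ 2 * d2 - D.r ^ 2) * d2 = 0 := by
        have : (s ^ 2 * d2 - D.r ^ 2) * d2 = ((2 * (s * d2)) ^ 2 - 4 * (D.r ^ 2 * d2)) / 4 := by
          ring
        rw [this, h1]; ring
      rcases mul_eq_zero.mp h2 with h3 | h3
      · linarith
      · exact absurd h3 hd0
    refine ⟨(D.x + s * w1, D.y + s * w2), ⟨?_, ?_⟩, ?_⟩
    · rw [mem_circle]
      show (D.x + s * w1 - D.x) ^ 2 + (D.y + s * w2 - D.y) ^ 2 = D.r ^ 2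
      rw [← hsq, hd2]; ring
    · rw [mem_circle]
      show (D.x + s * w1 - E.x) ^ 2 + (D.y + s * w2 - E.y) ^ 2 = E.r ^ 2
      have : (D.x + s * w1 - E.x) ^ 2 + (D.y + s * w2 - E.y) ^ 2 =
          s ^ 2 * d2 - 2 * (s * d2) + d2 := by
        rw [hd2, hw1, hw2]; ring
      rw [this, hsq, hsd]; ring
    · rintro p ⟨hpD, hpE⟩
      rw [mem_circle] at hpD hpE
      have hdot : (p.1 - D.x) * w1 + (p.2 - D.y) * w2 = s * d2 := by
        have : 2 * ((p.1 - D.x) * w1 + (p.2 - D.y) * w2) = d2 + D.r ^ 2 - E.r ^ 2 := by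
          rw [← hpD, ← hpE, hd2, hw1, hw2]; ring
        linarith
      have hcr : (p.1 - D.x) * w2 - (p.2 - D.y) * w1 = 0 := by
        have hsum : ((p.1 - D.x) * w1 + (p.2 - D.y) * w2) ^ 2 +
            ((p.1 - D.x) * w2 - (p.2 - D.y) * w1) ^ 2 = D.r ^ 2 * d2 := by
          rw [← hpD, hd2]; ring
        rw [hdot] at hsum
        have : ((p.1 - D.x) * w2 - (p.2 - D.y) * w1) ^ 2 = 0 := by
          have h4 : (s * d2) ^ 2 = D.r ^ 2 * d2 := by rw [← hsq]; ring
          linarith
        simpa using this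
      have a1 : (p.1 - D.x - s * w1) * d2 = 0 := by
        have : (p.1 - D.x - s * w1) * d2 =
            w1 * (((p.1 - D.x) * w1 + (p.2 - D.y) * w2) - s * d2) +
              w2 * ((p.1 - D.x) * w2 - (p.2 - D.y) * w1) := by
          rw [hd2]; ring
        rw [this, hdot, hcr]; ring
      have a2 : (p.2 - D.y - s * w2) * d2 = 0 := by
        have : (p.2 - D.y - s * w2) * d2 =
            w2 * (((p.1 - D.x) * w1 + (p.2 - D.y) * w2) - s * d2) -
              w1 * ((p.1 - D.x) * w2 - (p.2 - D.y) * w1) := by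
          rw [hd2]; ring
        rw [this, hdot, hcr]; ring
      have b1 : p.1 - D.x - s * w1 = 0 := by
        rcases mul_eq_zero.mp a1 with h | h
        · exact h
        · exact absurd h hd0
      have b2 : p.2 - D.y - s * w2 = 0 := by
        rcases mul_eq_zero.mp a2 with h | h
        · exact h
        · exact absurd h hd0
      apply Prod.ext
      · show p.1 = D.x + s * w1
        linarith
      · show p.2 = D.y + s * w2
        linarith

end Pool.Agent.Work.MP_81c58b_co.TG
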