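import Pool.Agent.Work.MP_81c58b_co.TG.Stmts

/-!
Block [81c58b TG], item CPS: polynomials along the conics.
-/

set_option autoImplicit false

namespace Pool.Agent.Work.MP_81c58b_co.TG

open MvPolynomial
open Pool.Agent.Work.MP_916cc8_co (sameCl Part War CW Bez Clr)

namespace I_CPS

/-- `ell` as a polynomial -/
noncomputable def L (d : E3) : MvPolynomial (Fin 1) ℝ :=
  C (- d 1) * X 0 ^ 2 + C (2 * d 0) * X 0 + C (d 2)

theorem L_deg (d : E3) : (L d).totalDegree ≤ 2 := by
  unfold L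
  refine (totalDegree_add _ _).trans (max_le ((totalDegree_add _ _).trans (max_le ?_ ?_)) ?_)
  · refine (totalDegree_mul _ _).trans ?_
    rw [totalDegree_C, totalDegree_X_pow]
  · refine (totalDegree_mul _ _).trans ?_
    rw [totalDegree_C, totalDegree_X]
    norm_num
  · rw [totalDegree_C]
    norm_num

theorem L_eval (d : E3) (t : ℝ) : eval (fun _ => t) (L d) = ell d t := by
  unfold L ell
  simp

/-- numerators -/
noncomputable def N3 (b b' : E3) : Fin 3 → MvPolynomial (Fin 1) ℝ :=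
  ![C (b 0) * L (b' - b) + C (q (b' - b)) * X 0,
    C (b 1) * L (b' - b) + C (q (b' - b)),
    C (b 2) * L (b' - b) + C (- q (b' - b)) * X 0 ^ 2]

/-- numerators -/
noncomputable def N4 (b b' : E3) : Fin 4 → MvPolynomial (Fin 1) ℝ :=
  ![C (b 0) * L (b' - b) + C (q (b' - b)) * X 0,
    C (b 1) * L (b' - b) + C (q (b' - b)),
    C (b 2) * L (b' - b) + C (- q (b' - b)) * X 0 ^ 2,
    X 0 * L (b' - b)]

theorem CL_deg (c : ℝ) (d : E3) : (C c * L d).totalDegree ≤ 2 := by
  refine (totalDegree_mul _ _).trans ?_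
  rw [totalDegree_C, zero_add]
  exact L_deg d

theorem n0_deg (b b' : E3) :
    (C (b 0) * L (b' - b) + C (q (b' - b)) * X 0 : MvPolynomial (Fin 1) ℝ).totalDegree ≤ 2 := by
  refine (totalDegree_add _ _).trans (max_le (CL_deg _ _) ?_)
  refine (totalDegree_mul _ _).trans ?_
  rw [totalDegree_C, totalDegree_X]
  norm_num

theorem n1_deg (b b' : E3) :
    (C (b 1) * L (b' - b) + C (q (b' - b)) : MvPolynomial (Fin 1) ℝ).totalDegree ≤ 2 := by
  refine (totalDegree_add _ _).trans (max_le (CL_deg _ _) ?_)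
  rw [totalDegree_C]
  norm_num

theorem n2_deg (b b' : E3) :
    (C (b 2) * L (b' - b) + C (- q (b' - b)) * X 0 ^ 2 :
      MvPolynomial (Fin 1) ℝ).totalDegree ≤ 2 := by
  refine (totalDegree_add _ _).trans (max_le (CL_deg _ _) ?_)
  refine (totalDegree_mul _ _).trans ?_
  rw [totalDegree_C, totalDegree_X_pow]

theorem n3_deg (d : E3) :
    (X 0 * L d : MvPolynomial (Fin 1) ℝ).totalDegree ≤ 3 := by
  refine (totalDegree_mul _ _).trans ?_
  rw [totalDegree_X]
  have := L_deg d
  omega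

/-- transport to `Polynomial` -/
theorem transport (Q : MvPolynomial (Fin 1) ℝ) (m : ℕ) (hQ : Q.totalDegree ≤ m) :
    ∃ P : Polynomial ℝ, P.natDegree ≤ m ∧ ∀ t : ℝ, P.eval t = eval (fun _ => t) Q := by
  refine ⟨aeval (fun _ => Polynomial.X) Q, ?_, ?_⟩
  · have := MvPolynomial.aeval_natDegree_le Q hQ (fun _ : Fin 1 => (Polynomial.X : Polynomial ℝ))
      (n := 1) (fun _ => Polynomial.natDegree_X_le)
    simpa using this
  · intro t
    have : (Polynomial.evalRingHom t).comp
        (aeval (fun _ : Fin 1 => (Polynomial.X : Polynomial ℝ)) :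
          MvPolynomial (Fin 1) ℝ →ₐ[ℝ] Polynomial ℝ).toRingHom
        = (eval (fun _ => t) : MvPolynomial (Fin 1) ℝ →+* ℝ) := by
      apply MvPolynomial.ringHom_ext
      · intro r
        simp
      · intro i
        simp
    exact congrArg (fun φ => φ Q) this

theorem pt3 (b b' : E3) (t : ℝ) (ht : ell (b' - b) t ≠ 0) :
    (fun i => eval (fun _ => t) (N3 b b' i) / eval (fun _ => t) (L (b' - b))) =
      crv b b' t := by
  rw [L_eval]
  funext i
  fin_cases i
  · simp [N3, crv, nu, L_eval]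
    field_simp
  · simp [N3, crv, nu, L_eval]
    field_simp
  · simp [N3, crv, nu, L_eval]
    field_simp

theorem pt4' (b b' : E3) (t : ℝ) (ht : ell (b' - b) t ≠ 0) :
    (fun i => eval (fun _ => t) (N4 b b' i) / eval (fun _ => t) (L (b' - b))) =
      pt4 (crv b b' t) t := by
  rw [L_eval]
  funext i
  fin_cases i
  · simp [N4, crv, nu, L_eval, pt4]
    field_simp
  · simp [N4, crv, nu, L_eval, pt4]
    field_simp
  · simp [N4, crv, nu, L_eval, pt4]
    field_simp
  · simp [N4, L_eval, pt4]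
    field_simp

end I_CPS

open I_CPS

theorem CP4_pf (h : Clr) : CP4 := by
  intro f b b'
  obtain ⟨Q, hQ1, hQ2⟩ := h 1 4 f (N4 b b') (L (b' - b)) 3 f.totalDegree (by
    intro i
    fin_cases i
    · exact (n0_deg b b').trans (by norm_num)
    · exact (n1_deg b b').trans (by norm_num)
    · exact (n2_deg b b').trans (by norm_num)
    · exact n3_deg (b' - b)) ((L_deg _).trans (by norm_num)) le_rfl
  obtain ⟨P, hP1, hP2⟩ := transport Q _ hQ1
  refine ⟨P, hP1, ?_⟩
  intro t ht
  rw [hP2 t, hQ2 (fun _ => t) (by rw [L_eval]; exact ht), pt4' b b' t ht, L_eval]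

theorem CP3_pf (h : Clr) : CP3 := by
  intro g b b'
  obtain ⟨Q, hQ1, hQ2⟩ := h 1 3 g (N3 b b') (L (b' - b)) 2 g.totalDegree (by
    intro i
    fin_cases i
    · exact n0_deg b b'
    · exact n1_deg b b'
    · exact n2_deg b b') (L_deg _) le_rfl
  obtain ⟨P, hP1, hP2⟩ := transport Q _ hQ1
  refine ⟨P, hP1, ?_⟩
  intro t ht
  rw [hP2 t, hQ2 (fun _ => t) (by rw [L_eval]; exact ht), pt3 b b' t ht, L_eval]

end Pool.Agent.Work.MP_81c58b_co.TG
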