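import Pool.Agent.Work.MP_81c58b_co.TG.Stmts

/-!
# MP_81c58b_co, block TG, item CUT: the cutting lemma from the induction and the lens lemma
-/

set_option autoImplicit false

namespace Pool.Agent.Work.MP_81c58b_co.TG

open scoped Classical

namespace I_CUT

/-- exchange of the two blue points of an edge -/
def fl (e : Ed) : Ed := (e.2.1, e.1, e.2.2.1, e.2.2.2)

theorem fl_fl (e : Ed) : fl (fl e) = e := rfl

theorem card_filter_fl (E X0 : Finset Ed) :
    (E.filter (fun e => e ∈ X0 ∨ fl e ∈ X0)).card ≤ 2 * X0.card := by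
  have h1 : E.filter (fun e => e ∈ X0 ∨ fl e ∈ X0) ⊆ X0 ∪ X0.image fl := by
    intro e he
    rcases (Finset.mem_filter.1 he).2 with h | h
    · exact Finset.mem_union_left _ h
    · exact Finset.mem_union_right _ (Finset.mem_image.2 ⟨fl e, h, fl_fl e⟩)
  calc (E.filter (fun e => e ∈ X0 ∨ fl e ∈ X0)).card ≤ (X0 ∪ X0.image fl).card :=
        Finset.card_le_card h1
    _ ≤ X0.card + (X0.image fl).card := Finset.card_union_le _ _
    _ ≤ X0.card + X0.card := Nat.add_le_add_left Finset.card_image_le _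
    _ = 2 * X0.card := by ring

end I_CUT

theorem CUT_pf (h1 : CUTI) (h2 : LENS) : CUT := by
  obtain ⟨K0, hK0, hcut⟩ := h1
  refine ⟨2 * K0, by positivity, ?_⟩
  intro R B E N J hS hE hfl hN hJ hJ1
  have hfl' : ∀ e ∈ E, I_CUT.fl e ∈ E := hfl
  have hval : Valid R B (E.image el) := by
    intro a ha
    obtain ⟨e, he, rfl⟩ := Finset.mem_image.1 ha
    obtain ⟨hb, hb', hr, hr', hne, hrr, i1, i2, i3, i4, hg⟩ := hE.edge e he
    exact ⟨hb, hb', hr, hne, i1, i2⟩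
  obtain ⟨X0, hX0, hcard, hsw⟩ := hcut R B E hS hE (E.image el) hval
  have hnN : (nN (E.image el) : ℝ) ≤ N := by
    refine le_trans (le_of_eq ?_) hN
    unfold nN
    rw [Finset.image_image]
    rfl
  have hnQ : (nQ (E.image el) : ℝ) ≤ B.card := by
    have : nQ (E.image el) ≤ B.card := by
      unfold nQ
      refine Finset.card_le_card ?_
      intro x hx
      obtain ⟨a, ha, rfl⟩ := Finset.mem_image.1 hx
      exact (hval a ha).1
    exact_mod_cast this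
  have hN0 : (0 : ℝ) ≤ N := le_trans (Nat.cast_nonneg _) hnN
  have hA0 : (0 : ℝ) ≤ ((E.image el).card : ℝ) := Nat.cast_nonneg _
  have hp1 : ((E.image el).card : ℝ) ^ ((251 : ℝ) / 1000) ≤ J ^ ((251 : ℝ) / 1000) :=
    Real.rpow_le_rpow hA0 hJ (by norm_num)
  have hp2 : ((E.image el).card : ℝ) ^ ((501 : ℝ) / 1000) ≤ J ^ ((501 : ℝ) / 1000) :=
    Real.rpow_le_rpow hA0 hJ (by norm_num)
  have hq1 : (0 : ℝ) ≤ ((E.image el).card : ℝ) ^ ((251 : ℝ) / 1000) := Real.rpow_nonneg hA0 _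
  have hq2 : (0 : ℝ) ≤ ((E.image el).card : ℝ) ^ ((501 : ℝ) / 1000) := Real.rpow_nonneg hA0 _
  have hbd : (X0.card : ℝ) ≤ K0 * (N * J ^ ((251 : ℝ) / 1000) +
      B.card * J ^ ((501 : ℝ) / 1000)) := by
    refine le_trans hcard (mul_le_mul_of_nonneg_left ?_ hK0.le)
    exact add_le_add (mul_le_mul hnN hp1 hq1 hN0) (mul_le_mul hnQ hp2 hq2 (Nat.cast_nonneg _))
  refine ⟨E.filter (fun e => e ∈ X0 ∨ I_CUT.fl e ∈ X0), Finset.filter_subset _ _, ?_, ?_⟩
  · have h3 : ((E.filter (fun e => e ∈ X0 ∨ I_CUT.fl e ∈ X0)).card : ℝ) ≤ 2 * X0.card := by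
      exact_mod_cast I_CUT.card_filter_fl E X0
    nlinarith [h3, hbd]
  · intro e he e' he' heq
    obtain ⟨heE, heX⟩ := Finset.mem_sdiff.1 he
    obtain ⟨heE', heX'⟩ := Finset.mem_sdiff.1 he'
    have hx : e ∉ X0 ∧ I_CUT.fl e ∉ X0 := by
      constructor
      · intro h; exact heX (Finset.mem_filter.2 ⟨heE, Or.inl h⟩)
      · intro h; exact heX (Finset.mem_filter.2 ⟨heE, Or.inr h⟩)
    have hx' : e' ∉ X0 ∧ I_CUT.fl e' ∉ X0 := by
      constructor
      · intro h; exact heX' (Finset.mem_filter.2 ⟨heE', Or.inl h⟩)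
      · intro h; exact heX' (Finset.mem_filter.2 ⟨heE', Or.inr h⟩)
    have m1 : e ∈ E \ X0 := Finset.mem_sdiff.2 ⟨heE, hx.1⟩
    have m2 : I_CUT.fl e ∈ E \ X0 := Finset.mem_sdiff.2 ⟨hfl' e heE, hx.2⟩
    have m1' : e' ∈ E \ X0 := Finset.mem_sdiff.2 ⟨heE', hx'.1⟩
    have m2' : I_CUT.fl e' ∈ E \ X0 := Finset.mem_sdiff.2 ⟨hfl' e' heE', hx'.2⟩
    have hel : ∀ x ∈ E \ X0, el x ∈ E.image el := fun x hx =>
      Finset.mem_image_of_mem _ (Finset.mem_sdiff.1 hx).1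
    obtain ⟨b1, b1', r, r'⟩ := e
    obtain ⟨b2, b2', s, s'⟩ := e'
    obtain ⟨hb1, hb1', hr, hr', hed⟩ := hE.edge _ heE
    obtain ⟨hb2, hb2', hs, hs', hed'⟩ := hE.edge _ heE'
    simp only at hb1 hb1' hr hr' hed hb2 hb2' hs hs' hed' heq ⊢
    obtain ⟨rfl, rfl⟩ := Prod.mk.inj heq
    by_contra hcon
    have hcon1 : ¬ (b1 = b2 ∧ b1' = b2') := fun h => hcon (Or.inl h)
    have hcon2 : ¬ (b1 = b2' ∧ b1' = b2) := fun h => hcon (Or.inr h)
    have hinc : ∀ x ∈ ({b1, b1', b2, b2'} : Set E3), x ∈ B ∧ Inc r x := by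
      intro x hx
      obtain ⟨_, _, i1, i2, _, _, _⟩ := hed
      obtain ⟨_, _, j1, j2, _, _, _⟩ := hed'
      rcases hx with h | h | h | h
      · subst h; exact ⟨hb1, i1⟩
      · subst h; exact ⟨hb1', i2⟩
      · subst h; exact ⟨hb2, j1⟩
      · have h' : x = b2' := h
        subst h'; exact ⟨hb2', j2⟩
    have hdist : ∀ x ∈ ({b1, b1', b2, b2'} : Set E3), ∀ y ∈ ({b1, b1', b2, b2'} : Set E3),
        x ≠ y → tt r x ≠ tt r y := by
      intro x hx y hy hxy ht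
      exact hxy (hS.h1 r hr x (hinc x hx).1 y (hinc y hy).1 (hinc x hx).2 (hinc y hy).2 ht)
    rcases h2 b1 b1' b2 b2' r r' hed hed' hcon1 hcon2 hdist with h | h | h | h
    · exact hsw _ m1 _ m1' rfl (hel _ m1) (hel _ m1') h
    · exact hsw _ m1 _ m2' rfl (hel _ m1) (hel _ m2') h
    · exact hsw _ m2 _ m1' rfl (hel _ m2) (hel _ m1') h
    · exact hsw _ m2 _ m2' rfl (hel _ m2) (hel _ m2') h

end Pool.Agent.Work.MP_81c58b_co.TG
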