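import Pool.Agent.Work.MP_81c58b_co.TG.Stmts

/-!
# MP_81c58b_co, block TG, item CUTI: the induction of the cutting lemma
-/

set_option autoImplicit false

namespace Pool.Agent.Work.MP_81c58b_co.TG

open scoped Classical

namespace I_CUTI

/-- the choice of `t0` -/
theorem choose_t (C : ℝ) (hC : 0 < C) : ∃ t : ℕ, 1 ≤ t ∧
    C * (2 : ℝ) ^ (-((t : ℝ) / 1000)) ≤ 1 / 2 := by
  obtain ⟨n, hn⟩ := pow_unbounded_of_one_lt (2 * C) (show (1 : ℝ) < 2 by norm_num)
  refine ⟨1000 * (n + 1), by omega, ?_⟩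
  have h1 : ((1000 * (n + 1) : ℕ) : ℝ) / 1000 = ((n + 1 : ℕ) : ℝ) := by
    push_cast; ring
  rw [h1, Real.rpow_neg (by norm_num), Real.rpow_natCast]
  have h2 : (0 : ℝ) < 2 ^ (n + 1) := by positivity
  rw [mul_inv_le_iff₀ h2, pow_succ]
  linarith

theorem nN_nonneg (A : Finset Tr) : (0 : ℝ) ≤ nN A := Nat.cast_nonneg _
theorem nQ_nonneg (A : Finset Tr) : (0 : ℝ) ≤ nQ A := Nat.cast_nonneg _

/-- the powers of the children -/
theorem child_pow (t : ℕ) (a c A : ℝ) (hA : 0 ≤ A) (hc : 0 ≤ c) (h : 2 ^ t * c ≤ A) (ha : 0 ≤ a) :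
    c ^ a ≤ (2 : ℝ) ^ (-((t : ℝ) * a)) * A ^ a := by
  have h2 : (0 : ℝ) < 2 ^ t := by positivity
  have h3 : c ≤ (2 : ℝ) ^ (-(t : ℝ)) * A := by
    rw [Real.rpow_neg (by norm_num), Real.rpow_natCast, inv_mul_eq_div, le_div_iff₀ h2]
    linarith
  have h4 : c ^ a ≤ ((2 : ℝ) ^ (-(t : ℝ)) * A) ^ a := Real.rpow_le_rpow hc h3 ha
  refine h4.trans (le_of_eq ?_)
  rw [Real.mul_rpow (by positivity) hA, ← Real.rpow_mul (by norm_num)]
  congr 2
  ring

/-- one sum over the children -/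
theorem sum_child {ι : Type*} (s : Finset ι) (t : ℕ) (a b C A T : ℝ) (n c : ι → ℝ) (hA : 0 ≤ A)
    (hT : 0 ≤ T) (hn : ∀ i, 0 ≤ n i) (hc : ∀ i, 0 ≤ c i) (h : ∀ i, 2 ^ t * c i ≤ A)
    (ha : 0 ≤ a) (hab : b - (t : ℝ) * a = -((t : ℝ) / 1000))
    (hC : C * (2 : ℝ) ^ (-((t : ℝ) / 1000)) ≤ 1 / 2)
    (hs : ∑ i ∈ s, n i ≤ C * (2 : ℝ) ^ b * T) :
    ∑ i ∈ s, n i * c i ^ a ≤ 1 / 2 * (T * A ^ a) := by
  have hAa : 0 ≤ A ^ a := Real.rpow_nonneg hA a
  have h2a : (0 : ℝ) ≤ (2 : ℝ) ^ (-((t : ℝ) * a)) := by positivity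
  calc ∑ i ∈ s, n i * c i ^ a
      ≤ ∑ i ∈ s, n i * ((2 : ℝ) ^ (-((t : ℝ) * a)) * A ^ a) :=
        Finset.sum_le_sum fun i _ =>
          mul_le_mul_of_nonneg_left (child_pow t a (c i) A hA (hc i) (h i) ha) (hn i)
    _ = (∑ i ∈ s, n i) * ((2 : ℝ) ^ (-((t : ℝ) * a)) * A ^ a) := by rw [Finset.sum_mul]
    _ ≤ (C * (2 : ℝ) ^ b * T) * ((2 : ℝ) ^ (-((t : ℝ) * a)) * A ^ a) :=
        mul_le_mul_of_nonneg_right hs (mul_nonneg h2a hAa)
    _ = (C * ((2 : ℝ) ^ b * (2 : ℝ) ^ (-((t : ℝ) * a)))) * (T * A ^ a) := by ring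
    _ = (C * (2 : ℝ) ^ (-((t : ℝ) / 1000))) * (T * A ^ a) := by
        rw [← Real.rpow_add (by norm_num), ← hab]
        congr 3
    _ ≤ 1 / 2 * (T * A ^ a) := mul_le_mul_of_nonneg_right hC (mul_nonneg hT hAa)

end I_CUTI

open I_CUTI

theorem CUTI_pf (h : STEP) : CUTI := by
  obtain ⟨C, hC, hstep⟩ := h
  obtain ⟨t, ht1, htC⟩ := choose_t C hC
  obtain ⟨C0, hC0, hstep⟩ := hstep t
  refine ⟨2 * C0, by positivity, ?_⟩
  intro R B E hStr hE
  -- strong induction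
  have key : ∀ m : ℕ, ∀ A : Finset Tr, A.card = m → Valid R B A → ∃ X ⊆ E,
      (X.card : ℝ) ≤ 2 * C0 * (nN A * (A.card : ℝ) ^ ((251 : ℝ) / 1000) +
        nQ A * (A.card : ℝ) ^ ((501 : ℝ) / 1000)) ∧
      ∀ e ∈ E \ X, ∀ e' ∈ E \ X, e.2.2 = e'.2.2 → el e ∈ A → el e' ∈ A →
        ¬ Swapped e.2.2.1 e.2.2.2 e.1 e'.1 := by
    intro m
    induction m using Nat.strong_induction_on with
    | _ m ih =>
      intro A hAm hval
      by_cases hA0 : A.card = 0
      · have hA : A = ∅ := Finset.card_eq_zero.1 hA0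
        refine ⟨∅, Finset.empty_subset _, ?_, ?_⟩
        · have h1 := nN_nonneg A
          have h2 := nQ_nonneg A
          have h3 : (0 : ℝ) ≤ (A.card : ℝ) ^ ((251 : ℝ) / 1000) := by positivity
          have h4 : (0 : ℝ) ≤ (A.card : ℝ) ^ ((501 : ℝ) / 1000) := by positivity
          rw [Finset.card_empty, Nat.cast_zero]
          positivity
        · intro e _ e' _ _ hel
          rw [hA] at hel
          exact absurd hel (Finset.notMem_empty _)
      · obtain ⟨X0, ch, hX0E, hX0, hch, hsN, hsQ, hsep⟩ := hstep R B E A hStr hE hval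
        have hlt : ∀ σ, (ch σ).card < m := by
          intro σ
          have h1 := (hch σ).2
          have h2 : 2 ≤ 2 ^ t := by
            calc 2 = 2 ^ 1 := by norm_num
              _ ≤ 2 ^ t := Nat.pow_le_pow_right (by norm_num) ht1
          have h3 : 2 * (ch σ).card ≤ 2 ^ t * (ch σ).card := Nat.mul_le_mul_right _ h2
          omega
        have hvalc : ∀ σ, Valid R B (ch σ) := fun σ a ha => hval a ((hch σ).1 ha)
        choose Xs hXsE hXs hXsep using fun σ => ih _ (hlt σ) (ch σ) rfl (hvalc σ)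
        refine ⟨X0 ∪ Finset.univ.biUnion Xs, ?_, ?_, ?_⟩
        · refine Finset.union_subset hX0E ?_
          exact Finset.biUnion_subset.2 fun σ _ => hXsE σ
        · have hA1 : (1 : ℝ) ≤ (A.card : ℝ) := by
            have : 1 ≤ A.card := Nat.one_le_iff_ne_zero.2 hA0
            exact_mod_cast this
          have hcard : ((X0 ∪ Finset.univ.biUnion Xs).card : ℝ) ≤
              X0.card + ∑ σ, ((Xs σ).card : ℝ) := by
            have h1 : (X0 ∪ Finset.univ.biUnion Xs).card ≤ X0.card + ∑ σ, (Xs σ).card :=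
              (Finset.card_union_le _ _).trans (Nat.add_le_add_left Finset.card_biUnion_le _)
            exact_mod_cast h1
          have hchr : ∀ σ, (2 : ℝ) ^ t * ((ch σ).card : ℝ) ≤ (A.card : ℝ) := by
            intro σ
            exact_mod_cast (hch σ).2
          have e1 := sum_child (Finset.univ) t ((251 : ℝ) / 1000) ((t : ℝ) / 4) C (A.card : ℝ)
            (nN A : ℝ) (fun σ => (nN (ch σ) : ℝ)) (fun σ => ((ch σ).card : ℝ))
            (Nat.cast_nonneg _) (nN_nonneg A) (fun σ => nN_nonneg _) (fun σ => Nat.cast_nonneg _)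
            hchr (by norm_num) (by ring) htC hsN
          have e2 := sum_child (Finset.univ) t ((501 : ℝ) / 1000) ((t : ℝ) / 2) C (A.card : ℝ)
            (nQ A : ℝ) (fun σ => (nQ (ch σ) : ℝ)) (fun σ => ((ch σ).card : ℝ))
            (Nat.cast_nonneg _) (nQ_nonneg A) (fun σ => nQ_nonneg _) (fun σ => Nat.cast_nonneg _)
            hchr (by norm_num) (by ring) htC hsQ
          have e3 : ∑ σ, ((Xs σ).card : ℝ) ≤ 2 * C0 *
              ((∑ σ, (nN (ch σ) : ℝ) * ((ch σ).card : ℝ) ^ ((251 : ℝ) / 1000)) +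
              ∑ σ, (nQ (ch σ) : ℝ) * ((ch σ).card : ℝ) ^ ((501 : ℝ) / 1000)) := by
            rw [← Finset.sum_add_distrib, Finset.mul_sum]
            exact Finset.sum_le_sum fun σ _ => hXs σ
          have e4 : (1 : ℝ) ≤ (A.card : ℝ) ^ ((251 : ℝ) / 1000) :=
            Real.one_le_rpow hA1 (by norm_num)
          have e5 : Real.sqrt (A.card : ℝ) ≤ (A.card : ℝ) ^ ((501 : ℝ) / 1000) := by
            rw [Real.sqrt_eq_rpow]
            exact Real.rpow_le_rpow_of_exponent_le hA1 (by norm_num)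
          have e6 : (nN A : ℝ) ≤ nN A * (A.card : ℝ) ^ ((251 : ℝ) / 1000) := by
            nlinarith [nN_nonneg A]
          have e7 : (nQ A : ℝ) * Real.sqrt (A.card : ℝ) ≤
              nQ A * (A.card : ℝ) ^ ((501 : ℝ) / 1000) :=
            mul_le_mul_of_nonneg_left e5 (nQ_nonneg A)
          have e8 : (X0.card : ℝ) ≤ C0 * (nN A * (A.card : ℝ) ^ ((251 : ℝ) / 1000) +
              nQ A * (A.card : ℝ) ^ ((501 : ℝ) / 1000)) :=
            hX0.trans (mul_le_mul_of_nonneg_left (add_le_add e6 e7) hC0.le)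
          have e9 : 2 * C0 * ((∑ σ, (nN (ch σ) : ℝ) * ((ch σ).card : ℝ) ^ ((251 : ℝ) / 1000)) +
              ∑ σ, (nQ (ch σ) : ℝ) * ((ch σ).card : ℝ) ^ ((501 : ℝ) / 1000)) ≤
              2 * C0 * (1 / 2 * ((nN A : ℝ) * (A.card : ℝ) ^ ((251 : ℝ) / 1000)) +
                1 / 2 * ((nQ A : ℝ) * (A.card : ℝ) ^ ((501 : ℝ) / 1000))) :=
            mul_le_mul_of_nonneg_left (add_le_add e1 e2) (by positivity)
          linarith
        · intro e he e' he' hee hel hel' hsw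
          rw [Finset.mem_sdiff, Finset.mem_union, not_or] at he he'
          obtain ⟨σ, h1, h2⟩ := hsep e (Finset.mem_sdiff.2 ⟨he.1, he.2.1⟩) e'
            (Finset.mem_sdiff.2 ⟨he'.1, he'.2.1⟩) hee hel hel' hsw
          have h3 : e ∉ Xs σ := fun h =>
            he.2.2 (Finset.mem_biUnion.2 ⟨σ, Finset.mem_univ _, h⟩)
          have h4 : e' ∉ Xs σ := fun h =>
            he'.2.2 (Finset.mem_biUnion.2 ⟨σ, Finset.mem_univ _, h⟩)
          exact hXsep σ e (Finset.mem_sdiff.2 ⟨he.1, h3⟩) e' (Finset.mem_sdiff.2 ⟨he'.1, h4⟩)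
            hee h1 h2 hsw
  intro A hval
  exact key A.card A rfl hval

end Pool.Agent.Work.MP_81c58b_co.TG
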