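import Pool.Agent.Work.MP_81c58b_co.TG.Stmts

/-!
# MP_81c58b_co, block TG, item DENZ: a conic meets the cone of a third point at most twice
-/

set_option autoImplicit false

namespace Pool.Agent.Work.MP_81c58b_co.TG

namespace I_DENZ

/-- the form on `u + s ν(t)` -/
lemma q_add_nu (u : E3) (s t : ℝ) : q (u + s • nu t) = q u + s * ell u t := by
  simp only [q, nu, ell, Pi.add_apply, Pi.smul_apply, smul_eq_mul, Matrix.cons_val_zero,
    Matrix.cons_val_one, Matrix.cons_val]
  ring

/-- a quadratic polynomial with three roots is zero -/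
lemma three_roots {A B C a b c : ℝ} (hab : a ≠ b) (hac : a ≠ c) (hbc : b ≠ c)
    (ha : A * a ^ 2 + B * a + C = 0) (hb : A * b ^ 2 + B * b + C = 0)
    (hc : A * c ^ 2 + B * c + C = 0) : A = 0 ∧ B = 0 ∧ C = 0 := by
  have h1 : A * (a + b) + B = 0 := by
    have : (a - b) * (A * (a + b) + B) = 0 := by linear_combination ha - hb
    exact (mul_eq_zero.1 this).resolve_left (sub_ne_zero.2 hab)
  have h2 : A * (a + c) + B = 0 := by
    have : (a - c) * (A * (a + c) + B) = 0 := by linear_combination ha - hc
    exact (mul_eq_zero.1 this).resolve_left (sub_ne_zero.2 hac)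
  have h3 : A = 0 := by
    have : (b - c) * A = 0 := by linear_combination h1 - h2
    exact (mul_eq_zero.1 this).resolve_left (sub_ne_zero.2 hbc)
  have h4 : B = 0 := by
    rw [h3] at h1
    linarith
  refine ⟨h3, h4, ?_⟩
  rw [h3, h4] at ha
  linarith

end I_DENZ

open I_DENZ in
theorem DENZ_pf : DENZ := by
  intro b b' b0 hq hb hb' Z hZ
  by_contra hcard
  rw [not_le, Finset.two_lt_card] at hcard
  obtain ⟨x, hx, y, hy, z, hz, hxy, hxz, hyz⟩ := hcard
  set d : E3 := b' - b with hd
  set u : E3 := b - b0 with hu
  -- the equation of the parameters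
  have key : ∀ t ∈ Z, (-(q u * d 1 + q d * u 1)) * t ^ 2 + (2 * (q u * d 0 + q d * u 0)) * t +
      (q u * d 2 + q d * u 2) = 0 := by
    intro t ht
    obtain ⟨h1, h2⟩ := hZ t ht
    have e1 : crv b b' t - b0 = u + (q d / ell d t) • nu t := by
      rw [crv, ← hd, hu]
      abel
    rw [e1, q_add_nu] at h2
    have h3 : q u * ell d t + q d * ell u t = 0 := by
      have h4 : (q u + q d / ell d t * ell u t) * ell d t = q u * ell d t + q d * ell u t := by
        field_simp
      rw [← h4, h2, zero_mul]
    simp only [ell] at h3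
    linear_combination h3
  obtain ⟨hA, hB, hC⟩ := three_roots hxy hxz hyz (key x hx) (key y hy) (key z hz)
  have g0 : q u * d 0 + q d * u 0 = 0 := by linarith
  have g1 : q u * d 1 + q d * u 1 = 0 := by linarith
  have g2 : q u * d 2 + q d * u 2 = 0 := hC
  set lam : ℝ := -(q u / q d) with hlam
  have hlq : lam * q d = - q u := by
    rw [hlam]
    field_simp
  have k0 : u 0 = lam * d 0 := by
    apply mul_left_cancel₀ hq
    linear_combination g0 + d 0 * (-hlq)
  have k1 : u 1 = lam * d 1 := by
    apply mul_left_cancel₀ hq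
    linear_combination g1 + d 1 * (-hlq)
  have k2 : u 2 = lam * d 2 := by
    apply mul_left_cancel₀ hq
    linear_combination g2 + d 2 * (-hlq)
  have hqu : q u = lam ^ 2 * q d := by
    simp only [q]
    rw [k0, k1, k2]
    ring
  have hll : lam * (lam + 1) = 0 := by
    have : q d * (lam * (lam + 1)) = 0 := by linear_combination hlq - hqu
    exact (mul_eq_zero.1 this).resolve_left hq
  rcases mul_eq_zero.1 hll with h | h
  · apply hb
    have hu0 : u = 0 := by
      funext i
      fin_cases i
      · simpa [h] using k0
      · simpa [h] using k1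
      · simpa [h] using k2
    rw [hu, sub_eq_zero] at hu0
    exact hu0.symm
  · apply hb'
    have hl1 : lam = -1 := by linarith
    have hu0 : u = -d := by
      funext i
      fin_cases i
      · simpa [hl1] using k0
      · simpa [hl1] using k1
      · simpa [hl1] using k2
    rw [hu, hd] at hu0
    have : b0 = b' := by
      have h5 : b - b0 + (b' - b) = 0 := by
        rw [hu0]
        abel
      have h6 : b' - b0 = 0 := by
        rw [← h5]
        abel
      exact (sub_eq_zero.1 h6).symm
    exact this

end Pool.Agent.Work.MP_81c58b_co.TG
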