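import Pool.Agent.Work.MP_81c58b_co.TG.Stmts

/-!
# MP_81c58b_co, block TG, item ECOUNT: number of edges on a conic
-/

set_option autoImplicit false

namespace Pool.Agent.Work.MP_81c58b_co.TG

open scoped Classical

namespace I_ECOUNT

open Polynomial

theorem card_roots_le {P : Polynomial ℝ} {n : ℕ} (h : P.natDegree ≤ n) :
    P.roots.toFinset.card ≤ n :=
  (Multiset.toFinset_card_le _).trans ((Polynomial.card_roots' P).trans h)

/-- `ell d` as a polynomial. -/
noncomputable def pell (d : E3) : Polynomial ℝ := C (- d 1) * X ^ 2 + C (2 * d 0) * X + C (d 2)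

theorem pell_eval (d : E3) (t : ℝ) : (pell d).eval t = ell d t := by
  unfold pell ell
  simp only [eval_add, eval_mul, eval_C, eval_pow, eval_X]

theorem pell_deg (d : E3) : (pell d).natDegree ≤ 2 := natDegree_quadratic_le

/-- `d1 u - d0`. -/
noncomputable def plin (d : E3) : Polynomial ℝ := C (d 1) * X + C (-(d 0))

theorem plin_eval (d : E3) (t : ℝ) : (plin d).eval t = d 1 * t - d 0 := by
  unfold plin
  simp only [eval_add, eval_mul, eval_C, eval_X]
  ring

theorem plin_deg (d : E3) : (plin d).natDegree ≤ 1 := natDegree_linear_le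

theorem not_mem_roots {P : Polynomial ℝ} (hP : P ≠ 0) {u : ℝ} (h : u ∉ P.roots.toFinset) :
    P.eval u ≠ 0 := by
  intro h0
  apply h
  rw [Multiset.mem_toFinset, mem_roots hP]
  exact h0

end I_ECOUNT

open I_ECOUNT in
theorem ECOUNT_pf (h1 : CONS) (h2 : CP3) (h3 : PAR) : ECOUNT := by
  intro R B t0 f hS b hb b' hb' hbb hf
  rcases (cn R b b').eq_empty_or_nonempty with hemp | ⟨r0, hr0⟩
  · rw [hemp]
    simp
  have hcn : ∀ p, p ∈ cn R b b' ↔ p ∈ R ∧ Inc p b ∧ Inc p b' := fun p => by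
    unfold cn
    rw [Finset.mem_filter]
  have hpar : ∀ r ∈ cn R b b', ell (b' - b) (tt r b) ≠ 0 ∧
      (b' - b) 1 * tt r b ≠ (b' - b) 0 := by
    intro r hr
    obtain ⟨hrR, hi, hi'⟩ := (hcn r).1 hr
    have h := h3 r b b' hbb hi hi' (fun he => hbb (hS.h1 r hrR b hb b' hb' hi hi' he))
    exact ⟨h.2.1, h.2.2.1⟩
  choose P hPdeg hPev using fun j => h2 (f j) b b'
  have hP0 : ∀ j, P j ≠ 0 := by
    intro j h0
    apply hf j
    intro t ht
    have h := hPev j t ht
    rw [h0, Polynomial.eval_zero] at h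
    exact (mul_eq_zero.1 h.symm).resolve_left (pow_ne_zero _ ht)
  have hell0 : pell (b' - b) ≠ 0 := by
    intro h0
    have h := pell_eval (b' - b) (tt r0 b)
    rw [h0, Polynomial.eval_zero] at h
    exact (hpar r0 hr0).1 h.symm
  have hlin0 : plin (b' - b) ≠ 0 := by
    intro h0
    have h := plin_eval (b' - b) (tt r0 b)
    rw [h0, Polynomial.eval_zero] at h
    exact (hpar r0 hr0).2 (sub_eq_zero.1 h.symm)
  set Z : Finset ℝ := ((pell (b' - b)).roots.toFinset ∪ (plin (b' - b)).roots.toFinset) ∪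
    Finset.univ.biUnion (fun j => (P j).roots.toFinset) with hZ
  have hZcard : Z.card ≤ 3 + 2 * ∑ j, (f j).totalDegree := by
    rw [hZ]
    refine (Finset.card_union_le _ _).trans (add_le_add ?_ ?_)
    · refine (Finset.card_union_le _ _).trans ?_
      have k1 := card_roots_le (pell_deg (b' - b))
      have k2 := card_roots_le (plin_deg (b' - b))
      omega
    · refine Finset.card_biUnion_le.trans ?_
      rw [Finset.mul_sum]
      exact Finset.sum_le_sum (fun j _ => card_roots_le (hPdeg j))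
  have hZno : ∀ u, u ∉ Z → (ell (b' - b) u ≠ 0 ∧ (b' - b) 1 * u ≠ (b' - b) 0) ∧
      ∀ j, MvPolynomial.eval (crv b b' u) (f j) ≠ 0 := by
    intro u hu
    rw [hZ, Finset.mem_union, Finset.mem_union, not_or, not_or] at hu
    obtain ⟨⟨u1, u2⟩, u3⟩ := hu
    have e1 : ell (b' - b) u ≠ 0 := by
      rw [← pell_eval]
      exact not_mem_roots hell0 u1
    have e2 : (b' - b) 1 * u ≠ (b' - b) 0 := by
      have := not_mem_roots hlin0 u2
      rw [plin_eval] at this
      exact fun h => this (sub_eq_zero.2 h)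
    refine ⟨⟨e1, e2⟩, fun j h0 => ?_⟩
    have e3 : (P j).eval u ≠ 0 := not_mem_roots (hP0 j) (fun h => u3
      (Finset.mem_biUnion.2 ⟨j, Finset.mem_univ _, h⟩))
    apply e3
    rw [hPev j u e1, h0, mul_zero]
  have hinj : Set.InjOn (fun p => tt p b) (cn R b b' : Set E3) := by
    intro p hp p' hp' he
    obtain ⟨k1, k2, -⟩ := (hcn p).1 hp
    obtain ⟨k1', k2', -⟩ := (hcn p').1 hp'
    exact hS.h2 b hb p k1 p' k1' k2 k2' he
  set S : Finset ℝ := (cn R b b').image (fun p => tt p b) with hSdef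
  have hScard : S.card = (cn R b b').card := Finset.card_image_of_injOn hinj
  have hcons := h1 S Z
  set Pr : Finset (ℝ × ℝ) := (S ×ˢ S).filter (fun x => x.1 < x.2 ∧
    (∀ s ∈ S, s ∈ Set.Icc x.1 x.2 → s = x.1 ∨ s = x.2) ∧ ∀ z ∈ Z, z ∉ Set.Icc x.1 x.2) with hPr
  set T : Finset (E3 × E3) := (R ×ˢ R).filter (fun z => EdgeP R f b b' z.1 z.2) with hT
  -- the edges of a consecutive pair
  have hedge : ∀ r ∈ cn R b b', ∀ r' ∈ cn R b b', r ≠ r' → ∀ x y : ℝ,
      Set.uIcc (tt r b) (tt r' b) = Set.Icc x y →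
      (∀ s ∈ S, s ∈ Set.Icc x y → s = tt r b ∨ s = tt r' b) → (∀ z ∈ Z, z ∉ Set.Icc x y) →
      (r, r') ∈ T := by
    intro r hr r' hr' hne x y hI hs hz
    obtain ⟨k1, k2, k3⟩ := (hcn r).1 hr
    obtain ⟨k1', k2', k3'⟩ := (hcn r').1 hr'
    rw [hT, Finset.mem_filter, Finset.mem_product]
    have hz' : ∀ u ∈ Set.uIcc (tt r b) (tt r' b), u ∉ Z := by
      intro u hu hu'
      rw [hI] at hu
      exact hz u hu' hu
    refine ⟨⟨k1, k1'⟩, ⟨hbb, hne, k2, k3, k2', k3', fun u hu => (hZno u (hz' u hu)).1⟩, ?_,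
      fun u hu => (hZno u (hz' u hu)).2⟩
    intro p hp hi hi' hu
    have hpc : p ∈ cn R b b' := (hcn p).2 ⟨hp, hi, hi'⟩
    have hu' : tt p b ∈ Set.Icc x y := hI ▸ hu
    rcases hs (tt p b) (Finset.mem_image.2 ⟨p, hpc, rfl⟩) hu' with h | h
    · exact Or.inl (hinj hpc hr h)
    · exact Or.inr (hinj hpc hr' h)
  have hpair : ∀ z ∈ Pr, ∃ r r' : E3, (r, r') ∈ T ∧ (r', r) ∈ T ∧ tt r b = z.1 ∧
      tt r' b = z.2 ∧ z.1 < z.2 := by
    rintro ⟨x, y⟩ hz
    rw [hPr, Finset.mem_filter, Finset.mem_product] at hz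
    obtain ⟨⟨hx, hy⟩, hlt, hs, hzz⟩ := hz
    rw [hSdef, Finset.mem_image] at hx hy
    obtain ⟨r, hr, hrx⟩ := hx
    obtain ⟨r', hr', hry⟩ := hy
    dsimp only at hrx hry hlt hs hzz
    subst hrx
    subst hry
    have hne : r ≠ r' := by
      rintro rfl
      exact lt_irrefl _ hlt
    refine ⟨r, r', ?_, ?_, rfl, rfl, hlt⟩
    · exact hedge r hr r' hr' hne _ _ (Set.uIcc_of_le hlt.le) hs hzz
    · exact hedge r' hr' r hr hne.symm _ _
        ((Set.uIcc_comm _ _).trans (Set.uIcc_of_le hlt.le)) (fun s h h' => (hs s h h').symm) hzz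
  have hT1 : Pr.card ≤ (T.filter (fun z => tt z.1 b < tt z.2 b)).card := by
    refine le_trans (Finset.card_le_card (t := (T.filter (fun z => tt z.1 b < tt z.2 b)).image
      (fun z => (tt z.1 b, tt z.2 b))) (fun z hz => ?_)) Finset.card_image_le
    obtain ⟨r, r', k1, -, k2, k3, k4⟩ := hpair z hz
    rw [Finset.mem_image]
    refine ⟨(r, r'), Finset.mem_filter.2 ⟨k1, ?_⟩, ?_⟩
    · dsimp only
      rw [k2, k3]
      exact k4
    · dsimp only
      rw [k2, k3]
  have hT2 : Pr.card ≤ (T.filter (fun z => ¬ tt z.1 b < tt z.2 b)).card := by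
    refine le_trans (Finset.card_le_card (t := (T.filter (fun z => ¬ tt z.1 b < tt z.2 b)).image
      (fun z => (tt z.2 b, tt z.1 b))) (fun z hz => ?_)) Finset.card_image_le
    obtain ⟨r, r', -, k1, k2, k3, k4⟩ := hpair z hz
    rw [Finset.mem_image]
    refine ⟨(r', r), Finset.mem_filter.2 ⟨k1, ?_⟩, ?_⟩
    · dsimp only
      rw [k2, k3]
      exact not_lt.2 k4.le
    · dsimp only
      rw [k2, k3]
  have hsum := Finset.card_filter_add_card_filter_not (s := T) (fun z => tt z.1 b < tt z.2 b)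
  rw [hScard] at hcons
  omega

end Pool.Agent.Work.MP_81c58b_co.TG
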