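import Pool.Agent.Work.MP_81c58b_co.TG.Stmts

/-! Block TG (81c58b), item ESYM. -/

set_option autoImplicit false

namespace Pool.Agent.Work.MP_81c58b_co.TG

open MvPolynomial
open Pool.Agent.Work.MP_916cc8_co (sameCl Part War CW Bez Clr)

namespace I_ESYM

theorem continuous_nu : Continuous nu := by
  refine continuous_pi fun i => ?_
  fin_cases i <;> simp [nu] <;> fun_prop

theorem continuous_ell (d : E3) : Continuous (ell d) := by
  unfold ell
  fun_prop

theorem crv_contOn (b b' : E3) (s : Set ℝ) (hs : ∀ v ∈ s, ell (b' - b) v ≠ 0) :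
    ContinuousOn (crv b b') s := by
  have h1 : ContinuousOn (fun t => q (b' - b) / ell (b' - b) t) s :=
    continuousOn_const.div (continuous_ell _).continuousOn hs
  have h2 : ContinuousOn nu s := continuous_nu.continuousOn
  exact continuousOn_const.add (h1.smul h2)

theorem same_sign (g : ℝ → ℝ) (t t' : ℝ) (hg : ContinuousOn g (Set.uIcc t t'))
    (h0 : ∀ v ∈ Set.uIcc t t', g v ≠ 0) : 0 < g t * g t' := by
  by_contra hneg
  have hneg : g t * g t' ≤ 0 := not_lt.1 hneg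
  have hmem : (0 : ℝ) ∈ Set.uIcc (g t) (g t') := by
    rw [Set.mem_uIcc]
    rcases le_total (g t) 0 with h | h
    · rcases h.eq_or_lt with h' | h'
      · rcases le_total (g t') 0 with h2 | h2
        · right; exact ⟨h2, h'.symm.le⟩
        · left; exact ⟨h'.le, h2⟩
      · left; exact ⟨h, by nlinarith⟩
    · rcases h.eq_or_lt with h' | h'
      · rcases le_total (g t') 0 with h2 | h2
        · right; exact ⟨h2, h'.le⟩
        · left; exact ⟨h'.symm.le, h2⟩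
      · right; exact ⟨by nlinarith, h⟩
  obtain ⟨v, hv, hv0⟩ := intermediate_value_uIcc hg hmem
  exact h0 v hv hv0

theorem sameCl_of (t0 : ℕ) (f : Fin t0 → MvPolynomial (Fin 3) ℝ) (b b' : E3) (t t' : ℝ)
    (hG : Good b b' t t') (hz : ∀ u ∈ Set.uIcc t t', ∀ j, eval (crv b b' u) (f j) ≠ 0) :
    sameCl f (crv b b' t) (crv b b' t') := by
  intro j
  refine same_sign (fun v => eval (crv b b' v) (f j)) t t' ?_ (fun v hv => hz v hv j)
  exact (MvPolynomial.continuous_eval (f j)).comp_continuousOn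
    (crv_contOn b b' _ fun v hv => (hG v hv).1)

end I_ESYM

open I_ESYM in
theorem ESYM_pf (h1 : GSYM) (h2 : PAR) (h3 : PAR2) : ESYM := by
  intro R t0 f b b' r r' hr hr' hR hE
  obtain ⟨⟨hbb, hrr, i1, i2, i3, i4, hG⟩, hcons, hz⟩ := hE
  obtain ⟨hq, hl, hm, hc, ht⟩ := h2 r b b' hbb i1 i2 hr
  obtain ⟨_, hl', hm', hc', ht'⟩ := h2 r' b b' hbb i3 i4 hr'
  obtain ⟨hq2, _⟩ := h2 r b' b hbb.symm i2 i1 hr.symm
  obtain ⟨G1, G2⟩ := h1 b b' _ _ hq hG
  rw [← ht, ← ht'] at G1 G2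
  refine ⟨⟨⟨hbb.symm, hrr, i2, i1, i4, i3, G1⟩, ?_, ?_⟩, ⟨⟨hbb, hrr.symm, i3, i4, i1, i2, ?_⟩, ?_, ?_⟩, ?_⟩
  · intro p hp j1 j2 hmem
    obtain ⟨_, _, _, _, hpt⟩ := h2 p b' b hbb.symm j1 j2 (hR p hp j2 j1).symm
    exact hcons p hp j2 j1 (hpt ▸ G2 _ hmem)
  · intro u hu j
    obtain ⟨g1, g2⟩ := G1 u hu
    obtain ⟨_, _, _, h4⟩ := h3 b' b u hq2 g1
    obtain ⟨_, _, h5, _⟩ := h4 g2
    rw [← h5]
    exact hz _ (G2 u hu) j
  · rw [Good, Set.uIcc_comm]; exact hG
  · intro p hp j1 j2 hmem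
    rw [Set.uIcc_comm] at hmem
    exact (hcons p hp j1 j2 hmem).symm
  · intro u hu j
    rw [Set.uIcc_comm] at hu
    exact hz u hu j
  · have := sameCl_of t0 f b b' _ _ hG hz
    rw [← hc, ← hc'] at this
    exact this

end Pool.Agent.Work.MP_81c58b_co.TG
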