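import Pool.Agent.Work.MP_81c58b_co.TG.Stmts

/-!
# MP_81c58b_co, block TG, item ETHIN: at most four edges of one conic over a point
-/

set_option autoImplicit false

namespace Pool.Agent.Work.MP_81c58b_co.TG

namespace I_ETHIN

theorem core (a a' c c' t : ℝ) (h1 : a < a') (h2 : c < c') (ha : a ≤ t) (ha' : t ≤ a')
    (hc : c ≤ t) (hc' : t ≤ c')
    (h3 : a ≤ c → c ≤ a' → c = a ∨ c = a') (h4 : a ≤ c' → c' ≤ a' → c' = a ∨ c' = a')
    (h5 : c ≤ a → a ≤ c' → a = c ∨ a = c') (h6 : c ≤ a' → a' ≤ c' → a' = c ∨ a' = c')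
    (h7 : t < a' ↔ t < c') : a = c ∧ a' = c' := by
  have e : a = c := by
    rcases lt_trichotomy a c with h | h | h
    · exfalso
      rcases h3 h.le (hc.trans ha') with h8 | h8
      · linarith
      · have h9 : t < c' := by linarith
        have := h7.mpr h9
        linarith
    · exact h
    · exfalso
      rcases h5 h.le (ha.trans hc') with h8 | h8
      · linarith
      · have h9 : t < a' := by linarith
        have := h7.mp h9
        linarith
  refine ⟨e, ?_⟩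
  rcases lt_trichotomy a' c' with h | h | h
  · exfalso
    rcases h6 (by linarith) h.le with h8 | h8 <;> linarith
  · exact h
  · exfalso
    rcases h4 (by linarith) h.le with h8 | h8 <;> linarith

theorem core2 (a a' c c' t : ℝ) (h1 : a ≠ a') (h2 : c ≠ c') (ha : t ∈ Set.uIcc a a')
    (hc : t ∈ Set.uIcc c c') (h3 : c ∈ Set.uIcc a a' → c = a ∨ c = a')
    (h4 : c' ∈ Set.uIcc a a' → c' = a ∨ c' = a') (h5 : a ∈ Set.uIcc c c' → a = c ∨ a = c')
    (h6 : a' ∈ Set.uIcc c c' → a' = c ∨ a' = c') (h7 : a < a' ↔ c < c')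
    (h8 : t < max a a' ↔ t < max c c') : a = c ∧ a' = c' := by
  rcases lt_or_gt_of_ne h1 with h | h
  · have h' : c < c' := h7.mp h
    rw [Set.uIcc_of_le h.le] at ha h3 h4
    rw [Set.uIcc_of_le h'.le] at hc h5 h6
    rw [max_eq_right h.le, max_eq_right h'.le] at h8
    exact core a a' c c' t h h' ha.1 ha.2 hc.1 hc.2 (fun x y => h3 ⟨x, y⟩) (fun x y => h4 ⟨x, y⟩)
      (fun x y => h5 ⟨x, y⟩) (fun x y => h6 ⟨x, y⟩) h8
  · have h' : c' < c := by
      rcases lt_or_gt_of_ne h2 with h9 | h9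
      · exact absurd (h7.mpr h9) (not_lt.mpr h.le)
      · exact h9
    rw [Set.uIcc_of_ge h.le] at ha h3 h4
    rw [Set.uIcc_of_ge h'.le] at hc h5 h6
    rw [max_eq_left h.le, max_eq_left h'.le] at h8
    have := core a' a c' c t h h' ha.1 ha.2 hc.1 hc.2 (fun x y => (h4 ⟨x, y⟩).symm)
      (fun x y => (h3 ⟨x, y⟩).symm) (fun x y => (h6 ⟨x, y⟩).symm) (fun x y => (h5 ⟨x, y⟩).symm) h8
    exact ⟨this.2, this.1⟩

end I_ETHIN

open I_ETHIN

theorem ETHIN_pf : ETHIN := by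
  classical
  intro R B t0 f hS b hb b' _ t
  set P := (R ×ˢ R).filter (fun z => EdgeP R f b b' z.1 z.2 ∧
    t ∈ Set.uIcc (tt z.1 b) (tt z.2 b)) with hP
  have hinj : ∀ r ∈ R, ∀ r' ∈ R, Inc r b → Inc r' b → tt r b = tt r' b → r = r' :=
    fun r hr r' hr' h1 h2 h3 => hS.h2 b hb r hr r' hr' h1 h2 h3
  let F : E3 × E3 → Bool × Bool := fun z =>
    (decide (tt z.1 b < tt z.2 b), decide (t < max (tt z.1 b) (tt z.2 b)))
  have hF : Set.InjOn F (P : Set (E3 × E3)) := by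
    intro z hz w hw hzw
    rw [Finset.mem_coe, hP, Finset.mem_filter, Finset.mem_product] at hz hw
    obtain ⟨⟨hz1, hz2⟩, ⟨⟨_, hzne, hzb, hzb', hzc, hzc', _⟩, hzcon, _⟩, hzt⟩ := hz
    obtain ⟨⟨hw1, hw2⟩, ⟨⟨_, hwne, hwb, hwb', hwc, hwc', _⟩, hwcon, _⟩, hwt⟩ := hw
    have e1 : (tt z.1 b < tt z.2 b) ↔ (tt w.1 b < tt w.2 b) := by
      have := congrArg Prod.fst hzw
      simpa [F] using this
    have e2 : (t < max (tt z.1 b) (tt z.2 b)) ↔ (t < max (tt w.1 b) (tt w.2 b)) := by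
      have := congrArg Prod.snd hzw
      simpa only [F, decide_eq_decide] using this
    have n1 : tt z.1 b ≠ tt z.2 b := fun h => hzne (hinj _ hz1 _ hz2 hzb hzc h)
    have n2 : tt w.1 b ≠ tt w.2 b := fun h => hwne (hinj _ hw1 _ hw2 hwb hwc h)
    obtain ⟨a1, a2⟩ := core2 (tt z.1 b) (tt z.2 b) (tt w.1 b) (tt w.2 b) t n1 n2 hzt hwt
      (fun h => (hzcon _ hw1 hwb hwb' h).imp (fun e => by rw [e]) (fun e => by rw [e]))
      (fun h => (hzcon _ hw2 hwc hwc' h).imp (fun e => by rw [e]) (fun e => by rw [e]))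
      (fun h => (hwcon _ hz1 hzb hzb' h).imp (fun e => by rw [e]) (fun e => by rw [e]))
      (fun h => (hwcon _ hz2 hzc hzc' h).imp (fun e => by rw [e]) (fun e => by rw [e])) e1 e2
    exact Prod.ext (hinj _ hz1 _ hw1 hzb hwb a1) (hinj _ hz2 _ hw2 hzc hwc a2)
  have hcard := Finset.card_le_card_of_injOn F (t := (Finset.univ : Finset (Bool × Bool)))
    (fun z _ => Finset.mem_coe.mpr (Finset.mem_univ _)) hF
  simpa using hcard

end Pool.Agent.Work.MP_81c58b_co.TG
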