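import Pool.Agent.Work.MP_81c58b_co.TG.Stmts

/-!
# MP_81c58b_co, block TG, item FSTEP: cut parameters on the conics for one polynomial
-/

set_option autoImplicit false

namespace Pool.Agent.Work.MP_81c58b_co.TG

open MvPolynomial

namespace I_FSTEP

theorem slice_eval (f : MvPolynomial (Fin 4) ℝ) (p : E3) (t : ℝ) :
    (slice f p).eval t = eval (pt4 p t) f := by
  unfold slice
  induction f using MvPolynomial.induction_on with
  | C a => simp
  | add f g hf hg => simp [hf, hg]
  | mul_X f i hf =>
    rw [map_mul, Polynomial.eval_mul, hf, map_mul, aeval_X, eval_X]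
    congr 1
    fin_cases i <;> simp [pt4]

theorem slice_deriv (f : MvPolynomial (Fin 4) ℝ) (p : E3) :
    Polynomial.derivative (slice f p) = slice (pderiv 3 f) p := by
  unfold slice
  induction f using MvPolynomial.induction_on with
  | C a => simp
  | add f g hf hg => simp [hf, hg]
  | mul_X f i hf =>
    rw [map_mul, Polynomial.derivative_mul, hf, Derivation.leibniz, pderiv_X, aeval_X]
    simp only [smul_eq_mul, map_add, map_mul, aeval_X]
    fin_cases i <;> simp [mul_comm]
    all_goals ring

theorem slice_iter (f : MvPolynomial (Fin 4) ℝ) (p : E3) (k : ℕ) :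
    Polynomial.derivative^[k] (slice f p) = slice ((pderiv 3)^[k] f) p := by
  induction k generalizing f with
  | zero => rfl
  | succ k ih =>
    rw [Function.iterate_succ_apply, Function.iterate_succ_apply, slice_deriv]
    exact ih _

theorem tdeg_pderiv (f : MvPolynomial (Fin 4) ℝ) : (pderiv 3 f).totalDegree ≤ f.totalDegree := by
  conv_lhs => rw [← f.support_sum_monomial_coeff, map_sum]
  refine (totalDegree_finsetSum _ _).trans ?_
  refine Finset.sup_le fun m hm => ?_
  rw [pderiv_monomial]
  by_cases hmi : m 3 = 0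
  · simp [hmi]
  · refine (totalDegree_monomial_le _ _).trans ?_
    have h1 : (m - Finsupp.single 3 1).sum (fun _ => id) + 1 = m.sum (fun _ => id) := by
      have h2 : m = (m - Finsupp.single 3 1) + Finsupp.single 3 1 := by
        rw [tsub_add_cancel_of_le]
        rw [Finsupp.single_le_iff]
        omega
      conv_rhs => rw [h2]
      rw [Finsupp.sum_add_index' (fun _ => rfl) (fun _ _ _ => rfl), Finsupp.sum_single_index rfl]
      rfl
    have h3 : m.sum (fun _ => id) ≤ f.totalDegree := le_totalDegree hm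
    omega

theorem tdeg_iter (f : MvPolynomial (Fin 4) ℝ) (k : ℕ) :
    ((pderiv 3)^[k] f).totalDegree ≤ f.totalDegree := by
  induction k generalizing f with
  | zero => exact le_rfl
  | succ k ih =>
    rw [Function.iterate_succ_apply]
    exact (ih _).trans (tdeg_pderiv f)

theorem slice_deg (f : MvPolynomial (Fin 4) ℝ) (p : E3) :
    (slice f p).natDegree ≤ f.totalDegree := by
  have h := aeval_natDegree_le (n := 1) f le_rfl
    ![Polynomial.C (p 0), Polynomial.C (p 1), Polynomial.C (p 2), Polynomial.X] (by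
      intro i
      fin_cases i <;> simp)
  unfold slice
  simpa using h

/-- the polynomial as a polynomial in the last variable -/
noncomputable def S (f : MvPolynomial (Fin 4) ℝ) : Polynomial (MvPolynomial (Fin 3) ℝ) :=
  aeval ![Polynomial.C (X 0), Polynomial.C (X 1), Polynomial.C (X 2), Polynomial.X] f

theorem S_inj (f : MvPolynomial (Fin 4) ℝ) (hf : f ≠ 0) : S f ≠ 0 := by
  intro h
  apply hf
  have key : ∀ f : MvPolynomial (Fin 4) ℝ,
      Polynomial.eval₂ (aeval ![X 0, X 1, X 2] :
        MvPolynomial (Fin 3) ℝ →ₐ[ℝ] MvPolynomial (Fin 4) ℝ).toRingHom (X 3) (S f) = f := by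
    intro f
    unfold S
    induction f using MvPolynomial.induction_on with
    | C a =>
      rw [aeval_C, Polynomial.algebraMap_apply, Polynomial.eval₂_C]
      simp
    | add f g hf hg => rw [map_add, Polynomial.eval₂_add, hf, hg]
    | mul_X f i hf =>
      rw [map_mul, Polynomial.eval₂_mul, hf, aeval_X]
      congr 1
      fin_cases i <;> simp
  rw [← key f, h, Polynomial.eval₂_zero]

theorem slice_eq (f : MvPolynomial (Fin 4) ℝ) (p : E3) :
    slice f p = (S f).map (eval p) := by
  unfold S slice
  induction f using MvPolynomial.induction_on with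
  | C a =>
    rw [aeval_C, aeval_C, Polynomial.algebraMap_apply, Polynomial.algebraMap_apply,
      Polynomial.map_C]
    simp
  | add f g hf hg => rw [map_add, map_add, Polynomial.map_add, hf, hg]
  | mul_X f i hf =>
    rw [map_mul, map_mul, Polynomial.map_mul, hf, aeval_X, aeval_X]
    congr 1
    fin_cases i <;> simp

theorem S_deg (f : MvPolynomial (Fin 4) ℝ) (k : ℕ) :
    ((S f).coeff k).totalDegree ≤ f.totalDegree := by
  have h0 : S f = ∑ m ∈ f.support, S (monomial m (coeff m f)) := by
    conv_lhs => rw [← f.support_sum_monomial_coeff]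
    unfold S
    rw [map_sum]
  rw [h0, Polynomial.finsetSum_coeff]
  refine (totalDegree_finsetSum _ _).trans ?_
  refine Finset.sup_le fun m hm => ?_
  have h1 : S (monomial m (coeff m f)) =
      Polynomial.C (C (coeff m f) * (X 0 ^ m 0 * X 1 ^ m 1 * X 2 ^ m 2)) *
        Polynomial.X ^ m 3 := by
    unfold S
    rw [aeval_monomial, Finsupp.prod_fintype _ _ (by intro i; simp), Fin.prod_univ_four,
      Polynomial.algebraMap_apply]
    simp only [Matrix.cons_val, map_mul, map_pow, algebraMap_eq]
    ring
  rw [h1, Polynomial.coeff_C_mul_X_pow]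
  have h3 : m.sum (fun _ => id) ≤ f.totalDegree := le_totalDegree hm
  have h4 : m.sum (fun _ => id) = m 0 + m 1 + m 2 + m 3 := by
    rw [Finsupp.sum_fintype _ _ (by intro i; rfl), Fin.sum_univ_four]
    rfl
  split_ifs with hk
  · refine (totalDegree_mul _ _).trans ?_
    have h5 : ((X 0 ^ m 0 * X 1 ^ m 1 * X 2 ^ m 2 : MvPolynomial (Fin 3) ℝ)).totalDegree ≤
        m 0 + m 1 + m 2 := by
      refine (totalDegree_mul _ _).trans ?_
      have := totalDegree_mul (X 0 ^ m 0 : MvPolynomial (Fin 3) ℝ) (X 1 ^ m 1)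
      simp only [totalDegree_X_pow] at *
      omega
    rw [totalDegree_C]
    omega
  · simp

/-- a continuous function without zeros has constant sign -/
theorem sgn_const (h : ℝ → ℝ) (hc : Continuous h) (t t' : ℝ)
    (hz : ∀ u ∈ Set.uIcc t t', h u ≠ 0) : SignType.sign (h t) = SignType.sign (h t') := by
  have ht : h t ≠ 0 := hz t Set.left_mem_uIcc
  have ht' : h t' ≠ 0 := hz t' Set.right_mem_uIcc
  by_contra hne
  have h0 : (0 : ℝ) ∈ Set.uIcc (h t) (h t') := by
    rcases lt_or_gt_of_ne ht with h1 | h1 <;> rcases lt_or_gt_of_ne ht' with h2 | h2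
    · exact absurd (by rw [sign_neg h1, sign_neg h2]) hne
    · exact Set.mem_uIcc.2 (Or.inl ⟨h1.le, h2.le⟩)
    · exact Set.mem_uIcc.2 (Or.inr ⟨h2.le, h1.le⟩)
    · exact absurd (by rw [sign_pos h1, sign_pos h2]) hne
  obtain ⟨u, hu, hu0⟩ := intermediate_value_uIcc (hc.continuousOn (s := Set.uIcc t t')) h0
  exact hz u hu hu0

theorem ell_cont (d : E3) : Continuous (ell d) := by
  unfold ell
  fun_prop

/-- `P = ell ^ n * F` on the interval: `F` has constant sign -/
theorem sgn_step (P : Polynomial ℝ) (d : E3) (n : ℕ) (F : ℝ → ℝ)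
    (hP : ∀ t, ell d t ≠ 0 → P.eval t = ell d t ^ n * F t) (t t' : ℝ)
    (he : ∀ u ∈ Set.uIcc t t', ell d u ≠ 0) (hr : ∀ z ∈ P.roots.toFinset, z ∉ Set.uIcc t t') :
    SignType.sign (F t) = SignType.sign (F t') := by
  have hs : ∀ u ∈ Set.uIcc t t',
      SignType.sign (F u) = SignType.sign (P.eval u * ell d u ^ n) := by
    intro u hu
    have h1 : P.eval u * ell d u ^ n = (ell d u ^ n) ^ 2 * F u := by
      rw [hP u (he u hu)]
      ring
    have h2 : 0 < (ell d u ^ n) ^ 2 := by
      have := pow_ne_zero n (he u hu)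
      positivity
    rw [h1, sign_mul, sign_pos h2, one_mul]
  rw [hs t Set.left_mem_uIcc, hs t' Set.right_mem_uIcc]
  by_cases hP0 : P = 0
  · simp [hP0]
  · refine sgn_const (fun u => P.eval u * ell d u ^ n)
      (P.continuous.mul ((ell_cont d).pow n)) t t' fun u hu => ?_
    refine mul_ne_zero (fun h0 => ?_) (pow_ne_zero n (he u hu))
    refine hr u ?_ hu
    rw [Multiset.mem_toFinset, Polynomial.mem_roots hP0]
    exact h0

end I_FSTEP

theorem FSTEP_pf (h4 : CP4) (h3 : CP3) : FSTEP := by
  intro f hf
  obtain ⟨k0, hk0⟩ : ∃ k, (I_FSTEP.S f).coeff k ≠ 0 := by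
    by_contra h
    push Not at h
    exact I_FSTEP.S_inj f hf (Polynomial.ext (by simpa using h))
  have hslice : ∀ p : E3, (slice f p).coeff k0 = eval p ((I_FSTEP.S f).coeff k0) := by
    intro p
    rw [I_FSTEP.slice_eq, Polynomial.coeff_map]
  have hgd := I_FSTEP.S_deg f k0
  generalize hg : (I_FSTEP.S f).coeff k0 = g at *
  refine ⟨g, hk0, hgd, fun b b' => ?_⟩
  choose P hPd hP using fun k => h4 ((pderiv 3)^[k] f) b b'
  obtain ⟨Pg, hPgd, hPg⟩ := h3 g b b'
  classical
  refine ⟨(Finset.range (f.totalDegree + 1)).biUnion (fun k => (P k).roots.toFinset) ∪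
    Pg.roots.toFinset, ?_, ?_⟩
  · refine (Finset.card_union_le _ _).trans ?_
    have h1 : ((Finset.range (f.totalDegree + 1)).biUnion
        (fun k => (P k).roots.toFinset)).card ≤ (f.totalDegree + 1) * (3 * f.totalDegree) := by
      refine Finset.card_biUnion_le.trans ?_
      refine (Finset.sum_le_card_nsmul _ _ (3 * f.totalDegree) fun k _ => ?_).trans ?_
      · refine (Multiset.toFinset_card_le _).trans ((Polynomial.card_roots' _).trans ?_)
        exact (hPd k).trans (Nat.mul_le_mul le_rfl (I_FSTEP.tdeg_iter f k))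
      · rw [Finset.card_range, smul_eq_mul]
    have h2 : Pg.roots.toFinset.card ≤ 2 * f.totalDegree :=
      (Multiset.toFinset_card_le _).trans ((Polynomial.card_roots' _).trans
        (hPgd.trans (Nat.mul_le_mul le_rfl hgd)))
    nlinarith
  · intro t t' hgood hZ
    have he : ∀ u ∈ Set.uIcc t t', ell (b' - b) u ≠ 0 := fun u hu => (hgood u hu).1
    refine ⟨fun hne => ⟨fun h0 => ?_, fun k => ?_⟩, fun h0 => ?_⟩
    · apply hne
      rw [← hslice, h0, Polynomial.coeff_zero]
    · by_cases hk : k ≤ f.totalDegree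
      · have hr : ∀ z ∈ (P k).roots.toFinset, z ∉ Set.uIcc t t' := fun z hz =>
          hZ z (Finset.mem_union_left _ (Finset.mem_biUnion.2
            ⟨k, Finset.mem_range.2 (Nat.lt_succ_of_le hk), hz⟩))
        have h1 := I_FSTEP.sgn_step (P k) (b' - b) _
          (fun u => eval (pt4 (crv b b' u) u) ((pderiv 3)^[k] f)) (hP k) t t' he hr
        rw [I_FSTEP.slice_iter, I_FSTEP.slice_iter, I_FSTEP.slice_eval, I_FSTEP.slice_eval]
        exact h1
      · have hz : ∀ p : E3, Polynomial.derivative^[k] (slice f p) = 0 := fun p =>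
          Polynomial.iterate_derivative_eq_zero
            (lt_of_le_of_lt (I_FSTEP.slice_deg f p) (not_le.1 hk))
        rw [hz, hz]
        simp
    · have hPg0 : Pg = 0 := by
        by_contra hne
        refine hZ t (Finset.mem_union_right _ ?_) Set.left_mem_uIcc
        rw [Multiset.mem_toFinset, Polynomial.mem_roots hne, Polynomial.IsRoot.def,
          hPg t (he t Set.left_mem_uIcc), h0, mul_zero]
      intro u hu
      have h1 := hPg u hu
      rw [hPg0, Polynomial.eval_zero] at h1
      exact (mul_eq_zero.1 h1.symm).resolve_left (pow_ne_zero _ hu)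

end Pool.Agent.Work.MP_81c58b_co.TG
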