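import Pool.Agent.Work.MP_81c58b_co.TG.Stmts

/-!
MP_81c58b_co, block TG, item GSYM: reversing the roles of `b` and `b'` on a good interval.
-/

set_option autoImplicit false

namespace Pool.Agent.Work.MP_81c58b_co.TG

namespace I_GSYM

lemma core (d0 d1 d2 v : ℝ) (hq : d0 ^ 2 + d1 * d2 ≠ 0) (hM : d1 * v - d0 ≠ 0)
    (hl : - d1 * v ^ 2 + 2 * d0 * v + d2 ≠ 0) (u : ℝ) (hu : u = (d0 * v + d2) / (d1 * v - d0)) :
    - d1 * u ^ 2 + 2 * d0 * u + d2 ≠ 0 ∧ d1 * u - d0 ≠ 0 ∧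
      (d0 * u + d2) / (d1 * u - d0) = v := by
  have e1 : d1 * u - d0 = (d0 ^ 2 + d1 * d2) / (d1 * v - d0) := by
    rw [hu]
    field_simp
    ring
  have e2 : - d1 * u ^ 2 + 2 * d0 * u + d2 =
      - (d0 ^ 2 + d1 * d2) * (- d1 * v ^ 2 + 2 * d0 * v + d2) / (d1 * v - d0) ^ 2 := by
    rw [hu]
    field_simp
    ring
  have e3 : d0 * u + d2 = v * ((d0 ^ 2 + d1 * d2) / (d1 * v - d0)) := by
    rw [hu, mul_div_assoc', div_add' _ _ _ hM, mul_div_assoc', div_left_inj' hM]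
    ring
  have h1 : d1 * u - d0 ≠ 0 := by
    rw [e1]
    exact div_ne_zero hq hM
  refine ⟨?_, h1, ?_⟩
  · rw [e2]
    exact div_ne_zero (mul_ne_zero (neg_ne_zero.mpr hq) hl) (pow_ne_zero 2 hM)
  · rw [div_eq_iff h1, e3, e1]

end I_GSYM

open I_GSYM in
theorem GSYM_pf (_h : PAR2) : GSYM := by
  intro b b' t t' hq hG
  set d : E3 := b' - b with hd
  have hd' : b - b' = - d := by rw [hd]; abel
  have key : ∀ v ∈ Set.uIcc t t', ∀ u, u = mob d v →
      ell (b - b') u ≠ 0 ∧ (b - b') 1 * u ≠ (b - b') 0 ∧ mob (b - b') u = v := by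
    intro v hv u hu
    obtain ⟨h1, h2⟩ := hG v hv
    have h3 := core (d 0) (d 1) (d 2) v hq (sub_ne_zero.mpr h2) h1 u hu
    obtain ⟨h4, h5, h6⟩ := h3
    rw [hd']
    refine ⟨?_, ?_, ?_⟩
    · intro h7
      apply h4
      have : ell (-d) u = -(- d 1 * u ^ 2 + 2 * d 0 * u + d 2) := by
        simp only [ell, Pi.neg_apply]
        ring
      rw [this] at h7
      linarith
    · simp only [Pi.neg_apply]
      intro h7
      apply h5
      linarith
    · simp only [mob, Pi.neg_apply]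
      rw [← h6]
      have e1 : -d 0 * u + -d 2 = -(d 0 * u + d 2) := by ring
      have e2 : -d 1 * u - -d 0 = -(d 1 * u - d 0) := by ring
      rw [e1, e2, neg_div_neg_eq]
  have hcont : ContinuousOn (mob d) (Set.uIcc t t') := by
    unfold mob
    refine ContinuousOn.div (by fun_prop) (by fun_prop) fun x hx => ?_
    exact sub_ne_zero.mpr (hG x hx).2
  have hivt : Set.uIcc (mob d t) (mob d t') ⊆ mob d '' Set.uIcc t t' :=
    intermediate_value_uIcc hcont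
  refine ⟨fun u hu => ?_, fun u hu => ?_⟩
  · obtain ⟨v, hv, rfl⟩ := hivt hu
    obtain ⟨h1, h2, -⟩ := key v hv _ rfl
    exact ⟨h1, h2⟩
  · obtain ⟨v, hv, rfl⟩ := hivt hu
    obtain ⟨-, -, h3⟩ := key v hv _ rfl
    rw [h3]
    exact hv

end Pool.Agent.Work.MP_81c58b_co.TG
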