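import Pool.Agent.Work.MP_81c58b_co.TG.Stmts

set_option autoImplicit false

namespace Pool.Agent.Work.MP_81c58b_co.TG

namespace I_INCL

open scoped Classical

lemma q_sub_comm (a b : E3) : q (a - b) = q (b - a) := by
  simp only [q, Pi.sub_apply]; ring

lemma Inc_comm (r b : E3) : Inc r b ↔ Inc b r := by
  unfold Inc
  rw [q_sub_comm b r]
  constructor
  · rintro ⟨h1, h2⟩
    refine ⟨h1, fun h => h2 ?_⟩
    simp only [Pi.sub_apply] at h ⊢
    linarith
  · rintro ⟨h1, h2⟩
    refine ⟨h1, fun h => h2 ?_⟩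
    simp only [Pi.sub_apply] at h ⊢
    linarith

lemma tt_comm (r b : E3) : tt r b = tt b r := by
  unfold tt
  simp only [Pi.sub_apply]
  rw [← neg_sub (r 0) (b 0), ← neg_sub (r 1) (b 1), neg_div_neg_eq]

/-- at most two common neighbours of three points -/
lemma three (h : K33) (R B : Finset E3) (hS : Str R B) (b b' b'' : E3) (hb : b ∈ B) (hb' : b' ∈ B)
    (hb'' : b'' ∈ B) (h1 : b ≠ b') (h2 : b ≠ b'') (h3 : b' ≠ b'') :
    (((R.filter (fun r => Inc r b)).filter (fun r => Inc r b' ∧ Inc r b''))).card ≤ 2 := by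
  apply h b b' b''
  intro r hr
  simp only [Finset.mem_filter] at hr
  obtain ⟨⟨hrR, hrb⟩, hrb', hrb''⟩ := hr
  refine ⟨(Inc_comm _ _).1 hrb, (Inc_comm _ _).1 hrb', (Inc_comm _ _).1 hrb'', ?_, ?_, ?_⟩
  · intro he
    rw [← tt_comm r b, ← tt_comm r b'] at he
    exact h1 (hS.h1 r hrR b hb b' hb' hrb hrb' he)
  · intro he
    rw [← tt_comm r b, ← tt_comm r b''] at he
    exact h2 (hS.h1 r hrR b hb b'' hb'' hrb hrb'' he)
  · intro he
    rw [← tt_comm r b', ← tt_comm r b''] at he
    exact h3 (hS.h1 r hrR b' hb' b'' hb'' hrb' hrb'' he)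

end I_INCL

open scoped Classical in
theorem INCL_pf (h : K33) : INCL := by
  intro R B K b hS hb hK hbK
  set D := R.filter (fun r => Inc r b) with hD
  -- count for each `r`
  have h1 : ∑ b' ∈ K, (cn R b b').card = ∑ r ∈ D, (K.filter (fun b' => Inc r b')).card := by
    have : ∀ b' ∈ K, (cn R b b').card = ∑ r ∈ D, (if Inc r b' then 1 else 0) := by
      intro b' _
      rw [← Finset.card_filter]
      congr 1
      unfold cn
      rw [hD, Finset.filter_filter]
    rw [Finset.sum_congr rfl this, Finset.sum_comm]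
    apply Finset.sum_congr rfl
    intro r _
    rw [← Finset.card_filter]
  have h2 : ∀ r ∈ D, 2 * (K.filter (fun b' => Inc r b')).card ≤
      2 + (K.offDiag.filter (fun z => Inc r z.1 ∧ Inc r z.2)).card := by
    intro r _
    have e : K.offDiag.filter (fun z => Inc r z.1 ∧ Inc r z.2)
        = (K.filter (fun b' => Inc r b')).offDiag := by
      ext z
      simp only [Finset.mem_filter, Finset.mem_offDiag]
      tauto
    rw [e, Finset.offDiag_card]
    set c := (K.filter (fun b' => Inc r b')).card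
    rcases Nat.lt_or_ge c 2 with hc | hc
    · interval_cases c <;> simp
    · obtain ⟨d, hd⟩ := Nat.exists_eq_add_of_le hc
      rw [hd]
      have : (2 + d) * (2 + d) - (2 + d) = (2 + d) * (1 + d) := by
        rw [Nat.sub_eq_iff_eq_add (by nlinarith)]
        ring
      rw [this]
      nlinarith
  have h3 : ∑ r ∈ D, (K.offDiag.filter (fun z => Inc r z.1 ∧ Inc r z.2)).card
      ≤ 2 * K.offDiag.card := by
    have : ∑ r ∈ D, (K.offDiag.filter (fun z => Inc r z.1 ∧ Inc r z.2)).card
        = ∑ z ∈ K.offDiag, (D.filter (fun r => Inc r z.1 ∧ Inc r z.2)).card := by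
      simp only [Finset.card_filter]
      rw [Finset.sum_comm]
    rw [this]
    calc ∑ z ∈ K.offDiag, (D.filter (fun r => Inc r z.1 ∧ Inc r z.2)).card
        ≤ ∑ _z ∈ K.offDiag, 2 := by
          apply Finset.sum_le_sum
          intro z hz
          rw [Finset.mem_offDiag] at hz
          exact I_INCL.three h R B hS b z.1 z.2 hb (hK hz.1) (hK hz.2.1)
            (fun he => hbK (he ▸ hz.1)) (fun he => hbK (he ▸ hz.2.1)) hz.2.2
      _ = 2 * K.offDiag.card := by
          rw [Finset.sum_const, smul_eq_mul, mul_comm]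
  have h4 : K.offDiag.card ≤ K.card ^ 2 := by
    rw [Finset.offDiag_card, sq]
    exact Nat.sub_le _ _
  have h5 : 2 * ∑ r ∈ D, (K.filter (fun b' => Inc r b')).card ≤ 2 * D.card + 2 * K.card ^ 2 := by
    calc 2 * ∑ r ∈ D, (K.filter (fun b' => Inc r b')).card
        = ∑ r ∈ D, 2 * (K.filter (fun b' => Inc r b')).card := by rw [Finset.mul_sum]
      _ ≤ ∑ r ∈ D, (2 + (K.offDiag.filter (fun z => Inc r z.1 ∧ Inc r z.2)).card) :=
          Finset.sum_le_sum h2
      _ = 2 * D.card + ∑ r ∈ D, (K.offDiag.filter (fun z => Inc r z.1 ∧ Inc r z.2)).card := by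
          rw [Finset.sum_add_distrib, Finset.sum_const, smul_eq_mul, mul_comm]
      _ ≤ 2 * D.card + 2 * K.card ^ 2 := by omega
  rw [h1]
  omega

end Pool.Agent.Work.MP_81c58b_co.TG
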