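import Pool.Agent.Work.MP_81c58b_co.TG.Stmts

/-!
# MP_81c58b_co, block TG, item JB: the blue partition
-/

set_option autoImplicit false

namespace Pool.Agent.Work.MP_81c58b_co.TG

open MvPolynomial
open Pool.Agent.Work.MP_916cc8_co (sameCl Part War CW Bez Clr)

namespace I_JB

open scoped Classical

/-- Cauchy-Schwarz for fibres -/
theorem cs {α β : Type} [DecidableEq β] (S : Finset α) (g : α → β) :
    S.card ^ 2 ≤ (S.image g).card * ((S ×ˢ S).filter (fun z => g z.1 = g z.2)).card := by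
  have h1 : S.card = ∑ c ∈ S.image g, (S.filter (fun a => g a = c)).card :=
    Finset.card_eq_sum_card_image g S
  have h2 : ((S ×ˢ S).filter (fun z => g z.1 = g z.2)).card =
      ∑ c ∈ S.image g, (S.filter (fun a => g a = c)).card ^ 2 := by
    rw [Finset.card_eq_sum_card_fiberwise (f := fun z : α × α => g z.1) (t := S.image g)]
    · refine Finset.sum_congr rfl fun c _ => ?_
      rw [sq, ← Finset.card_product]
      congr 1
      ext z
      simp only [Finset.mem_filter, Finset.mem_product]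
      constructor
      · rintro ⟨⟨⟨h1, h2⟩, h3⟩, h4⟩
        exact ⟨⟨h1, h4⟩, h2, h3 ▸ h4⟩
      · rintro ⟨⟨h1, h2⟩, h3, h4⟩
        exact ⟨⟨⟨h1, h3⟩, h2.trans h4.symm⟩, h2⟩
    · intro z hz
      have hz' := Finset.mem_filter.1 (Finset.mem_coe.1 hz)
      exact Finset.mem_coe.2 (Finset.mem_image_of_mem g (Finset.mem_product.1 hz'.1).1)
  have h3 := sq_sum_le_card_mul_sum_sq (s := S.image g)
    (f := fun c => (S.filter (fun a => g a = c)).card)
  rw [← h1, ← h2] at h3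
  exact h3

/-- sign vector -/
noncomputable def sgn {t : ℕ} (f : Fin t → MvPolynomial (Fin 3) ℝ) (b : E3) : Fin t → Bool :=
  fun j => decide (0 < eval b (f j))

theorem sgn_iff {t : ℕ} (f : Fin t → MvPolynomial (Fin 3) ℝ) {b b' : E3}
    (hb : ∀ j, eval b (f j) ≠ 0) (hb' : ∀ j, eval b' (f j) ≠ 0) :
    sgn f b = sgn f b' ↔ sameCl f b b' := by
  constructor
  · intro h j
    have hj := congrFun h j
    simp only [sgn, decide_eq_decide] at hj
    rcases lt_or_gt_of_ne (hb j) with h1 | h1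
    · have h2 : eval b' (f j) < 0 := by
        rcases lt_or_gt_of_ne (hb' j) with h2 | h2
        · exact h2
        · exact absurd (hj.2 h2) (not_lt.2 h1.le)
      exact mul_pos_of_neg_of_neg h1 h2
    · exact mul_pos h1 (hj.1 h1)
  · intro h
    funext j
    have hj := h j
    simp only [sgn, decide_eq_decide]
    exact pos_iff_pos_of_mul_pos hj

theorem card_cl (h : VIS3) {t : ℕ} (f : Fin t → MvPolynomial (Fin 3) ℝ) (r : E3)
    (S : Finset E3) (hS : ∀ b ∈ S, Inc r b ∧ ∀ j, eval b (f j) ≠ 0) :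
    (S.image (sgn f)).card ≤ (6 * (∑ j, (f j).totalDegree) + 2) ^ 2 := by
  have hsurj : Set.SurjOn (sgn f) (S : Set E3) (S.image (sgn f) : Finset (Fin t → Bool)) := by
    intro c hc
    obtain ⟨b, hb, rfl⟩ := Finset.mem_image.1 (Finset.mem_coe.1 hc)
    exact ⟨b, Finset.mem_coe.2 hb, rfl⟩
  obtain ⟨Z, hZS, hZi, hZ⟩ := Finset.exists_subset_injOn_image_eq_of_surjOn _ _ hsurj
  rw [← hZ, Finset.card_image_of_injOn hZi]
  have hZ' : ∀ b ∈ Z, b ∈ S := fun b hb => hZS (Finset.mem_coe.2 hb)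
  refine h t f r Z (fun b hb => hS b (hZ' b hb)) fun b hb b' hb' hbb => ?_
  exact hZi (Finset.mem_coe.2 hb) (Finset.mem_coe.2 hb')
    ((sgn_iff f (hS b (hZ' b hb)).2 (hS b' (hZ' b' hb')).2).2 hbb)

/-- one red point -/
theorem one (h : VIS3) {t : ℕ} (f : Fin t → MvPolynomial (Fin 3) ℝ) (B' : Finset E3)
    (hB : ∀ b ∈ B', ∀ j, eval b (f j) ≠ 0) (N : Finset (E3 × E3))
    (hN : N = (B' ×ˢ B').filter (fun z => z.1 ≠ z.2 ∧ sameCl f z.1 z.2)) (r : E3) :
    (B'.filter (fun b => Inc r b)).card ^ 2 ≤ (6 * (∑ j, (f j).totalDegree) + 2) ^ 2 *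
      ((N.filter (fun z => Inc r z.1 ∧ Inc r z.2)).card + (B'.filter (fun b => Inc r b)).card) := by
  set S := B'.filter (fun b => Inc r b) with hS
  have h1 := cs S (sgn f)
  have h2 : (S.image (sgn f)).card ≤ (6 * (∑ j, (f j).totalDegree) + 2) ^ 2 := by
    refine card_cl h f r S fun b hb => ?_
    have := Finset.mem_filter.1 hb
    exact ⟨this.2, hB b this.1⟩
  have h3 : ((S ×ˢ S).filter (fun z => sgn f z.1 = sgn f z.2)).card ≤
      (N.filter (fun z => Inc r z.1 ∧ Inc r z.2)).card + S.card := by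
    have hsub : (S ×ˢ S).filter (fun z => sgn f z.1 = sgn f z.2) ⊆
        N.filter (fun z => Inc r z.1 ∧ Inc r z.2) ∪ S.image (fun b => (b, b)) := by
      intro z hz
      obtain ⟨hz1, hz2⟩ := Finset.mem_filter.1 hz
      obtain ⟨hz3, hz4⟩ := Finset.mem_product.1 hz1
      obtain ⟨a1, a2⟩ := Finset.mem_filter.1 hz3
      obtain ⟨a3, a4⟩ := Finset.mem_filter.1 hz4
      by_cases he : z.1 = z.2
      · refine Finset.mem_union_right _ (Finset.mem_image.2 ⟨z.1, hz3, ?_⟩)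
        exact Prod.ext rfl he
      · refine Finset.mem_union_left _ (Finset.mem_filter.2 ⟨?_, a2, a4⟩)
        rw [hN]
        refine Finset.mem_filter.2 ⟨Finset.mem_product.2 ⟨a1, a3⟩, he, ?_⟩
        exact (sgn_iff f (hB _ a1) (hB _ a3)).1 hz2
    exact (Finset.card_le_card hsub).trans ((Finset.card_union_le _ _).trans
      (Nat.add_le_add_left Finset.card_image_le _))
  exact h1.trans (Nat.mul_le_mul h2 h3)

theorem inc_eq (R B : Finset E3) : inc R B = ∑ r ∈ R, (B.filter (fun b => Inc r b)).card := by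
  unfold inc
  rw [Finset.card_filter, Finset.sum_product]
  exact Finset.sum_congr rfl fun r _ => (Finset.card_filter _ _).symm

theorem JJ_eq (R : Finset E3) (N : Finset (E3 × E3)) :
    JJ R N = ∑ r ∈ R, (N.filter (fun z => Inc r z.1 ∧ Inc r z.2)).card := by
  unfold JJ cn
  simp only [Finset.card_filter]
  exact Finset.sum_comm

theorem sum (h : VIS3) {t : ℕ} (f : Fin t → MvPolynomial (Fin 3) ℝ) (R B' : Finset E3)
    (hB : ∀ b ∈ B', ∀ j, eval b (f j) ≠ 0) (N : Finset (E3 × E3))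
    (hN : N = (B' ×ˢ B').filter (fun z => z.1 ≠ z.2 ∧ sameCl f z.1 z.2)) :
    inc R B' ^ 2 ≤ R.card * ((6 * (∑ j, (f j).totalDegree) + 2) ^ 2 * (JJ R N + inc R B')) := by
  have h1 := sq_sum_le_card_mul_sum_sq (s := R)
    (f := fun r => (B'.filter (fun b => Inc r b)).card)
  rw [← inc_eq] at h1
  refine h1.trans (Nat.mul_le_mul_left _ ?_)
  rw [JJ_eq, inc_eq, ← Finset.sum_add_distrib, Finset.mul_sum]
  exact Finset.sum_le_sum fun r _ => one h f B' hB N hN r

end I_JB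

open scoped Classical in
theorem JB_pf (hP : Part 3) (h : VIS3) : JB := by
  obtain ⟨Cp, hCp, hP⟩ := hP
  refine ⟨(6 * Cp + 2) ^ 2 + Cp + 1, by nlinarith [sq_nonneg (6 * Cp + 2)], fun R B t => ?_⟩
  obtain ⟨f, hf, hdeg, hcl⟩ := hP E3 B (fun b => b) t
  have h2t : (1 : ℝ) ≤ (2 : ℝ) ^ ((t : ℝ) / 3) := Real.one_le_rpow (by norm_num) (by positivity)
  have hdeg' : ((∑ j, (f j).totalDegree : ℕ) : ℝ) ≤ Cp * (2 : ℝ) ^ ((t : ℝ) / 3) := by
    exact_mod_cast hdeg
  set B' := B.filter (fun b => ∀ j, eval b (f j) ≠ 0) with hB'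
  set N := (B' ×ˢ B').filter (fun z => z.1 ≠ z.2 ∧ sameCl f z.1 z.2) with hN
  refine ⟨∏ j, f j, B', N, Finset.prod_ne_zero_iff.2 fun j _ => hf j, ?_,
    Finset.filter_subset _ _, ?_, ⟨?_, ?_, ?_⟩, ?_⟩
  · have h1 : ((∏ j, f j).totalDegree : ℝ) ≤ ((∑ j, (f j).totalDegree : ℕ) : ℝ) := by
      exact_mod_cast MvPolynomial.totalDegree_finsetProd _ _
    refine (h1.trans hdeg').trans (mul_le_mul_of_nonneg_right ?_ (by positivity))
    nlinarith [sq_nonneg (6 * Cp + 2)]
  · intro b hb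
    rw [Finset.mem_sdiff, hB', Finset.mem_filter, not_and] at hb
    have h1 := hb.2 hb.1
    push Not at h1
    obtain ⟨j, hj⟩ := h1
    rw [map_prod]
    exact Finset.prod_eq_zero (Finset.mem_univ j) hj
  · intro z hz
    obtain ⟨h1, h2, _⟩ := Finset.mem_filter.1 hz
    exact ⟨(Finset.mem_product.1 h1).1, (Finset.mem_product.1 h1).2, h2⟩
  · intro z hz
    obtain ⟨h1, h2, h3⟩ := Finset.mem_filter.1 hz
    refine Finset.mem_filter.2 ⟨Finset.mem_product.2 ⟨(Finset.mem_product.1 h1).2,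
      (Finset.mem_product.1 h1).1⟩, Ne.symm h2, fun j => ?_⟩
    rw [mul_comm]; exact h3 j
  · intro b _
    rw [le_div_iff₀ (by positivity)]
    have h1 : (N.filter (fun z => z.1 = b)).card ≤ (B.filter (fun a => sameCl f b a)).card := by
      refine Finset.card_le_card_of_injOn Prod.snd (fun z hz => ?_) fun z hz z' hz' hzz => ?_
      · obtain ⟨h1, h2⟩ := Finset.mem_filter.1 (Finset.mem_coe.1 hz)
        obtain ⟨h3, _, h5⟩ := Finset.mem_filter.1 h1
        refine Finset.mem_coe.2 (Finset.mem_filter.2 ⟨(Finset.mem_filter.1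
          (Finset.mem_product.1 h3).2).1, ?_⟩)
        rw [← h2]; exact h5
      · have h1 := (Finset.mem_filter.1 (Finset.mem_coe.1 hz)).2
        have h2 := (Finset.mem_filter.1 (Finset.mem_coe.1 hz')).2
        exact Prod.ext (h1.trans h2.symm) hzz
    have h2 := hcl b
    have h3 : (N.filter (fun z => z.1 = b)).card * 2 ^ t ≤ B.card := by
      refine (Nat.mul_le_mul_right _ h1).trans ?_
      rw [mul_comm]
      convert h2 using 3
    exact_mod_cast h3
  · have h1 := I_JB.sum h f R B' (fun b hb => (Finset.mem_filter.1 hb).2) N hN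
    have h2 : (inc R B' : ℝ) ^ 2 ≤ R.card *
        ((6 * ((∑ j, (f j).totalDegree : ℕ) : ℝ) + 2) ^ 2 * (JJ R N + inc R B')) := by
      exact_mod_cast h1
    have h3 : (6 * ((∑ j, (f j).totalDegree : ℕ) : ℝ) + 2) ^ 2 ≤
        (6 * Cp + 2) ^ 2 * (2 : ℝ) ^ (2 * (t : ℝ) / 3) := by
      have h4 : (2 : ℝ) ^ (2 * (t : ℝ) / 3) = ((2 : ℝ) ^ ((t : ℝ) / 3)) ^ 2 := by
        rw [← Real.rpow_natCast, ← Real.rpow_mul (by norm_num)]
        congr 1; push_cast; ring
      rw [h4, ← mul_pow]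
      refine pow_le_pow_left₀ (by positivity) ?_ 2
      nlinarith
    have h5 : (0 : ℝ) ≤ R.card * (2 : ℝ) ^ (2 * (t : ℝ) / 3) * (JJ R N + inc R B') := by
      positivity
    have h6 : (0 : ℝ) ≤ (JJ R N : ℝ) + inc R B' := by positivity
    have h7 : (0 : ℝ) ≤ (R.card : ℝ) := by positivity
    calc (inc R B' : ℝ) ^ 2 ≤ R.card *
        ((6 * ((∑ j, (f j).totalDegree : ℕ) : ℝ) + 2) ^ 2 * (JJ R N + inc R B')) := h2
      _ ≤ R.card * ((6 * Cp + 2) ^ 2 * (2 : ℝ) ^ (2 * (t : ℝ) / 3) * (JJ R N + inc R B')) :=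
          mul_le_mul_of_nonneg_left (mul_le_mul_of_nonneg_right h3 h6) h7
      _ = (6 * Cp + 2) ^ 2 *
          (R.card * (2 : ℝ) ^ (2 * (t : ℝ) / 3) * (JJ R N + inc R B')) := by ring
      _ ≤ ((6 * Cp + 2) ^ 2 + Cp + 1) *
          (R.card * (2 : ℝ) ^ (2 * (t : ℝ) / 3) * (JJ R N + inc R B')) :=
          mul_le_mul_of_nonneg_right (by linarith) h5
      _ = _ := by ring

end Pool.Agent.Work.MP_81c58b_co.TG
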