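import Pool.Agent.Work.MP_81c58b_co.TG.Stmts

/-!
# MP_81c58b_co, block TG, item JUP
-/

set_option autoImplicit false

namespace Pool.Agent.Work.MP_81c58b_co.TG

open scoped Classical

namespace I_JUP

lemma fibre (h1 : INCL) (R B : Finset E3) (N : Finset (E3 × E3)) (M : ℝ) (hS : Str R B)
    (hN : Near B N M) (hM : 0 ≤ M) (b : E3) (hb : b ∈ B) :
    ((∑ z ∈ N.filter (fun z => z.1 = b), (cn R z.1 z.2).card : ℕ) : ℝ) ≤
      (R.filter (fun r => Inc r b)).card + M ^ 2 := by
  set F := N.filter (fun z => z.1 = b) with hF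
  set K := F.image Prod.snd with hK
  have hinj : Set.InjOn (Prod.snd : E3 × E3 → E3) (F : Set (E3 × E3)) := by
    intro z hz w hw h
    have hz' := (Finset.mem_filter.1 (Finset.mem_coe.1 hz)).2
    have hw' := (Finset.mem_filter.1 (Finset.mem_coe.1 hw)).2
    exact Prod.ext (hz'.trans hw'.symm) h
  have hcard : K.card = F.card := Finset.card_image_of_injOn hinj
  have hsum : ∑ z ∈ F, (cn R z.1 z.2).card = ∑ b' ∈ K, (cn R b b').card := by
    rw [hK, Finset.sum_image hinj]
    refine Finset.sum_congr rfl ?_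
    intro z hz
    have hz' := (Finset.mem_filter.1 hz).2
    rw [hz']
  have hKB : K ⊆ B := by
    intro x hx
    obtain ⟨z, hz, rfl⟩ := Finset.mem_image.1 hx
    exact (hN.mem z (Finset.mem_filter.1 hz).1).2.1
  have hbK : b ∉ K := by
    intro hx
    obtain ⟨z, hz, hzb⟩ := Finset.mem_image.1 hx
    have h2 := (hN.mem z (Finset.mem_filter.1 hz).1).2.2
    exact h2 ((Finset.mem_filter.1 hz).2.trans hzb.symm)
  have hi := h1 R B K b hS hb hKB hbK
  have hc : (F.card : ℝ) ≤ M := hN.card b hb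
  have hcK : (K.card : ℝ) ^ 2 ≤ M ^ 2 := by
    rw [hcard]
    exact pow_le_pow_left₀ (Nat.cast_nonneg _) hc 2
  rw [hsum]
  have hi' : ((∑ b' ∈ K, (cn R b b').card : ℕ) : ℝ) ≤
      (((R.filter (fun r => Inc r b)).card + K.card ^ 2 : ℕ) : ℝ) := by
    exact_mod_cast hi
  push_cast at hi' ⊢
  linarith

lemma incSum (R B : Finset E3) :
    inc R B = ∑ b ∈ B, (R.filter (fun r => Inc r b)).card := by
  unfold inc
  rw [Finset.card_filter, Finset.sum_product_right]
  refine Finset.sum_congr rfl ?_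
  intro b _
  rw [Finset.card_filter]

end I_JUP

open I_JUP in
theorem JUP_pf (h1 : INCL) : JUP := by
  intro R B N M hS hN hM
  have hmaps : ∀ z ∈ N, z.1 ∈ B := fun z hz => (hN.mem z hz).1
  have h2 : JJ R N = ∑ b ∈ B, ∑ z ∈ N.filter (fun z => z.1 = b), (cn R z.1 z.2).card := by
    unfold JJ
    exact (Finset.sum_fiberwise_of_maps_to hmaps _).symm
  rw [h2, incSum]
  push_cast
  have h3 : ∀ b ∈ B, (∑ z ∈ N.filter (fun z => z.1 = b), ((cn R z.1 z.2).card : ℝ)) ≤
      (R.filter (fun r => Inc r b)).card + M ^ 2 := by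
    intro b hb
    have := fibre h1 R B N M hS hN hM b hb
    push_cast at this
    exact this
  calc (∑ b ∈ B, ∑ z ∈ N.filter (fun z => z.1 = b), ((cn R z.1 z.2).card : ℝ))
      ≤ ∑ b ∈ B, (((R.filter (fun r => Inc r b)).card : ℝ) + M ^ 2) :=
        Finset.sum_le_sum h3
    _ = ∑ b ∈ B, ((R.filter (fun r => Inc r b)).card : ℝ) + B.card * M ^ 2 := by
        rw [Finset.sum_add_distrib, Finset.sum_const, nsmul_eq_mul]

end Pool.Agent.Work.MP_81c58b_co.TG
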