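import Pool.Agent.Work.MP_81c58b_co.TG.Stmts

/-!
# MP_81c58b_co, block TG, item K33: three cones have at most two common points
-/

set_option autoImplicit false

namespace Pool.Agent.Work.MP_81c58b_co.TG

namespace I_K33

lemma sub_apply' (b r : E3) (i : Fin 3) : (b - r) i = b i - r i := rfl

/-- coordinates of a null vector -/
lemma coords (r b : E3) (h : Inc r b) :
    (b - r) 1 ≠ 0 ∧ (b - r) 0 = (b - r) 1 * tt r b ∧ (b - r) 2 = - ((b - r) 1 * tt r b ^ 2) := by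
  obtain ⟨h1, h2⟩ := h
  refine ⟨h2, ?_, ?_⟩
  · unfold tt
    field_simp
  · unfold tt
    unfold q at h1
    field_simp
    linarith

/-- the form on the difference of two points on the cone of `b` -/
lemma qdiff (r r' b : E3) (h : Inc r b) (h' : Inc r' b) :
    q (r' - r) = (b - r) 1 * (b - r') 1 * (tt r b - tt r' b) ^ 2 := by
  obtain ⟨-, h0, h2⟩ := coords r b h
  obtain ⟨-, h0', h2'⟩ := coords r' b h'
  have e : ∀ i, (r' - r) i = (b - r) i - (b - r') i := by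
    intro i
    simp only [sub_apply']
    ring
  unfold q
  rw [e 0, e 1, e 2, h0, h2, h0', h2']
  ring

/-- the linear equation -/
lemma lin (r r' b : E3) (h : Inc r b) (h' : Inc r' b) :
    (b - r) 1 * ell (r' - r) (tt r b) = q (r' - r) := by
  obtain ⟨-, h0, h2⟩ := coords r b h
  have hq' := h'.1
  have e : ∀ i, (b - r') i = (b - r) i - (r' - r) i := by
    intro i
    simp only [sub_apply']
    ring
  unfold q at hq' ⊢
  rw [e 0, e 1, e 2, h0, h2] at hq'
  unfold ell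
  linarith

/-- a quadratic polynomial with three roots -/
lemma quad (p2 p1 p0 t1 t2 t3 : ℝ) (h1 : p2 * t1 ^ 2 + p1 * t1 + p0 = 0)
    (h2 : p2 * t2 ^ 2 + p1 * t2 + p0 = 0) (h3 : p2 * t3 ^ 2 + p1 * t3 + p0 = 0)
    (h12 : t1 ≠ t2) (h13 : t1 ≠ t3) (h23 : t2 ≠ t3) : p2 = 0 ∧ p1 = 0 ∧ p0 = 0 := by
  have a : (t1 - t2) * (p2 * (t1 + t2) + p1) = 0 := by linear_combination h1 - h2
  have b : (t1 - t3) * (p2 * (t1 + t3) + p1) = 0 := by linear_combination h1 - h3
  have a' := (mul_eq_zero.mp a).resolve_left (sub_ne_zero.mpr h12)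
  have b' := (mul_eq_zero.mp b).resolve_left (sub_ne_zero.mpr h13)
  have c : (t2 - t3) * p2 = 0 := by linear_combination a' - b'
  have hp2 := (mul_eq_zero.mp c).resolve_left (sub_ne_zero.mpr h23)
  have hp1 : p1 = 0 := by
    rw [hp2] at a'
    linarith
  refine ⟨hp2, hp1, ?_⟩
  rw [hp2, hp1] at h1
  linarith

/-- equal parameters imply equal points -/
lemma inj (r r' b b' : E3) (h : Inc r b) (h' : Inc r' b) (k : Inc r b') (k' : Inc r' b')
    (hA : q (r' - r) ≠ 0) (ht : tt r b = tt r b') : b = b' := by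
  obtain ⟨-, h0, h2⟩ := coords r b h
  obtain ⟨-, k0, k2⟩ := coords r b' k
  have l1 := lin r r' b h h'
  have l2 := lin r r' b' k k'
  rw [← ht] at l2
  have hne : ell (r' - r) (tt r b) ≠ 0 := by
    intro h
    rw [h, mul_zero] at l1
    exact hA l1.symm
  have hs : (b - r) 1 = (b' - r) 1 := by
    apply mul_right_cancel₀ hne
    rw [l1, l2]
  have e0 : b 0 - r 0 = b' 0 - r 0 := by
    have : (b - r) 0 = (b' - r) 0 := by rw [h0, k0, hs, ht]
    simpa only [sub_apply'] using this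
  have e1 : b 1 - r 1 = b' 1 - r 1 := by
    simpa only [sub_apply'] using hs
  have e2 : b 2 - r 2 = b' 2 - r 2 := by
    have : (b - r) 2 = (b' - r) 2 := by rw [h2, k2, hs, ht]
    simpa only [sub_apply'] using this
  funext i
  fin_cases i
  · show b 0 = b' 0
    linarith
  · show b 1 = b' 1
    linarith
  · show b 2 = b' 2
    linarith

end I_K33

open I_K33 in
theorem K33_pf : K33 := by
  intro r1 r2 r3 Z hZ
  by_contra hcard
  push_neg at hcard
  obtain ⟨b1, b2, b3, hb1, hb2, hb3, n12, n13, n23⟩ := Finset.two_lt_card_iff.mp hcard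
  obtain ⟨i11, i21, i31, d12, d13, d23⟩ := hZ b1 hb1
  obtain ⟨i12, i22, i32, -, -, -⟩ := hZ b2 hb2
  obtain ⟨i13, i23, i33, -, -, -⟩ := hZ b3 hb3
  have s1 := (coords r1 b1 i11).1
  have s2 := (coords r2 b1 i21).1
  have s3 := (coords r3 b1 i31).1
  have hA : q (r2 - r1) ≠ 0 := by
    rw [qdiff r1 r2 b1 i11 i21]
    exact mul_ne_zero (mul_ne_zero s1 s2) (pow_ne_zero 2 (sub_ne_zero.mpr d12))
  have hA' : q (r3 - r1) ≠ 0 := by
    rw [qdiff r1 r3 b1 i11 i31]
    exact mul_ne_zero (mul_ne_zero s1 s3) (pow_ne_zero 2 (sub_ne_zero.mpr d13))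
  have hA'' : q (r3 - r2) ≠ 0 := by
    rw [qdiff r2 r3 b1 i21 i31]
    exact mul_ne_zero (mul_ne_zero s2 s3) (pow_ne_zero 2 (sub_ne_zero.mpr d23))
  have t12 : tt r1 b1 ≠ tt r1 b2 := fun h => n12 (inj r1 r2 b1 b2 i11 i21 i12 i22 hA h)
  have t13 : tt r1 b1 ≠ tt r1 b3 := fun h => n13 (inj r1 r2 b1 b3 i11 i21 i13 i23 hA h)
  have t23 : tt r1 b2 ≠ tt r1 b3 := fun h => n23 (inj r1 r2 b2 b3 i12 i22 i13 i23 hA h)
  -- the common quadratic polynomial
  have key : ∀ b, Inc r1 b → Inc r2 b → Inc r3 b →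
      q (r3 - r1) * ell (r2 - r1) (tt r1 b) = q (r2 - r1) * ell (r3 - r1) (tt r1 b) := by
    intro b j1 j2 j3
    have l1 := lin r1 r2 b j1 j2
    have l2 := lin r1 r3 b j1 j3
    have s := (coords r1 b j1).1
    apply mul_left_cancel₀ s
    linear_combination q (r3 - r1) * l1 - q (r2 - r1) * l2
  have k1 := key b1 i11 i21 i31
  have k2 := key b2 i12 i22 i32
  have k3 := key b3 i13 i23 i33
  set A := q (r2 - r1) with hAdef
  set A' := q (r3 - r1) with hA'def
  unfold ell at k1 k2 k3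
  obtain ⟨e1, e0, e2⟩ := quad (- (A' * (r2 - r1) 1 - A * (r3 - r1) 1))
    (2 * (A' * (r2 - r1) 0 - A * (r3 - r1) 0)) (A' * (r2 - r1) 2 - A * (r3 - r1) 2)
    (tt r1 b1) (tt r1 b2) (tt r1 b3) (by linarith) (by linarith) (by linarith) t12 t13 t23
  have f0 : A' * (r2 - r1) 0 = A * (r3 - r1) 0 := by linarith
  have f1 : A' * (r2 - r1) 1 = A * (r3 - r1) 1 := by linarith
  have f2 : A' * (r2 - r1) 2 = A * (r3 - r1) 2 := by linarith
  have hq : A' ^ 2 * A = A ^ 2 * A' := by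
    have hA1 : A = (r2 - r1) 0 ^ 2 + (r2 - r1) 1 * (r2 - r1) 2 := hAdef
    have hA1' : A' = (r3 - r1) 0 ^ 2 + (r3 - r1) 1 * (r3 - r1) 2 := hA'def
    have g0 : (A' * (r2 - r1) 0) ^ 2 = (A * (r3 - r1) 0) ^ 2 := by rw [f0]
    have g1 : (A' * (r2 - r1) 1) * (A' * (r2 - r1) 2) = (A * (r3 - r1) 1) * (A * (r3 - r1) 2) := by
      rw [f1, f2]
    calc A' ^ 2 * A = A' ^ 2 * ((r2 - r1) 0 ^ 2 + (r2 - r1) 1 * (r2 - r1) 2) := by rw [← hA1]
      _ = (A' * (r2 - r1) 0) ^ 2 + (A' * (r2 - r1) 1) * (A' * (r2 - r1) 2) := by ring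
      _ = (A * (r3 - r1) 0) ^ 2 + (A * (r3 - r1) 1) * (A * (r3 - r1) 2) := by rw [g0, g1]
      _ = A ^ 2 * ((r3 - r1) 0 ^ 2 + (r3 - r1) 1 * (r3 - r1) 2) := by ring
      _ = A ^ 2 * A' := by rw [← hA1']
  have hAA : A' = A := by
    have : A * A' * (A' - A) = 0 := by linear_combination hq
    rcases mul_eq_zero.mp this with h | h
    · exact absurd h (mul_ne_zero hA hA')
    · linarith
  rw [hAA] at f0 f1 f2
  have c0 := mul_left_cancel₀ hA f0
  have c1 := mul_left_cancel₀ hA f1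
  have c2 := mul_left_cancel₀ hA f2
  apply hA''
  simp only [sub_apply'] at c0 c1 c2
  unfold q
  simp only [sub_apply']
  have z0 : r3 0 - r2 0 = 0 := by linarith
  have z1 : r3 1 - r2 1 = 0 := by linarith
  rw [z0, z1]
  ring

end Pool.Agent.Work.MP_81c58b_co.TG
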