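import Pool.Agent.Work.MP_81c58b_co.TG.Stmts

/-!
# MP_81c58b_co, block TG, item K33C: three complex cones with three common points
-/

set_option autoImplicit false

namespace Pool.Agent.Work.MP_81c58b_co.TG

namespace I_K33C

/-- a null vector orthogonal to a non-zero null vector is a multiple of it -/
lemma null (n0 n1 n2 v0 v1 v2 : ℂ) (hn : ¬ (n0 = 0 ∧ n1 = 0 ∧ n2 = 0))
    (qn : n0 ^ 2 + n1 * n2 = 0) (qv : v0 ^ 2 + v1 * v2 = 0)
    (hb : 2 * v0 * n0 + v1 * n2 + v2 * n1 = 0) :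
    ∃ s : ℂ, v0 = s * n0 ∧ v1 = s * n1 ∧ v2 = s * n2 := by
  by_cases h1 : n1 = 0
  · have h0 : n0 = 0 := by
      have : n0 ^ 2 = 0 := by rw [h1] at qn; linear_combination qn
      exact pow_eq_zero_iff (two_ne_zero) |>.mp this
    have h2 : n2 ≠ 0 := fun h2 => hn ⟨h0, h1, h2⟩
    have hv1 : v1 = 0 := by
      have : v1 * n2 = 0 := by rw [h0, h1] at hb; linear_combination hb
      exact (mul_eq_zero.mp this).resolve_right h2
    have hv0 : v0 = 0 := by
      have : v0 ^ 2 = 0 := by rw [hv1] at qv; linear_combination qv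
      exact pow_eq_zero_iff (two_ne_zero) |>.mp this
    refine ⟨v2 / n2, ?_, ?_, ?_⟩
    · rw [hv0, h0, mul_zero]
    · rw [hv1, h1, mul_zero]
    · field_simp
  · have hsq : (n1 * v0 - n0 * v1) ^ 2 = 0 := by
      linear_combination n1 ^ 2 * qv + v1 ^ 2 * qn - n1 * v1 * hb
    have h0 : n1 * v0 - n0 * v1 = 0 := pow_eq_zero_iff (two_ne_zero) |>.mp hsq
    refine ⟨v1 / n1, ?_, ?_, ?_⟩
    · field_simp
      linear_combination h0
    · field_simp
    · field_simp
      have : n1 * (v2 * n1 - v1 * n2) = 0 := by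
        linear_combination n1 * hb - 2 * n0 * h0 - 2 * v1 * qn
      have h3 := (mul_eq_zero.mp this).resolve_left h1
      linear_combination h3

/-- parallel vectors -/
lemma par (m0 m1 m2 c0 c1 c2 : ℂ) (hm : ¬ (m0 = 0 ∧ m1 = 0 ∧ m2 = 0))
    (h01 : c0 * m1 = c1 * m0) (h02 : c0 * m2 = c2 * m0) (h12 : c1 * m2 = c2 * m1) :
    ∃ s : ℂ, c0 = s * m0 ∧ c1 = s * m1 ∧ c2 = s * m2 := by
  by_cases h0 : m0 = 0
  · by_cases h1 : m1 = 0
    · have h2 : m2 ≠ 0 := fun h2 => hm ⟨h0, h1, h2⟩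
      refine ⟨c2 / m2, ?_, ?_, ?_⟩
      · have : c0 * m2 = 0 := by rw [h02, h0, mul_zero]
        rw [(mul_eq_zero.mp this).resolve_right h2, h0, mul_zero]
      · have : c1 * m2 = 0 := by rw [h12, h1, mul_zero]
        rw [(mul_eq_zero.mp this).resolve_right h2, h1, mul_zero]
      · field_simp
    · refine ⟨c1 / m1, ?_, ?_, ?_⟩
      · have : c0 * m1 = 0 := by rw [h01, h0, mul_zero]
        rw [(mul_eq_zero.mp this).resolve_right h1, h0, mul_zero]
      · field_simp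
      · field_simp
        linear_combination -h12
  · refine ⟨c0 / m0, ?_, ?_, ?_⟩
    · field_simp
    · field_simp
      linear_combination -h01
    · field_simp
      linear_combination -h02

/-- the orthogonal complement of two vectors with non-zero cross product -/
lemma orth (a0 a1 a2 b0 b1 b2 : ℂ)
    (hm : ¬ (a1 * b2 - a2 * b1 = 0 ∧ a2 * b0 - a0 * b2 = 0 ∧ a0 * b1 - a1 * b0 = 0))
    (c0 c1 c2 : ℂ) (ha : 2 * c0 * a0 + c1 * a2 + c2 * a1 = 0)
    (hb : 2 * c0 * b0 + c1 * b2 + c2 * b1 = 0) :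
    ∃ s : ℂ, c0 = s * ((a1 * b2 - a2 * b1) / 2) ∧ c1 = s * (a0 * b1 - a1 * b0) ∧
      c2 = s * (a2 * b0 - a0 * b2) := by
  obtain ⟨s, h0, h1, h2⟩ := par (a1 * b2 - a2 * b1) (a2 * b0 - a0 * b2) (a0 * b1 - a1 * b0)
    (2 * c0) c2 c1 hm
    (by linear_combination (-b2) * ha + a2 * hb)
    (by linear_combination b1 * ha - a1 * hb)
    (by linear_combination (-b0) * ha + a0 * hb)
  exact ⟨s, by linear_combination h0 / 2, h2, h1⟩

end I_K33C

open I_K33C in
theorem K33C_pf : K33C := by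
  intro r1 r2 r3 n12 n13 n23 p1 p2 p3 m12 m13 m23 H
  -- coordinates
  have Hq : ∀ r ∈ ({r1, r2, r3} : Set E3), ∀ p ∈ ({p1, p2, p3} : Set (Fin 3 → ℂ)),
      (p 0 - (r 0 : ℂ)) ^ 2 + (p 1 - (r 1 : ℂ)) * (p 2 - (r 2 : ℂ)) = 0 := fun r hr p hp =>
    H r hr p hp
  have c2ne : (2 : ℂ) ≠ 0 := two_ne_zero
  -- the conditions for one point
  have key : ∀ p ∈ ({p1, p2, p3} : Set (Fin 3 → ℂ)),
      ((p 0 - (r1 0 : ℂ)) ^ 2 + (p 1 - (r1 1 : ℂ)) * (p 2 - (r1 2 : ℂ)) = 0) ∧
      (2 * (p 0 - (r1 0 : ℂ)) * ((r2 0 : ℂ) - r1 0) + (p 1 - (r1 1 : ℂ)) * ((r2 2 : ℂ) - r1 2)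
        + (p 2 - (r1 2 : ℂ)) * ((r2 1 : ℂ) - r1 1)
        = ((r2 0 : ℂ) - r1 0) ^ 2 + ((r2 1 : ℂ) - r1 1) * ((r2 2 : ℂ) - r1 2)) ∧
      (2 * (p 0 - (r1 0 : ℂ)) * ((r3 0 : ℂ) - r1 0) + (p 1 - (r1 1 : ℂ)) * ((r3 2 : ℂ) - r1 2)
        + (p 2 - (r1 2 : ℂ)) * ((r3 1 : ℂ) - r1 1)
        = ((r3 0 : ℂ) - r1 0) ^ 2 + ((r3 1 : ℂ) - r1 1) * ((r3 2 : ℂ) - r1 2)) := by
    intro p hp
    have e1 := Hq r1 (by simp) p hp
    have e2 := Hq r2 (by simp) p hp
    have e3 := Hq r3 (by simp) p hp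
    refine ⟨e1, ?_, ?_⟩
    · linear_combination e1 - e2
    · linear_combination e1 - e3
  -- r2 - r1 is non-zero
  have ane : ¬ (((r2 0 : ℂ) - r1 0) = 0 ∧ ((r2 1 : ℂ) - r1 1) = 0 ∧ ((r2 2 : ℂ) - r1 2) = 0) := by
    rintro ⟨h0, h1, h2⟩
    apply n12
    funext i
    fin_cases i
    · show r1 0 = r2 0
      have := sub_eq_zero.mp h0
      exact_mod_cast this.symm
    · show r1 1 = r2 1
      have := sub_eq_zero.mp h1
      exact_mod_cast this.symm
    · show r1 2 = r2 2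
      have := sub_eq_zero.mp h2
      exact_mod_cast this.symm
  by_cases hm : (((r2 1 : ℂ) - r1 1) * ((r3 2 : ℂ) - r1 2) - ((r2 2 : ℂ) - r1 2) * ((r3 1 : ℂ) - r1 1)
      = 0 ∧ ((r2 2 : ℂ) - r1 2) * ((r3 0 : ℂ) - r1 0) - ((r2 0 : ℂ) - r1 0) * ((r3 2 : ℂ) - r1 2) = 0
      ∧ ((r2 0 : ℂ) - r1 0) * ((r3 1 : ℂ) - r1 1) - ((r2 1 : ℂ) - r1 1) * ((r3 0 : ℂ) - r1 0) = 0)
  · -- dependent case
    obtain ⟨hm0, hm1, hm2⟩ := hm
    obtain ⟨l, l0, l1, l2⟩ := par ((r2 0 : ℂ) - r1 0) ((r2 1 : ℂ) - r1 1) ((r2 2 : ℂ) - r1 2)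
      ((r3 0 : ℂ) - r1 0) ((r3 1 : ℂ) - r1 1) ((r3 2 : ℂ) - r1 2) ane
      (by linear_combination (-1) * hm2) (by linear_combination hm1)
      (by linear_combination (-1) * hm0)
    have lne0 : l ≠ 0 := by
      intro hl
      apply n13
      funext i
      fin_cases i
      · show r1 0 = r3 0
        rw [hl, zero_mul] at l0
        have := sub_eq_zero.mp l0
        exact_mod_cast this.symm
      · show r1 1 = r3 1
        rw [hl, zero_mul] at l1
        have := sub_eq_zero.mp l1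
        exact_mod_cast this.symm
      · show r1 2 = r3 2
        rw [hl, zero_mul] at l2
        have := sub_eq_zero.mp l2
        exact_mod_cast this.symm
    have lne1 : l - 1 ≠ 0 := by
      intro hl'
      have hl : l = 1 := sub_eq_zero.mp hl'
      apply n23
      funext i
      fin_cases i
      · show r2 0 = r3 0
        rw [hl, one_mul] at l0
        have : (r3 0 : ℂ) = r2 0 := by linear_combination l0
        exact_mod_cast this.symm
      · show r2 1 = r3 1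
        rw [hl, one_mul] at l1
        have : (r3 1 : ℂ) = r2 1 := by linear_combination l1
        exact_mod_cast this.symm
      · show r2 2 = r3 2
        rw [hl, one_mul] at l2
        have : (r3 2 : ℂ) = r2 2 := by linear_combination l2
        exact_mod_cast this.symm
    have qa : ((r2 0 : ℂ) - r1 0) ^ 2 + ((r2 1 : ℂ) - r1 1) * ((r2 2 : ℂ) - r1 2) = 0 := by
      obtain ⟨-, k2, k3⟩ := key p1 (by simp)
      rw [l0, l1, l2] at k3
      have : l * (l - 1) * (((r2 0 : ℂ) - r1 0) ^ 2 + ((r2 1 : ℂ) - r1 1) * ((r2 2 : ℂ) - r1 2))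
          = 0 := by linear_combination l * k2 - k3
      exact (mul_eq_zero.mp this).resolve_left (mul_ne_zero lne0 lne1)
    constructor
    · have : ((q (r2 - r1) : ℝ) : ℂ) = 0 := by
        unfold q
        simp only [Pi.sub_apply]
        push_cast
        exact qa
      exact_mod_cast this
    · intro p hp
      obtain ⟨k1, k2, -⟩ := key p hp
      rw [qa] at k2
      obtain ⟨s, s0, s1, s2⟩ := null ((r2 0 : ℂ) - r1 0) ((r2 1 : ℂ) - r1 1) ((r2 2 : ℂ) - r1 2)
        (p 0 - (r1 0 : ℂ)) (p 1 - (r1 1 : ℂ)) (p 2 - (r1 2 : ℂ)) ane qa k1 k2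
      refine ⟨s, ?_⟩
      intro i
      fin_cases i
      · show p 0 = (r1 0 : ℂ) + s * ((r2 - r1) 0 : ℝ)
        simp only [Pi.sub_apply]
        push_cast
        linear_combination s0
      · show p 1 = (r1 1 : ℂ) + s * ((r2 - r1) 1 : ℝ)
        simp only [Pi.sub_apply]
        push_cast
        linear_combination s1
      · show p 2 = (r1 2 : ℂ) + s * ((r2 - r1) 2 : ℝ)
        simp only [Pi.sub_apply]
        push_cast
        linear_combination s2
  · -- independent case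
    exfalso
    obtain ⟨k11, k12, k13⟩ := key p1 (by simp)
    obtain ⟨k21, k22, k23⟩ := key p2 (by simp)
    obtain ⟨k31, k32, k33⟩ := key p3 (by simp)
    obtain ⟨s, s0, s1, s2⟩ := orth ((r2 0 : ℂ) - r1 0) ((r2 1 : ℂ) - r1 1) ((r2 2 : ℂ) - r1 2)
      ((r3 0 : ℂ) - r1 0) ((r3 1 : ℂ) - r1 1) ((r3 2 : ℂ) - r1 2) hm
      (p2 0 - p1 0) (p2 1 - p1 1) (p2 2 - p1 2) (by linear_combination k22 - k12)
      (by linear_combination k23 - k13)
    obtain ⟨s', s0', s1', s2'⟩ := orth ((r2 0 : ℂ) - r1 0) ((r2 1 : ℂ) - r1 1) ((r2 2 : ℂ) - r1 2)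
      ((r3 0 : ℂ) - r1 0) ((r3 1 : ℂ) - r1 1) ((r3 2 : ℂ) - r1 2) hm
      (p3 0 - p1 0) (p3 1 - p1 1) (p3 2 - p1 2) (by linear_combination k32 - k12)
      (by linear_combination k33 - k13)
    generalize hN0 : (((r2 1 : ℂ) - r1 1) * ((r3 2 : ℂ) - r1 2)
      - ((r2 2 : ℂ) - r1 2) * ((r3 1 : ℂ) - r1 1)) / 2 = n0 at s0 s0'
    generalize hN1 : ((r2 0 : ℂ) - r1 0) * ((r3 1 : ℂ) - r1 1)
      - ((r2 1 : ℂ) - r1 1) * ((r3 0 : ℂ) - r1 0) = n1 at s1 s1'
    generalize hN2 : ((r2 2 : ℂ) - r1 2) * ((r3 0 : ℂ) - r1 0)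
      - ((r2 0 : ℂ) - r1 0) * ((r3 2 : ℂ) - r1 2) = n2 at s2 s2'
    have nne : ¬ (n0 = 0 ∧ n1 = 0 ∧ n2 = 0) := by
      rintro ⟨h0, h1, h2⟩
      apply hm
      refine ⟨?_, ?_, ?_⟩
      · linear_combination 2 * hN0 + 2 * h0
      · linear_combination hN2 + h2
      · linear_combination hN1 + h1
    have sne : s ≠ 0 := by
      intro hs
      apply m12
      funext i
      fin_cases i
      · show p1 0 = p2 0
        rw [hs, zero_mul] at s0
        exact (sub_eq_zero.mp s0).symm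
      · show p1 1 = p2 1
        rw [hs, zero_mul] at s1
        exact (sub_eq_zero.mp s1).symm
      · show p1 2 = p2 2
        rw [hs, zero_mul] at s2
        exact (sub_eq_zero.mp s2).symm
    have sne' : s' ≠ 0 := by
      intro hs
      apply m13
      funext i
      fin_cases i
      · show p1 0 = p3 0
        rw [hs, zero_mul] at s0'
        exact (sub_eq_zero.mp s0').symm
      · show p1 1 = p3 1
        rw [hs, zero_mul] at s1'
        exact (sub_eq_zero.mp s1').symm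
      · show p1 2 = p3 2
        rw [hs, zero_mul] at s2'
        exact (sub_eq_zero.mp s2').symm
    have ssne : s - s' ≠ 0 := by
      intro hs
      have hs' : s = s' := sub_eq_zero.mp hs
      apply m23
      funext i
      fin_cases i
      · show p2 0 = p3 0
        linear_combination s0 - s0' + n0 * hs
      · show p2 1 = p3 1
        linear_combination s1 - s1' + n1 * hs
      · show p2 2 = p3 2
        linear_combination s2 - s2' + n2 * hs
    -- orthogonality of n to a and a'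
    have na : 2 * n0 * ((r2 0 : ℂ) - r1 0) + n1 * ((r2 2 : ℂ) - r1 2) + n2 * ((r2 1 : ℂ) - r1 1)
        = 0 := by
      rw [← hN0, ← hN1, ← hN2]
      ring
    have na' : 2 * n0 * ((r3 0 : ℂ) - r1 0) + n1 * ((r3 2 : ℂ) - r1 2) + n2 * ((r3 1 : ℂ) - r1 1)
        = 0 := by
      rw [← hN0, ← hN1, ← hN2]
      ring
    generalize hv0 : p1 0 - (r1 0 : ℂ) = v0 at *
    generalize hv1 : p1 1 - (r1 1 : ℂ) = v1 at *
    generalize hv2 : p1 2 - (r1 2 : ℂ) = v2 at *
    have w0 : p2 0 - (r1 0 : ℂ) = v0 + s * n0 := by linear_combination s0 + hv0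
    have w1 : p2 1 - (r1 1 : ℂ) = v1 + s * n1 := by linear_combination s1 + hv1
    have w2 : p2 2 - (r1 2 : ℂ) = v2 + s * n2 := by linear_combination s2 + hv2
    have w0' : p3 0 - (r1 0 : ℂ) = v0 + s' * n0 := by linear_combination s0' + hv0
    have w1' : p3 1 - (r1 1 : ℂ) = v1 + s' * n1 := by linear_combination s1' + hv1
    have w2' : p3 2 - (r1 2 : ℂ) = v2 + s' * n2 := by linear_combination s2' + hv2
    rw [w0, w1, w2] at k21
    rw [w0', w1', w2'] at k31
    have t1 : s * ((2 * v0 * n0 + v1 * n2 + v2 * n1) + s * (n0 ^ 2 + n1 * n2)) = 0 := by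
      linear_combination k21 - k11
    have t2 : s' * ((2 * v0 * n0 + v1 * n2 + v2 * n1) + s' * (n0 ^ 2 + n1 * n2)) = 0 := by
      linear_combination k31 - k11
    have u1 := (mul_eq_zero.mp t1).resolve_left sne
    have u2 := (mul_eq_zero.mp t2).resolve_left sne'
    have u3 : (s - s') * (n0 ^ 2 + n1 * n2) = 0 := by linear_combination u1 - u2
    have qn := (mul_eq_zero.mp u3).resolve_left ssne
    have bn : 2 * v0 * n0 + v1 * n2 + v2 * n1 = 0 := by
      rw [qn, mul_zero, add_zero] at u1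
      exact u1
    obtain ⟨x, x0, x1, x2⟩ := null n0 n1 n2 v0 v1 v2 nne qn k11 bn
    obtain ⟨y, y0, y1, y2⟩ := null n0 n1 n2 (v0 - ((r2 0 : ℂ) - r1 0)) (v1 - ((r2 1 : ℂ) - r1 1))
      (v2 - ((r2 2 : ℂ) - r1 2)) nne qn (by linear_combination k11 - k12)
      (by linear_combination bn - na)
    obtain ⟨z, z0, z1, z2⟩ := null n0 n1 n2 (v0 - ((r3 0 : ℂ) - r1 0)) (v1 - ((r3 1 : ℂ) - r1 1))
      (v2 - ((r3 2 : ℂ) - r1 2)) nne qn (by linear_combination k11 - k13)
      (by linear_combination bn - na')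
    have a0 : (r2 0 : ℂ) - r1 0 = (x - y) * n0 := by linear_combination x0 - y0
    have a1 : (r2 1 : ℂ) - r1 1 = (x - y) * n1 := by linear_combination x1 - y1
    have a2 : (r2 2 : ℂ) - r1 2 = (x - y) * n2 := by linear_combination x2 - y2
    have a0' : (r3 0 : ℂ) - r1 0 = (x - z) * n0 := by linear_combination x0 - z0
    have a1' : (r3 1 : ℂ) - r1 1 = (x - z) * n1 := by linear_combination x1 - z1
    have a2' : (r3 2 : ℂ) - r1 2 = (x - z) * n2 := by linear_combination x2 - z2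
    apply hm
    rw [a0, a1, a2, a0', a1', a2']
    refine ⟨?_, ?_, ?_⟩ <;> ring

end Pool.Agent.Work.MP_81c58b_co.TG
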