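import Pool.Agent.Work.MP_81c58b_co.TG.Stmts

set_option autoImplicit false

namespace Pool.Agent.Work.MP_81c58b_co.TG

open scoped Classical

theorem KILL_pf : KILL := by
  intro R B E A Z c hE hZ
  have hsub : (E.filter (fun e => (∃ r, (e.1, e.2.1, r) ∈ A) ∧ ∃ z ∈ Z e.1 e.2.1,
      z ∈ Set.uIcc (tt e.2.2.1 e.1) (tt e.2.2.2 e.1))) ⊆
      (A.image (fun a => (a.1, a.2.1))).biUnion (fun p => (Z p.1 p.2).biUnion (fun z =>
        E.filter (fun e => e.1 = p.1 ∧ e.2.1 = p.2 ∧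
          z ∈ Set.uIcc (tt e.2.2.1 p.1) (tt e.2.2.2 p.1)))) := by
    intro e he
    rw [Finset.mem_filter] at he
    obtain ⟨heE, ⟨r, hr⟩, z, hz, hzu⟩ := he
    rw [Finset.mem_biUnion]
    refine ⟨(e.1, e.2.1), Finset.mem_image.mpr ⟨(e.1, e.2.1, r), hr, rfl⟩, ?_⟩
    rw [Finset.mem_biUnion]
    exact ⟨z, hz, Finset.mem_filter.mpr ⟨heE, rfl, rfl, hzu⟩⟩
  refine (Finset.card_le_card hsub).trans ?_
  refine Finset.card_biUnion_le.trans ?_
  calc ∑ p ∈ A.image (fun a => (a.1, a.2.1)), ((Z p.1 p.2).biUnion (fun z =>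
        E.filter (fun e => e.1 = p.1 ∧ e.2.1 = p.2 ∧
          z ∈ Set.uIcc (tt e.2.2.1 p.1) (tt e.2.2.2 p.1)))).card
      ≤ ∑ _p ∈ A.image (fun a => (a.1, a.2.1)), 4 * c := by
        refine Finset.sum_le_sum fun p _ => ?_
        refine Finset.card_biUnion_le.trans ?_
        refine (Finset.sum_le_card_nsmul _ _ 4 fun z _ => hE.thin p.1 p.2 z).trans ?_
        rw [smul_eq_mul, mul_comm]
        exact Nat.mul_le_mul_left 4 (hZ p.1 p.2)
    _ = 4 * c * nN A := by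
        rw [Finset.sum_const, smul_eq_mul, nN, mul_comm]

end Pool.Agent.Work.MP_81c58b_co.TG
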