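import Pool.Agent.Work.MP_81c58b_co.TG.Stmts

/-!
# MP_81c58b_co, block TG, item KST: few incidences from `K_{3,3}`-freeness

The trivial bound `I(R,B) ≤ 2 (|B| |R|^{2/3} + |R|)` (Kővári-Sós-Turán for `K_{3,3}`).
-/

set_option autoImplicit false

namespace Pool.Agent.Work.MP_81c58b_co.TG

namespace I_KST

open scoped Classical
open Finset

lemma inc_symm {r b : E3} (h : Inc r b) : Inc b r := by
  obtain ⟨h1, h2⟩ := h
  refine ⟨?_, ?_⟩
  · unfold q at h1 ⊢
    simp only [Pi.sub_apply] at h1 ⊢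
    nlinarith [h1]
  · simp only [Pi.sub_apply] at h2 ⊢
    intro h
    apply h2
    linarith

lemma tt_symm (r b : E3) : tt r b = tt b r := by
  unfold tt
  simp only [Pi.sub_apply]
  rw [← neg_sub (r 0) (b 0), ← neg_sub (r 1) (b 1), neg_div_neg_eq]

/-- three blues have at most two common reds -/
lemma common (h : K33) (R B : Finset E3) (hS : Str R B) (s : Finset E3)
    (hs : s ∈ powersetCard 3 B) : (R.filter (fun r => ∀ b ∈ s, Inc r b)).card ≤ 2 := by
  rw [mem_powersetCard] at hs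
  obtain ⟨hsB, hc⟩ := hs
  obtain ⟨x, y, z, hxy, hxz, hyz, rfl⟩ := card_eq_three.mp hc
  have hx : x ∈ B := hsB (by simp)
  have hy : y ∈ B := hsB (by simp)
  have hz : z ∈ B := hsB (by simp)
  apply h x y z
  intro r hr
  rw [mem_filter] at hr
  obtain ⟨hrR, hr⟩ := hr
  have ix : Inc r x := hr x (by simp)
  have iy : Inc r y := hr y (by simp)
  have iz : Inc r z := hr z (by simp)
  refine ⟨inc_symm ix, inc_symm iy, inc_symm iz, ?_, ?_, ?_⟩
  · rw [← tt_symm r x, ← tt_symm r y]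
    intro he
    exact hxy (hS.h1 r hrR x hx y hy ix iy he)
  · rw [← tt_symm r x, ← tt_symm r z]
    intro he
    exact hxz (hS.h1 r hrR x hx z hz ix iz he)
  · rw [← tt_symm r y, ← tt_symm r z]
    intro he
    exact hyz (hS.h1 r hrR y hy z hz iy iz he)

/-- the degree of a red -/
noncomputable def dg (B : Finset E3) (r : E3) : ℕ := (B.filter (fun b => Inc r b)).card

lemma sum_choose (h : K33) (R B : Finset E3) (hS : Str R B) :
    ∑ r ∈ R, (dg B r).choose 3 ≤ 2 * (B.card.choose 3) := by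
  have h1 : ∀ r ∈ R, (dg B r).choose 3 =
      ((powersetCard 3 B).bipartiteAbove (fun (r : E3) (s : Finset E3) => ∀ b ∈ s, Inc r b) r).card
      := by
    intro r _
    unfold dg bipartiteAbove
    rw [← card_powersetCard]
    congr 1
    ext s
    simp only [mem_powersetCard, mem_filter, subset_iff]
    constructor
    · rintro ⟨h1, h2⟩
      exact ⟨⟨fun b hb => (h1 hb).1, h2⟩, fun b hb => (h1 hb).2⟩
    · rintro ⟨⟨h1, h2⟩, h3⟩
      exact ⟨fun b hb => ⟨h1 hb, h3 b hb⟩, h2⟩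
  rw [sum_congr rfl h1, sum_card_bipartiteAbove_eq_sum_card_bipartiteBelow]
  calc ∑ s ∈ powersetCard 3 B, (R.bipartiteBelow
        (fun (r : E3) (s : Finset E3) => ∀ b ∈ s, Inc r b) s).card
      ≤ ∑ s ∈ powersetCard 3 B, 2 := sum_le_sum (fun s hs => common h R B hS s hs)
    _ = 2 * (B.card.choose 3) := by
        rw [sum_const, card_powersetCard, smul_eq_mul, mul_comm]

lemma sum_cube (h : K33) (R B : Finset E3) (hS : Str R B) :
    ∑ r ∈ R, (dg B r - 2) ^ 3 ≤ 2 * B.card ^ 3 := by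
  calc ∑ r ∈ R, (dg B r - 2) ^ 3
      ≤ ∑ r ∈ R, 6 * (dg B r).choose 3 := by
        apply sum_le_sum
        intro r _
        have h1 := Nat.pow_sub_le_descFactorial (dg B r) 3
        rw [Nat.descFactorial_eq_factorial_mul_choose] at h1
        have h2 : dg B r + 1 - 3 = dg B r - 2 := by omega
        rw [h2] at h1
        simpa [Nat.factorial] using h1
    _ = 6 * ∑ r ∈ R, (dg B r).choose 3 := by rw [mul_sum]
    _ ≤ 6 * (2 * (B.card.choose 3)) := Nat.mul_le_mul_left _ (sum_choose h R B hS)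
    _ = 2 * (B.card.descFactorial 3) := by
        rw [Nat.descFactorial_eq_factorial_mul_choose]
        simp [Nat.factorial]
        ring
    _ ≤ 2 * B.card ^ 3 := Nat.mul_le_mul_left _ (Nat.descFactorial_le_pow _ _)

lemma inc_eq (R B : Finset E3) : inc R B = ∑ r ∈ R, dg B r := by
  unfold inc dg
  rw [card_filter, sum_product]
  apply sum_congr rfl
  intro r _
  rw [card_filter]

end I_KST

open scoped Classical in
theorem KST_pf (h : K33) : KST := by
  intro R B hS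
  have h1 := I_KST.sum_cube h R B hS
  set E : ℝ := ∑ r ∈ R, ((I_KST.dg B r - 2 : ℕ) : ℝ) with hE
  have hE0 : 0 ≤ E := Finset.sum_nonneg (fun r _ => Nat.cast_nonneg _)
  have h2 : (inc R B : ℝ) ≤ 2 * R.card + E := by
    rw [I_KST.inc_eq, Nat.cast_sum]
    calc ∑ r ∈ R, ((I_KST.dg B r : ℕ) : ℝ)
        ≤ ∑ r ∈ R, (2 + ((I_KST.dg B r - 2 : ℕ) : ℝ)) := by
          apply Finset.sum_le_sum
          intro r _
          have : I_KST.dg B r ≤ 2 + (I_KST.dg B r - 2) := by omega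
          exact_mod_cast this
      _ = 2 * R.card + E := by
          rw [Finset.sum_add_distrib, Finset.sum_const, nsmul_eq_mul, hE]
          ring
  have h3 : E ^ 3 ≤ (R.card : ℝ) ^ 2 * (2 * (B.card : ℝ) ^ 3) := by
    have h4 : E ^ (2 + 1) / (R.card : ℝ) ^ 2 ≤ ∑ r ∈ R, ((I_KST.dg B r - 2 : ℕ) : ℝ) ^ (2 + 1) :=
      pow_sum_div_card_le_sum_pow (fun r _ => Nat.cast_nonneg _) 2
    have h5 : ∑ r ∈ R, ((I_KST.dg B r - 2 : ℕ) : ℝ) ^ (2 + 1) ≤ 2 * (B.card : ℝ) ^ 3 := by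
      have := h1
      have h6 : ((∑ r ∈ R, (I_KST.dg B r - 2) ^ 3 : ℕ) : ℝ) ≤ ((2 * B.card ^ 3 : ℕ) : ℝ) := by
        exact_mod_cast this
      push_cast at h6
      exact h6
    rcases Nat.eq_zero_or_pos R.card with h0 | h0
    · have : R = ∅ := Finset.card_eq_zero.mp h0
      subst this
      simp [hE]
    · have h7 : (0 : ℝ) < (R.card : ℝ) ^ 2 := by positivity
      have h8 := h4.trans h5
      rw [div_le_iff₀ h7] at h8
      calc E ^ 3 ≤ 2 * (B.card : ℝ) ^ 3 * (R.card : ℝ) ^ 2 := h8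
        _ = _ := by ring
  have hn : (0 : ℝ) ≤ (R.card : ℝ) := Nat.cast_nonneg _
  have hm : (0 : ℝ) ≤ (B.card : ℝ) := Nat.cast_nonneg _
  have hp : (0 : ℝ) ≤ (R.card : ℝ) ^ ((2 : ℝ) / 3) := Real.rpow_nonneg hn _
  have h9 : ((R.card : ℝ) ^ ((2 : ℝ) / 3)) ^ 3 = (R.card : ℝ) ^ 2 := by
    rw [← Real.rpow_natCast, ← Real.rpow_mul hn, ← Real.rpow_natCast]
    norm_num
  have h10 : E ≤ 2 * ((B.card : ℝ) * (R.card : ℝ) ^ ((2 : ℝ) / 3)) := by
    apply le_of_pow_le_pow_left₀ (n := 3) (by norm_num) (by positivity)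
    calc E ^ 3 ≤ (R.card : ℝ) ^ 2 * (2 * (B.card : ℝ) ^ 3) := h3
      _ ≤ (R.card : ℝ) ^ 2 * (8 * (B.card : ℝ) ^ 3) := by
          have : (0 : ℝ) ≤ (B.card : ℝ) ^ 3 := by positivity
          have : (0 : ℝ) ≤ (R.card : ℝ) ^ 2 := by positivity
          nlinarith
      _ = (2 * ((B.card : ℝ) * (R.card : ℝ) ^ ((2 : ℝ) / 3))) ^ 3 := by
          rw [mul_pow, mul_pow, h9]
          ring
  linarith

end Pool.Agent.Work.MP_81c58b_co.TG
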