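import Pool.Agent.Work.MP_81c58b_co.TG.Stmts

/-!
# MP_81c58b_co, block TG, item LENS
-/

set_option autoImplicit false

namespace Pool.Agent.Work.MP_81c58b_co.TG

namespace I_LENS

/-- coordinates of an incident pair -/
lemma coords {r b : E3} (h : Inc r b) :
    (b - r) 0 = tt r b * (b - r) 1 ∧ (b - r) 2 = - (tt r b) ^ 2 * (b - r) 1 := by
  obtain ⟨h1, h2⟩ := h
  have h3 : (b - r) 0 = tt r b * (b - r) 1 := by
    unfold tt
    rw [div_mul_cancel₀ _ h2]
  refine ⟨h3, ?_⟩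
  unfold q at h1
  rw [h3] at h1
  have h4 : (b - r) 1 * ((b - r) 2 - (- (tt r b) ^ 2 * (b - r) 1)) = 0 := by
    linear_combination h1
  rcases mul_eq_zero.1 h4 with h5 | h5
  · exact absurd h5 h2
  · linarith

/-- equal directions at `b` make `r' - r` null -/
lemma q_eq_zero {r r' b : E3} (h : Inc r b) (h' : Inc r' b) (ht : tt r b = tt r' b) :
    q (r' - r) = 0 := by
  obtain ⟨h1, h2⟩ := coords h
  obtain ⟨h1', h2'⟩ := coords h'
  rw [← ht] at h1' h2'
  have e0 : (r' - r) 0 = tt r b * ((b - r) 1 - (b - r') 1) := by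
    have : (r' - r) 0 = (b - r) 0 - (b - r') 0 := by
      simp only [Pi.sub_apply]; ring
    rw [this, h1, h1']; ring
  have e1 : (r' - r) 1 = (b - r) 1 - (b - r') 1 := by
    simp only [Pi.sub_apply]; ring
  have e2 : (r' - r) 2 = - (tt r b) ^ 2 * ((b - r) 1 - (b - r') 1) := by
    have : (r' - r) 2 = (b - r) 2 - (b - r') 2 := by
      simp only [Pi.sub_apply]; ring
    rw [this, h2, h2']; ring
  unfold q
  rw [e0, e1, e2]
  ring

lemma swapped_of_pos {r r' b c : E3} {kb kc Q : ℝ} (hQ : 0 < Q)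
    (hf : (tt r' b - tt r' c) * (kb * kc) = - Q * (tt r b - tt r c))
    (hne : tt r b ≠ tt r c) (hk : 0 < kb * kc) : Swapped r r' b c := by
  unfold Swapped
  have h1 : tt r b - tt r c ≠ 0 := sub_ne_zero.2 hne
  have h2 : 0 < (tt r b - tt r c) ^ 2 := by positivity
  have h3 : ((tt r b - tt r c) * (tt r' b - tt r' c)) * (kb * kc) =
      - Q * (tt r b - tt r c) ^ 2 := by
    calc ((tt r b - tt r c) * (tt r' b - tt r' c)) * (kb * kc) =
        (tt r b - tt r c) * ((tt r' b - tt r' c) * (kb * kc)) := by ring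
      _ = _ := by rw [hf]; ring
  by_contra hcon
  push Not at hcon
  have h4 : 0 ≤ ((tt r b - tt r c) * (tt r' b - tt r' c)) * (kb * kc) := by positivity
  have h5 : 0 < Q * (tt r b - tt r c) ^ 2 := by positivity
  linarith

lemma neg_of_noswap {r r' b c : E3} {kb kc Q : ℝ} (hQ : 0 < Q)
    (hf : (tt r' b - tt r' c) * (kb * kc) = - Q * (tt r b - tt r c))
    (hns : 0 < (tt r b - tt r c) * (tt r' b - tt r' c)) : kb * kc < 0 := by
  have h1 : tt r b - tt r c ≠ 0 := by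
    intro h
    rw [h] at hns
    simp at hns
  have h2 : 0 < (tt r b - tt r c) ^ 2 := by positivity
  have h3 : ((tt r b - tt r c) * (tt r' b - tt r' c)) * (kb * kc) =
      - Q * (tt r b - tt r c) ^ 2 := by
    calc ((tt r b - tt r c) * (tt r' b - tt r' c)) * (kb * kc) =
        (tt r b - tt r c) * ((tt r' b - tt r' c) * (kb * kc)) := by ring
      _ = _ := by rw [hf]; ring
  by_contra hcon
  push Not at hcon
  have h4 : 0 ≤ ((tt r b - tt r c) * (tt r' b - tt r' c)) * (kb * kc) := by positivity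
  have h5 : 0 < Q * (tt r b - tt r c) ^ 2 := by positivity
  linarith

end I_LENS

open I_LENS in
theorem LENS_pf (h1 : NOSWAP) (h2 : SWAP) : LENS := by
  intro b1 b1' b2 b2' r r' E1 E2 hn1 hn2 hgen
  obtain ⟨hQ, hs1⟩ := h1 _ _ _ _ E1
  obtain ⟨-, hs2⟩ := h1 _ _ _ _ E2
  obtain ⟨-, -, i1, i1', j1, j1', -⟩ := E1
  obtain ⟨-, -, i2, i2', j2, j2', -⟩ := E2
  -- directions at r and r' differ
  have hd : ∀ b : E3, Inc r b → Inc r' b → tt r b ≠ tt r' b := by
    intro b hb hb' ht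
    have := q_eq_zero hb hb' ht
    rw [this] at hQ
    exact lt_irrefl _ hQ
  set kap : E3 → ℝ := fun x => (r' - r) 1 * tt r x - (r' - r) 0 with hkap
  have hf : ∀ b c : E3, Inc r b → Inc r' b → Inc r c → Inc r' c →
      (tt r' b - tt r' c) * (kap b * kap c) = - q (r' - r) * (tt r b - tt r c) := by
    intro b c a1 a2 a3 a4
    exact (h2 r r' b c a1 a2 a3 a4 (hd b a1 a2) (hd c a3 a4)).2.2
  have g1 : kap b1 * kap b1' < 0 := neg_of_noswap hQ (hf b1 b1' i1 j1 i1' j1') hs1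
  have g2 : kap b2 * kap b2' < 0 := neg_of_noswap hQ (hf b2 b2' i2 j2 i2' j2') hs2
  have key : ∀ b c : E3, Inc r b → Inc r' b → Inc r c → Inc r' c →
      b ∈ ({b1, b1', b2, b2'} : Set E3) → c ∈ ({b1, b1', b2, b2'} : Set E3) →
      b ≠ c → 0 < kap b * kap c → Swapped r r' b c := by
    intro b c a1 a2 a3 a4 mb mc hbc hk
    exact swapped_of_pos hQ (hf b c a1 a2 a3 a4) (hgen b mb c mc hbc) hk
  have m1 : b1 ∈ ({b1, b1', b2, b2'} : Set E3) := by simp
  have m1' : b1' ∈ ({b1, b1', b2, b2'} : Set E3) := by simp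
  have m2 : b2 ∈ ({b1, b1', b2, b2'} : Set E3) := by simp
  have m2' : b2' ∈ ({b1, b1', b2, b2'} : Set E3) := by simp
  rcases mul_neg_iff.1 g1 with ⟨p1, n1⟩ | ⟨n1, p1⟩ <;>
    rcases mul_neg_iff.1 g2 with ⟨p2, n2⟩ | ⟨n2, p2⟩
  · -- b1, b2 positive; b1', b2' negative
    by_cases h : b1 = b2
    · by_cases h' : b1' = b2'
      · exact absurd ⟨h, h'⟩ hn1
      · exact Or.inr (Or.inr (Or.inr (key b1' b2' i1' j1' i2' j2' m1' m2' h'
          (mul_pos_of_neg_of_neg n1 n2))))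
    · exact Or.inl (key b1 b2 i1 j1 i2 j2 m1 m2 h (mul_pos p1 p2))
  · -- b1, b2' positive; b1', b2 negative
    by_cases h : b1 = b2'
    · by_cases h' : b1' = b2
      · exact absurd ⟨h, h'⟩ hn2
      · exact Or.inr (Or.inr (Or.inl (key b1' b2 i1' j1' i2 j2 m1' m2 h'
          (mul_pos_of_neg_of_neg n1 n2))))
    · exact Or.inr (Or.inl (key b1 b2' i1 j1 i2' j2' m1 m2' h (mul_pos p1 p2)))
  · -- b1', b2 positive; b1, b2' negative
    by_cases h : b1' = b2
    · by_cases h' : b1 = b2'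
      · exact absurd ⟨h', h⟩ hn2
      · exact Or.inr (Or.inl (key b1 b2' i1 j1 i2' j2' m1 m2' h'
          (mul_pos_of_neg_of_neg n1 n2)))
    · exact Or.inr (Or.inr (Or.inl (key b1' b2 i1' j1' i2 j2 m1' m2 h (mul_pos p1 p2))))
  · -- b1', b2' positive; b1, b2 negative
    by_cases h : b1' = b2'
    · by_cases h' : b1 = b2
      · exact absurd ⟨h', h⟩ hn1
      · exact Or.inl (key b1 b2 i1 j1 i2 j2 m1 m2 h' (mul_pos_of_neg_of_neg n1 n2))
    · exact Or.inr (Or.inr (Or.inr (key b1' b2' i1' j1' i2' j2' m1' m2' h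
        (mul_pos p1 p2))))

end Pool.Agent.Work.MP_81c58b_co.TG
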