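import Pool.Agent.Work.MP_81c58b_co.TG.Stmts

/-!
MP_81c58b_co, block TG, item LINE2: a null line through `r` in the zero set of `h`.
-/

set_option autoImplicit false

namespace Pool.Agent.Work.MP_81c58b_co.TG

open MvPolynomial

namespace I_LINE2

/-- the linear polynomial vanishing on the line `P + s u` -/
noncomputable def lam (P u : Fin 2 → ℝ) : MvPolynomial (Fin 2) ℝ :=
  C (u 1) * (X 0 - C (P 0)) - C (u 0) * (X 1 - C (P 1))

lemma eval_lam (P u p : Fin 2 → ℝ) :
    eval p (lam P u) = u 1 * (p 0 - P 0) - u 0 * (p 1 - P 1) := by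
  unfold lam
  simp

/-- substitution congruent to the identity modulo `l` -/
lemma dvd_sub (l : MvPolynomial (Fin 2) ℝ) (g : Fin 2 → MvPolynomial (Fin 2) ℝ)
    (hg : ∀ i, l ∣ g i - X i) (h : MvPolynomial (Fin 2) ℝ) : l ∣ aeval g h - h := by
  rw [← Ideal.mem_span_singleton, ← Ideal.Quotient.eq]
  have key : (Ideal.Quotient.mkₐ ℝ (Ideal.span {l})).comp (aeval g) =
      Ideal.Quotient.mkₐ ℝ (Ideal.span {l}) := by
    apply MvPolynomial.algHom_ext
    intro i
    simp only [AlgHom.comp_apply, aeval_X]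
    rw [Ideal.Quotient.mkₐ_eq_mk, Ideal.Quotient.eq, Ideal.mem_span_singleton]
    exact hg i
  have h2 := DFunLike.congr_fun key h
  simpa [Ideal.Quotient.mkₐ_eq_mk] using h2

lemma lam_dvd (P u : Fin 2 → ℝ) (hu : u 0 ≠ 0 ∨ u 1 ≠ 0) (h : MvPolynomial (Fin 2) ℝ)
    (hv : ∀ s : ℝ, eval (fun i => P i + s * u i) h = 0) : lam P u ∣ h := by
  obtain ⟨i, hi⟩ : ∃ i : Fin 2, u i ≠ 0 := by
    rcases hu with h0 | h1
    · exact ⟨0, h0⟩
    · exact ⟨1, h1⟩
  let g : Fin 2 → MvPolynomial (Fin 2) ℝ := fun j =>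
    C (P j) + C (u j) * (C (u i)⁻¹ * (X i - C (P i)))
  have hz : aeval g h = 0 := by
    apply MvPolynomial.funext
    intro p
    rw [map_zero]
    have e1 : eval p (aeval g h) = eval (fun j => eval p (g j)) h := by
      have key : (eval p).comp
          (aeval g : MvPolynomial (Fin 2) ℝ →ₐ[ℝ] MvPolynomial (Fin 2) ℝ).toRingHom =
          eval (fun j => eval p (g j)) := by
        apply MvPolynomial.ringHom_ext
        · intro a; simp
        · intro j; simp
      exact DFunLike.congr_fun key h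
    rw [e1]
    have e2 : (fun j => eval p (g j)) = fun j => P j + ((u i)⁻¹ * (p i - P i)) * u j := by
      funext j
      simp only [g, map_add, map_mul, map_sub, eval_C, eval_X]
      ring
    rw [e2]
    exact hv _
  have hd : lam P u ∣ aeval g h - h := by
    apply dvd_sub
    intro j
    have hCi : C (u i) * C (u i)⁻¹ = (1 : MvPolynomial (Fin 2) ℝ) := by
      rw [← C_mul, mul_inv_cancel₀ hi, C_1]
    fin_cases i <;> fin_cases j
    · refine ⟨0, ?_⟩
      simp only [g] at *
      simp only [Fin.zero_eta, Fin.isValue] at *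
      linear_combination (X 0 - C (P 0)) * hCi
    · refine ⟨C (u 0)⁻¹, ?_⟩
      simp only [g, lam] at *
      simp only [Fin.zero_eta, Fin.mk_one, Fin.isValue] at *
      linear_combination (X 1 - C (P 1)) * hCi
    · refine ⟨- C (u 1)⁻¹, ?_⟩
      simp only [g, lam] at *
      simp only [Fin.zero_eta, Fin.mk_one, Fin.isValue] at *
      linear_combination (X 0 - C (P 0)) * hCi
    · refine ⟨0, ?_⟩
      simp only [g] at *
      simp only [Fin.mk_one, Fin.isValue] at *
      linear_combination (X 1 - C (P 1)) * hCi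
  rw [hz, zero_sub, dvd_neg] at hd
  exact hd

lemma prE_ne (e0 e1 : ℝ) (he : e0 ^ 2 + e1 ≠ 0) (v : E3) (hv : v ≠ 0) (hq : q v = 0) :
    prE e0 e1 v 0 ≠ 0 ∨ prE e0 e1 v 1 ≠ 0 := by
  by_contra hcon
  push Not at hcon
  obtain ⟨h0, h1⟩ := hcon
  simp only [prE, Matrix.cons_val_zero, Matrix.cons_val_one] at h0 h1
  have a0 : v 0 = e0 * v 2 := by linarith
  have a1 : v 1 = e1 * v 2 := by linarith
  have hq' : v 2 ^ 2 * (e0 ^ 2 + e1) = 0 := by
    unfold q at hq
    rw [a0, a1] at hq
    linear_combination hq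
  have a2 : v 2 = 0 := by
    rcases mul_eq_zero.1 hq' with h | h
    · exact pow_eq_zero_iff (two_ne_zero) |>.1 h
    · exact absurd h he
  apply hv
  funext i
  fin_cases i
  · simp [a0, a2]
  · simp [a1, a2]
  · simp [a2]

lemma roots_le (a b c : ℝ) (hbc : b ≠ 0 ∨ c ≠ 0) (S : Finset ℝ)
    (hS : ∀ t ∈ S, a * t ^ 2 + b * t + c = 0) : S.card ≤ 2 := by
  classical
  let p : Polynomial ℝ := Polynomial.C a * Polynomial.X ^ 2 + Polynomial.C b * Polynomial.X +
    Polynomial.C c
  have hp : p ≠ 0 := by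
    intro h0
    rcases hbc with h | h
    · apply h
      have := congrArg (fun r => Polynomial.coeff r 1) h0
      simpa [p, Polynomial.coeff_X, Polynomial.coeff_C, Polynomial.coeff_X_pow] using this
    · apply h
      have := congrArg (fun r => Polynomial.coeff r 0) h0
      simpa [p, Polynomial.coeff_X, Polynomial.coeff_C, Polynomial.coeff_X_pow] using this
  have hsub : S ⊆ p.roots.toFinset := by
    intro t ht
    rw [Multiset.mem_toFinset, Polynomial.mem_roots hp, Polynomial.IsRoot.def]
    simp only [p, Polynomial.eval_add, Polynomial.eval_mul, Polynomial.eval_C,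
      Polynomial.eval_pow, Polynomial.eval_X]
    exact hS t ht
  calc S.card ≤ p.roots.toFinset.card := Finset.card_le_card hsub
    _ ≤ Multiset.card p.roots := Multiset.toFinset_card_le _
    _ ≤ p.natDegree := Polynomial.card_roots' p
    _ ≤ 2 := Polynomial.natDegree_quadratic_le

end I_LINE2

theorem LINE2_pf : LINE2 := by
  classical
  intro e0 e1 h r he hirr hNL Z hZ hinj
  obtain ⟨v, hv, hq, hline⟩ := hNL
  have hu := I_LINE2.prE_ne e0 e1 he v hv hq
  set u := prE e0 e1 v with hu_def
  set P := prE e0 e1 r with hP_def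
  have hdvd : I_LINE2.lam P u ∣ h := by
    apply I_LINE2.lam_dvd P u hu h
    intro s
    have e : (fun i => P i + s * u i) = prE e0 e1 (r + s • v) := by
      funext i
      fin_cases i
      · simp [hP_def, hu_def, prE]; ring
      · simp [hP_def, hu_def, prE]; ring
    rw [e]
    exact hline s
  obtain ⟨c, hc⟩ := hdvd
  have hnu : ¬ IsUnit (I_LINE2.lam P u) := by
    intro hun
    have h1 := hun.map (eval P)
    rw [I_LINE2.eval_lam] at h1
    simp at h1
  have hcu : IsUnit c := by
    rcases hirr.isUnit_or_isUnit hc with h1 | h1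
    · exact absurd h1 hnu
    · exact h1
  have hroot : ∀ b ∈ Z, (u 1 * e0 - u 0 * e1) * tt r b ^ 2 + u 1 * tt r b + (- u 0) = 0 := by
    intro b hb
    obtain ⟨⟨hq0, hs⟩, hev⟩ := hZ b hb
    rw [hc, map_mul] at hev
    have hc0 : eval (prE e0 e1 b) c ≠ 0 := (hcu.map (eval (prE e0 e1 b))).ne_zero
    have hl : eval (prE e0 e1 b) (I_LINE2.lam P u) = 0 := by
      rcases mul_eq_zero.1 hev with h1 | h1
      · exact h1
      · exact absurd h1 hc0
    rw [I_LINE2.eval_lam] at hl
    simp only [hP_def, prE, Matrix.cons_val_zero, Matrix.cons_val_one] at hl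
    unfold q at hq0
    have ht : tt r b * (b - r) 1 = (b - r) 0 := by
      unfold tt
      field_simp
    set s := (b - r) 1 with hs_def
    set t := tt r b with ht_def
    have e0' : b 0 - r 0 = t * s := by rw [ht]; simp
    have e1' : b 1 - r 1 = s := by rw [hs_def]; simp
    have e2' : b 2 - r 2 = - t ^ 2 * s := by
      have h3 : (b - r) 2 = b 2 - r 2 := by simp
      have h4 : (b - r) 0 = t * s := ht.symm
      rw [h4] at hq0
      have h5 : s * ((b - r) 2 + t ^ 2 * s) = 0 := by linear_combination hq0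
      rcases mul_eq_zero.1 h5 with h6 | h6
      · exact absurd h6 hs
      · rw [h3] at h6; linear_combination h6
    have h7 : s * ((u 1 * e0 - u 0 * e1) * t ^ 2 + u 1 * t + (- u 0)) = 0 := by
      linear_combination hl - u 1 * e0' + u 0 * e1' + (u 1 * e0 - u 0 * e1) * e2'
    rcases mul_eq_zero.1 h7 with h8 | h8
    · exact absurd h8 hs
    · exact h8
  have hcard : Z.card = (Z.image (tt r)).card := by
    rw [Finset.card_image_of_injOn]
    intro b hb b' hb' hbb
    exact hinj b hb b' hb' hbb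
  rw [hcard]
  apply I_LINE2.roots_le (u 1 * e0 - u 0 * e1) (u 1) (- u 0)
  · rcases hu with h1 | h1
    · right; simpa using h1
    · left; exact h1
  · intro t ht
    obtain ⟨b, hb, rfl⟩ := Finset.mem_image.1 ht
    exact hroot b hb

end Pool.Agent.Work.MP_81c58b_co.TG
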