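import Pool.Agent.Work.MP_81c58b_co.TG.Stmts

/-!
# MP_81c58b_co, block TG, item MASS
-/

set_option autoImplicit false

namespace Pool.Agent.Work.MP_81c58b_co.TG

open MvPolynomial
open scoped Classical

namespace I_MASS

/-- a family of sets, each with at most `deg (f j)` elements, covers -/
lemma cover {t0 : ℕ} (f : Fin t0 → MvPolynomial (Fin 3) ℝ) (K : Finset E3)
    (P : Fin t0 → E3 → Prop) (hK : ∀ b ∈ K, ∃ j, P j b)
    (hc : ∀ j, (K.filter (fun b => P j b)).card ≤ (f j).totalDegree) :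
    K.card ≤ ∑ j, (f j).totalDegree := by
  have hsub : K ⊆ (Finset.univ : Finset (Fin t0)).biUnion (fun j => K.filter (fun b => P j b)) := by
    intro b hb
    obtain ⟨j, hj⟩ := hK b hb
    exact Finset.mem_biUnion.2 ⟨j, Finset.mem_univ j, Finset.mem_filter.2 ⟨hb, hj⟩⟩
  calc K.card ≤ _ := Finset.card_le_card hsub
    _ ≤ ∑ j, (K.filter (fun b => P j b)).card := Finset.card_biUnion_le
    _ ≤ ∑ j, (f j).totalDegree := Finset.sum_le_sum (fun j _ => hc j)

/-- the partners of `b` which count -/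
noncomputable def KK (R : Finset E3) (N : Finset (E3 × E3)) {t0 : ℕ}
    (f : Fin t0 → MvPolynomial (Fin 3) ℝ) (b : E3) : Finset E3 :=
  (((N.filter (fun z => ∃ j, Conic (f j) z.1 z.2)).filter (fun z => z.1 = b)).image
    Prod.snd).filter (fun b' => (cn R b b').Nonempty)

lemma memKK (R : Finset E3) (N : Finset (E3 × E3)) {t0 : ℕ}
    (f : Fin t0 → MvPolynomial (Fin 3) ℝ) (b x : E3) (hx : x ∈ KK R N f b) :
    (b, x) ∈ N ∧ (∃ j, Conic (f j) b x) ∧ (cn R b x).Nonempty := by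
  unfold KK at hx
  obtain ⟨h1, h2⟩ := Finset.mem_filter.1 hx
  obtain ⟨z, hz, rfl⟩ := Finset.mem_image.1 h1
  obtain ⟨h3, h4⟩ := Finset.mem_filter.1 hz
  obtain ⟨h5, h6⟩ := Finset.mem_filter.1 h3
  subst h4
  exact ⟨h5, h6, h2⟩

lemma sumKK (R : Finset E3) (N : Finset (E3 × E3)) {t0 : ℕ}
    (f : Fin t0 → MvPolynomial (Fin 3) ℝ) (b : E3) :
    ∑ z ∈ (N.filter (fun z => ∃ j, Conic (f j) z.1 z.2)).filter (fun z => z.1 = b),
      (cn R z.1 z.2).card = ∑ b' ∈ KK R N f b, (cn R b b').card := by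
  set F := (N.filter (fun z => ∃ j, Conic (f j) z.1 z.2)).filter (fun z => z.1 = b) with hF
  have hinj : Set.InjOn (Prod.snd : E3 × E3 → E3) (F : Set (E3 × E3)) := by
    intro z hz w hw h
    have hz' := (Finset.mem_filter.1 (Finset.mem_coe.1 hz)).2
    have hw' := (Finset.mem_filter.1 (Finset.mem_coe.1 hw)).2
    exact Prod.ext (hz'.trans hw'.symm) h
  have h1 : ∑ z ∈ F, (cn R z.1 z.2).card = ∑ b' ∈ F.image Prod.snd, (cn R b b').card := by
    rw [Finset.sum_image hinj]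
    refine Finset.sum_congr rfl ?_
    intro z hz
    rw [(Finset.mem_filter.1 hz).2]
  rw [h1]
  unfold KK
  rw [Finset.sum_filter_of_ne]
  intro x _ hx
  exact Finset.card_ne_zero.1 hx

lemma cardM (R B : Finset E3) (N : Finset (E3 × E3)) (M : ℝ) {t0 : ℕ}
    (f : Fin t0 → MvPolynomial (Fin 3) ℝ) (hN : Near B N M) (b : E3) (hb : b ∈ B) :
    ((KK R N f b).card : ℝ) ≤ M := by
  refine le_trans ?_ (hN.card b hb)
  have h1 : (KK R N f b).card ≤ ((N.filter (fun z => ∃ j, Conic (f j) z.1 z.2)).filter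
      (fun z => z.1 = b)).card :=
    (Finset.card_filter_le _ _).trans Finset.card_image_le
  have h2 : ((N.filter (fun z => ∃ j, Conic (f j) z.1 z.2)).filter
      (fun z => z.1 = b)).card ≤ (N.filter (fun z => z.1 = b)).card := by
    refine Finset.card_le_card ?_
    intro z hz
    obtain ⟨h3, h4⟩ := Finset.mem_filter.1 hz
    exact Finset.mem_filter.2 ⟨(Finset.mem_filter.1 h3).1, h4⟩
  exact_mod_cast h1.trans h2

lemma cardD (h3 : CONI) (h4 : PAR) (R B : Finset E3) (N : Finset (E3 × E3)) (M : ℝ) {t0 : ℕ}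
    (f : Fin t0 → MvPolynomial (Fin 3) ℝ) (hS : Str R B) (hN : Near B N M) (b : E3) (hb : b ∈ B)
    (hcone : ∀ j, ¬ Cone (f j) b) :
    (KK R N f b).card ≤ ∑ j, (f j).totalDegree := by
  refine cover f _ (fun j b' => Conic (f j) b b') (fun x hx => (memKK R N f b x hx).2.1) ?_
  intro j
  refine h3 (f j) b (hcone j) _ ?_
  intro x hx
  obtain ⟨hx1, hx2⟩ := Finset.mem_filter.1 hx
  obtain ⟨hm, _, r, hr⟩ := memKK R N f b x hx1
  refine ⟨?_, hx2⟩
  unfold cn at hr
  obtain ⟨hrR, hrb, hrx⟩ := Finset.mem_filter.1 hr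
  have hne : b ≠ x := (hN.mem _ hm).2.2
  have hxB : x ∈ B := (hN.mem _ hm).2.1
  have htt : tt r b ≠ tt r x := fun h => hne (hS.h1 r hrR b hb x hxB hrb hrx h)
  exact (h4 r b x hne hrb hrx htt).1

lemma inclKK (h1 : INCL) (R B : Finset E3) (N : Finset (E3 × E3)) (M : ℝ) {t0 : ℕ}
    (f : Fin t0 → MvPolynomial (Fin 3) ℝ) (hS : Str R B) (hN : Near B N M) (b : E3)
    (hb : b ∈ B) :
    ∑ b' ∈ KK R N f b, (cn R b b').card ≤ (R.filter (fun r => Inc r b)).card +
      (KK R N f b).card ^ 2 := by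
  refine h1 R B _ b hS hb ?_ ?_
  · intro x hx
    exact (hN.mem _ (memKK R N f b x hx).1).2.1
  · intro hx
    exact (hN.mem _ (memKK R N f b b hx).1).2.2 rfl

lemma incSum (R B : Finset E3) :
    inc R B = ∑ b ∈ B, (R.filter (fun r => Inc r b)).card := by
  unfold inc
  rw [Finset.card_filter, Finset.sum_product_right]
  refine Finset.sum_congr rfl ?_
  intro b _
  rw [Finset.card_filter]

end I_MASS

open I_MASS in
theorem MASS_pf (h1 : INCL) (h2 : CONT) (h3 : CONI) (h4 : PAR) : MASS := by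
  intro R B N M t0 f hS hN hM hf
  set D : ℕ := ∑ j, (f j).totalDegree with hD
  have hmaps : ∀ z ∈ N.filter (fun z => ∃ j, Conic (f j) z.1 z.2), z.1 ∈ B :=
    fun z hz => (hN.mem z (Finset.mem_filter.1 hz).1).1
  rw [← Finset.sum_fiberwise_of_maps_to hmaps]
  have hpt : ∀ b ∈ B,
      ((∑ z ∈ (N.filter (fun z => ∃ j, Conic (f j) z.1 z.2)).filter (fun z => z.1 = b),
        (cn R z.1 z.2).card : ℕ) : ℝ) ≤ ((R.filter (fun r => Inc r b)).card : ℝ) +
        (D : ℝ) ^ 2 + (if ∃ j, Cone (f j) b then M ^ 2 else 0) := by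
    intro b hb
    rw [sumKK]
    have hi : ((∑ b' ∈ KK R N f b, (cn R b b').card : ℕ) : ℝ) ≤
        ((R.filter (fun r => Inc r b)).card : ℝ) + ((KK R N f b).card : ℝ) ^ 2 := by
      exact_mod_cast inclKK h1 R B N M f hS hN b hb
    by_cases hc : ∃ j, Cone (f j) b
    · rw [if_pos hc]
      have hk := cardM R B N M f hN b hb
      have hk2 : ((KK R N f b).card : ℝ) ^ 2 ≤ M ^ 2 :=
        pow_le_pow_left₀ (Nat.cast_nonneg _) hk 2
      have hD2 : (0 : ℝ) ≤ (D : ℝ) ^ 2 := sq_nonneg _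
      linarith
    · rw [if_neg hc]
      have hk := cardD h3 h4 R B N M f hS hN b hb (fun j hj => hc ⟨j, hj⟩)
      have hk1 : ((KK R N f b).card : ℝ) ≤ (D : ℝ) := by exact_mod_cast hk
      have hk2 : ((KK R N f b).card : ℝ) ^ 2 ≤ (D : ℝ) ^ 2 :=
        pow_le_pow_left₀ (Nat.cast_nonneg _) hk1 2
      linarith
  have hbad : ((B.filter (fun b => ∃ j, Cone (f j) b)).card : ℝ) ≤ (D : ℝ) := by
    have : (B.filter (fun b => ∃ j, Cone (f j) b)).card ≤ D := by
      refine cover f _ (fun j b => Cone (f j) b) (fun b hb => (Finset.mem_filter.1 hb).2) ?_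
      intro j
      refine h2 (f j) (hf j) _ ?_
      intro b hb
      exact (Finset.mem_filter.1 hb).2
    exact_mod_cast this
  have hsum : ∑ b ∈ B, (if ∃ j, Cone (f j) b then M ^ 2 else 0) ≤ (D : ℝ) * M ^ 2 := by
    rw [← Finset.sum_filter, Finset.sum_const, nsmul_eq_mul]
    exact mul_le_mul_of_nonneg_right hbad (sq_nonneg M)
  rw [incSum]
  rw [Nat.cast_sum]
  calc _ ≤ ∑ b ∈ B, (((R.filter (fun r => Inc r b)).card : ℝ) +
        (D : ℝ) ^ 2 + (if ∃ j, Cone (f j) b then M ^ 2 else 0)) := Finset.sum_le_sum hpt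
    _ = ∑ b ∈ B, ((R.filter (fun r => Inc r b)).card : ℝ) + B.card * (D : ℝ) ^ 2 +
        ∑ b ∈ B, (if ∃ j, Cone (f j) b then M ^ 2 else 0) := by
        rw [Finset.sum_add_distrib, Finset.sum_add_distrib, Finset.sum_const, nsmul_eq_mul]
    _ ≤ _ := by
        have hcast : ((∑ b ∈ B, (R.filter (fun r => Inc r b)).card : ℕ) : ℝ) =
            ∑ b ∈ B, ((R.filter (fun r => Inc r b)).card : ℝ) := Nat.cast_sum _ _
        rw [hcast]
        linarith

end Pool.Agent.Work.MP_81c58b_co.TG
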