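import Pool.Agent.Work.MP_81c58b_co.TG.Stmts

set_option autoImplicit false

namespace Pool.Agent.Work.MP_81c58b_co.TG

namespace I_NOSWAP

lemma ivt_pos (f : ℝ → ℝ) (a b : ℝ) (hf : Continuous f) (h : ∀ u ∈ Set.uIcc a b, f u ≠ 0) :
    0 < f a * f b := by
  by_contra hc
  have hc' : f a * f b ≤ 0 := not_lt.mp hc
  have h0 : (0 : ℝ) ∈ Set.uIcc (f a) (f b) := by
    rw [Set.mem_uIcc]
    rcases mul_nonpos_iff.mp hc' with h1 | h1
    · right; exact ⟨h1.2, h1.1⟩
    · left; exact ⟨h1.1, h1.2⟩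
  obtain ⟨u, hu, hu0⟩ := intermediate_value_uIcc (hf.continuousOn) h0
  exact h u hu hu0

lemma inc_eq (r b : E3) (h : Inc r b) :
    (b - r) 0 = (b - r) 1 * tt r b ∧ (b - r) 2 = - ((b - r) 1 * tt r b ^ 2) := by
  obtain ⟨h1, h2⟩ := h
  have e0 : (b - r) 0 = (b - r) 1 * tt r b := by
    unfold tt; field_simp
  refine ⟨e0, ?_⟩
  unfold q at h1
  have : (b - r) 1 * ((b - r) 2 + (b - r) 1 * tt r b ^ 2) = 0 := by
    rw [e0] at h1
    linarith [h1, sq ((b - r) 1 * tt r b)] 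
  rcases mul_eq_zero.mp this with h3 | h3
  · exact absurd h3 h2
  · linarith

lemma ell_zero (r b b' : E3) (h : Inc r b) (h' : Inc r b') (e : tt r b = tt r b') :
    ell (b' - b) (tt r b) = 0 := by
  obtain ⟨a0, a2⟩ := inc_eq r b h
  obtain ⟨c0, c2⟩ := inc_eq r b' h'
  rw [← e] at c0 c2
  simp only [Pi.sub_apply] at a0 a2 c0 c2
  unfold ell
  simp only [Pi.sub_apply]
  have x0 : b' 0 - b 0 = ((b' 1 - r 1) - (b 1 - r 1)) * tt r b := by linarith
  have x2 : b' 2 - b 2 = - (((b' 1 - r 1) - (b 1 - r 1)) * tt r b ^ 2) := by linarith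
  rw [x0, x2]; ring

lemma q_crv (b b' : E3) (t t' : ℝ) :
    q (crv b b' t' - crv b b' t) =
      (q (b' - b) / ell (b' - b) t) * (q (b' - b) / ell (b' - b) t') * (t - t') ^ 2 := by
  generalize hs : q (b' - b) / ell (b' - b) t = s
  generalize hs' : q (b' - b) / ell (b' - b) t' = s'
  unfold q crv
  rw [hs, hs']
  simp [nu]
  ring

lemma diff (d : E3) (t : ℝ) (h : d 1 * t ≠ d 0) : t - mob d t = - ell d t / (d 1 * t - d 0) := by
  have h' : d 1 * t - d 0 ≠ 0 := sub_ne_zero.mpr h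
  unfold mob ell
  rw [eq_div_iff h', sub_mul, div_mul_cancel₀ _ h']
  ring

end I_NOSWAP

open I_NOSWAP in
theorem NOSWAP_pf (h : PAR) : NOSWAP := by
  intro b b' r r' hE
  obtain ⟨hbb, hrr, h1, h2, h3, h4, hG⟩ := hE
  have g1 := hG (tt r b) Set.left_mem_uIcc
  have g2 := hG (tt r' b) Set.right_mem_uIcc
  have n1 : tt r b ≠ tt r b' := fun e => g1.1 (ell_zero r b b' h1 h2 e)
  have n2 : tt r' b ≠ tt r' b' := fun e => g2.1 (ell_zero r' b b' h3 h4 e)
  obtain ⟨p1, p2, p3, p4, p5⟩ := h r b b' hbb h1 h2 n1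
  obtain ⟨p1', p2', p3', p4', p5'⟩ := h r' b b' hbb h3 h4 n2
  have htt : tt r b ≠ tt r' b := by
    intro e
    apply hrr
    rw [p4, p4', e]
  have i1 : 0 < ell (b' - b) (tt r b) * ell (b' - b) (tt r' b) := by
    apply ivt_pos (fun u => ell (b' - b) u)
    · unfold ell; fun_prop
    · exact fun u hu => (hG u hu).1
  have i2 : 0 < ((b' - b) 1 * tt r b - (b' - b) 0) * ((b' - b) 1 * tt r' b - (b' - b) 0) := by
    apply ivt_pos (fun u => (b' - b) 1 * u - (b' - b) 0)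
    · fun_prop
    · exact fun u hu => sub_ne_zero.mpr (hG u hu).2
  constructor
  · have e : q (r' - r) = q (crv b b' (tt r' b) - crv b b' (tt r b)) := by
      rw [← p4, ← p4']
    rw [e, q_crv]
    have hq : 0 < q (b' - b) * q (b' - b) := mul_self_pos.mpr p1
    have : q (b' - b) / ell (b' - b) (tt r b) * (q (b' - b) / ell (b' - b) (tt r' b)) =
      (q (b' - b) * q (b' - b)) / (ell (b' - b) (tt r b) * ell (b' - b) (tt r' b)) := by
      rw [div_mul_div_comm]
    rw [this]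
    exact mul_pos (div_pos hq i1) (by have := sub_ne_zero.mpr htt; positivity)
  · rw [p5, p5', diff _ _ p3, diff _ _ p3', div_mul_div_comm]
    apply div_pos _ i2
    linarith [neg_mul_neg (ell (b' - b) (tt r b)) (ell (b' - b) (tt r' b))]

end Pool.Agent.Work.MP_81c58b_co.TG
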