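import Pool.Agent.Work.MP_81c58b_co.TG.Stmts

/-!
# MP_81c58b_co, block TG, item PAIR
-/

set_option autoImplicit false

namespace Pool.Agent.Work.MP_81c58b_co.TG

open MvPolynomial
open Pool.Agent.Work.MP_916cc8_co (sameCl Part War CW Bez Clr)

namespace I_PAIR

theorem slice_eval (f : MvPolynomial (Fin 4) ℝ) (p : E3) (t : ℝ) :
    (slice f p).eval t = eval (pt4 p t) f := by
  unfold slice
  have h1 := MvPolynomial.map_aeval (R := ℝ)
    (![Polynomial.C (p 0), Polynomial.C (p 1), Polynomial.C (p 2), Polynomial.X] :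
      Fin 4 → Polynomial ℝ) (Polynomial.evalRingHom t) f
  rw [Polynomial.coe_evalRingHom] at h1
  rw [h1]
  have h2 : (Polynomial.evalRingHom t).comp (algebraMap ℝ (Polynomial ℝ)) = RingHom.id ℝ := by
    ext x
    simp
  rw [h2]
  unfold MvPolynomial.eval
  congr 2
  funext i
  fin_cases i <;> simp [pt4]

end I_PAIR

theorem PAIR_pf (h1 : FSTEP) (h2 : THOM) (h3 : PAR) : PAIR := by
  intro f hf
  obtain ⟨g, hg0, hgd, hZ⟩ := h1 f hf
  choose Z hZc hZ using hZ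
  refine ⟨g, hg0, hgd, Z, hZc, ?_⟩
  intro b1 b1' b2 b2' r r' e1 e2 n1 n1' n2 n2' z1 z2 hsw
  obtain ⟨hb1, hr, i1, i1', j1, j1', G1⟩ := e1
  obtain ⟨hb2, -, i2, i2', j2, j2', G2⟩ := e2
  obtain ⟨-, -, -, p1, -⟩ := h3 r b1 b1' hb1 i1 i1' n1
  obtain ⟨-, -, -, p1', -⟩ := h3 r' b1 b1' hb1 j1 j1' n1'
  obtain ⟨-, -, -, p2, -⟩ := h3 r b2 b2' hb2 i2 i2' n2
  obtain ⟨-, -, -, p2', -⟩ := h3 r' b2 b2' hb2 j2 j2' n2'
  have q1 := hZ b1 b1' (tt r b1) (tt r' b1) G1 z1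
  have q2 := hZ b2 b2' (tt r b2) (tt r' b2) G2 z2
  rw [← p1, ← p1'] at q1
  rw [← p2, ← p2'] at q2
  by_cases hg : eval r g = 0
  · exact Or.inr ⟨q1.2 hg, q2.2 hg⟩
  · left
    obtain ⟨ha, s1⟩ := q1.1 hg
    obtain ⟨-, s2⟩ := q2.1 hg
    rw [← I_PAIR.slice_eval, ← I_PAIR.slice_eval]
    unfold Swapped at hsw
    rcases mul_neg_iff.mp hsw with ⟨u, v⟩ | ⟨u, v⟩
    · rw [mul_comm]
      exact h2 (slice f r) (slice f r') (tt r b2) (tt r b1) (tt r' b2) (tt r' b1) ha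
        (by linarith) (by linarith) s2 s1
    · exact h2 (slice f r) (slice f r') (tt r b1) (tt r b2) (tt r' b1) (tt r' b2) ha
        (by linarith) (by linarith) s1 s2

end Pool.Agent.Work.MP_81c58b_co.TG
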