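import Pool.Agent.Work.MP_81c58b_co.TG.Stmts

/-!
# MP_81c58b_co, block TG, item PARS: parametrisation of the conic
-/

set_option autoImplicit false

namespace Pool.Agent.Work.MP_81c58b_co.TG

namespace I_PARS

lemma coords (r b : E3) (h : Inc r b) :
    ∃ y t : ℝ, y ≠ 0 ∧ tt r b = t ∧ b 0 = r 0 + t * y ∧ b 1 = r 1 + y ∧
      b 2 = r 2 - t ^ 2 * y := by
  obtain ⟨h1, h2⟩ := h
  simp only [q, Pi.sub_apply] at h1 h2
  refine ⟨b 1 - r 1, tt r b, h2, rfl, ?_, by ring, ?_⟩
  · simp only [tt, Pi.sub_apply]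
    field_simp
    ring
  · simp only [tt, Pi.sub_apply]
    field_simp
    linear_combination h1

lemma par : PAR := by
  intro r b b' _ hb hb' hne
  obtain ⟨y, t, hy, ht, h0, h1, h2⟩ := coords r b hb
  obtain ⟨y', t', hy', ht', h0', h1', h2'⟩ := coords r b' hb'
  rw [ht, ht'] at hne
  rw [ht, ht']
  have hd : t - t' ≠ 0 := sub_ne_zero.mpr hne
  have hq : q (b' - b) = y * y' * (t - t') ^ 2 := by
    simp only [q, Pi.sub_apply, h0, h1, h2, h0', h1', h2']
    ring
  have hl : ell (b' - b) t = - y' * (t - t') ^ 2 := by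
    simp only [ell, Pi.sub_apply, h0, h1, h2, h0', h1', h2']
    ring
  have hm : (b' - b) 1 * t - (b' - b) 0 = y' * (t - t') := by
    simp only [Pi.sub_apply, h0, h1, h0', h1']
    ring
  have hn : (b' - b) 0 * t + (b' - b) 2 = t' * (y' * (t - t')) := by
    simp only [Pi.sub_apply, h0, h2, h0', h2']
    ring
  have hm0 : y' * (t - t') ≠ 0 := mul_ne_zero hy' hd
  refine ⟨?_, ?_, ?_, ?_, ?_⟩
  · rw [hq]
    exact mul_ne_zero (mul_ne_zero hy hy') (pow_ne_zero 2 hd)
  · rw [hl]
    exact mul_ne_zero (neg_ne_zero.mpr hy') (pow_ne_zero 2 hd)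
  · intro h
    apply hm0
    rw [← hm, h]
    ring
  · have hs : q (b' - b) / ell (b' - b) t = - y := by
      rw [hq, hl]
      field_simp
    unfold crv
    rw [hs]
    ext i
    fin_cases i
    · simp [nu, h0]
      ring
    · simp [nu, h1]
    · simp [nu, h2]
      ring
  · unfold mob
    rw [hn, hm]
    field_simp

lemma par2 : PAR2 := by
  intro b b' t hq hl
  have hs : q (b' - b) / ell (b' - b) t ≠ 0 := div_ne_zero hq hl
  have hsl : q (b' - b) / ell (b' - b) t * ell (b' - b) t = q (b' - b) := by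
    field_simp
  have hc0 : crv b b' t 0 = b 0 + q (b' - b) / ell (b' - b) t * t := by
    simp [crv, nu]
  have hc1 : crv b b' t 1 = b 1 + q (b' - b) / ell (b' - b) t := by
    simp [crv, nu]
  have hc2 : crv b b' t 2 = b 2 - q (b' - b) / ell (b' - b) t * t ^ 2 := by
    simp [crv, nu]
    ring
  generalize q (b' - b) / ell (b' - b) t = s at hs hsl hc0 hc1 hc2
  generalize crv b b' t = r at hc0 hc1 hc2
  have hI : Inc r b := by
    refine ⟨?_, ?_⟩
    · simp only [q, Pi.sub_apply, hc0, hc1, hc2]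
      ring
    · simp only [Pi.sub_apply, hc1]
      intro h
      apply hs
      linarith
  have hT : tt r b = t := by
    simp only [tt, Pi.sub_apply, hc0, hc1]
    have h1 : b 0 - (b 0 + s * t) = (b 1 - (b 1 + s)) * t := by ring
    have h2 : b 1 - (b 1 + s) ≠ 0 := by
      intro h
      apply hs
      linarith
    rw [h1, mul_div_cancel_left₀ _ h2]
  have hQ : q (b' - r) = 0 := by
    simp only [q, ell, Pi.sub_apply] at hsl
    simp only [q, Pi.sub_apply, hc0, hc1, hc2]
    linear_combination -hsl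
  refine ⟨hI, hT, hQ, ?_⟩
  intro hne
  have hm : (b' - b) 1 * t - (b' - b) 0 ≠ 0 := sub_ne_zero.mpr hne
  have e1 : (b' - r) 1 * ell (b' - b) t = - ((b' - b) 1 * t - (b' - b) 0) ^ 2 := by
    have : (b' - r) 1 = (b' - b) 1 - s := by
      simp only [Pi.sub_apply, hc1]
      ring
    rw [this, sub_mul, hsl]
    simp only [q, ell]
    ring
  have e0 : (b' - r) 0 * ell (b' - b) t =
      - (((b' - b) 1 * t - (b' - b) 0) * ((b' - b) 0 * t + (b' - b) 2)) := by
    have : (b' - r) 0 = (b' - b) 0 - s * t := by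
      simp only [Pi.sub_apply, hc0]
      ring
    have h3 : ((b' - b) 0 - s * t) * ell (b' - b) t =
        (b' - b) 0 * ell (b' - b) t - t * (s * ell (b' - b) t) := by ring
    rw [this, h3, hsl]
    simp only [q, ell]
    ring
  have hr1 : (b' - r) 1 ≠ 0 := by
    intro h
    rw [h, zero_mul] at e1
    have : ((b' - b) 1 * t - (b' - b) 0) ^ 2 = 0 := by linarith
    exact hm (pow_eq_zero_iff two_ne_zero |>.mp this)
  have hI' : Inc r b' := ⟨hQ, hr1⟩
  have hT' : tt r b' = mob (b' - b) t := by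
    unfold tt mob
    rw [div_eq_div_iff hr1 hm]
    apply mul_right_cancel₀ hl
    linear_combination ((b' - b) 1 * t - (b' - b) 0) * e0 -
      ((b' - b) 0 * t + (b' - b) 2) * e1
  have hbb : b' ≠ b := by
    intro h
    apply hl
    rw [h]
    simp [ell]
  have hne' : tt r b' ≠ tt r b := by
    rw [hT', hT]
    unfold mob
    intro h
    rw [div_eq_iff hm] at h
    apply hl
    unfold ell
    linear_combination h
  obtain ⟨-, -, -, g1, g2⟩ := par r b' b hbb hI' hI hne'
  rw [hT'] at g1 g2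
  rw [hT] at g2
  exact ⟨hI', hT', g1.symm, g2.symm⟩

end I_PARS

theorem PAR_pf : PAR := I_PARS.par

theorem PAR2_pf : PAR2 := I_PARS.par2

end Pool.Agent.Work.MP_81c58b_co.TG
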