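import Pool.Agent.Work.MP_81c58b_co.TG.Stmts

set_option autoImplicit false

namespace Pool.Agent.Work.MP_81c58b_co.TG

open MvPolynomial

namespace I_PIGE

/-- `h` as a polynomial in `y` with coefficients in `ℂ[x]` -/
noncomputable def bi (h : MvPolynomial (Fin 2) ℝ) : Polynomial (Polynomial ℂ) :=
  aeval ![Polynomial.C Polynomial.X, Polynomial.X] h

lemma bi_eval (h : MvPolynomial (Fin 2) ℝ) (x y : ℂ) :
    ((bi h).map (Polynomial.evalRingHom x)).eval y = aeval ![x, y] h := by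
  unfold bi
  induction h using MvPolynomial.induction_on with
  | C a =>
    rw [MvPolynomial.aeval_C, MvPolynomial.aeval_C, Polynomial.algebraMap_apply,
      Polynomial.algebraMap_apply, Polynomial.map_C, Polynomial.eval_C]
    simp
  | add p q hp hq => rw [map_add, Polynomial.map_add, Polynomial.eval_add, hp, hq, map_add]
  | mul_X p i hp =>
    rw [map_mul, Polynomial.map_mul, Polynomial.eval_mul, hp, map_mul, MvPolynomial.aeval_X,
      MvPolynomial.aeval_X]
    congr 1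
    fin_cases i <;> simp

lemma ofReal_eval (h : MvPolynomial (Fin 2) ℝ) (v : Fin 2 → ℝ) :
    ((eval v h : ℝ) : ℂ) = aeval ![(v 0 : ℂ), (v 1 : ℂ)] h := by
  have h1 := MvPolynomial.aeval_algebraMap_apply (B := ℂ) (A := ℝ) v h
  have h2 : (algebraMap ℝ ℂ ∘ v : Fin 2 → ℂ) = ![(v 0 : ℂ), (v 1 : ℂ)] := by
    ext i
    fin_cases i <;> rfl
  rw [h2] at h1
  rw [h1]
  simp [MvPolynomial.aeval_eq_eval]

lemma zeros_infinite (h : MvPolynomial (Fin 2) ℝ) (hirr : Irreducible h) :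
    {w : ℂ × ℂ | aeval ![w.1, w.2] h = 0}.Infinite := by
  by_cases hd : 0 < (bi h).natDegree
  · have hlc : (bi h).leadingCoeff ≠ 0 := by
      rw [Ne, Polynomial.leadingCoeff_eq_zero]
      rintro h0
      rw [h0] at hd
      simp at hd
    have hfin : {x : ℂ | (bi h).leadingCoeff.eval x = 0}.Finite := by
      refine ((bi h).leadingCoeff.roots.toFinset.finite_toSet).subset fun x hx => ?_
      rw [Finset.mem_coe, Multiset.mem_toFinset, Polynomial.mem_roots hlc]
      exact hx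
    have hinf : {x : ℂ | (bi h).leadingCoeff.eval x = 0}ᶜ.Infinite := hfin.infinite_compl
    refine Set.Infinite.of_image Prod.fst (hinf.mono fun x hx => ?_)
    have hx' : (Polynomial.evalRingHom x) (bi h).leadingCoeff ≠ 0 := hx
    have hdeg := Polynomial.natDegree_map_of_leadingCoeff_ne_zero (Polynomial.evalRingHom x) hx'
    obtain ⟨y, hy⟩ := IsAlgClosed.exists_root ((bi h).map (Polynomial.evalRingHom x)) (by
      intro h0
      have h1 : ((bi h).map (Polynomial.evalRingHom x)).natDegree = 0 :=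
        Polynomial.natDegree_eq_of_degree_eq_some h0
      rw [hdeg] at h1
      omega)
    refine ⟨(x, y), ?_, rfl⟩
    have := bi_eval h x y
    rw [Set.mem_ofPred_eq, ← this]
    exact hy
  · have h0 : (bi h).natDegree = 0 := by omega
    have hC := Polynomial.eq_C_of_natDegree_eq_zero h0
    set p := (bi h).coeff 0 with hp
    have hval : ∀ x y : ℂ, aeval ![x, y] h = p.eval x := by
      intro x y
      rw [← bi_eval, hC, Polynomial.map_C, Polynomial.eval_C]
      rfl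
    by_cases hpd : 0 < p.natDegree
    · obtain ⟨x0, hx0⟩ := IsAlgClosed.exists_root p (by
        intro h0
        have h1 : p.natDegree = 0 := Polynomial.natDegree_eq_of_degree_eq_some h0
        omega)
      refine Set.Infinite.of_image Prod.snd ((Set.infinite_univ (α := ℂ)).mono fun y _ => ?_)
      exact ⟨(x0, y), by rw [Set.mem_ofPred_eq, hval]; exact hx0, rfl⟩
    · exfalso
      have hp0 : p.natDegree = 0 := by omega
      have hpC := Polynomial.eq_C_of_natDegree_eq_zero hp0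
      have hconst : ∀ v : Fin 2 → ℝ, eval v h = eval 0 h := by
        intro v
        have h1 : ((eval v h : ℝ) : ℂ) = ((eval 0 h : ℝ) : ℂ) := by
          rw [ofReal_eval, ofReal_eval, hval, hval, hpC, Polynomial.eval_C, Polynomial.eval_C]
        exact_mod_cast h1
      have heq : h = C (eval 0 h) := by
        apply MvPolynomial.funext
        intro v
        rw [hconst v, MvPolynomial.eval_C]
      by_cases hr : eval 0 h = 0
      · rw [hr, map_zero] at heq
        exact hirr.ne_zero heq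
      · apply hirr.not_isUnit
        rw [heq]
        exact (isUnit_iff_ne_zero.mpr hr).map C

lemma mem3 {α : Type*} {P : α → Prop} {a b c : α} (ha : P a) (hb : P b) (hc : P c) :
    ∀ x ∈ ({a, b, c} : Set α), P x := by
  rintro x (rfl | rfl | rfl)
  · exact ha
  · exact hb
  · exact hc

lemma LC_inj {e0 e1 : ℝ} {x y z x' y' z' : ℂ} (h : LC e0 e1 x y z = LC e0 e1 x' y' z') :
    (x, y) = (x', y') := by
  have h0 := congrFun h 0
  have h1 := congrFun h 1
  have h2 := congrFun h 2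
  simp only [LC, Matrix.cons_val_zero, Matrix.cons_val_one, Matrix.cons_val] at h0 h1 h2
  subst h2
  rw [add_left_inj] at h0 h1
  rw [h0, h1]

end I_PIGE

open I_PIGE in
theorem PIGE_pf (hK : K33C) : PIGE := by
  classical
  intro V e0 e1 h hDir hirr Z hZ
  by_contra hcard
  rw [not_le] at hcard
  -- a triple of points for every zero
  have hstep : ∀ w : {w : ℂ × ℂ // aeval ![w.1, w.2] h = 0}, ∃ r : Z × Z × Z,
      r.1 ≠ r.2.1 ∧ r.1 ≠ r.2.2 ∧ r.2.1 ≠ r.2.2 ∧ ∃ z : ℂ,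
      qC r.1 (LC e0 e1 w.1.1 w.1.2 z) = 0 ∧ qC r.2.1 (LC e0 e1 w.1.1 w.1.2 z) = 0 ∧
      qC r.2.2 (LC e0 e1 w.1.1 w.1.2 z) = 0 := by
    rintro ⟨⟨x, y⟩, hw⟩
    obtain ⟨p, hp0, hpd, hp⟩ := hDir.2 x y
    have hch : ∀ r : Z, ∃ z : ℂ, qC r (LC e0 e1 x y z) = 0 ∧ aeval (LC e0 e1 x y z) V = 0 :=
      fun r => (hZ r r.2).2 x y hw
    choose zf hzf using hch
    have hmaps : ∀ r ∈ (Finset.univ : Finset Z), zf r ∈ p.roots.toFinset := by
      intro r _
      rw [Multiset.mem_toFinset, Polynomial.mem_roots hp0, Polynomial.IsRoot, hp]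
      exact (hzf r).2
    have hroots : p.roots.toFinset.card ≤ V.totalDegree :=
      (Multiset.toFinset_card_le _).trans ((Polynomial.card_roots' p).trans hpd)
    have hlt : p.roots.toFinset.card * 2 < (Finset.univ : Finset Z).card := by
      rw [Finset.card_univ, Fintype.card_coe]
      omega
    obtain ⟨z, -, hz⟩ := Finset.exists_lt_card_fiber_of_mul_lt_card_of_maps_to hmaps hlt
    obtain ⟨r1, r2, r3, h1, h2, h3, h12, h13, h23⟩ := Finset.two_lt_card_iff.mp hz
    rw [Finset.mem_filter] at h1 h2 h3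
    refine ⟨(r1, r2, r3), h12, h13, h23, z, ?_, ?_, ?_⟩
    · rw [← h1.2]
      exact (hzf r1).1
    · rw [← h2.2]
      exact (hzf r2).1
    · rw [← h3.2]
      exact (hzf r3).1
  choose f hf12 hf13 hf23 zz hz1 hz2 hz3 using hstep
  have hinf := zeros_infinite h hirr
  have : Infinite {w : ℂ × ℂ // aeval ![w.1, w.2] h = 0} := hinf.to_subtype
  obtain ⟨⟨r1, r2, r3⟩, hfib⟩ := Finite.exists_infinite_fiber f
  have hW : (f ⁻¹' {(r1, r2, r3)}).Infinite := Set.infinite_coe_iff.mp hfib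
  -- the points
  set P : {w : ℂ × ℂ // aeval ![w.1, w.2] h = 0} → Fin 3 → ℂ :=
    fun w => LC e0 e1 w.1.1 w.1.2 (zz w) with hPdef
  have hPinj : Function.Injective P := by
    intro w w' hww
    apply Subtype.ext
    exact LC_inj hww
  obtain ⟨w1, hw1⟩ := hW.nonempty
  obtain ⟨w2, hw2, hw21⟩ := hW.exists_notMem_finite (Set.finite_singleton w1)
  have hw12 : w2 ≠ w1 := hw21
  have hr : ∀ w ∈ f ⁻¹' {(r1, r2, r3)}, qC r1 (P w) = 0 ∧ qC r2 (P w) = 0 ∧ qC r3 (P w) = 0 := by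
    intro w hw
    have hfw : f w = (r1, r2, r3) := hw
    have a1 := hz1 w
    have a2 := hz2 w
    have a3 := hz3 w
    rw [hfw] at a1 a2 a3
    exact ⟨a1, a2, a3⟩
  have hfw1 : f w1 = (r1, r2, r3) := hw1
  have n12 : (r1 : E3) ≠ r2 := by
    have := hf12 w1
    rw [hfw1] at this
    exact fun h => this (Subtype.ext h)
  have n13 : (r1 : E3) ≠ r3 := by
    have := hf13 w1
    rw [hfw1] at this
    exact fun h => this (Subtype.ext h)
  have n23 : (r2 : E3) ≠ r3 := by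
    have := hf23 w1
    rw [hfw1] at this
    exact fun h => this (Subtype.ext h)
  have hline : ∀ w ∈ f ⁻¹' {(r1, r2, r3)}, w ≠ w1 → w ≠ w2 →
      q ((r2 : E3) - r1) = 0 ∧ ∃ s : ℂ, ∀ i, P w i = (r1 : E3) i + s * ((r2 : E3) - r1) i := by
    intro w hw hne1 hne2
    have hh := hK r1 r2 r3 n12 n13 n23 (P w1) (P w2) (P w) (hPinj.ne hw12.symm)
      (hPinj.ne hne1.symm) (hPinj.ne hne2.symm) (by
        refine mem3 ?_ ?_ ?_
        · exact mem3 (hr w1 hw1).1 (hr w2 hw2).1 (hr w hw).1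
        · exact mem3 (hr w1 hw1).2.1 (hr w2 hw2).2.1 (hr w hw).2.1
        · exact mem3 (hr w1 hw1).2.2 (hr w2 hw2).2.2 (hr w hw).2.2)
    refine ⟨hh.1, ?_⟩
    obtain ⟨s, hs⟩ := hh.2 (P w) (by simp)
    refine ⟨s, fun i => ?_⟩
    rw [hs i]
  obtain ⟨w3, hw3, hw3'⟩ := hW.exists_notMem_finite (Set.toFinite {w1, w2})
  have hw3a : w3 ≠ w1 ∧ w3 ≠ w2 := by
    simp only [Set.mem_insert_iff, Set.mem_singleton_iff, not_or] at hw3'
    exact hw3'
  have hq := (hline w3 hw3 hw3a.1 hw3a.2).1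
  set a : E3 := (r2 : E3) - r1 with ha
  -- the univariate polynomial
  set g : Polynomial ℝ := aeval ![Polynomial.C ((r1 : E3) 0 - e0 * (r1 : E3) 2) +
      Polynomial.C (a 0 - e0 * a 2) * Polynomial.X,
      Polynomial.C ((r1 : E3) 1 - e1 * (r1 : E3) 2) +
      Polynomial.C (a 1 - e1 * a 2) * Polynomial.X] h with hg
  have hgeval : ∀ (A : Type) [CommRing A] [Algebra ℝ A] (s : A), Polynomial.aeval s g =
      aeval ![algebraMap ℝ A ((r1 : E3) 0 - e0 * (r1 : E3) 2) + algebraMap ℝ A (a 0 - e0 * a 2) * s,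
        algebraMap ℝ A ((r1 : E3) 1 - e1 * (r1 : E3) 2) + algebraMap ℝ A (a 1 - e1 * a 2) * s] h := by
    intro A _ _ s
    rw [hg]
    have h1 := MvPolynomial.comp_aeval_apply ![Polynomial.C ((r1 : E3) 0 - e0 * (r1 : E3) 2) +
      Polynomial.C (a 0 - e0 * a 2) * Polynomial.X,
      Polynomial.C ((r1 : E3) 1 - e1 * (r1 : E3) 2) +
      Polynomial.C (a 1 - e1 * a 2) * Polynomial.X] (Polynomial.aeval (R := ℝ) s) h
    rw [h1]
    congr 1
    congr 1
    ext i
    fin_cases i <;> simp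
  have hroot : ∀ w ∈ f ⁻¹' {(r1, r2, r3)}, w ≠ w1 → w ≠ w2 → ∃ s : ℂ,
      Polynomial.aeval s g = 0 ∧ w.1 = (((r1 : E3) 0 - e0 * (r1 : E3) 2 : ℝ) + ((a 0 - e0 * a 2 : ℝ) : ℂ) * s,
        (((r1 : E3) 1 - e1 * (r1 : E3) 2 : ℝ) : ℂ) + ((a 1 - e1 * a 2 : ℝ) : ℂ) * s) := by
    intro w hw hne1 hne2
    obtain ⟨-, s, hs⟩ := hline w hw hne1 hne2
    have s0 := hs 0
    have s1 := hs 1
    have s2 := hs 2
    simp only [hPdef, LC, Matrix.cons_val_zero, Matrix.cons_val_one, Matrix.cons_val] at s0 s1 s2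
    have ex : w.1.1 = ((r1 : E3) 0 - e0 * (r1 : E3) 2 : ℝ) + ((a 0 - e0 * a 2 : ℝ) : ℂ) * s := by
      push_cast
      rw [s2] at s0
      linear_combination s0
    have ey : w.1.2 = (((r1 : E3) 1 - e1 * (r1 : E3) 2 : ℝ) : ℂ) + ((a 1 - e1 * a 2 : ℝ) : ℂ) * s := by
      push_cast
      rw [s2] at s1
      linear_combination s1
    refine ⟨s, ?_, Prod.ext ex ey⟩
    rw [hgeval ℂ s]
    have hw0 := w.2
    rw [ex, ey] at hw0
    exact hw0
  have hg0 : g = 0 := by
    by_contra hgne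
    have hfin : {s : ℂ | Polynomial.aeval s g = 0}.Finite := by
      refine ((g.aroots ℂ).toFinset.finite_toSet).subset fun s hs => ?_
      rw [Finset.mem_coe, Multiset.mem_toFinset, Polynomial.mem_aroots]
      exact ⟨hgne, hs⟩
    have hinf2 : (f ⁻¹' {(r1, r2, r3)} \ {w1, w2}).Infinite := hW.sdiff (Set.toFinite _)
    refine hinf2 (Set.Finite.of_finite_image (f := fun w => w.1) ?_ (fun w _ w' _ h => Subtype.ext h))
    refine (hfin.image (fun s => ((((r1 : E3) 0 - e0 * (r1 : E3) 2 : ℝ) + ((a 0 - e0 * a 2 : ℝ) : ℂ) * s,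
        (((r1 : E3) 1 - e1 * (r1 : E3) 2 : ℝ) : ℂ) + ((a 1 - e1 * a 2 : ℝ) : ℂ) * s) : ℂ × ℂ))).subset ?_
    rintro _ ⟨w, ⟨hw, hw'⟩, rfl⟩
    simp only [Set.mem_insert_iff, Set.mem_singleton_iff, not_or] at hw'
    obtain ⟨s, hs, hws⟩ := hroot w hw hw'.1 hw'.2
    exact ⟨s, hs, hws.symm⟩
  apply (hZ r1 r1.2).1
  refine ⟨a, sub_ne_zero.mpr n12.symm, hq, fun s => ?_⟩
  have h1 := hgeval ℝ s
  rw [hg0, map_zero] at h1
  rw [MvPolynomial.aeval_eq_eval] at h1
  have h2 : prE e0 e1 ((r1 : E3) + s • a) = ![algebraMap ℝ ℝ ((r1 : E3) 0 - e0 * (r1 : E3) 2) +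
      algebraMap ℝ ℝ (a 0 - e0 * a 2) * s,
        algebraMap ℝ ℝ ((r1 : E3) 1 - e1 * (r1 : E3) 2) + algebraMap ℝ ℝ (a 1 - e1 * a 2) * s] := by
    ext i
    fin_cases i
    · simp [prE]
      ring
    · simp [prE]
      ring
  rw [h2]
  exact h1.symm

end Pool.Agent.Work.MP_81c58b_co.TG
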