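import Pool.Agent.Work.MP_81c58b_co.TG.Stmts

/-!
MP_81c58b_co, block TG, item RECU: the recursion of the coarse partition.
-/

set_option autoImplicit false

namespace Pool.Agent.Work.MP_81c58b_co.TG

namespace I_RECU

theorem pm (t : ℕ) (x : (Fin t → Bool) → ℝ) (hx : ∀ σ, 0 ≤ x σ) (g : ℝ) (h0 : 0 ≤ g)
    (h1 : g ≤ 1) : ∑ σ, x σ ^ g ≤ (2 : ℝ) ^ ((t : ℝ) * (1 - g)) * (∑ σ, x σ) ^ g := by
  have hN : (0 : ℝ) < (2 : ℝ) ^ (t : ℝ) := by positivity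
  set N : ℝ := (2 : ℝ) ^ (t : ℝ) with hNdef
  have hcard : (Fintype.card (Fin t → Bool) : ℝ) = N := by
    rw [Fintype.card_fun, Fintype.card_bool, Fintype.card_fin, hNdef, Real.rpow_natCast]
    push_cast
    rfl
  have hJ := (Real.concaveOn_rpow h0 h1).le_map_sum (t := Finset.univ)
    (w := fun _ : Fin t → Bool => 1 / N) (p := x) (fun _ _ => by positivity)
    (by rw [Finset.sum_const, Finset.card_univ, nsmul_eq_mul, hcard]; field_simp)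
    (fun σ _ => hx σ)
  simp only [smul_eq_mul] at hJ
  rw [← Finset.mul_sum, ← Finset.mul_sum] at hJ
  have hS : 0 ≤ ∑ σ, x σ := Finset.sum_nonneg fun σ _ => hx σ
  rw [Real.mul_rpow (by positivity) hS, Real.div_rpow (by positivity) hN.le, Real.one_rpow] at hJ
  have h2 : (2 : ℝ) ^ ((t : ℝ) * (1 - g)) = N / N ^ g := by
    rw [hNdef, ← Real.rpow_mul (by norm_num), ← Real.rpow_sub (by norm_num)]
    congr 1
    ring
  rw [h2]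
  have h3 : 0 < N ^ g := by positivity
  have h4 : N * (1 / N * ∑ σ, x σ ^ g) ≤ N * (1 / N ^ g * (∑ σ, x σ) ^ g) :=
    mul_le_mul_of_nonneg_left hJ hN.le
  have h5 : N * (1 / N * ∑ σ, x σ ^ g) = ∑ σ, x σ ^ g := by field_simp
  rw [h5] at h4
  refine h4.trans (le_of_eq ?_)
  ring

theorem child (t : ℕ) (x : (Fin t → Bool) → ℝ) (hx : ∀ σ, 0 ≤ x σ) (g : ℝ) (h0 : 0 ≤ g)
    (h1 : g ≤ 1) (C P : ℝ) (hC : 1 ≤ C) (hP : 0 ≤ P)
    (hs : ∑ σ, x σ ≤ C * (2 : ℝ) ^ (2 * (t : ℝ) / 3) * P) :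
    ∑ σ, x σ ^ g ≤ C * ((2 : ℝ) ^ ((t : ℝ) * (1 - g / 3)) * P ^ g) := by
  refine (pm t x hx g h0 h1).trans ?_
  have hS : 0 ≤ ∑ σ, x σ := Finset.sum_nonneg fun σ _ => hx σ
  have h2 : (∑ σ, x σ) ^ g ≤ (C * (2 : ℝ) ^ (2 * (t : ℝ) / 3) * P) ^ g :=
    Real.rpow_le_rpow hS hs h0
  have hC0 : 0 ≤ C := by linarith
  rw [Real.mul_rpow (by positivity) hP, Real.mul_rpow hC0 (by positivity),
    ← Real.rpow_mul (by norm_num)] at h2
  have h3 : C ^ g ≤ C := by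
    calc C ^ g ≤ C ^ (1 : ℝ) := Real.rpow_le_rpow_of_exponent_le hC h1
      _ = C := Real.rpow_one C
  have h4 : (2 : ℝ) ^ ((t : ℝ) * (1 - g)) * (∑ σ, x σ) ^ g ≤
      (2 : ℝ) ^ ((t : ℝ) * (1 - g)) * (C ^ g * (2 : ℝ) ^ (2 * (t : ℝ) / 3 * g) * P ^ g) :=
    mul_le_mul_of_nonneg_left h2 (by positivity)
  refine h4.trans ?_
  have h5 : (2 : ℝ) ^ ((t : ℝ) * (1 - g)) * (C ^ g * (2 : ℝ) ^ (2 * (t : ℝ) / 3 * g) * P ^ g) =
      C ^ g * ((2 : ℝ) ^ ((t : ℝ) * (1 - g / 3)) * P ^ g) := by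
    have h6 : (2 : ℝ) ^ ((t : ℝ) * (1 - g)) * (2 : ℝ) ^ (2 * (t : ℝ) / 3 * g) =
        (2 : ℝ) ^ ((t : ℝ) * (1 - g / 3)) := by
      rw [← Real.rpow_add (by norm_num)]
      congr 1
      ring
    rw [← h6]
    ring
  rw [h5]
  exact mul_le_mul_of_nonneg_right h3 (by positivity)

/-- the four terms -/
noncomputable def T (t j : ℕ) (Q0 P : ℝ) : ℝ :=
  Q0 ^ ((117 : ℝ) / 160) * (2 : ℝ) ^ ((t * j : ℝ) * 359 / 480) * P ^ ((121 : ℝ) / 160) +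
      (2 : ℝ) ^ (t * j : ℝ) * Q0 ^ ((1557 : ℝ) / 640) +
      Q0 ^ ((3 : ℝ) / 5) * (2 : ℝ) ^ ((t * j : ℝ) * 11 / 15) * P ^ ((4 : ℝ) / 5) +
      (2 : ℝ) ^ ((t * j : ℝ) * 2 / 3) * P

theorem T_nonneg (t j : ℕ) (Q0 P : ℝ) (hQ : 0 ≤ Q0) (hP : 0 ≤ P) : 0 ≤ T t j Q0 P := by
  unfold T; positivity

theorem T_sum (t j : ℕ) (Q0 P C : ℝ) (hQ : 1 ≤ Q0) (hP : 0 ≤ P) (hC : 1 ≤ C)
    (x : (Fin t → Bool) → ℝ) (hx : ∀ σ, 0 ≤ x σ)
    (hs : ∑ σ, x σ ≤ C * (2 : ℝ) ^ (2 * (t : ℝ) / 3) * P) :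
    ∑ σ, T t j Q0 (x σ) ≤ C * T t (j + 1) Q0 P := by
  have hQ0 : 0 ≤ Q0 := by linarith
  unfold T
  have c1 := child t x hx (121 / 160) (by norm_num) (by norm_num) C P hC hP hs
  have c3 := child t x hx (4 / 5) (by norm_num) (by norm_num) C P hC hP hs
  have hN : (Fintype.card (Fin t → Bool) : ℝ) = (2 : ℝ) ^ (t : ℝ) := by
    rw [Fintype.card_fun, Fintype.card_bool, Fintype.card_fin, Real.rpow_natCast]
    push_cast
    rfl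
  simp only [Finset.sum_add_distrib, ← Finset.mul_sum, Finset.sum_const, Finset.card_univ,
    nsmul_eq_mul, hN]
  have e1 : Q0 ^ ((117 : ℝ) / 160) * (2 : ℝ) ^ ((t * j : ℝ) * 359 / 480) *
      ∑ σ, x σ ^ ((121 : ℝ) / 160) ≤ C * (Q0 ^ ((117 : ℝ) / 160) *
        (2 : ℝ) ^ ((t * (j + 1 : ℕ) : ℝ) * 359 / 480) * P ^ ((121 : ℝ) / 160)) := by
    refine (mul_le_mul_of_nonneg_left c1 (by positivity)).trans (le_of_eq ?_)
    have h6 : (2 : ℝ) ^ ((t * (j + 1 : ℕ) : ℝ) * 359 / 480) =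
        (2 : ℝ) ^ ((t * j : ℝ) * 359 / 480) * (2 : ℝ) ^ ((t : ℝ) * (1 - 121 / 160 / 3)) := by
      rw [← Real.rpow_add (by norm_num)]
      congr 1
      push_cast
      ring
    rw [h6]
    ring
  have e3 : Q0 ^ ((3 : ℝ) / 5) * (2 : ℝ) ^ ((t * j : ℝ) * 11 / 15) *
      ∑ σ, x σ ^ ((4 : ℝ) / 5) ≤ C * (Q0 ^ ((3 : ℝ) / 5) *
        (2 : ℝ) ^ ((t * (j + 1 : ℕ) : ℝ) * 11 / 15) * P ^ ((4 : ℝ) / 5)) := by
    refine (mul_le_mul_of_nonneg_left c3 (by positivity)).trans (le_of_eq ?_)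
    have h6 : (2 : ℝ) ^ ((t * (j + 1 : ℕ) : ℝ) * 11 / 15) =
        (2 : ℝ) ^ ((t * j : ℝ) * 11 / 15) * (2 : ℝ) ^ ((t : ℝ) * (1 - 4 / 5 / 3)) := by
      rw [← Real.rpow_add (by norm_num)]
      congr 1
      push_cast
      ring
    rw [h6]
    ring
  have e4 : (2 : ℝ) ^ ((t * j : ℝ) * 2 / 3) * ∑ σ, x σ ≤
      C * ((2 : ℝ) ^ ((t * (j + 1 : ℕ) : ℝ) * 2 / 3) * P) := by
    refine (mul_le_mul_of_nonneg_left hs (by positivity)).trans (le_of_eq ?_)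
    have h6 : (2 : ℝ) ^ ((t * (j + 1 : ℕ) : ℝ) * 2 / 3) =
        (2 : ℝ) ^ ((t * j : ℝ) * 2 / 3) * (2 : ℝ) ^ (2 * (t : ℝ) / 3) := by
      rw [← Real.rpow_add (by norm_num)]
      congr 1
      push_cast
      ring
    rw [h6]
    ring
  have e2 : (2 : ℝ) ^ (t * j : ℝ) * ((2 : ℝ) ^ (t : ℝ) * Q0 ^ ((1557 : ℝ) / 640)) ≤
      C * ((2 : ℝ) ^ (t * (j + 1 : ℕ) : ℝ) * Q0 ^ ((1557 : ℝ) / 640)) := by
    have h6 : (2 : ℝ) ^ (t * (j + 1 : ℕ) : ℝ) = (2 : ℝ) ^ (t : ℝ) * (2 : ℝ) ^ (t * j : ℝ) := by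
      rw [← Real.rpow_add (by norm_num)]
      congr 1
      push_cast
      ring
    rw [h6]
    have h7 : 0 ≤ (2 : ℝ) ^ (t : ℝ) * (2 : ℝ) ^ (t * j : ℝ) * Q0 ^ ((1557 : ℝ) / 640) := by
      positivity
    nlinarith
  linarith

theorem surf (t j : ℕ) (Q0 P b : ℝ) (hQ : 1 ≤ Q0) (hP : 0 ≤ P) (hb : 0 ≤ b)
    (h : b ≤ Q0 * 2 ^ (t * (j + 1))) :
    b ^ ((3 : ℝ) / 5) * P ^ ((4 : ℝ) / 5) + P + b ≤ T t (j + 1) Q0 P := by
  have hQ0 : 0 ≤ Q0 := by linarith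
  have h2 : (2 : ℝ) ^ (t * (j + 1)) = (2 : ℝ) ^ ((t * (j + 1 : ℕ) : ℝ)) := by
    rw [← Real.rpow_natCast]
    push_cast
    rfl
  rw [h2] at h
  have hexp : (0 : ℝ) ≤ (t * (j + 1 : ℕ) : ℝ) := by positivity
  unfold T
  set s : ℝ := (t * (j + 1 : ℕ) : ℝ) with hs
  have a1 : b ^ ((3 : ℝ) / 5) ≤ Q0 ^ ((3 : ℝ) / 5) * (2 : ℝ) ^ (s * 11 / 15) := by
    refine (Real.rpow_le_rpow hb h (by norm_num)).trans ?_
    rw [Real.mul_rpow hQ0 (by positivity), ← Real.rpow_mul (by norm_num)]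
    refine mul_le_mul_of_nonneg_left ?_ (by positivity)
    apply Real.rpow_le_rpow_of_exponent_le (by norm_num)
    linarith
  have a2 : P ≤ (2 : ℝ) ^ (s * 2 / 3) * P := by
    have : (1 : ℝ) ≤ (2 : ℝ) ^ (s * 2 / 3) := Real.one_le_rpow (by norm_num) (by positivity)
    nlinarith
  have a3 : b ≤ (2 : ℝ) ^ s * Q0 ^ ((1557 : ℝ) / 640) := by
    have h7 : Q0 ≤ Q0 ^ ((1557 : ℝ) / 640) := by
      calc Q0 = Q0 ^ (1 : ℝ) := (Real.rpow_one _).symm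
        _ ≤ _ := Real.rpow_le_rpow_of_exponent_le hQ (by norm_num)
    have h8 : Q0 * (2 : ℝ) ^ s ≤ Q0 ^ ((1557 : ℝ) / 640) * (2 : ℝ) ^ s :=
      mul_le_mul_of_nonneg_right h7 (by positivity)
    linarith
  have a4 : 0 ≤ Q0 ^ ((117 : ℝ) / 160) * (2 : ℝ) ^ (s * 359 / 480) * P ^ ((121 : ℝ) / 160) := by
    positivity
  have a5 : b ^ ((3 : ℝ) / 5) * P ^ ((4 : ℝ) / 5) ≤
      Q0 ^ ((3 : ℝ) / 5) * (2 : ℝ) ^ (s * 11 / 15) * P ^ ((4 : ℝ) / 5) :=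
    mul_le_mul_of_nonneg_right a1 (by positivity)
  linarith

theorem str_mono {R B R' B' : Finset E3} (h : Str R B) (hR : R' ⊆ R) (hB : B' ⊆ B) :
    Str R' B' :=
  ⟨fun r hr b hb b' hb' => h.h1 r (hR hr) b (hB hb) b' (hB hb'),
    fun b hb r hr r' hr' => h.h2 b (hB hb) r (hR hr) r' (hR hr')⟩

end I_RECU

open I_RECU in
theorem RECU_pf (h1 : UTH2) (h2 : SPLIT) : RECU := by
  obtain ⟨K, hK, hU⟩ := h1
  obtain ⟨C1, hC1, hS⟩ := h2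
  refine ⟨C1 + K, by linarith, fun t j => ?_⟩
  set C := C1 + K with hCdef
  have hC : 1 ≤ C := by linarith
  have hCC1 : C1 ≤ C := by linarith
  have hCK : K ≤ C := by linarith
  have h2t : (1 : ℝ) ≤ 2 ^ t := one_le_pow₀ (by norm_num)
  suffices H : ∀ (j : ℕ) (Q0 : ℝ) (R B : Finset E3), Str R B → 1 ≤ Q0 →
      (B.card : ℝ) ≤ Q0 * 2 ^ (t * j) →
      (inc R B : ℝ) ≤ C ^ (j + 1) * (j + 1) * 2 ^ t * T t j Q0 R.card from H j
  intro j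
  induction j with
  | zero =>
    intro Q0 R B hst hQ hB
    have hQ0 : 0 ≤ Q0 := by linarith
    have h := hU R B hst
    rw [mul_zero, pow_zero, mul_one] at hB
    have hb0 : (0 : ℝ) ≤ B.card := Nat.cast_nonneg _
    have hp0 : (0 : ℝ) ≤ R.card := Nat.cast_nonneg _
    have b1 : (B.card : ℝ) ^ ((117 : ℝ) / 160) ≤ Q0 ^ ((117 : ℝ) / 160) :=
      Real.rpow_le_rpow hb0 hB (by norm_num)
    have b2 : (B.card : ℝ) ^ ((1557 : ℝ) / 640) ≤ Q0 ^ ((1557 : ℝ) / 640) :=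
      Real.rpow_le_rpow hb0 hB (by norm_num)
    have hT : (R.card : ℝ) + (R.card : ℝ) ^ ((121 : ℝ) / 160) * (B.card : ℝ) ^ ((117 : ℝ) / 160) +
        (B.card : ℝ) ^ ((1557 : ℝ) / 640) ≤ T t 0 Q0 R.card := by
      unfold T
      simp only [Nat.cast_zero, mul_zero, zero_mul, zero_div, Real.rpow_zero, mul_one, one_mul]
      have b3 : (R.card : ℝ) ^ ((121 : ℝ) / 160) * (B.card : ℝ) ^ ((117 : ℝ) / 160) ≤
          Q0 ^ ((117 : ℝ) / 160) * (R.card : ℝ) ^ ((121 : ℝ) / 160) := by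
        rw [mul_comm]
        exact mul_le_mul_of_nonneg_right b1 (by positivity)
      have b4 : 0 ≤ Q0 ^ ((3 : ℝ) / 5) * (R.card : ℝ) ^ ((4 : ℝ) / 5) := by positivity
      linarith
    have hTn := T_nonneg t 0 Q0 R.card hQ0 hp0
    have h3 : K * ((R.card : ℝ) + (R.card : ℝ) ^ ((121 : ℝ) / 160) *
        (B.card : ℝ) ^ ((117 : ℝ) / 160) + (B.card : ℝ) ^ ((1557 : ℝ) / 640)) ≤
        K * T t 0 Q0 R.card := mul_le_mul_of_nonneg_left hT hK.le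
    have h4 : K * T t 0 Q0 R.card ≤ C * T t 0 Q0 R.card :=
      mul_le_mul_of_nonneg_right hCK hTn
    have h5 : C * T t 0 Q0 R.card ≤ 2 ^ t * (C * T t 0 Q0 R.card) :=
      le_mul_of_one_le_left (mul_nonneg (by linarith) hTn) h2t
    have h6 : C ^ (0 + 1) * (((0 : ℕ) : ℝ) + 1) * 2 ^ t * T t 0 Q0 R.card =
        2 ^ t * (C * T t 0 Q0 R.card) := by
      push_cast
      ring
    rw [h6]
    linarith
  | succ j ih =>
    intro Q0 R B hst hQ hB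
    have hQ0 : 0 ≤ Q0 := by linarith
    have hp0 : (0 : ℝ) ≤ R.card := Nat.cast_nonneg _
    obtain ⟨Rc, Bc, hc, hsum, hinc⟩ := hS R B t hst
    have hch : ∀ σ, (inc (Rc σ) (Bc σ) : ℝ) ≤
        C ^ (j + 1) * (j + 1) * 2 ^ t * T t j Q0 (Rc σ).card := by
      intro σ
      obtain ⟨g1, g2, g3⟩ := hc σ
      refine ih Q0 (Rc σ) (Bc σ) (str_mono hst g1 g2) hQ ?_
      have g4 : (2 : ℝ) ^ t * (Bc σ).card ≤ B.card := by exact_mod_cast g3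
      have g5 : (2 : ℝ) ^ t * (Bc σ).card ≤ (2 : ℝ) ^ t * (Q0 * 2 ^ (t * j)) := by
        refine (g4.trans hB).trans (le_of_eq ?_)
        rw [Nat.mul_succ, pow_add]
        ring
      exact le_of_mul_le_mul_left g5 (by positivity)
    have hsumT := T_sum t j Q0 R.card C1 hQ hp0 hC1 (fun σ => ((Rc σ).card : ℝ))
      (fun σ => Nat.cast_nonneg _) hsum
    have hsf := surf t j Q0 R.card B.card hQ hp0 (Nat.cast_nonneg _) hB
    have hTn := T_nonneg t (j + 1) Q0 R.card hQ0 hp0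
    have hpos : 0 ≤ C ^ (j + 1) * (j + 1 : ℝ) * 2 ^ t := by positivity
    have s1 : ∑ σ, (inc (Rc σ) (Bc σ) : ℝ) ≤
        C ^ (j + 1) * (j + 1) * 2 ^ t * (C1 * T t (j + 1) Q0 R.card) := by
      refine (Finset.sum_le_sum fun σ _ => hch σ).trans ?_
      rw [← Finset.mul_sum]
      exact mul_le_mul_of_nonneg_left hsumT hpos
    have s2 : C ^ (j + 1) * (j + 1) * 2 ^ t * (C1 * T t (j + 1) Q0 R.card) ≤
        C ^ (j + 1) * (j + 1) * 2 ^ t * (C * T t (j + 1) Q0 R.card) :=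
      mul_le_mul_of_nonneg_left (mul_le_mul_of_nonneg_right hCC1 hTn) hpos
    have s3 : C1 * 2 ^ t * ((B.card : ℝ) ^ ((3 : ℝ) / 5) * (R.card : ℝ) ^ ((4 : ℝ) / 5) +
        R.card + B.card) ≤ C1 * 2 ^ t * T t (j + 1) Q0 R.card :=
      mul_le_mul_of_nonneg_left hsf (by positivity)
    have s4 : C1 * 2 ^ t * T t (j + 1) Q0 R.card ≤ C ^ (j + 2) * 2 ^ t * T t (j + 1) Q0 R.card := by
      have s5 : C1 ≤ C ^ (j + 2) := by
        calc C1 ≤ C := hCC1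
          _ = C ^ 1 := (pow_one C).symm
          _ ≤ C ^ (j + 2) := pow_le_pow_right₀ hC (by omega)
      exact mul_le_mul_of_nonneg_right (mul_le_mul_of_nonneg_right s5 (by positivity)) hTn
    have s6 : C ^ (j + 1 + 1) * (((j + 1 : ℕ) : ℝ) + 1) * 2 ^ t * T t (j + 1) Q0 R.card =
        C ^ (j + 1) * (j + 1) * 2 ^ t * (C * T t (j + 1) Q0 R.card) +
        C ^ (j + 2) * 2 ^ t * T t (j + 1) Q0 R.card := by
      push_cast
      ring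
    rw [s6]
    linarith

end Pool.Agent.Work.MP_81c58b_co.TG
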