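import Pool.Agent.Work.MP_81c58b_co.TG.Stmts

/-! Item RESP: the resultant of a surface and a cone along a direction. -/

set_option autoImplicit false

namespace Pool.Agent.Work.MP_81c58b_co.TG

open MvPolynomial

namespace I_RESP

/-- `A = 0` or `deg A + k ≤ D` -/
def Bd (D k : ℕ) (A : MvPolynomial (Fin 2) ℝ) : Prop := A = 0 ∨ A.totalDegree + k ≤ D

theorem Bd.add {D k : ℕ} {A B : MvPolynomial (Fin 2) ℝ} (hA : Bd D k A) (hB : Bd D k B) :
    Bd D k (A + B) := by
  rcases hA with hA | hA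
  · subst hA; simpa using hB
  · rcases hB with hB | hB
    · subst hB; simpa [Bd] using Or.inr hA
    · right
      have := MvPolynomial.totalDegree_add A B
      have h2 : max A.totalDegree B.totalDegree + k ≤ D := by omega
      omega

theorem Bd.mul {D k D' k' : ℕ} {A B : MvPolynomial (Fin 2) ℝ} (hA : Bd D k A)
    (hB : Bd D' k' B) : Bd (D + D') (k + k') (A * B) := by
  rcases hA with hA | hA
  · subst hA; left; simp
  · rcases hB with hB | hB
    · subst hB; left; simp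
    · right
      have := MvPolynomial.totalDegree_mul A B
      omega

theorem Bd.conv {D k D' k' : ℕ} {A : MvPolynomial (Fin 2) ℝ} (hA : Bd D k A)
    (h : D + k' ≤ D' + k) (_ : k' ≤ k ∨ D ≤ D') : Bd D' k' A := by
  rcases hA with hA | hA
  · exact Or.inl hA
  · right
    omega

theorem Bd.neg {D k : ℕ} {A : MvPolynomial (Fin 2) ℝ} (hA : Bd D k A) : Bd D k (-A) := by
  rcases hA with hA | hA
  · subst hA; left; simp
  · right; rwa [MvPolynomial.totalDegree_neg]

theorem Bd.sub {D k : ℕ} {A B : MvPolynomial (Fin 2) ℝ} (hA : Bd D k A) (hB : Bd D k B) :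
    Bd D k (A - B) := by
  rw [sub_eq_add_neg]; exact hA.add hB.neg

theorem Bd.C (c : ℝ) : Bd 0 0 (C c) := by
  right; simp

theorem Bd.X (i : Fin 2) : Bd 1 0 (X i) := by
  right; simp

/-- the linear coefficient -/
noncomputable def al (e0 e1 : ℝ) (r : E3) : MvPolynomial (Fin 2) ℝ :=
  C (2 * e0) * (X 0 - C (r 0)) + (X 1 - C (r 1)) - C (e1 * r 2)

/-- the constant coefficient -/
noncomputable def be (r : E3) : MvPolynomial (Fin 2) ℝ :=
  (X 0 - C (r 0)) * (X 0 - C (r 0)) - C (r 2) * (X 1 - C (r 1))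

theorem Bd.XC (i : Fin 2) (c : ℝ) : Bd 1 0 (MvPolynomial.X i - MvPolynomial.C c) :=
  (Bd.X i).sub ((Bd.C c).conv (by omega) (by omega))

theorem bd_al (e0 e1 : ℝ) (r : E3) : Bd 1 0 (al e0 e1 r) := by
  unfold al
  refine ((Bd.add ?_ (Bd.XC 1 _))).sub ((Bd.C _).conv (by omega) (by omega))
  exact ((Bd.C _).mul (Bd.XC 0 _)).conv (by omega) (by omega)

theorem bd_be (r : E3) : Bd 2 0 (be r) := by
  unfold be
  refine Bd.sub ?_ ?_
  · exact ((Bd.XC 0 _).mul (Bd.XC 0 _)).conv (by omega) (by omega)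
  · exact ((Bd.C _).mul (Bd.XC 1 _)).conv (by omega) (by omega)

theorem qC_eq (e0 e1 : ℝ) (r : E3) (x y z : ℂ) :
    qC r (LC e0 e1 x y z) = ((e0 ^ 2 + e1 : ℝ) : ℂ) * z ^ 2 + aeval ![x, y] (al e0 e1 r) * z +
      aeval ![x, y] (be r) := by
  simp only [qC, LC, al, be, map_add, map_sub, map_mul, aeval_X, aeval_C, Matrix.cons_val_zero,
    Matrix.cons_val_one, Matrix.cons_val_two, Matrix.head_cons, Matrix.tail_cons,
    Complex.coe_algebraMap, Complex.ofReal_add, Complex.ofReal_pow,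
    Complex.ofReal_ofNat]
  ring

/-- `P` is `A z + B` on the cone -/
def Adm (e0 e1 : ℝ) (r : E3) (P : MvPolynomial (Fin 3) ℝ) (D : ℕ) : Prop :=
  ∃ A B : MvPolynomial (Fin 2) ℝ, Bd D 1 A ∧ Bd D 0 B ∧
    ∀ x y z : ℂ, qC r (LC e0 e1 x y z) = 0 →
      aeval (LC e0 e1 x y z) P = aeval ![x, y] A * z + aeval ![x, y] B

theorem Adm.add {e0 e1 : ℝ} {r : E3} {P Q : MvPolynomial (Fin 3) ℝ} {D : ℕ}
    (hP : Adm e0 e1 r P D) (hQ : Adm e0 e1 r Q D) : Adm e0 e1 r (P + Q) D := by
  obtain ⟨A, B, hA, hB, h⟩ := hP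
  obtain ⟨A', B', hA', hB', h'⟩ := hQ
  refine ⟨A + A', B + B', hA.add hA', hB.add hB', fun x y z hz => ?_⟩
  rw [map_add, h x y z hz, h' x y z hz, map_add, map_add]
  ring

theorem Adm.mono {e0 e1 : ℝ} {r : E3} {P : MvPolynomial (Fin 3) ℝ} {D D' : ℕ}
    (hP : Adm e0 e1 r P D) (hD : D ≤ D') : Adm e0 e1 r P D' := by
  obtain ⟨A, B, hA, hB, h⟩ := hP
  exact ⟨A, B, hA.conv (by omega) (by omega), hB.conv (by omega) (by omega), h⟩

theorem Adm.const (e0 e1 : ℝ) (r : E3) (c : ℝ) : Adm e0 e1 r (C c) 0 := by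
  refine ⟨0, C c, Or.inl rfl, Bd.C c, fun x y z _ => ?_⟩
  simp

theorem Adm.X (e0 e1 : ℝ) (r : E3) (i : Fin 3) : Adm e0 e1 r (X i) 1 := by
  have hc : ∀ c : ℝ, Bd 1 1 (MvPolynomial.C c : MvPolynomial (Fin 2) ℝ) := fun c =>
    (Bd.C c).conv (by omega) (by omega)
  fin_cases i
  · refine ⟨MvPolynomial.C e0, MvPolynomial.X 0, hc _, Bd.X 0, fun x y z _ => ?_⟩
    simp [LC]
    ring
  · refine ⟨MvPolynomial.C e1, MvPolynomial.X 1, hc _, Bd.X 1, fun x y z _ => ?_⟩
    simp [LC]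
    ring
  · refine ⟨MvPolynomial.C 1, 0, hc _, Or.inl rfl, fun x y z _ => ?_⟩
    simp [LC]

theorem Adm.mul {e0 e1 : ℝ} {r : E3} (he : e0 ^ 2 + e1 ≠ 0) {P Q : MvPolynomial (Fin 3) ℝ}
    {D D' : ℕ} (hP : Adm e0 e1 r P D) (hQ : Adm e0 e1 r Q D') :
    Adm e0 e1 r (P * Q) (D + D') := by
  obtain ⟨A, B, hA, hB, h⟩ := hP
  obtain ⟨A', B', hA', hB', h'⟩ := hQ
  refine ⟨A * B' + B * A' - C (e0 ^ 2 + e1)⁻¹ * (al e0 e1 r * (A * A')),
    B * B' - C (e0 ^ 2 + e1)⁻¹ * (be r * (A * A')), ?_, ?_, fun x y z hz => ?_⟩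
  · refine Bd.sub (Bd.add ?_ ?_) ?_
    · exact (hA.mul hB').conv (by omega) (by omega)
    · exact (hB.mul hA').conv (by omega) (by omega)
    · exact ((Bd.C _).mul ((bd_al e0 e1 r).mul (hA.mul hA'))).conv (by omega) (by omega)
  · refine Bd.sub ?_ ?_
    · exact (hB.mul hB').conv (by omega) (by omega)
    · exact ((Bd.C _).mul ((bd_be r).mul (hA.mul hA'))).conv (by omega) (by omega)
  · rw [map_mul, h x y z hz, h' x y z hz]
    rw [qC_eq] at hz
    have he' : (((e0 ^ 2 + e1 : ℝ)) : ℂ) ≠ 0 := by exact_mod_cast he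
    simp only [map_add, map_sub, map_mul, aeval_C, Complex.coe_algebraMap, Complex.ofReal_inv]
    set a := aeval ![x, y] A
    set b := aeval ![x, y] B
    set a' := aeval ![x, y] A'
    set b' := aeval ![x, y] B'
    set α := aeval ![x, y] (al e0 e1 r)
    set β := aeval ![x, y] (be r)
    set ε : ℂ := ((e0 ^ 2 + e1 : ℝ) : ℂ)
    have h2 : z ^ 2 = - (ε⁻¹ * (α * z + β)) := by
      field_simp
      linear_combination hz
    linear_combination (a * a') * h2

theorem Adm.pow {e0 e1 : ℝ} {r : E3} (he : e0 ^ 2 + e1 ≠ 0) (i : Fin 3) (n : ℕ) :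
    Adm e0 e1 r (MvPolynomial.X i ^ n) n := by
  induction n with
  | zero => simpa using Adm.const e0 e1 r 1
  | succ n ih => rw [pow_succ]; exact ih.mul he (Adm.X e0 e1 r i)

theorem Adm.monomial {e0 e1 : ℝ} {r : E3} (he : e0 ^ 2 + e1 ≠ 0) (m : Fin 3 →₀ ℕ) (c : ℝ) :
    Adm e0 e1 r (monomial m c) (m.sum fun _ e => e) := by
  rw [MvPolynomial.monomial_eq, Finsupp.prod_fintype _ _ (by simp), Fin.prod_univ_three,
    Finsupp.sum_fintype _ _ (by simp), Fin.sum_univ_three]
  have h := (Adm.const e0 e1 r c).mul he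
    (((Adm.pow (r := r) he 0 (m 0)).mul he (Adm.pow he 1 (m 1))).mul he (Adm.pow he 2 (m 2)))
  exact h.mono (by omega)

theorem adm_all {e0 e1 : ℝ} {r : E3} (he : e0 ^ 2 + e1 ≠ 0) (P : MvPolynomial (Fin 3) ℝ) :
    Adm e0 e1 r P P.totalDegree := by
  have key : ∀ s : Finset (Fin 3 →₀ ℕ), s ⊆ P.support →
      Adm e0 e1 r (∑ m ∈ s, MvPolynomial.monomial m (coeff m P)) P.totalDegree := by
    classical
    intro s
    induction s using Finset.induction_on with
    | empty =>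
      intro _
      simpa using (Adm.const e0 e1 r 0).mono (Nat.zero_le P.totalDegree)
    | insert m s hm ih =>
      intro hs
      rw [Finset.sum_insert hm]
      refine Adm.add ?_ (ih (fun x hx => hs (Finset.mem_insert_of_mem hx)))
      exact (Adm.monomial he m _).mono
        (MvPolynomial.le_totalDegree (hs (Finset.mem_insert_self m s)))
  have h := key P.support (Finset.Subset.refl _)
  rwa [← MvPolynomial.as_sum] at h

theorem two_roots (ε α β : ℂ) (he : ε ≠ 0) : ∃ θ₁ θ₂ : ℂ, ε * (θ₁ + θ₂) = -α ∧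
    ε * (θ₁ * θ₂) = β := by
  obtain ⟨s, hs⟩ := IsAlgClosed.exists_pow_nat_eq (α ^ 2 - 4 * ε * β) (n := 2) (by norm_num)
  refine ⟨(-α + s) / (2 * ε), (-α - s) / (2 * ε), ?_, ?_⟩
  · field_simp
    ring
  · field_simp
    linear_combination (-1 : ℂ) * hs

end I_RESP

open I_RESP in
theorem RESP_pf : RESP := by
  intro V e0 e1 he r
  obtain ⟨A, B, hA, hB, h⟩ := adm_all (r := r) he V
  have he' : (((e0 ^ 2 + e1 : ℝ)) : ℂ) ≠ 0 := by exact_mod_cast he
  refine ⟨C (e0 ^ 2 + e1) * (B * B) - al e0 e1 r * A * B + be r * (A * A), ?_, fun x y => ?_⟩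
  · have hS : Bd (2 * V.totalDegree) 0
        (C (e0 ^ 2 + e1) * (B * B) - al e0 e1 r * A * B + be r * (A * A)) := by
      refine Bd.add (Bd.sub ?_ ?_) ?_
      · exact ((Bd.C _).mul (hB.mul hB)).conv (by omega) (by omega)
      · exact (((bd_al e0 e1 r).mul hA).mul hB).conv (by omega) (by omega)
      · exact ((bd_be r).mul (hA.mul hA)).conv (by omega) (by omega)
    rcases hS with hS | hS
    · rw [hS]; simp
    · simpa using hS
  · have hq := fun z : ℂ => qC_eq e0 e1 r x y z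
    generalize e0 ^ 2 + e1 = E at *
    simp only [map_add, map_sub, map_mul, aeval_C, Complex.coe_algebraMap]
    have hv : ∀ z : ℂ, qC r (LC e0 e1 x y z) = 0 →
      aeval (LC e0 e1 x y z) V = aeval ![x, y] A * z + aeval ![x, y] B := fun z hz => h x y z hz
    generalize aeval ![x, y] A = a at *
    generalize aeval ![x, y] B = b at *
    generalize aeval ![x, y] (al e0 e1 r) = α at *
    generalize aeval ![x, y] (be r) = β at *
    generalize (E : ℂ) = ε at *
    constructor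
    · intro hS
      obtain ⟨θ₁, θ₂, h1, h2⟩ := two_roots ε α β he'
      have h3 : ε * ((a * θ₁ + b) * (a * θ₂ + b)) = 0 := by
        linear_combination hS + a * b * h1 + a * a * h2
      have h4 : (a * θ₁ + b) * (a * θ₂ + b) = 0 := by
        rcases mul_eq_zero.1 h3 with h | h
        · exact absurd h he'
        · exact h
      rcases mul_eq_zero.1 h4 with h5 | h5
      · have hz : qC r (LC e0 e1 x y θ₁) = 0 := by
          rw [hq]
          linear_combination -h2 + θ₁ * h1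
        exact ⟨θ₁, hz, by rw [hv _ hz]; exact h5⟩
      · have hz : qC r (LC e0 e1 x y θ₂) = 0 := by
          rw [hq]
          linear_combination -h2 + θ₂ * h1
        exact ⟨θ₂, hz, by rw [hv _ hz]; exact h5⟩
    · rintro ⟨z, hz, hVz⟩
      rw [hv z hz] at hVz
      rw [hq z] at hz
      have hb : b = - (a * z) := by linear_combination hVz
      subst hb
      linear_combination a * a * hz

end Pool.Agent.Work.MP_81c58b_co.TG
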