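import Pool.Agent.Work.MP_81c58b_co.TG.Stmts

/-!
# MP_81c58b_co, block TG, item SDIR: a good direction of projection
-/

set_option autoImplicit false

namespace Pool.Agent.Work.MP_81c58b_co.TG

open MvPolynomial

namespace I_SDIR

lemma eval_smul_hom {W : MvPolynomial (Fin 3) ℝ} {D : ℕ} (hW : W.IsHomogeneous D) (c : ℝ)
    (v : Fin 3 → ℝ) : eval (fun i => c * v i) W = c ^ D * eval v W := by
  rw [eval_eq', eval_eq', Finset.mul_sum]
  refine Finset.sum_congr rfl fun d hd => ?_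
  have h1 : ∑ i, d i = D := by
    have h := hW (mem_support_iff.mp hd)
    have h2 : d.degree = Finsupp.weight (1 : Fin 3 → ℕ) d := by
      rw [Finsupp.degree_eq_weight_one]
      rfl
    rw [← Finsupp.degree_eq_sum, h2, h]
  simp_rw [mul_pow]
  rw [Finset.prod_mul_distrib, Finset.prod_pow_eq_pow_sum, h1]
  ring

/-- a point where a homogeneous polynomial and the quadratic form do not vanish -/
lemma exists_dir {W : MvPolynomial (Fin 3) ℝ} {D : ℕ} (hW : W.IsHomogeneous D) (h0 : W ≠ 0) :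
    ∃ e0 e1 : ℝ, e0 ^ 2 + e1 ≠ 0 ∧ eval ![e0, e1, 1] W ≠ 0 := by
  have hQ : (X 0 ^ 2 + X 1 * X 2 : MvPolynomial (Fin 3) ℝ) ≠ 0 := by
    intro h
    have := congrArg (eval ![1, 0, 0]) h
    simp at this
  have hX : (X 2 : MvPolynomial (Fin 3) ℝ) ≠ 0 := X_ne_zero 2
  have hne : W * ((X 0 ^ 2 + X 1 * X 2) * X 2) ≠ 0 := mul_ne_zero h0 (mul_ne_zero hQ hX)
  have hex : ∃ v : Fin 3 → ℝ, eval v (W * ((X 0 ^ 2 + X 1 * X 2) * X 2)) ≠ 0 := by
    by_contra hcon
    push Not at hcon
    exact hne (MvPolynomial.funext fun v => by rw [hcon v, map_zero])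
  obtain ⟨v, hv⟩ := hex
  simp only [map_mul, map_add, map_pow, eval_X] at hv
  have h1 : eval v W ≠ 0 := left_ne_zero_of_mul hv
  have h2 := right_ne_zero_of_mul hv
  have h3 : v 0 ^ 2 + v 1 * v 2 ≠ 0 := left_ne_zero_of_mul h2
  have h4 : v 2 ≠ 0 := right_ne_zero_of_mul h2
  refine ⟨v 0 / v 2, v 1 / v 2, ?_, ?_⟩
  · intro h
    apply h3
    field_simp at h
    linarith
  · have he : (![v 0 / v 2, v 1 / v 2, 1] : Fin 3 → ℝ) = fun i => (v 2)⁻¹ * v i := by
      ext i
      fin_cases i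
      · simp [div_eq_inv_mul]
      · simp [div_eq_inv_mul]
      · simp [h4]
    rw [he, eval_smul_hom hW]
    exact mul_ne_zero (pow_ne_zero _ (inv_ne_zero h4)) h1

/-- the three linear polynomials -/
noncomputable def F (e0 e1 : ℝ) (x y : ℂ) : Fin 3 → Polynomial ℂ :=
  ![Polynomial.C x + Polynomial.C (e0 : ℂ) * Polynomial.X,
    Polynomial.C y + Polynomial.C (e1 : ℂ) * Polynomial.X, Polynomial.X]

lemma F_deg (e0 e1 : ℝ) (x y : ℂ) (i : Fin 3) : (F e0 e1 x y i).natDegree ≤ 1 := by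
  have h : ∀ a b : ℂ, (Polynomial.C a + Polynomial.C b * Polynomial.X).natDegree ≤ 1 := by
    intro a b
    rw [add_comm]
    exact Polynomial.natDegree_linear_le
  fin_cases i
  · exact h x e0
  · exact h y e1
  · exact Polynomial.natDegree_X_le

lemma F_coeff (e0 e1 : ℝ) (x y : ℂ) (i : Fin 3) :
    (F e0 e1 x y i).coeff 1 = ((![e0, e1, 1] : Fin 3 → ℝ) i : ℂ) := by
  fin_cases i
  · simp [F, Polynomial.coeff_C]
  · simp [F, Polynomial.coeff_C]
  · simp [F]

lemma prod_facts (G : Fin 3 → Polynomial ℂ) (hG : ∀ i, (G i).natDegree ≤ 1) (d : Fin 3 →₀ ℕ) :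
    (∏ i, G i ^ d i).natDegree ≤ ∑ i, d i ∧
      (∏ i, G i ^ d i).coeff (∑ i, d i) = ∏ i, (G i).coeff 1 ^ d i := by
  have h1 : ∀ i, (G i ^ d i).natDegree ≤ d i := fun i => by
    refine Polynomial.natDegree_pow_le.trans ?_
    calc d i * (G i).natDegree ≤ d i * 1 := Nat.mul_le_mul_left _ (hG i)
      _ = d i := mul_one _
  have h2 : ∀ i, (G i ^ d i).coeff (d i) = (G i).coeff 1 ^ d i := fun i => by
    have := Polynomial.coeff_pow_of_natDegree_le (m := d i) (hG i)
    rwa [mul_one] at this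
  have h3 : (G 0 ^ d 0 * G 1 ^ d 1).natDegree ≤ d 0 + d 1 :=
    Polynomial.natDegree_mul_le.trans (add_le_add (h1 0) (h1 1))
  rw [Fin.prod_univ_three, Fin.sum_univ_three, Fin.prod_univ_three]
  refine ⟨Polynomial.natDegree_mul_le.trans (add_le_add h3 (h1 2)), ?_⟩
  rw [Polynomial.coeff_mul_add_eq_of_natDegree_le h3 (h1 2),
    Polynomial.coeff_mul_add_eq_of_natDegree_le (h1 0) (h1 1), h2, h2, h2]

lemma sum_le_totalDegree {V : MvPolynomial (Fin 3) ℝ} {d : Fin 3 →₀ ℕ} (hd : d ∈ V.support) :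
    ∑ i, d i ≤ V.totalDegree := by
  have := le_totalDegree hd
  rwa [Finsupp.sum_fintype _ _ (fun _ => rfl)] at this

lemma poly_facts (V : MvPolynomial (Fin 3) ℝ) (e0 e1 : ℝ) (x y : ℂ) :
    (aeval (F e0 e1 x y) V).natDegree ≤ V.totalDegree ∧
    (aeval (F e0 e1 x y) V).coeff V.totalDegree =
      ((eval ![e0, e1, 1] (homogeneousComponent V.totalDegree V) : ℝ) : ℂ) := by
  have hG := F_deg e0 e1 x y
  have hp : aeval (F e0 e1 x y) V = ∑ d ∈ V.support,
      Polynomial.C ((coeff d V : ℝ) : ℂ) * ∏ i, F e0 e1 x y i ^ d i := by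
    rw [aeval_def, eval₂_eq']
    refine Finset.sum_congr rfl fun d _ => ?_
    rfl
  rw [hp]
  constructor
  · refine Polynomial.natDegree_sum_le_of_forall_le _ _ fun d hd => ?_
    exact (Polynomial.natDegree_C_mul_le _ _).trans
      ((prod_facts _ hG d).1.trans (sum_le_totalDegree hd))
  · rw [Polynomial.finsetSum_coeff, homogeneousComponent_apply, map_sum, Finset.sum_filter]
    push_cast
    refine Finset.sum_congr rfl fun d hd => ?_
    rw [Polynomial.coeff_C_mul]
    by_cases h : d.degree = V.totalDegree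
    · rw [if_pos h]
      have h' : ∑ i, d i = V.totalDegree := by rwa [Finsupp.degree_eq_sum] at h
      rw [← h', (prod_facts _ hG d).2, eval_monomial, Finsupp.prod_fintype _ _ (fun _ => pow_zero _)]
      push_cast
      simp_rw [F_coeff]
    · rw [if_neg h]
      have h' : ∑ i, d i < V.totalDegree := by
        refine lt_of_le_of_ne (sum_le_totalDegree hd) ?_
        rwa [Finsupp.degree_eq_sum] at h
      rw [Polynomial.coeff_eq_zero_of_natDegree_lt (lt_of_le_of_lt (prod_facts _ hG d).1 h'),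
        mul_zero, Complex.ofReal_zero]

lemma hom_ne_zero {V : MvPolynomial (Fin 3) ℝ} (hV : V ≠ 0) :
    homogeneousComponent V.totalDegree V ≠ 0 := by
  have hs : V.support.Nonempty := by
    rw [Finset.nonempty_iff_ne_empty]
    simpa using hV
  obtain ⟨d, hd, hdeg⟩ := Finset.exists_mem_eq_sup V.support hs (fun s => s.sum fun _ e => e)
  intro h
  have h1 := congrArg (coeff d) h
  rw [coeff_homogeneousComponent, coeff_zero, if_pos] at h1
  · exact (mem_support_iff.mp hd) h1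
  · exact hdeg.symm

end I_SDIR

open I_SDIR in
theorem SDIR_pf : SDIR := by
  intro V hV
  obtain ⟨e0, e1, h1, h2⟩ := exists_dir (homogeneousComponent_isHomogeneous V.totalDegree V)
    (hom_ne_zero hV)
  refine ⟨e0, e1, h1, fun x y => ⟨aeval (F e0 e1 x y) V, ?_, (poly_facts V e0 e1 x y).1, ?_⟩⟩
  · intro h
    have h3 := (poly_facts V e0 e1 x y).2
    rw [h, Polynomial.coeff_zero] at h3
    exact h2 (by exact_mod_cast h3.symm)
  · intro z
    have h4 : (aeval (F e0 e1 x y) V).eval z =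
        ((Polynomial.aeval z : Polynomial ℂ →ₐ[ℂ] ℂ).restrictScalars ℝ)
          (aeval (F e0 e1 x y) V) := by
      simp [Polynomial.aeval_def, Polynomial.eval₂_eq_eval_map]
    have h5 : ((Polynomial.aeval z : Polynomial ℂ →ₐ[ℂ] ℂ).restrictScalars ℝ).comp
        (aeval (F e0 e1 x y)) = (aeval (LC e0 e1 x y z) : MvPolynomial (Fin 3) ℝ →ₐ[ℝ] ℂ) := by
      ext i
      fin_cases i
      · simp [F, LC]
      · simp [F, LC]
      · simp [F, LC]
    rw [h4, ← h5]
    rfl

end Pool.Agent.Work.MP_81c58b_co.TG
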