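import Pool.Agent.Work.MP_81c58b_co.TG.Stmts

/-!
# MP_81c58b_co, block TG, item SPLIT: one step of the coarse partition
-/

set_option autoImplicit false

namespace Pool.Agent.Work.MP_81c58b_co.TG

open MvPolynomial
open Pool.Agent.Work.MP_916cc8_co (sameCl Part War CW Bez Clr)

open scoped Classical

namespace I_SPLIT

variable {t : ℕ}

/-- sign vector -/
noncomputable def sg (f : Fin t → MvPolynomial (Fin 3) ℝ) (b : E3) : Fin t → Bool :=
  fun j => decide (0 < eval b (f j))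

/-- the blues with sign vector `σ` -/
noncomputable def Bc (f : Fin t → MvPolynomial (Fin 3) ℝ) (B : Finset E3) (σ : Fin t → Bool) :
    Finset E3 :=
  B.filter (fun b => (∀ j, eval b (f j) ≠ 0) ∧ sg f b = σ)

/-- the reds incident to one of them -/
noncomputable def Rc (f : Fin t → MvPolynomial (Fin 3) ℝ) (R B : Finset E3) (σ : Fin t → Bool) :
    Finset E3 :=
  R.filter (fun r => ∃ b ∈ Bc f B σ, Inc r b)

lemma mem_Bc {f : Fin t → MvPolynomial (Fin 3) ℝ} {B : Finset E3} {σ : Fin t → Bool} {b : E3} :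
    b ∈ Bc f B σ ↔ b ∈ B ∧ (∀ j, eval b (f j) ≠ 0) ∧ sg f b = σ := by
  simp [Bc]

lemma mem_Rc {f : Fin t → MvPolynomial (Fin 3) ℝ} {R B : Finset E3} {σ : Fin t → Bool} {r : E3} :
    r ∈ Rc f R B σ ↔ r ∈ R ∧ ∃ b ∈ Bc f B σ, Inc r b := by
  simp [Rc]

lemma same_of_sg {f : Fin t → MvPolynomial (Fin 3) ℝ} {x y : E3} (hx : ∀ j, eval x (f j) ≠ 0)
    (hy : ∀ j, eval y (f j) ≠ 0) (h : sg f x = sg f y) : sameCl f x y := by
  intro j
  have hj : decide (0 < eval x (f j)) = decide (0 < eval y (f j)) := congrFun h j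
  rw [decide_eq_decide] at hj
  rcases lt_or_gt_of_ne (hx j) with h1 | h1
  · have h2 : eval y (f j) < 0 := by
      rcases lt_or_gt_of_ne (hy j) with h3 | h3
      · exact h3
      · exact absurd (hj.2 h3) (not_lt.2 h1.le)
    exact mul_pos_of_neg_of_neg h1 h2
  · exact mul_pos h1 (hj.1 h1)

lemma sg_of_same {f : Fin t → MvPolynomial (Fin 3) ℝ} {x y : E3} (h : sameCl f x y) :
    sg f x = sg f y := by
  funext j
  have hj := h j
  simp only [sg, decide_eq_decide]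
  constructor
  · intro h1
    exact (pos_iff_pos_of_mul_pos hj).1 h1
  · intro h1
    exact (pos_iff_pos_of_mul_pos hj).2 h1

lemma str_mono {R B B0 : Finset E3} (h : Str R B) (hB : B0 ⊆ B) : Str R B0 :=
  ⟨fun r hr b hb b' hb' => h.h1 r hr b (hB hb) b' (hB hb'),
    fun b hb r hr r' hr' => h.h2 b (hB hb) r hr r' hr'⟩

/-- every red is incident to few classes -/
lemma visits (h1 : VIS3) (f : Fin t → MvPolynomial (Fin 3) ℝ) (B : Finset E3) (r : E3) :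
    (Finset.univ.filter (fun σ : Fin t → Bool => ∃ b ∈ Bc f B σ, Inc r b)).card ≤
      (6 * (∑ j, (f j).totalDegree) + 2) ^ 2 := by
  set S := Finset.univ.filter (fun σ : Fin t → Bool => ∃ b ∈ Bc f B σ, Inc r b) with hS
  have hch : ∀ σ : Fin t → Bool, ∃ b : E3, σ ∈ S → b ∈ Bc f B σ ∧ Inc r b := by
    intro σ
    by_cases h : σ ∈ S
    · have h' := h
      rw [hS, Finset.mem_filter] at h'
      obtain ⟨-, b, hb, hi⟩ := h'
      exact ⟨b, fun _ => ⟨hb, hi⟩⟩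
    · exact ⟨0, fun h2 => absurd h2 h⟩
  choose β hβ using hch
  have hinj : Set.InjOn β S := by
    intro σ hσ τ hτ hst
    have a1 := (mem_Bc.1 (hβ σ hσ).1).2.2
    have a2 := (mem_Bc.1 (hβ τ hτ).1).2.2
    rw [← a1, ← a2, hst]
  rw [← Finset.card_image_of_injOn hinj]
  refine h1 t f r _ ?_ ?_
  · intro b hb
    rw [Finset.mem_image] at hb
    obtain ⟨σ, hσ, rfl⟩ := hb
    exact ⟨(hβ σ hσ).2, (mem_Bc.1 (hβ σ hσ).1).2.1⟩
  · intro b hb b' hb' hs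
    rw [Finset.mem_image] at hb hb'
    obtain ⟨σ, hσ, rfl⟩ := hb
    obtain ⟨τ, hτ, rfl⟩ := hb'
    have a1 := (mem_Bc.1 (hβ σ hσ).1).2.2
    have a2 := (mem_Bc.1 (hβ τ hτ).1).2.2
    have a3 := sg_of_same hs
    rw [a1, a2] at a3
    rw [a3]

/-- the sum of the numbers of reds -/
lemma sum_Rc (h1 : VIS3) (f : Fin t → MvPolynomial (Fin 3) ℝ) (R B : Finset E3) :
    ∑ σ, (Rc f R B σ).card ≤ R.card * (6 * (∑ j, (f j).totalDegree) + 2) ^ 2 := by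
  have e : ∑ σ, (Rc f R B σ).card =
      ∑ r ∈ R, (Finset.univ.filter (fun σ : Fin t → Bool => ∃ b ∈ Bc f B σ, Inc r b)).card := by
    simp only [Rc, Finset.card_filter]
    rw [Finset.sum_comm]
  rw [e]
  refine (Finset.sum_le_card_nsmul _ _ _ (fun r _ => visits h1 f B r)).trans ?_
  rw [smul_eq_mul]

/-- the incidences -/
lemma inc_le (f : Fin t → MvPolynomial (Fin 3) ℝ) (R B : Finset E3) :
    inc R B ≤ ∑ σ, inc (Rc f R B σ) (Bc f B σ) +
      inc R (B.filter (fun b => ∃ j, eval b (f j) = 0)) := by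
  have hsub : (R ×ˢ B).filter (fun z => Inc z.1 z.2) ⊆
      (Finset.univ.biUnion fun σ : Fin t → Bool =>
        ((Rc f R B σ) ×ˢ (Bc f B σ)).filter (fun z => Inc z.1 z.2)) ∪
      (R ×ˢ (B.filter (fun b => ∃ j, eval b (f j) = 0))).filter (fun z => Inc z.1 z.2) := by
    intro z hz
    rw [Finset.mem_filter, Finset.mem_product] at hz
    obtain ⟨⟨hr, hb⟩, hi⟩ := hz
    by_cases h0 : ∃ j, eval z.2 (f j) = 0
    · refine Finset.mem_union_right _ ?_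
      rw [Finset.mem_filter, Finset.mem_product, Finset.mem_filter]
      exact ⟨⟨hr, hb, h0⟩, hi⟩
    · refine Finset.mem_union_left _ ?_
      rw [Finset.mem_biUnion]
      have hne : ∀ j, eval z.2 (f j) ≠ 0 := fun j hj => h0 ⟨j, hj⟩
      have hbc : z.2 ∈ Bc f B (sg f z.2) := mem_Bc.2 ⟨hb, hne, rfl⟩
      refine ⟨sg f z.2, Finset.mem_univ _, ?_⟩
      rw [Finset.mem_filter, Finset.mem_product]
      exact ⟨⟨mem_Rc.2 ⟨hr, z.2, hbc, hi⟩, hbc⟩, hi⟩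
  unfold inc
  refine (Finset.card_le_card hsub).trans ((Finset.card_union_le _ _).trans ?_)
  exact Nat.add_le_add_right Finset.card_biUnion_le _

/-- the analytic part -/
lemma arith {D G P Q m : ℝ} (t : ℕ) (hD : 1 ≤ D) (hP : 0 ≤ P) (hQ : 0 ≤ Q) (hm : 0 ≤ m)
    (hmQ : m ≤ Q) (hG : G = D * (2 : ℝ) ^ ((t : ℝ) / 3)) :
    m ^ ((3 : ℝ) / 5) * (G * P) ^ ((4 : ℝ) / 5) + G ^ 2 * P + G * m ≤
      D ^ 2 * 2 ^ t * (Q ^ ((3 : ℝ) / 5) * P ^ ((4 : ℝ) / 5) + P + Q) := by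
  have hu : (1 : ℝ) ≤ (2 : ℝ) ^ ((t : ℝ) / 3) :=
    Real.one_le_rpow (by norm_num) (by positivity)
  have hG1 : 1 ≤ G := by
    rw [hG]; nlinarith
  have hG2 : G ^ 2 ≤ D ^ 2 * 2 ^ t := by
    have e : G ^ 2 = D ^ 2 * (2 : ℝ) ^ (2 * ((t : ℝ) / 3)) := by
      rw [hG, mul_pow, ← Real.rpow_natCast ((2 : ℝ) ^ ((t : ℝ) / 3)) 2, ← Real.rpow_mul (by norm_num)]
      congr 2
      push_cast
      ring
    rw [e, ← Real.rpow_natCast 2 t]
    refine mul_le_mul_of_nonneg_left ?_ (by positivity)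
    refine Real.rpow_le_rpow_of_exponent_le (by norm_num) ?_
    have : (0 : ℝ) ≤ t := Nat.cast_nonneg t
    linarith
  have hGG : G ≤ G ^ 2 := by nlinarith
  have h1 : m ^ ((3 : ℝ) / 5) * (G * P) ^ ((4 : ℝ) / 5) ≤
      G ^ 2 * (Q ^ ((3 : ℝ) / 5) * P ^ ((4 : ℝ) / 5)) := by
    rw [Real.mul_rpow (by linarith) hP]
    have a1 : m ^ ((3 : ℝ) / 5) ≤ Q ^ ((3 : ℝ) / 5) := Real.rpow_le_rpow hm hmQ (by norm_num)
    have a2 : G ^ ((4 : ℝ) / 5) ≤ G := by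
      calc G ^ ((4 : ℝ) / 5) ≤ G ^ (1 : ℝ) :=
            Real.rpow_le_rpow_of_exponent_le hG1 (by norm_num)
        _ = G := Real.rpow_one G
    have a3 : 0 ≤ P ^ ((4 : ℝ) / 5) := Real.rpow_nonneg hP _
    have a4 : 0 ≤ m ^ ((3 : ℝ) / 5) := Real.rpow_nonneg hm _
    have a5 : 0 ≤ G ^ ((4 : ℝ) / 5) := Real.rpow_nonneg (by linarith) _
    calc m ^ ((3 : ℝ) / 5) * (G ^ ((4 : ℝ) / 5) * P ^ ((4 : ℝ) / 5))
        ≤ Q ^ ((3 : ℝ) / 5) * (G ^ 2 * P ^ ((4 : ℝ) / 5)) := by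
          refine mul_le_mul a1 ?_ (by positivity) (Real.rpow_nonneg hQ _)
          exact mul_le_mul_of_nonneg_right (a2.trans hGG) a3
      _ = _ := by ring
  have h2 : G * m ≤ G ^ 2 * Q := mul_le_mul hGG hmQ hm (by positivity)
  have h3 : 0 ≤ Q ^ ((3 : ℝ) / 5) * P ^ ((4 : ℝ) / 5) + P + Q := by
    have := Real.rpow_nonneg hQ ((3 : ℝ) / 5)
    have := Real.rpow_nonneg hP ((4 : ℝ) / 5)
    positivity
  calc _ ≤ G ^ 2 * (Q ^ ((3 : ℝ) / 5) * P ^ ((4 : ℝ) / 5) + P + Q) := by linarith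
    _ ≤ _ := mul_le_mul_of_nonneg_right hG2 h3

end I_SPLIT

open I_SPLIT in
/-- one step of the coarse partition -/
theorem SPLIT_pf (hP : Part 3) (h1 : VIS3) (h2 : SURF) : SPLIT := by
  obtain ⟨Cp, hCp, hpart⟩ := hP
  obtain ⟨Cs, hCs, hsurf⟩ := h2
  have hC1 : 1 ≤ 1 + (6 * Cp + 2) ^ 2 + Cs * (Cp + 1) ^ 2 := by
    have := sq_nonneg (6 * Cp + 2)
    have := mul_nonneg hCs.le (sq_nonneg (Cp + 1))
    linarith
  refine ⟨1 + (6 * Cp + 2) ^ 2 + Cs * (Cp + 1) ^ 2, hC1, ?_⟩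
  intro R B t hstr
  obtain ⟨f, hf0, hfd, hfc⟩ := hpart E3 B id t
  have hu : (1 : ℝ) ≤ (2 : ℝ) ^ ((t : ℝ) / 3) :=
    Real.one_le_rpow (by norm_num) (by positivity)
  refine ⟨Rc f R B, Bc f B, ?_, ?_, ?_⟩
  · intro σ
    refine ⟨Finset.filter_subset _ _, Finset.filter_subset _ _, ?_⟩
    rcases (Bc f B σ).eq_empty_or_nonempty with h0 | ⟨x, hx⟩
    · rw [h0]; simp
    · refine le_trans (Nat.mul_le_mul_left _ (Finset.card_le_card ?_)) (hfc x)
      intro b hb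
      have a1 := mem_Bc.1 hx
      have a2 := mem_Bc.1 hb
      rw [Finset.mem_filter]
      exact ⟨a2.1, same_of_sg a1.2.1 a2.2.1 (a1.2.2.trans a2.2.2.symm)⟩
  · have hs := sum_Rc h1 f R B
    have hs' : (∑ σ, ((Rc f R B σ).card : ℝ)) ≤
        R.card * (6 * ((∑ j, (f j).totalDegree : ℕ) : ℝ) + 2) ^ 2 := by
      exact_mod_cast hs
    have hR : (0 : ℝ) ≤ R.card := Nat.cast_nonneg _
    have hG0 : (0 : ℝ) ≤ ((∑ j, (f j).totalDegree : ℕ) : ℝ) := Nat.cast_nonneg _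
    have hq : (6 * ((∑ j, (f j).totalDegree : ℕ) : ℝ) + 2) ^ 2 ≤
        (6 * Cp + 2) ^ 2 * (2 : ℝ) ^ (2 * (t : ℝ) / 3) := by
      have e : (2 : ℝ) ^ (2 * (t : ℝ) / 3) = ((2 : ℝ) ^ ((t : ℝ) / 3)) ^ 2 := by
        rw [← Real.rpow_natCast ((2 : ℝ) ^ ((t : ℝ) / 3)) 2, ← Real.rpow_mul (by norm_num)]
        congr 1
        push_cast
        ring
      rw [e, ← mul_pow]
      refine pow_le_pow_left₀ (by positivity) ?_ 2
      nlinarith
    refine hs'.trans ?_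
    have hp2 : (0 : ℝ) ≤ (2 : ℝ) ^ (2 * (t : ℝ) / 3) := Real.rpow_nonneg (by norm_num) _
    calc (R.card : ℝ) * (6 * ((∑ j, (f j).totalDegree : ℕ) : ℝ) + 2) ^ 2
        ≤ R.card * ((6 * Cp + 2) ^ 2 * (2 : ℝ) ^ (2 * (t : ℝ) / 3)) :=
          mul_le_mul_of_nonneg_left hq hR
      _ = (6 * Cp + 2) ^ 2 * ((2 : ℝ) ^ (2 * (t : ℝ) / 3) * R.card) := by ring
      _ ≤ (1 + (6 * Cp + 2) ^ 2 + Cs * (Cp + 1) ^ 2) *
            ((2 : ℝ) ^ (2 * (t : ℝ) / 3) * R.card) := by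
          refine mul_le_mul_of_nonneg_right ?_ (mul_nonneg hp2 hR)
          nlinarith [mul_nonneg hCs.le (sq_nonneg (Cp + 1))]
      _ = _ := by ring
  · set B0 := B.filter (fun b => ∃ j, eval b (f j) = 0) with hB0
    have hi : (inc R B : ℝ) ≤ (∑ σ, (inc (Rc f R B σ) (Bc f B σ) : ℝ)) + inc R B0 := by
      exact_mod_cast inc_le f R B
    have hV0 : (∏ j, f j) ≠ 0 := Finset.prod_ne_zero_iff.2 (fun j _ => hf0 j)
    have hVd : (((∏ j, f j).totalDegree : ℕ) : ℝ) ≤ (Cp + 1) * (2 : ℝ) ^ ((t : ℝ) / 3) := by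
      have a1 : (∏ j, f j).totalDegree ≤ ∑ j, (f j).totalDegree :=
        totalDegree_finsetProd _ _
      have a2 : (((∏ j, f j).totalDegree : ℕ) : ℝ) ≤ ((∑ j, (f j).totalDegree : ℕ) : ℝ) := by
        exact_mod_cast a1
      nlinarith
    have hsf := hsurf (∏ j, f j) ((Cp + 1) * (2 : ℝ) ^ ((t : ℝ) / 3)) R B0 hV0 (by nlinarith) hVd
      (str_mono hstr (Finset.filter_subset _ _)) (by
        intro b hb
        rw [hB0, Finset.mem_filter] at hb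
        obtain ⟨-, j, hj⟩ := hb
        rw [map_prod]
        exact Finset.prod_eq_zero (Finset.mem_univ j) hj)
    have hcard : (B0.card : ℝ) ≤ B.card := by
      exact_mod_cast Finset.card_le_card (Finset.filter_subset _ _)
    have hR : (0 : ℝ) ≤ R.card := Nat.cast_nonneg _
    have hB : (0 : ℝ) ≤ B.card := Nat.cast_nonneg _
    have har := arith (D := Cp + 1) (P := (R.card : ℝ)) (Q := (B.card : ℝ)) (m := (B0.card : ℝ)) t
      (by linarith) hR hB (Nat.cast_nonneg _) hcard rfl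
    have h3 : 0 ≤ (B.card : ℝ) ^ ((3 : ℝ) / 5) * (R.card : ℝ) ^ ((4 : ℝ) / 5) + R.card +
        B.card := by
      have := Real.rpow_nonneg hB ((3 : ℝ) / 5)
      have := Real.rpow_nonneg hR ((4 : ℝ) / 5)
      positivity
    refine hi.trans (add_le_add_right ?_ _)
    refine hsf.trans ((mul_le_mul_of_nonneg_left har hCs.le).trans ?_)
    have h4 : (0 : ℝ) ≤ 2 ^ t * ((B.card : ℝ) ^ ((3 : ℝ) / 5) * (R.card : ℝ) ^ ((4 : ℝ) / 5) +
        R.card + B.card) := mul_nonneg (by positivity) h3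
    calc Cs * ((Cp + 1) ^ 2 * 2 ^ t * ((B.card : ℝ) ^ ((3 : ℝ) / 5) *
          (R.card : ℝ) ^ ((4 : ℝ) / 5) + R.card + B.card))
        = Cs * (Cp + 1) ^ 2 * (2 ^ t * ((B.card : ℝ) ^ ((3 : ℝ) / 5) *
          (R.card : ℝ) ^ ((4 : ℝ) / 5) + R.card + B.card)) := by ring
      _ ≤ (1 + (6 * Cp + 2) ^ 2 + Cs * (Cp + 1) ^ 2) * (2 ^ t * ((B.card : ℝ) ^ ((3 : ℝ) / 5) *
          (R.card : ℝ) ^ ((4 : ℝ) / 5) + R.card + B.card)) := by
          refine mul_le_mul_of_nonneg_right ?_ h4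
          nlinarith [sq_nonneg (6 * Cp + 2)]
      _ = _ := by ring

end Pool.Agent.Work.MP_81c58b_co.TG
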