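import Pool.Agent.Work.MP_81c58b_co.TG.Stmts

/-!
# Block TG, item STRD: the structure of the contacts of discs without triple points
-/

set_option autoImplicit false

namespace Pool.Agent.Work.MP_81c58b_co.TG

namespace I_STRD

theorem u_unit (t : ℝ) :
    (2 * t / (1 + t ^ 2)) ^ 2 + ((1 - t ^ 2) / (1 + t ^ 2)) ^ 2 = 1 := by
  have h : (1 + t ^ 2) ≠ 0 := by positivity
  field_simp
  ring

theorem emb_sub (ρ : ℝ) (D E : Disc) :
    (emb ρ E - emb 1 D) 0 = E.x - D.x ∧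
    (emb ρ E - emb 1 D) 1 = E.y - D.y + (ρ * E.r - D.r) ∧
    (emb ρ E - emb 1 D) 2 = E.y - D.y - (ρ * E.r - D.r) := by
  refine ⟨?_, ?_, ?_⟩
  · simp [emb]
  · simp [emb]; ring
  · simp [emb]; ring

theorem q_sub (ρ : ℝ) (D E : Disc) : q (emb ρ E - emb 1 D) =
    (E.x - D.x) ^ 2 + (E.y - D.y) ^ 2 - (ρ * E.r - D.r) ^ 2 := by
  obtain ⟨h0, h1, h2⟩ := emb_sub ρ D E
  unfold q
  rw [h0, h1, h2]
  ring

/-- position of the centre of `E` relative to `D` -/
theorem key (ρ : ℝ) (D E : Disc) (t : ℝ) (h : Inc (emb 1 D) (emb ρ E))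
    (htt : tt (emb 1 D) (emb ρ E) = t) :
    E.x = D.x + (ρ * E.r - D.r) * (2 * t / (1 + t ^ 2)) ∧
    E.y = D.y + (ρ * E.r - D.r) * ((1 - t ^ 2) / (1 + t ^ 2)) := by
  obtain ⟨hq, h1⟩ := h
  rw [q_sub] at hq
  obtain ⟨e0, e1, -⟩ := emb_sub ρ D E
  have ht : t * (E.y - D.y + (ρ * E.r - D.r)) = E.x - D.x := by
    rw [← htt]
    unfold tt
    rw [← e1, ← e0]
    exact div_mul_cancel₀ _ h1
  rw [e1] at h1
  have h3 : 2 * (E.y - D.y) = (E.y - D.y + (ρ * E.r - D.r)) * (1 - t ^ 2) := by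
    apply mul_left_cancel₀ h1
    rw [← ht] at hq
    linear_combination hq
  have hpos : (1 + t ^ 2) ≠ 0 := by positivity
  constructor
  · have h4 : (E.x - D.x) * (1 + t ^ 2) = (ρ * E.r - D.r) * (2 * t) := by
      linear_combination (-(1 + t ^ 2)) * ht + t * h3
    have h5 : E.x - D.x = (ρ * E.r - D.r) * (2 * t) / (1 + t ^ 2) := by
      rw [eq_div_iff hpos]
      exact h4
    rw [← mul_div_assoc]
    linear_combination h5
  · have h4 : (E.y - D.y) * (1 + t ^ 2) = (ρ * E.r - D.r) * (1 - t ^ 2) := by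
      linear_combination h3
    have h5 : E.y - D.y = (ρ * E.r - D.r) * (1 - t ^ 2) / (1 + t ^ 2) := by
      rw [eq_div_iff hpos]
      exact h4
    rw [← mul_div_assoc]
    linear_combination h5

/-- the common point lies on the circle -/
theorem mem_circle (ρ : ℝ) (hρ : ρ = 1 ∨ ρ = -1) (E : Disc) (t : ℝ) (p : ℝ × ℝ)
    (h0 : p.1 = E.x - ρ * E.r * (2 * t / (1 + t ^ 2)))
    (h1 : p.2 = E.y - ρ * E.r * ((1 - t ^ 2) / (1 + t ^ 2))) : p ∈ E.circle := by
  show (p.1 - E.x) ^ 2 + (p.2 - E.y) ^ 2 = E.r ^ 2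
  rw [h0, h1]
  have hρ2 : ρ ^ 2 = 1 := by
    rcases hρ with h | h <;> rw [h] <;> norm_num
  have hu := u_unit t
  linear_combination (ρ ^ 2 * E.r ^ 2) * hu + E.r ^ 2 * hρ2

theorem ne_of_inc (ρ : ℝ) (D E : Disc)
    (h : Inc (emb 1 D) (emb ρ E)) : D ≠ E := by
  rintro rfl
  obtain ⟨hq, h1⟩ := h
  rw [q_sub] at hq
  obtain ⟨e0, e1, -⟩ := emb_sub ρ D D
  rw [e1] at h1
  apply h1
  have h2 : (ρ * D.r - D.r) ^ 2 = 0 := by linear_combination -hq
  have h3 : ρ * D.r - D.r = 0 := by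
    exact pow_eq_zero_iff (two_ne_zero) |>.mp h2
  rw [h3]
  ring

theorem touch_of_inc (hC : CONTACT) (ρ : ℝ) (hρ : ρ = 1 ∨ ρ = -1) (D E : Disc)
    (hD : 0 ≤ D.r) (hE : 0 ≤ E.r) (hne : D ≠ E) (h : q (emb ρ E - emb 1 D) = 0) : Touch D E := by
  rw [hC D E hD hE hne]
  rcases hρ with h1 | h1
  · left
    rw [h1] at h
    exact h
  · right
    rw [h1] at h
    exact h

/-- two discs with the same common point and the same direction touch -/
theorem touch_same (hC : CONTACT) (ρ : ℝ) (hρ : ρ = 1 ∨ ρ = -1) (t : ℝ) (a b : ℝ) (D E : Disc)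
    (hD : 0 ≤ D.r) (hE : 0 ≤ E.r) (hne : D ≠ E)
    (hD0 : D.x = a + ρ * D.r * (2 * t / (1 + t ^ 2)))
    (hD1 : D.y = b + ρ * D.r * ((1 - t ^ 2) / (1 + t ^ 2)))
    (hE0 : E.x = a + ρ * E.r * (2 * t / (1 + t ^ 2)))
    (hE1 : E.y = b + ρ * E.r * ((1 - t ^ 2) / (1 + t ^ 2))) : Touch D E := by
  rw [hC D E hD hE hne]
  left
  rw [q_sub, hD0, hD1, hE0, hE1]
  have hρ2 : ρ ^ 2 = 1 := by
    rcases hρ with h | h <;> rw [h] <;> norm_num
  have hu := u_unit t
  linear_combination (ρ ^ 2 * (E.r - D.r) ^ 2) * hu + (E.r - D.r) ^ 2 * hρ2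

end I_STRD

open I_STRD in
theorem STRD_pf (h : CONTACT) : STRD := by
  classical
  intro ρ R B hρ hR hB hN
  refine ⟨⟨?_, ?_⟩, ?_⟩
  · intro r hr b hb b' hb' hi hi' htt
    rw [Finset.mem_image] at hr hb hb'
    obtain ⟨D, hD, rfl⟩ := hr
    obtain ⟨E, hE, rfl⟩ := hb
    obtain ⟨E', hE', rfl⟩ := hb'
    by_contra hne
    have hEE : E ≠ E' := fun hh => hne (by rw [hh])
    have hDE : D ≠ E := ne_of_inc ρ D E hi
    have hDE' : D ≠ E' := ne_of_inc ρ D E' hi'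
    obtain ⟨k0, k1⟩ := key ρ D E _ hi rfl
    obtain ⟨k0', k1'⟩ := key ρ D E' _ hi' htt.symm
    generalize tt (emb 1 D) (emb ρ E) = t at k0 k1 k0' k1'
    have hT1 : Touch D E := touch_of_inc h ρ hρ D E (hR D hD) (hB E hE) hDE hi.1
    have hT2 : Touch D E' := touch_of_inc h ρ hρ D E' (hR D hD) (hB E' hE') hDE' hi'.1
    have hT3 : Touch E E' :=
      touch_same h ρ hρ t (D.x - D.r * (2 * t / (1 + t ^ 2)))
        (D.y - D.r * ((1 - t ^ 2) / (1 + t ^ 2))) E E' (hB E hE) (hB E' hE') hEE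
        (by rw [k0]; ring) (by rw [k1]; ring) (by rw [k0']; ring) (by rw [k1']; ring)
    have hemp := hN D (Or.inl hD) E (Or.inr hE) E' (Or.inr hE') hDE hDE' hEE hT1 hT2 hT3
    have hmem : ((D.x - D.r * (2 * t / (1 + t ^ 2)), D.y - D.r * ((1 - t ^ 2) / (1 + t ^ 2))) :
        ℝ × ℝ) ∈ D.circle ∩ E.circle ∩ E'.circle := by
      refine ⟨⟨?_, ?_⟩, ?_⟩
      · exact mem_circle 1 (Or.inl rfl) D t _ (by simp) (by simp)
      · exact mem_circle ρ hρ E t _ (by show _ = _; rw [k0]; ring) (by show _ = _; rw [k1]; ring)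
      · exact mem_circle ρ hρ E' t _ (by show _ = _; rw [k0']; ring)
          (by show _ = _; rw [k1']; ring)
    rw [hemp] at hmem
    exact hmem
  · intro b hb r hr r' hr' hi hi' htt
    rw [Finset.mem_image] at hr hb hr'
    obtain ⟨E, hE, rfl⟩ := hb
    obtain ⟨D, hD, rfl⟩ := hr
    obtain ⟨D', hD', rfl⟩ := hr'
    by_contra hne
    have hDD : D ≠ D' := fun hh => hne (by rw [hh])
    have hDE : D ≠ E := ne_of_inc ρ D E hi
    have hDE' : D' ≠ E := ne_of_inc ρ D' E hi'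
    obtain ⟨k0, k1⟩ := key ρ D E _ hi rfl
    obtain ⟨k0', k1'⟩ := key ρ D' E _ hi' htt.symm
    generalize tt (emb 1 D) (emb ρ E) = t at k0 k1 k0' k1'
    have hT1 : Touch D E := touch_of_inc h ρ hρ D E (hR D hD) (hB E hE) hDE hi.1
    have hT2 : Touch D' E := touch_of_inc h ρ hρ D' E (hR D' hD') (hB E hE) hDE' hi'.1
    have hT3 : Touch D D' :=
      touch_same h 1 (Or.inl rfl) t (E.x - ρ * E.r * (2 * t / (1 + t ^ 2)))
        (E.y - ρ * E.r * ((1 - t ^ 2) / (1 + t ^ 2))) D D' (hR D hD) (hR D' hD') hDD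
        (by rw [k0]; ring) (by rw [k1]; ring) (by rw [k0']; ring) (by rw [k1']; ring)
    have hemp := hN D (Or.inl hD) D' (Or.inl hD') E (Or.inr hE) hDD hDE hDE' hT3 hT1 hT2
    have hmem : ((E.x - ρ * E.r * (2 * t / (1 + t ^ 2)),
        E.y - ρ * E.r * ((1 - t ^ 2) / (1 + t ^ 2))) :
        ℝ × ℝ) ∈ D.circle ∩ D'.circle ∩ E.circle := by
      refine ⟨⟨?_, ?_⟩, ?_⟩
      · exact mem_circle 1 (Or.inl rfl) D t _ (by show _ = _; rw [k0]; ring)
          (by show _ = _; rw [k1]; ring)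
      · exact mem_circle 1 (Or.inl rfl) D' t _ (by show _ = _; rw [k0']; ring)
          (by show _ = _; rw [k1']; ring)
      · exact mem_circle ρ hρ E t _ rfl rfl
    rw [hemp] at hmem
    exact hmem
  · intro D hD
    rw [Finset.card_le_one]
    intro E hE E' hE'
    rw [Finset.mem_filter] at hE hE'
    obtain ⟨hEB, hq, h1, hne⟩ := hE
    obtain ⟨hEB', hq', h1', hne'⟩ := hE'
    by_contra hEE
    have aux : ∀ F : Disc, q (emb ρ F - emb 1 D) = 0 → (emb ρ F - emb 1 D) 1 = 0 →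
        F.x = D.x ∧ F.y = D.y + D.r - ρ * F.r := by
      intro F hq h1
      obtain ⟨e0, e1, -⟩ := emb_sub ρ D F
      unfold q at hq
      rw [h1, e0] at hq
      rw [e1] at h1
      constructor
      · have h2 : (F.x - D.x) ^ 2 = 0 := by linear_combination hq
        have h3 : F.x - D.x = 0 := pow_eq_zero_iff (two_ne_zero) |>.mp h2
        linear_combination h3
      · linear_combination h1
    obtain ⟨k0, k1⟩ := aux E hq h1
    obtain ⟨k0', k1'⟩ := aux E' hq' h1'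
    have hρ2 : ρ ^ 2 = 1 := by
      rcases hρ with h | h <;> rw [h] <;> norm_num
    have hT1 : Touch D E :=
      touch_of_inc h ρ hρ D E (hR D hD) (hB E hEB) (Ne.symm hne) hq
    have hT2 : Touch D E' :=
      touch_of_inc h ρ hρ D E' (hR D hD) (hB E' hEB') (Ne.symm hne') hq'
    have hT3 : Touch E E' := by
      rw [h E E' (hB E hEB) (hB E' hEB') hEE]
      left
      rw [q_sub, k0, k1, k0', k1']
      linear_combination ((E'.r - E.r) ^ 2) * hρ2
    have hemp := hN D (Or.inl hD) E (Or.inr hEB) E' (Or.inr hEB') (Ne.symm hne) (Ne.symm hne')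
      hEE hT1 hT2 hT3
    have hmem : ((D.x, D.y + D.r) : ℝ × ℝ) ∈ D.circle ∩ E.circle ∩ E'.circle := by
      refine ⟨⟨?_, ?_⟩, ?_⟩
      · show (D.x - D.x) ^ 2 + (D.y + D.r - D.y) ^ 2 = D.r ^ 2
        ring
      · show (D.x - E.x) ^ 2 + (D.y + D.r - E.y) ^ 2 = E.r ^ 2
        rw [k0, k1]
        linear_combination E.r ^ 2 * hρ2
      · show (D.x - E'.x) ^ 2 + (D.y + D.r - E'.y) ^ 2 = E'.r ^ 2
        rw [k0', k1']
        linear_combination E'.r ^ 2 * hρ2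
    rw [hemp] at hmem
    exact hmem

end Pool.Agent.Work.MP_81c58b_co.TG
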