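import Pool.Agent.Work.MP_81c58b_co.TG.Stmts

/-!
# MP_81c58b_co, block TG: item SURF (the surface lemma)
-/

set_option autoImplicit false

namespace Pool.Agent.Work.MP_81c58b_co.TG

open MvPolynomial Finset
open Pool.Agent.Work.MP_916cc8_co (sameCl Part War CW Bez Clr)

open scoped Classical

namespace I_SURF

theorem str_mono {R R' X X' : Finset E3} (h : Str R X) (hR : R' ⊆ R) (hX : X' ⊆ X) :
    Str R' X' :=
  ⟨fun r hr b hb b' hb' => h.h1 r (hR hr) b (hX hb) b' (hX hb'),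
    fun b hb r hr r' hr' => h.h2 b (hX hb) r (hR hr) r' (hR hr')⟩

theorem inc_le_mul (R X : Finset E3) : inc R X ≤ R.card * X.card := by
  unfold inc
  calc _ ≤ (R ×ˢ X).card := card_le_card (filter_subset _ _)
    _ = _ := card_product _ _

/-- splitting the reds and the blues -/
theorem inc_split (R X : Finset E3) (P Q : E3 → Prop) :
    inc R X ≤ inc (R.filter P) X + inc (R.filter (fun r => ¬ P r)) (X.filter Q) +
      inc (R.filter (fun r => ¬ P r)) (X.filter (fun b => ¬ Q b)) := by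
  unfold inc
  have hsub : (R ×ˢ X).filter (fun z => Inc z.1 z.2) ⊆
      ((R.filter P) ×ˢ X).filter (fun z => Inc z.1 z.2) ∪
      ((R.filter (fun r => ¬ P r)) ×ˢ (X.filter Q)).filter (fun z => Inc z.1 z.2) ∪
      ((R.filter (fun r => ¬ P r)) ×ˢ (X.filter (fun b => ¬ Q b))).filter
        (fun z => Inc z.1 z.2) := by
    intro z hz
    simp only [mem_filter, mem_product, mem_union] at hz ⊢
    by_cases h1 : P z.1
    · exact Or.inl (Or.inl ⟨⟨⟨hz.1.1, h1⟩, hz.1.2⟩, hz.2⟩)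
    · by_cases h2 : Q z.2
      · exact Or.inl (Or.inr ⟨⟨⟨hz.1.1, h1⟩, ⟨hz.1.2, h2⟩⟩, hz.2⟩)
      · exact Or.inr ⟨⟨⟨hz.1.1, h1⟩, ⟨hz.1.2, h2⟩⟩, hz.2⟩
  refine (card_le_card hsub).trans ((card_union_le _ _).trans ?_)
  exact Nat.add_le_add_right (card_union_le _ _) _

theorem exists_t {G : ℝ} (hG : 1 ≤ G) : ∃ t : ℕ, G ≤ (2 : ℝ) ^ ((t : ℝ) / 2) ∧
    (2 : ℝ) ^ ((t : ℝ) / 2) ≤ 2 * G := by
  have hG0 : 0 < G := by linarith
  have hlog : 0 ≤ Real.logb 2 G := Real.logb_nonneg (by norm_num) hG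
  refine ⟨⌈2 * Real.logb 2 G⌉₊, ?_, ?_⟩
  · have h1 : 2 * Real.logb 2 G ≤ (⌈2 * Real.logb 2 G⌉₊ : ℝ) := Nat.le_ceil _
    calc G = (2 : ℝ) ^ (Real.logb 2 G) := (Real.rpow_logb (by norm_num) (by norm_num) hG0).symm
      _ ≤ (2 : ℝ) ^ ((⌈2 * Real.logb 2 G⌉₊ : ℝ) / 2) :=
          Real.rpow_le_rpow_of_exponent_le (by norm_num) (by linarith)
  · have h1 : (⌈2 * Real.logb 2 G⌉₊ : ℝ) < 2 * Real.logb 2 G + 1 :=
      Nat.ceil_lt_add_one (by linarith)
    calc (2 : ℝ) ^ ((⌈2 * Real.logb 2 G⌉₊ : ℝ) / 2) ≤ (2 : ℝ) ^ (1 + Real.logb 2 G) :=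
          Real.rpow_le_rpow_of_exponent_le (by norm_num) (by linarith)
      _ = 2 * G := by
          rw [Real.rpow_add (by norm_num), Real.rpow_one,
            Real.rpow_logb (by norm_num) (by norm_num) hG0]

/-- `n d G₁ = m^(3/5) (d n)^(4/5)` -/
theorem ar1 {m z : ℝ} (hm : 0 < m) (hz : 0 < z) :
    z * (m ^ 3 / z) ^ ((1 : ℝ) / 5) = m ^ ((3 : ℝ) / 5) * z ^ ((4 : ℝ) / 5) := by
  rw [Real.div_rpow (by positivity) hz.le, ← Real.rpow_natCast m 3, ← Real.rpow_mul hm.le]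
  have e : z ^ ((4 : ℝ) / 5) = z / z ^ ((1 : ℝ) / 5) := by
    rw [show (4 : ℝ) / 5 = 1 - 1 / 5 by norm_num, Real.rpow_sub hz, Real.rpow_one]
  rw [e]
  norm_num
  ring

/-- `m (n d / G₁)^(2/3) = m^(3/5) (d n)^(4/5)` -/
theorem ar2 {m z : ℝ} (hm : 0 < m) (hz : 0 < z) :
    m * (z / (m ^ 3 / z) ^ ((1 : ℝ) / 5)) ^ ((2 : ℝ) / 3) =
      m ^ ((3 : ℝ) / 5) * z ^ ((4 : ℝ) / 5) := by
  have e1 : (m ^ 3 / z) ^ ((1 : ℝ) / 5) = m ^ ((3 : ℝ) / 5) / z ^ ((1 : ℝ) / 5) := by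
    rw [Real.div_rpow (by positivity) hz.le, ← Real.rpow_natCast m 3, ← Real.rpow_mul hm.le]
    norm_num
  have e2 : z / (m ^ 3 / z) ^ ((1 : ℝ) / 5) = z ^ ((6 : ℝ) / 5) / m ^ ((3 : ℝ) / 5) := by
    rw [e1, div_div_eq_mul_div]
    congr 1
    rw [show (6 : ℝ) / 5 = 1 + 1 / 5 by norm_num, Real.rpow_add hz, Real.rpow_one]
  rw [e2, Real.div_rpow (by positivity) (by positivity), ← Real.rpow_mul hz.le,
    ← Real.rpow_mul hm.le]
  have e3 : m / m ^ ((3 : ℝ) / 5 * (2 / 3)) = m ^ ((3 : ℝ) / 5) := by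
    rw [show (3 : ℝ) / 5 * (2 / 3) = 1 - 3 / 5 by norm_num, Real.rpow_sub hm, Real.rpow_one]
    field_simp
  rw [show (6 : ℝ) / 5 * (2 / 3) = 4 / 5 by norm_num, mul_div_assoc', mul_comm m, mul_div_assoc,
    e3]
  ring

theorem deg_prod {t : ℕ} (f : Fin t → MvPolynomial (Fin 2) ℝ) :
    (∏ j, f j).totalDegree ≤ ∑ j, (f j).totalDegree := totalDegree_finsetProd _ _

/-- the numerical part -/
theorem numeric {Cp C3 m n n' d G G1 W D g' : ℝ} (hCp : 0 < Cp) (hC3 : 0 < C3) (hm : 0 < m)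
    (hn : 0 < n) (hn' : 0 ≤ n') (hnn : n' ≤ n) (hd : 1 ≤ d)
    (hG1 : G1 = (m ^ 3 / (d * n)) ^ ((1 : ℝ) / 5)) (hG : G = max d G1)
    (hD : 0 ≤ D) (hDd : D ≤ d) (hg0 : 0 ≤ g') (hg : g' ≤ 2 * Cp * G)
    {S : ℝ} (hS0 : 0 ≤ S) (hS : S ≤ 2 * Cp * G) (hW : W = d * (d + S)) {E : ℝ} (hE : G ^ 2 ≤ E)
    {i0 i1 i2 m2 : ℝ} (hm2 : m2 ≤ m) (h0 : i0 ≤ d * m)
    (h2 : i2 ≤ (4 * D * g' + 2 * g') * n' + 2 * D * m2)
    (h1 : i1 ≤ C3 * (n' * W + m * (n' * W / E) ^ ((2 : ℝ) / 3))) :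
    i0 + i2 + i1 ≤ (12 * Cp + 2 * C3 * (1 + 2 * Cp) + 3) *
      (m ^ ((3 : ℝ) / 5) * (d * n) ^ ((4 : ℝ) / 5) + d ^ 2 * n + d * m) := by
  have hz : 0 < d * n := by positivity
  have hG1p : 0 < G1 := by rw [hG1]; positivity
  have hGd : d ≤ G := hG ▸ le_max_left _ _
  have hGG : G1 ≤ G := hG ▸ le_max_right _ _
  have hGp : 0 < G := lt_of_lt_of_le hG1p hGG
  have hGle : G ≤ d + G1 := by
    rw [hG]; exact max_le (by linarith) (by linarith)
  set A := m ^ ((3 : ℝ) / 5) * (d * n) ^ ((4 : ℝ) / 5) with hA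
  have hA0 : 0 ≤ A := by positivity
  have hA1 : (d * n) * G1 = A := by rw [hG1]; exact ar1 hm hz
  have hA2 : m * (d * n / G1) ^ ((2 : ℝ) / 3) = A := by rw [hG1]; exact ar2 hm hz
  have hB : (d * n) * G ≤ A + d ^ 2 * n := by
    calc (d * n) * G ≤ (d * n) * (d + G1) := mul_le_mul_of_nonneg_left hGle hz.le
      _ = A + d ^ 2 * n := by rw [mul_add, hA1]; ring
  -- the terms of the zero set
  have t2 : i2 ≤ 12 * Cp * (A + d ^ 2 * n) + 2 * (d * m) := by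
    have a1 : (4 * D * g' + 2 * g') ≤ 12 * Cp * (d * G) := by
      have b1 : D * g' ≤ d * (2 * Cp * G) := mul_le_mul hDd hg hg0 (by linarith)
      have b2 : g' ≤ d * (2 * Cp * G) := by
        have : 2 * Cp * G ≤ d * (2 * Cp * G) := le_mul_of_one_le_left (by positivity) hd
        linarith
      nlinarith
    have a2 : (4 * D * g' + 2 * g') * n' ≤ 12 * Cp * (d * G) * n := by
      refine mul_le_mul a1 hnn hn' (by positivity)
    have a3 : 2 * D * m2 ≤ 2 * (d * m) := by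
      have : D * m2 ≤ D * m := mul_le_mul_of_nonneg_left hm2 hD
      have : D * m ≤ d * m := mul_le_mul_of_nonneg_right hDd hm.le
      linarith
    have a4 : 12 * Cp * (d * G) * n = 12 * Cp * ((d * n) * G) := by ring
    have a5 : 12 * Cp * ((d * n) * G) ≤ 12 * Cp * (A + d ^ 2 * n) :=
      mul_le_mul_of_nonneg_left hB (by positivity)
    linarith
  have hW1 : W ≤ (1 + 2 * Cp) * (d * G) := by
    rw [hW]
    have : d * (d + S) ≤ d * (G + 2 * Cp * G) :=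
      mul_le_mul_of_nonneg_left (by linarith) (by linarith)
    linarith
  have hW0 : 0 ≤ W := by rw [hW]; positivity
  have hnW : n' * W ≤ (1 + 2 * Cp) * ((d * n) * G) := by
    calc n' * W ≤ n * ((1 + 2 * Cp) * (d * G)) := mul_le_mul hnn hW1 hW0 hn.le
      _ = (1 + 2 * Cp) * ((d * n) * G) := by ring
  have hc1 : (1 : ℝ) ≤ 1 + 2 * Cp := by linarith
  have t1 : m * (n' * W / E) ^ ((2 : ℝ) / 3) ≤ (1 + 2 * Cp) * A := by
    have b1 : n' * W / E ≤ (1 + 2 * Cp) * (d * n / G1) := by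
      calc n' * W / E ≤ (1 + 2 * Cp) * ((d * n) * G) / G ^ 2 := by
            apply div_le_div₀ (by positivity) hnW (by positivity) hE
        _ = (1 + 2 * Cp) * (d * n / G) := by field_simp
        _ ≤ (1 + 2 * Cp) * (d * n / G1) := by
            apply mul_le_mul_of_nonneg_left _ (by linarith)
            exact div_le_div_of_nonneg_left hz.le hG1p hGG
    have hE0 : 0 < E := lt_of_lt_of_le (by positivity) hE
    have b2 : (n' * W / E) ^ ((2 : ℝ) / 3) ≤ (1 + 2 * Cp) * (d * n / G1) ^ ((2 : ℝ) / 3) := by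
      calc (n' * W / E) ^ ((2 : ℝ) / 3) ≤ ((1 + 2 * Cp) * (d * n / G1)) ^ ((2 : ℝ) / 3) :=
            Real.rpow_le_rpow (by positivity) b1 (by norm_num)
        _ = (1 + 2 * Cp) ^ ((2 : ℝ) / 3) * (d * n / G1) ^ ((2 : ℝ) / 3) :=
            Real.mul_rpow (by linarith) (by positivity)
        _ ≤ (1 + 2 * Cp) * (d * n / G1) ^ ((2 : ℝ) / 3) := by
            apply mul_le_mul_of_nonneg_right _ (by positivity)
            calc (1 + 2 * Cp) ^ ((2 : ℝ) / 3) ≤ (1 + 2 * Cp) ^ (1 : ℝ) :=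
                  Real.rpow_le_rpow_of_exponent_le hc1 (by norm_num)
              _ = _ := Real.rpow_one _
    calc m * (n' * W / E) ^ ((2 : ℝ) / 3)
        ≤ m * ((1 + 2 * Cp) * (d * n / G1) ^ ((2 : ℝ) / 3)) :=
          mul_le_mul_of_nonneg_left b2 hm.le
      _ = (1 + 2 * Cp) * (m * (d * n / G1) ^ ((2 : ℝ) / 3)) := by ring
      _ = (1 + 2 * Cp) * A := by rw [hA2]
  have t1' : i1 ≤ 2 * C3 * (1 + 2 * Cp) * (A + d ^ 2 * n) := by
    have c1 : n' * W ≤ (1 + 2 * Cp) * (A + d ^ 2 * n) :=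
      hnW.trans (mul_le_mul_of_nonneg_left hB (by linarith))
    have c2 : (1 + 2 * Cp) * A ≤ (1 + 2 * Cp) * (A + d ^ 2 * n) :=
      mul_le_mul_of_nonneg_left (by nlinarith) (by linarith)
    calc i1 ≤ C3 * (n' * W + m * (n' * W / E) ^ ((2 : ℝ) / 3)) := h1
      _ ≤ C3 * ((1 + 2 * Cp) * (A + d ^ 2 * n) + (1 + 2 * Cp) * (A + d ^ 2 * n)) :=
          mul_le_mul_of_nonneg_left (by linarith) hC3.le
      _ = _ := by ring
  have hk : 0 ≤ 12 * Cp + 2 * C3 * (1 + 2 * Cp) := by positivity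
  have hdm : 0 ≤ d * m := by positivity
  have hdn : 0 ≤ d ^ 2 * n := by positivity
  calc i0 + i2 + i1 ≤ d * m + (12 * Cp * (A + d ^ 2 * n) + 2 * (d * m)) +
        2 * C3 * (1 + 2 * Cp) * (A + d ^ 2 * n) := by linarith
    _ = (12 * Cp + 2 * C3 * (1 + 2 * Cp)) * (A + d ^ 2 * n) + 3 * (d * m) := by ring
    _ ≤ (12 * Cp + 2 * C3 * (1 + 2 * Cp)) * (A + d ^ 2 * n + d * m) +
        3 * (A + d ^ 2 * n + d * m) := by
          apply add_le_add
          · exact mul_le_mul_of_nonneg_left (by linarith) hk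
          · linarith
    _ = _ := by ring

end I_SURF

open I_SURF

theorem SURF_pf (hP : Part 2) (h1 : SDIR) (h2 : ZPART) (h3 : CELLP) (h4 : CONT) : SURF := by
  obtain ⟨Cp, hCp, hP⟩ := hP
  obtain ⟨C3, hC3, h3⟩ := h3
  refine ⟨12 * Cp + 2 * C3 * (1 + 2 * Cp) + 3, by positivity, ?_⟩
  intro V d R X hV hd hVd hS hX
  rcases Nat.eq_zero_or_pos X.card with hm0 | hm0
  · have : inc R X = 0 := by
      have := inc_le_mul R X
      rw [hm0] at this
      omega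
    rw [this]
    push_cast
    positivity
  rcases Nat.eq_zero_or_pos R.card with hn0 | hn0
  · have : inc R X = 0 := by
      have := inc_le_mul R X
      rw [hn0] at this
      omega
    rw [this]
    push_cast
    positivity
  have hm : (0 : ℝ) < X.card := by exact_mod_cast hm0
  have hn : (0 : ℝ) < R.card := by exact_mod_cast hn0
  obtain ⟨e0, e1, hDir⟩ := h1 V hV
  set G1 : ℝ := ((X.card : ℝ) ^ 3 / (d * R.card)) ^ ((1 : ℝ) / 5) with hG1
  set G : ℝ := max d G1 with hG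
  have hG1' : 1 ≤ G := hd.trans (le_max_left _ _)
  obtain ⟨t, ht1, ht2⟩ := exists_t hG1'
  obtain ⟨f, hf0, hfd, hfc⟩ := hP E3 X (prE e0 e1) t
  have hfd' : ((∑ j, (f j).totalDegree : ℕ) : ℝ) ≤ 2 * Cp * G := by
    refine hfd.trans ?_
    have : Cp * (2 : ℝ) ^ ((t : ℝ) / ((2 : ℕ) : ℝ)) ≤ Cp * (2 * G) := by
      apply mul_le_mul_of_nonneg_left _ hCp.le
      simpa using ht2
    linarith
  set g : MvPolynomial (Fin 2) ℝ := ∏ j, f j with hg
  have hg0 : g ≠ 0 := prod_ne_zero_iff.2 fun j _ => hf0 j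
  have hgd : (g.totalDegree : ℝ) ≤ 2 * Cp * G :=
    le_trans (by exact_mod_cast deg_prod f) hfd'
  have hsplit := inc_split R X (fun r => Cone V r) (fun b => eval (prE e0 e1 b) g = 0)
  set Rc := R.filter (fun r => Cone V r) with hRc
  set R' := R.filter (fun r => ¬ Cone V r) with hR'
  set X0 := X.filter (fun b => eval (prE e0 e1 b) g = 0) with hX0
  set X1 := X.filter (fun b => ¬ eval (prE e0 e1 b) g = 0) with hX1
  have hRcc : (Rc.card : ℝ) ≤ d := by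
    have := h4 V hV Rc (fun b hb => (mem_filter.1 hb).2)
    exact le_trans (by exact_mod_cast this) hVd
  have i0 : (inc Rc X : ℝ) ≤ d * X.card := by
    calc (inc Rc X : ℝ) ≤ (Rc.card : ℝ) * X.card := by exact_mod_cast inc_le_mul Rc X
      _ ≤ d * X.card := mul_le_mul_of_nonneg_right hRcc hm.le
  have hR'R : R' ⊆ R := filter_subset _ _
  have hX0X : X0 ⊆ X := filter_subset _ _
  have hX1X : X1 ⊆ X := filter_subset _ _
  have i2 := h2 V e0 e1 g R' X0 hDir hg0 (str_mono hS hR'R hX0X) (fun b hb =>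
    ⟨hX b (hX0X hb), (mem_filter.1 hb).2⟩)
  have i2' : (inc R' X0 : ℝ) ≤ (4 * (V.totalDegree : ℝ) * g.totalDegree + 2 * g.totalDegree) *
      R'.card + 2 * V.totalDegree * X0.card := by exact_mod_cast i2
  have hX1' : ∀ b ∈ X1, eval b V = 0 ∧ ∀ j, eval (prE e0 e1 b) (f j) ≠ 0 := fun b hb => by
    refine ⟨hX b (hX1X hb), fun j hj => (mem_filter.1 hb).2 ?_⟩
    rw [hg, map_prod]
    exact prod_eq_zero (mem_univ j) hj
  have hcl : ∀ x : Fin 2 → ℝ,
      (2 : ℝ) ^ t * (X1.filter (fun b => sameCl f x (prE e0 e1 b))).card ≤ X.card := fun x => by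
    have a1 := hfc x
    have a2 : (X1.filter (fun b => sameCl f x (prE e0 e1 b))).card ≤
        (X.filter (fun b => sameCl f x (prE e0 e1 b))).card :=
      card_le_card (filter_subset_filter _ hX1X)
    have a3 : 2 ^ t * (X1.filter (fun b => sameCl f x (prE e0 e1 b))).card ≤ X.card :=
      (Nat.mul_le_mul_left _ a2).trans a1
    exact_mod_cast a3
  have i1 := h3 V e0 e1 d X.card t f R' X1 (str_mono hS hR'R hX1X) hd hVd
    (fun r hr => (mem_filter.1 hr).2) hX1' hcl _ rfl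
  have hE : G ^ 2 ≤ (2 : ℝ) ^ t := by
    calc G ^ 2 ≤ ((2 : ℝ) ^ ((t : ℝ) / 2)) ^ 2 := by
          apply pow_le_pow_left₀ (by linarith) ht1
      _ = (2 : ℝ) ^ t := by
          rw [← Real.rpow_natCast ((2 : ℝ) ^ ((t : ℝ) / 2)) 2, ← Real.rpow_mul (by norm_num),
            ← Real.rpow_natCast]
          norm_num
  have hsplit' : (inc R X : ℝ) ≤ inc Rc X + inc R' X0 + inc R' X1 := by exact_mod_cast hsplit
  refine hsplit'.trans ?_
  exact numeric hCp hC3 hm hn (Nat.cast_nonneg R'.card)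
    (by exact_mod_cast card_le_card hR'R) hd hG1 hG (Nat.cast_nonneg V.totalDegree) hVd
    (Nat.cast_nonneg g.totalDegree) hgd (Nat.cast_nonneg _) hfd' rfl hE
    (by exact_mod_cast card_le_card hX0X) i0 i2' i1

end Pool.Agent.Work.MP_81c58b_co.TG
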