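import Pool.Agent.Work.MP_81c58b_co.TG.Stmts

/-!
MP_81c58b_co, block TG, item SURFREM: coincidences of conics inside a surface.
-/

set_option autoImplicit false

namespace Pool.Agent.Work.MP_81c58b_co.TG

open MvPolynomial
open scoped Classical

namespace I_SURFREM

lemma q_neg (p : E3) : q (-p) = q p := by
  simp [q]

lemma inc_symm {r b : E3} (h : Inc r b) : Inc b r := by
  refine ⟨?_, ?_⟩
  · have := h.1
    rw [← neg_sub b r, q_neg]
    exact this
  · intro h0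
    apply h.2
    have : (b - r) 1 = - (r - b) 1 := by
      simp
    rw [this, h0, neg_zero]

lemma tt_symm (r b : E3) : tt b r = tt r b := by
  unfold tt
  have h0 : (r - b) 0 = - (b - r) 0 := by simp
  have h1 : (r - b) 1 = - (b - r) 1 := by simp
  rw [h0, h1, neg_div_neg_eq]

/-- common red neighbours of three different blue points -/
lemma common (h1 : K33) {R B : Finset E3} (hS : Str R B) {b1 b2 b3 : E3} (hb1 : b1 ∈ B)
    (hb2 : b2 ∈ B) (hb3 : b3 ∈ B) (h12 : b1 ≠ b2) (h13 : b1 ≠ b3) (h23 : b2 ≠ b3) :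
    (R.filter (fun r => Inc r b1 ∧ Inc r b2 ∧ Inc r b3)).card ≤ 2 := by
  apply h1 b1 b2 b3
  intro r hr
  rw [Finset.mem_filter] at hr
  obtain ⟨hrR, hi1, hi2, hi3⟩ := hr
  refine ⟨inc_symm hi1, inc_symm hi2, inc_symm hi3, ?_, ?_, ?_⟩
  · rw [tt_symm r b1, tt_symm r b2]
    intro h
    exact h12 (hS.h1 r hrR b1 hb1 b2 hb2 hi1 hi2 h)
  · rw [tt_symm r b1, tt_symm r b3]
    intro h
    exact h13 (hS.h1 r hrR b1 hb1 b3 hb3 hi1 hi3 h)
  · rw [tt_symm r b2, tt_symm r b3]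
    intro h
    exact h23 (hS.h1 r hrR b2 hb2 b3 hb3 hi2 hi3 h)

/-- ordered pairs of different common neighbours of four blue points, three of them different -/
lemma four (h1 : K33) {R B : Finset E3} (hS : Str R B) {b1 b1' b2 b2' : E3} (hb1 : b1 ∈ B)
    (hb1' : b1' ∈ B) (hb2 : b2 ∈ B) (hb2' : b2' ∈ B) (h : b1 ≠ b1') (h' : b2 ≠ b2')
    (hne : ¬ ((b1 = b2 ∧ b1' = b2') ∨ (b1 = b2' ∧ b1' = b2))) :
    ((R ×ˢ R).filter (fun z => z.1 ≠ z.2 ∧ Inc z.1 b1 ∧ Inc z.1 b1' ∧ Inc z.1 b2 ∧ Inc z.1 b2' ∧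
      Inc z.2 b1 ∧ Inc z.2 b1' ∧ Inc z.2 b2 ∧ Inc z.2 b2')).card ≤ 2 := by
  obtain ⟨b3, hb3, hb3d⟩ : ∃ b3, (b3 = b2 ∨ b3 = b2') ∧ (b1 ≠ b3 ∧ b1' ≠ b3) := by
    by_cases hx : b1 ≠ b2 ∧ b1' ≠ b2
    · exact ⟨b2, Or.inl rfl, hx⟩
    · by_cases hy : b1 ≠ b2' ∧ b1' ≠ b2'
      · exact ⟨b2', Or.inr rfl, hy⟩
      · exfalso
        rw [not_and_or, not_not, not_not] at hx hy
        rcases hx with hx | hx <;> rcases hy with hy | hy
        · exact h' (hx.symm.trans hy)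
        · exact hne (Or.inl ⟨hx, hy⟩)
        · exact hne (Or.inr ⟨hy, hx⟩)
        · exact h' (hx.symm.trans hy)
  have hb3B : b3 ∈ B := by
    rcases hb3 with rfl | rfl <;> assumption
  have hc := common h1 hS hb1 hb1' hb3B h hb3d.1 hb3d.2
  set Z := R.filter (fun r => Inc r b1 ∧ Inc r b1' ∧ Inc r b3) with hZ
  have hsub : ((R ×ˢ R).filter (fun z => z.1 ≠ z.2 ∧ Inc z.1 b1 ∧ Inc z.1 b1' ∧ Inc z.1 b2 ∧
      Inc z.1 b2' ∧ Inc z.2 b1 ∧ Inc z.2 b1' ∧ Inc z.2 b2 ∧ Inc z.2 b2')) ⊆ Z.offDiag := by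
    intro z hz
    rw [Finset.mem_filter, Finset.mem_product] at hz
    obtain ⟨⟨hz1, hz2⟩, hzne, a1, a2, a3, a4, c1, c2, c3, c4⟩ := hz
    rw [Finset.mem_offDiag]
    refine ⟨?_, ?_, hzne⟩
    · rw [hZ, Finset.mem_filter]
      refine ⟨hz1, a1, a2, ?_⟩
      rcases hb3 with rfl | rfl <;> assumption
    · rw [hZ, Finset.mem_filter]
      refine ⟨hz2, c1, c2, ?_⟩
      rcases hb3 with rfl | rfl <;> assumption
  refine (Finset.card_le_card hsub).trans ?_
  rw [Finset.offDiag_card]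
  have : Z.card ≤ 2 := hc
  interval_cases Z.card <;> simp

/-- the pairs on the surface -/
noncomputable def SS (A : Finset Tr) (g : MvPolynomial (Fin 3) ℝ) : Finset (E3 × E3) :=
  (A.image (fun a => (a.1, a.2.1))).filter (fun z => ¬ Cone g z.1 ∧ Conic g z.1 z.2)

lemma SS_valid {R B : Finset E3} {A : Finset Tr} {g : MvPolynomial (Fin 3) ℝ} (hV : Valid R B A)
    {z : E3 × E3} (hz : z ∈ SS A g) : z.1 ∈ B ∧ z.2 ∈ B ∧ z.1 ≠ z.2 := by
  unfold SS at hz
  rw [Finset.mem_filter, Finset.mem_image] at hz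
  obtain ⟨⟨a, ha, rfl⟩, -⟩ := hz
  obtain ⟨v1, v2, v3, v4, v5, v6⟩ := hV a ha
  exact ⟨v1, v2, v4⟩

lemma SS_card (h2 : CONI) (h3 : PAR) {R B : Finset E3} {A : Finset Tr}
    {g : MvPolynomial (Fin 3) ℝ} (hS : Str R B) (hV : Valid R B A) :
    (SS A g).card ≤ g.totalDegree * nQ A := by
  unfold nQ
  apply Finset.card_le_mul_card_image_of_maps_to (f := fun z : E3 × E3 => z.1)
  · intro z hz
    unfold SS at hz
    rw [Finset.mem_filter, Finset.mem_image] at hz
    obtain ⟨⟨a, ha, rfl⟩, -⟩ := hz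
    exact Finset.mem_image_of_mem _ ha
  · intro b _
    have hinj : Set.InjOn (fun z : E3 × E3 => z.2)
        ((SS A g).filter (fun z => z.1 = b) : Finset (E3 × E3)) := by
      intro x hx y hy hxy
      have hx' := (Finset.mem_filter.mp (Finset.mem_coe.mp hx)).2
      have hy' := (Finset.mem_filter.mp (Finset.mem_coe.mp hy)).2
      exact Prod.ext (hx'.trans hy'.symm) hxy
    rw [← Finset.card_image_of_injOn hinj]
    by_cases hne : ((SS A g).filter (fun z => z.1 = b)).Nonempty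
    · obtain ⟨z0, hz0⟩ := hne
      have hz0' := Finset.mem_filter.mp hz0
      have hc : ¬ Cone g b := by
        have h := hz0'.1
        unfold SS at h
        rw [Finset.mem_filter] at h
        rw [← hz0'.2]
        exact h.2.1
      apply h2 g b hc
      intro b' hb'
      rw [Finset.mem_image] at hb'
      obtain ⟨z, hz, rfl⟩ := hb'
      obtain ⟨hz1, rfl⟩ := Finset.mem_filter.mp hz
      unfold SS at hz1
      rw [Finset.mem_filter, Finset.mem_image] at hz1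
      obtain ⟨⟨a, ha, rfl⟩, -, hcon⟩ := hz1
      obtain ⟨v1, v2, v3, v4, v5, v6⟩ := hV a ha
      refine ⟨?_, hcon⟩
      have htt : tt a.2.2 a.1 ≠ tt a.2.2 a.2.1 := fun h =>
        v4 (hS.h1 _ v3 _ v1 _ v2 v5 v6 h)
      exact (h3 a.2.2 a.1 a.2.1 v4 v5 v6 htt).1
    · rw [Finset.not_nonempty_iff_eq_empty] at hne
      rw [hne]
      simp

lemma X1_card {R B : Finset E3} {E : Finset Ed} {A : Finset Tr} (hE : EdgeSet R B E) :
    (E.filter (fun e => el e ∈ A)).card ≤ 4 * A.card := by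
  apply Finset.card_le_mul_card_image_of_maps_to (f := el)
  · intro e he
    exact (Finset.mem_filter.mp he).2
  · intro a _
    refine (Finset.card_le_card ?_).trans (hE.thin a.1 a.2.1 (tt a.2.2 a.1))
    intro e he
    obtain ⟨he1, rfl⟩ := Finset.mem_filter.mp he
    rw [Finset.mem_filter]
    refine ⟨(Finset.mem_filter.mp he1).1, rfl, rfl, ?_⟩
    exact Set.left_mem_uIcc

/-- the coincidences -/
def Coin (E : Finset Ed) (S : Finset (E3 × E3)) (e e' : Ed) : Prop :=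
  e' ∈ E ∧ e'.2.2 = e.2.2 ∧ (e.1, e.2.1) ∈ S ∧ (e'.1, e'.2.1) ∈ S ∧
    ¬ ((e.1 = e'.1 ∧ e.2.1 = e'.2.1) ∨ (e.1 = e'.2.1 ∧ e.2.1 = e'.1))

lemma X2_card (h1 : K33) {R B : Finset E3} {E : Finset Ed} {A : Finset Tr}
    {g : MvPolynomial (Fin 3) ℝ} (hS : Str R B) (hE : EdgeSet R B E) (hV : Valid R B A) :
    (E.filter (fun e => ∃ e', Coin E (SS A g) e e')).card ≤ 2 * ((SS A g).card * (SS A g).card) := by
  choose! F hF using (fun (e : Ed) (h : ∃ e', Coin E (SS A g) e e') => h)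
  rw [← Finset.card_product]
  apply Finset.card_le_mul_card_image_of_maps_to
    (f := fun e : Ed => ((e.1, e.2.1), ((F e).1, (F e).2.1)))
  · intro e he
    have h := hF e (Finset.mem_filter.mp he).2
    rw [Finset.mem_product]
    exact ⟨h.2.2.1, h.2.2.2.1⟩
  · intro s hs
    rw [Finset.mem_product] at hs
    obtain ⟨hs1, hs2⟩ := hs
    have v1 := SS_valid hV hs1
    have v2 := SS_valid hV hs2
    by_cases hne : ((s.1.1 = s.2.1 ∧ s.1.2 = s.2.2) ∨ (s.1.1 = s.2.2 ∧ s.1.2 = s.2.1))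
    · refine le_trans (le_of_eq ?_) (Nat.zero_le 2)
      rw [Finset.card_eq_zero, Finset.filter_eq_empty_iff]
      intro e he hes
      have h := hF e (Finset.mem_filter.mp he).2
      apply h.2.2.2.2
      rw [← hes] at hne
      exact hne
    · have h4 := four h1 hS v1.1 v1.2.1 v2.1 v2.2.1 v1.2.2 v2.2.2 hne
      refine le_trans ?_ h4
      apply Finset.card_le_card_of_injOn (fun e : Ed => e.2.2)
      · intro e he
        obtain ⟨he1, hes⟩ := Finset.mem_filter.mp (Finset.mem_coe.mp he)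
        have hc := hF e (Finset.mem_filter.mp he1).2
        have heE := (Finset.mem_filter.mp he1).1
        obtain ⟨-, -, a3, a4, a5⟩ := hE.edge e heE
        obtain ⟨-, -, -, -, c5⟩ := hE.edge (F e) hc.1
        have hs1' : s.1 = (e.1, e.2.1) := by rw [← hes]
        have hs2' : s.2 = ((F e).1, (F e).2.1) := by rw [← hes]
        have hee : (F e).2.2 = e.2.2 := hc.2.1
        obtain ⟨-, d2, d3, d4, d5, d6, -⟩ := a5
        obtain ⟨-, -, f3, f4, f5, f6, -⟩ := c5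
        rw [hee] at f3 f4 f5 f6
        rw [Finset.mem_coe, Finset.mem_filter, Finset.mem_product, hs1', hs2']
        exact ⟨⟨a3, a4⟩, d2, d3, d4, f3, f4, d5, d6, f5, f6⟩
      · intro e he e' he' hee
        obtain ⟨he1, hes⟩ := Finset.mem_filter.mp (Finset.mem_coe.mp he)
        obtain ⟨he1', hes'⟩ := Finset.mem_filter.mp (Finset.mem_coe.mp he')
        have hs1 : (e.1, e.2.1) = (e'.1, e'.2.1) := by
          have h1 : s.1 = (e.1, e.2.1) := by rw [← hes]
          have h2 : s.1 = (e'.1, e'.2.1) := by rw [← hes']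
          rw [← h1, h2]
        obtain ⟨x, y, z⟩ := e
        obtain ⟨x', y', z'⟩ := e'
        simp only [Prod.mk.injEq] at hs1 hee ⊢
        exact ⟨hs1.1, hs1.2, hee⟩

lemma arith {x a s d n : ℕ} (h1 : x ≤ 4 * a) (h2 : x ≤ 2 * (s * s)) (h3 : s ≤ d * n) :
    (x : ℝ) ≤ 4 * d * n * Real.sqrt a := by
  have h1' : (x : ℝ) ≤ 4 * a := by exact_mod_cast h1
  have h2' : (x : ℝ) ≤ 2 * (s * s) := by exact_mod_cast h2
  have h3' : (s : ℝ) ≤ d * n := by exact_mod_cast h3
  have hs : (0 : ℝ) ≤ s := Nat.cast_nonneg _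
  have ha : (0 : ℝ) ≤ a := Nat.cast_nonneg _
  have hx : (0 : ℝ) ≤ x := Nat.cast_nonneg _
  have hq : 0 ≤ Real.sqrt a := Real.sqrt_nonneg _
  have hqq : Real.sqrt a * Real.sqrt a = a := Real.mul_self_sqrt ha
  have key : (x : ℝ) ≤ 4 * s * Real.sqrt a := by
    refine (abs_le_of_sq_le_sq' ?_ (by positivity)).2
    have : (x : ℝ) * x ≤ (4 * a) * (2 * (s * s)) := mul_le_mul h1' h2' hx (by positivity)
    have e1 : (4 * (s : ℝ) * Real.sqrt a) ^ 2 = 16 * (s * s) * a := by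
      rw [show (4 * (s : ℝ) * Real.sqrt a) ^ 2 = 16 * (s * s) * (Real.sqrt a * Real.sqrt a) by ring,
        hqq]
    rw [e1]
    have h0 : 0 ≤ (s : ℝ) * s * a := by positivity
    nlinarith
  calc (x : ℝ) ≤ 4 * s * Real.sqrt a := key
    _ ≤ 4 * (d * n) * Real.sqrt a := by gcongr
    _ = 4 * d * n * Real.sqrt a := by ring

end I_SURFREM

open I_SURFREM in
theorem SURFREM_pf (h1 : K33) (h2 : CONI) (h3 : PAR) : SURFREM := by
  intro R B E A g hS hE hV _
  have hs := SS_card h2 h3 (g := g) hS hV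
  have hx1 := X1_card (A := A) hE
  have hx2 := X2_card h1 (g := g) hS hE hV
  rcases le_total (E.filter (fun e => el e ∈ A)).card
    (E.filter (fun e => ∃ e', Coin E (SS A g) e e')).card with hle | hle
  · refine ⟨E.filter (fun e => el e ∈ A), Finset.filter_subset _ _,
      arith hx1 (hle.trans hx2) hs, ?_⟩
    intro e he e' _ _ hel
    exfalso
    rw [Finset.mem_sdiff] at he
    exact he.2 (Finset.mem_filter.mpr ⟨he.1, hel⟩)
  · refine ⟨E.filter (fun e => ∃ e', Coin E (SS A g) e e'), Finset.filter_subset _ _,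
      arith (hle.trans hx1) hx2 hs, ?_⟩
    intro e he e' he' hee hel hel' hc1 hc2 hc3 hc4
    by_contra hcon
    rw [Finset.mem_sdiff] at he he'
    apply he.2
    rw [Finset.mem_filter]
    refine ⟨he.1, e', he'.1, hee.symm, ?_, ?_, hcon⟩
    · unfold SS
      rw [Finset.mem_filter, Finset.mem_image]
      exact ⟨⟨el e, hel, rfl⟩, hc1, hc2⟩
    · unfold SS
      rw [Finset.mem_filter, Finset.mem_image]
      exact ⟨⟨el e', hel', rfl⟩, hc3, hc4⟩

end Pool.Agent.Work.MP_81c58b_co.TG
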