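import Pool.Agent.Work.MP_81c58b_co.TG.Stmts

/-!
# MP_81c58b_co, block TG, item SWAP: the swap formula
-/

set_option autoImplicit false

namespace Pool.Agent.Work.MP_81c58b_co.TG

namespace I_SWAP

lemma sub_apply' (b r : E3) (i : Fin 3) : (b - r) i = b i - r i := rfl

/-- coordinates of a null vector -/
lemma coords (r b : E3) (h : Inc r b) :
    (b - r) 1 ≠ 0 ∧ (b - r) 0 = (b - r) 1 * tt r b ∧ (b - r) 2 = - ((b - r) 1 * tt r b ^ 2) := by
  obtain ⟨h1, h2⟩ := h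
  refine ⟨h2, ?_, ?_⟩
  · unfold tt
    field_simp
  · unfold tt
    unfold q at h1
    field_simp
    linarith

/-- one blue point: `κ ≠ 0` and `t' κ = e0 t + e2` -/
lemma one (r r' b : E3) (h : Inc r b) (h' : Inc r' b) (ht : tt r b ≠ tt r' b) :
    (r' - r) 1 * tt r b - (r' - r) 0 ≠ 0 ∧
    tt r' b * ((r' - r) 1 * tt r b - (r' - r) 0) = (r' - r) 0 * tt r b + (r' - r) 2 := by
  obtain ⟨-, h0, h2⟩ := coords r b h
  obtain ⟨h1', h0', h2'⟩ := coords r' b h'
  have e : ∀ i, (r' - r) i = (b - r) i - (b - r') i := by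
    intro i
    simp only [sub_apply']
    ring
  have k : (r' - r) 1 * tt r b - (r' - r) 0 = (b - r') 1 * (tt r' b - tt r b) := by
    rw [e 0, e 1, h0, h0']
    ring
  refine ⟨?_, ?_⟩
  · rw [k]
    exact mul_ne_zero h1' (sub_ne_zero.mpr ht.symm)
  · rw [k, e 0, e 2, h0, h0', h2, h2']
    ring

end I_SWAP

theorem SWAP_pf : SWAP := by
  intro r r' b c hb hb' hc hc' htb htc
  obtain ⟨k1, e1⟩ := I_SWAP.one r r' b hb hb' htb
  obtain ⟨k2, e2⟩ := I_SWAP.one r r' c hc hc' htc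
  refine ⟨k1, k2, ?_⟩
  unfold q
  linear_combination ((r' - r) 1 * tt r c - (r' - r) 0) * e1 -
    ((r' - r) 1 * tt r b - (r' - r) 0) * e2

end Pool.Agent.Work.MP_81c58b_co.TG
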