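import Pool.Agent.Work.MP_81c58b_co.TG.Stmts

/-!
# MP_81c58b_co, block TG, item THOM: Thom's lemma for two polynomials
-/

set_option autoImplicit false

namespace Pool.Agent.Work.MP_81c58b_co.TG

open Polynomial Set

namespace I_THOM

theorem mono_of (f : Polynomial ℝ) (x y : ℝ) (s : SignType) (hs : 0 ≤ s)
    (h : ∀ t ∈ Icc x y, SignType.sign ((derivative f).eval t) = s) :
    MonotoneOn (fun t => f.eval t) (Icc x y) := by
  refine monotoneOn_of_deriv_nonneg (convex_Icc x y) f.continuous.continuousOn
    f.differentiable.differentiableOn ?_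
  intro t ht
  rw [Polynomial.deriv]
  have h1 := h t (interior_subset ht)
  exact sign_nonneg_iff.1 (by rw [h1]; exact hs)

theorem anti_of (f : Polynomial ℝ) (x y : ℝ) (s : SignType) (hs : s ≤ 0)
    (h : ∀ t ∈ Icc x y, SignType.sign ((derivative f).eval t) = s) :
    AntitoneOn (fun t => f.eval t) (Icc x y) := by
  refine antitoneOn_of_deriv_nonpos (convex_Icc x y) f.continuous.continuousOn
    f.differentiable.differentiableOn ?_
  intro t ht
  rw [Polynomial.deriv]
  have h1 := h t (interior_subset ht)
  exact sign_nonpos_iff.1 (by rw [h1]; exact hs)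

theorem const_sign (f : Polynomial ℝ) (x y : ℝ) (s u : SignType)
    (h : ∀ t ∈ Icc x y, SignType.sign ((derivative f).eval t) = s)
    (hx : SignType.sign (f.eval x) = u) (hy : SignType.sign (f.eval y) = u) :
    ∀ t ∈ Icc x y, SignType.sign (f.eval t) = u := by
  intro t ht
  have hxm : x ∈ Icc x y := ⟨le_refl _, ht.1.trans ht.2⟩
  have hym : y ∈ Icc x y := ⟨ht.1.trans ht.2, le_refl _⟩
  rcases le_total 0 s with hs | hs
  · have hm := mono_of f x y s hs h
    have h1 : SignType.sign (f.eval x) ≤ SignType.sign (f.eval t) :=
      SignType.sign.monotone (hm hxm ht ht.1)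
    have h2 : SignType.sign (f.eval t) ≤ SignType.sign (f.eval y) :=
      SignType.sign.monotone (hm ht hym ht.2)
    rw [hx] at h1
    rw [hy] at h2
    exact le_antisymm h2 h1
  · have hm := anti_of f x y s hs h
    have h1 : SignType.sign (f.eval t) ≤ SignType.sign (f.eval x) :=
      SignType.sign.monotone (hm hxm ht ht.1)
    have h2 : SignType.sign (f.eval y) ≤ SignType.sign (f.eval t) :=
      SignType.sign.monotone (hm ht hym ht.2)
    rw [hx] at h1
    rw [hy] at h2
    exact le_antisymm h1 h2

theorem down (a : Polynomial ℝ) (x y : ℝ) (s : ℕ → SignType)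
    (hx : ∀ k, SignType.sign ((derivative^[k] a).eval x) = s k) (k : ℕ)
    (hy : ∀ j, k ≤ j → SignType.sign ((derivative^[j] a).eval y) = s j) :
    ∀ t ∈ Icc x y, SignType.sign ((derivative^[k] a).eval t) = s k := by
  have key : ∀ d j : ℕ, a.natDegree + 1 ≤ j + d → k ≤ j →
      ∀ t ∈ Icc x y, SignType.sign ((derivative^[j] a).eval t) = s j := by
    intro d
    induction d with
    | zero =>
      intro j hj _ t _
      have h0 : derivative^[j] a = 0 :=
        Polynomial.iterate_derivative_eq_zero (by omega)
      have h1 := hx j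
      rw [h0] at h1 ⊢
      simpa using h1
    | succ d ih =>
      intro j hj hkj
      have h1 := ih (j + 1) (by omega) (by omega)
      rw [Function.iterate_succ_apply'] at h1
      exact const_sign (derivative^[j] a) x y (s (j + 1)) (s j) h1 (hx j) (hy j hkj)
  exact key (a.natDegree + 1) k (by omega) le_rfl

end I_THOM

open I_THOM in
theorem THOM_pf : THOM := by
  intro a a' t1 t2 t1' t2' ha h12 h21' hs hu
  set s : ℕ → SignType := fun k => SignType.sign ((derivative^[k] a).eval t1) with hsdef
  set u : ℕ → SignType := fun k => SignType.sign ((derivative^[k] a).eval t2) with hudef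
  have hs' : ∀ k, SignType.sign ((derivative^[k] a').eval t1') = s k := fun k => (hs k).symm
  have hu' : ∀ k, SignType.sign ((derivative^[k] a').eval t2') = u k := fun k => (hu k).symm
  by_cases hall : ∀ k, s k = u k
  · have h0 := down a t1 t2 s (fun k => rfl) 0 (fun j _ => (hall j).symm)
    by_cases hz : s 0 = 0
    · exfalso
      apply ha
      refine Polynomial.eq_zero_of_infinite_isRoot a ?_
      refine (Set.Icc_infinite h12).mono ?_
      intro t ht
      have h1 := h0 t ht
      rw [hz] at h1
      exact sign_eq_zero_iff.1 h1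
    · have h1 : SignType.sign (a.eval t1) = s 0 := rfl
      have h2 : SignType.sign (a.eval t2) = s 0 := (hall 0).symm
      rw [← sign_eq_one_iff, sign_mul, h1, h2]
      revert hz
      generalize s 0 = z
      decide +revert
  · exfalso
    push Not at hall
    obtain ⟨k0, hk0⟩ := hall
    -- the largest index
    have hbound : ∀ k, a.natDegree + 1 ≤ k → s k = u k := by
      intro k hk
      have h0 : derivative^[k] a = 0 := Polynomial.iterate_derivative_eq_zero (by omega)
      simp only [hsdef, hudef, h0, Polynomial.eval_zero]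
    classical
    set k := Nat.findGreatest (fun k => s k ≠ u k) (a.natDegree + 1) with hk
    have hk0le : k0 ≤ a.natDegree + 1 := by
      by_contra hlt
      exact hk0 (hbound k0 (by omega))
    have hkne : s k ≠ u k := Nat.findGreatest_spec (P := fun k => s k ≠ u k) hk0le hk0
    have hkgt : ∀ j, k < j → s j = u j := by
      intro j hj
      by_cases hj2 : j ≤ a.natDegree + 1
      · have := Nat.findGreatest_is_greatest (P := fun k => s k ≠ u k) hj hj2
        exact not_not.1 this
      · exact hbound j (by omega)
    have hA := down a t1 t2 s (fun k => rfl) (k + 1) (fun j hj => (hkgt j (by omega)).symm)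
    have hB := down a' t2' t1' u hu' (k + 1) (fun j hj => by rw [hs' j]; exact hkgt j (by omega))
    rw [Function.iterate_succ_apply'] at hA hB
    have hku : s (k + 1) = u (k + 1) := hkgt (k + 1) (by omega)
    have m1 : t1 ∈ Icc t1 t2 := ⟨le_rfl, h12.le⟩
    have m2 : t2 ∈ Icc t1 t2 := ⟨h12.le, le_rfl⟩
    have m3 : t2' ∈ Icc t2' t1' := ⟨le_rfl, h21'.le⟩
    have m4 : t1' ∈ Icc t2' t1' := ⟨h21'.le, le_rfl⟩
    rcases le_total 0 (s (k + 1)) with hc | hc
    · have e1 : s k ≤ u k :=
        SignType.sign.monotone (mono_of _ t1 t2 _ hc hA m1 m2 h12.le)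
      have e2 : SignType.sign ((derivative^[k] a').eval t2') ≤
          SignType.sign ((derivative^[k] a').eval t1') :=
        SignType.sign.monotone (mono_of _ t2' t1' _ (hku ▸ hc) hB m3 m4 h21'.le)
      rw [hs' k, hu' k] at e2
      exact hkne (le_antisymm e1 e2)
    · have e1 : u k ≤ s k :=
        SignType.sign.monotone (anti_of _ t1 t2 _ hc hA m1 m2 h12.le)
      have e2 : SignType.sign ((derivative^[k] a').eval t1') ≤
          SignType.sign ((derivative^[k] a').eval t2') :=
        SignType.sign.monotone (anti_of _ t2' t1' _ (hku ▸ hc) hB m3 m4 h21'.le)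
      rw [hs' k, hu' k] at e2
      exact hkne (le_antisymm e2 e1)

end Pool.Agent.Work.MP_81c58b_co.TG
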