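import Pool.Agent.Work.MP_81c58b_co.TG.Stmts

/-!
# MP_81c58b_co, block TG, item UAR: the arithmetic of `UTH`
-/

set_option autoImplicit false

namespace Pool.Agent.Work.MP_81c58b_co.TG

namespace I_UAR

/-- the bound for `T'`, in logarithms -/
lemma tbound (C P Q f T J : ℝ) (hC : 1 ≤ C) (hQ : 1 ≤ Q) (hP : 0 < P) (hf : 0 < f) (hT : 0 < T)
    (hJ : 0 ≤ J) (x p y c : ℝ) (hx : Real.log Q = x) (hp : Real.log P = p) (hy : Real.log f = y)
    (hc : Real.log C = c) (h1 : 9 / 4 * x ≤ p) (h2 : p ≤ 3 * x) (h3 : (3 * x - p) / 20 ≤ y)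
    (h4 : y ≤ Real.log 2 + (3 * x - p) / 20)
    (hm : T ^ 2 ≤ C * P * f ^ 2 * (J + T))
    (hd : J < 16 * T ∨ J ≤ C * Q * (Q / f ^ 3) ∨ J ^ 4 ≤ C * P ^ 2 * (Q * (Q / f ^ 3)) ^ 3 ∨
      J ≤ C * (Q * (Q / f ^ 3) * J ^ ((251 : ℝ) / 1000) + Q * J ^ ((501 : ℝ) / 1000))) :
    Real.log T ≤ 10 * c + 20 + (121 / 160 * p + 117 / 160 * x) := by
  have hQ0 : 0 < Q := by linarith
  have hC0 : 0 < C := by linarith
  have hc0 : 0 ≤ c := by rw [← hc]; exact Real.log_nonneg hC
  have hx0 : 0 ≤ x := by rw [← hx]; exact Real.log_nonneg hQ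
  have l2 : Real.log 2 ≤ 1 := by
    have := Real.log_le_sub_one_of_pos (show (0 : ℝ) < 2 by norm_num)
    linarith
  have l20 : 0 ≤ Real.log 2 := Real.log_nonneg (by norm_num)
  have hpf : 0 < C * P * f ^ 2 := by positivity
  have hpl : Real.log (C * P * f ^ 2) = c + p + 2 * y := by
    rw [Real.log_mul (by positivity) (by positivity), Real.log_mul (by positivity) (by positivity),
      Real.log_pow, hc, hp, hy]
    norm_num
  by_cases hJT : J < 16 * T
  · have h5 : T ^ 2 ≤ 17 * (C * P * f ^ 2) * T := by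
      refine hm.trans ?_
      nlinarith
    have h6 : T ≤ 17 * (C * P * f ^ 2) := by
      have : T * T ≤ 17 * (C * P * f ^ 2) * T := by rw [← sq]; exact h5
      exact le_of_mul_le_mul_right this hT
    have h7 := Real.log_le_log hT h6
    rw [Real.log_mul (by norm_num) hpf.ne', hpl] at h7
    have l17 : Real.log 17 ≤ 16 := by
      have := Real.log_le_sub_one_of_pos (show (0 : ℝ) < 17 by norm_num)
      linarith
    linarith
  · have hJT' : 16 * T ≤ J := not_lt.1 hJT
    have hJ0 : 0 < J := by linarith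
    have h5 : T ^ 2 ≤ 2 * (C * P * f ^ 2) * J := by
      refine hm.trans ?_
      nlinarith
    have h6 := Real.log_le_log (by positivity) h5
    rw [Real.log_pow, Real.log_mul (by positivity) hJ0.ne', Real.log_mul (by norm_num) hpf.ne',
      hpl] at h6
    push_cast at h6
    have hqf : Real.log (Q * (Q / f ^ 3)) = 2 * x - 3 * y := by
      rw [Real.log_mul (by positivity) (by positivity), Real.log_div (by positivity) (by positivity),
        Real.log_pow, hx, hy]
      push_cast
      ring
    have hqf0 : 0 < Q * (Q / f ^ 3) := by positivity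
    rcases hd with hd | hd | hd | hd
    · exact absurd hd hJT
    · have h7 : J ≤ C * (Q * (Q / f ^ 3)) := by
        rw [← mul_assoc]; exact hd
      have h8 := Real.log_le_log hJ0 h7
      rw [Real.log_mul hC0.ne' hqf0.ne', hqf, hc] at h8
      linarith
    · have h8 := Real.log_le_log (by positivity) hd
      rw [Real.log_pow, Real.log_mul (by positivity) (by positivity),
        Real.log_mul hC0.ne' (by positivity), Real.log_pow, Real.log_pow, hqf, hc, hp] at h8
      push_cast at h8
      linarith
    · have hor : J ≤ 2 * C * ((Q * (Q / f ^ 3)) * J ^ ((251 : ℝ) / 1000)) ∨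
          J ≤ 2 * C * (Q * J ^ ((501 : ℝ) / 1000)) := by
        by_contra hcon
        rw [not_or, not_le, not_le] at hcon
        obtain ⟨ha, hb⟩ := hcon
        nlinarith
      rcases hor with h7 | h7
      · have h8 := Real.log_le_log hJ0 h7
        rw [Real.log_mul (by positivity) (by positivity), Real.log_mul (by norm_num) hC0.ne',
          Real.log_mul hqf0.ne' (by positivity), Real.log_rpow hJ0, hqf, hc] at h8
        linarith
      · have h8 := Real.log_le_log hJ0 h7
        rw [Real.log_mul (by positivity) (by positivity), Real.log_mul (by norm_num) hC0.ne',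
          Real.log_mul hQ0.ne' (by positivity), Real.log_rpow hJ0, hx, hc] at h8
        linarith

end I_UAR

open I_UAR in
theorem UAR_pf : UAR := by
  intro C hC
  refine ⟨12 * C + Real.exp (10 * Real.log C + 20), by positivity, ?_⟩
  intro P Q f T' T0 J hQ hQP hPQ hT' hT0 hJ hf1 hf2 hT0b hm hd
  have hQ0 : 0 < Q := by linarith
  have hC0 : 0 < C := by linarith
  have hP : 0 < P := lt_of_lt_of_le (by positivity) hQP
  have hz : 0 < Q ^ 3 / P := by positivity
  have hf : 0 < f := lt_of_lt_of_le (by positivity) hf1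
  set x := Real.log Q with hx
  set p := Real.log P with hp
  set y := Real.log f with hy
  have hx0 : 0 ≤ x := Real.log_nonneg hQ
  have h1 : 9 / 4 * x ≤ p := by
    have := Real.log_le_log (by positivity) hQP
    rwa [Real.log_rpow hQ0] at this
  have h2 : p ≤ 3 * x := by
    have := Real.log_le_log hP hPQ
    rw [Real.log_pow] at this
    exact_mod_cast this
  have hlz : Real.log (Q ^ 3 / P) = 3 * x - p := by
    rw [Real.log_div (by positivity) hP.ne', Real.log_pow]
    push_cast
    ring
  have h3 : (3 * x - p) / 20 ≤ y := by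
    have := Real.log_le_log (by positivity) hf1
    rw [Real.log_rpow hz, hlz] at this
    linarith
  have h4 : y ≤ Real.log 2 + (3 * x - p) / 20 := by
    have := Real.log_le_log hf hf2
    rw [Real.log_mul (by norm_num) (by positivity), Real.log_rpow hz, hlz] at this
    linarith
  have hM : P ^ ((121 : ℝ) / 160) * Q ^ ((117 : ℝ) / 160) =
      Real.exp (121 / 160 * p + 117 / 160 * x) := by
    rw [Real.rpow_def_of_pos hP, Real.rpow_def_of_pos hQ0, ← Real.exp_add]
    congr 1
    ring
  set M := P ^ ((121 : ℝ) / 160) * Q ^ ((117 : ℝ) / 160) with hMdef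
  have hM0 : 0 < M := by positivity
  have hfour : ∀ u : ℝ, u ≤ 2 * Real.log 2 + (121 / 160 * p + 117 / 160 * x) →
      Real.exp u ≤ 4 * M := by
    intro u hu
    have := Real.exp_le_exp.2 hu
    rw [Real.exp_add, ← hM, two_mul, Real.exp_add, Real.exp_log (by norm_num)] at this
    linarith
  have l20 : 0 ≤ Real.log 2 := Real.log_nonneg (by norm_num)
  have hT0c : T0 ≤ 12 * C * M := by
    have t1 : Q ^ ((3 : ℝ) / 5) * (f * P) ^ ((4 : ℝ) / 5) ≤ 4 * M := by
      rw [Real.rpow_def_of_pos hQ0, Real.rpow_def_of_pos (mul_pos hf hP), ← Real.exp_add,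
        Real.log_mul hf.ne' hP.ne']
      refine hfour _ ?_
      linarith
    have t2 : f ^ 2 * P ≤ 4 * M := by
      have e : f ^ 2 * P = Real.exp (2 * y + p) := by
        rw [Real.exp_add, two_mul, Real.exp_add, hy, hp, Real.exp_log hf, Real.exp_log hP]
        ring
      rw [e]
      refine hfour _ ?_
      linarith
    have t3 : f * Q ≤ 4 * M := by
      have e : f * Q = Real.exp (y + x) := by
        rw [Real.exp_add, hy, hx, Real.exp_log hf, Real.exp_log hQ0]
      rw [e]
      refine hfour _ ?_
      linarith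
    calc T0 ≤ C * (Q ^ ((3 : ℝ) / 5) * (f * P) ^ ((4 : ℝ) / 5) + f ^ 2 * P + f * Q) := hT0b
      _ ≤ C * (4 * M + 4 * M + 4 * M) := mul_le_mul_of_nonneg_left (by linarith) hC0.le
      _ = 12 * C * M := by ring
  have hTc : T' ≤ Real.exp (10 * Real.log C + 20) * M := by
    rcases eq_or_lt_of_le hT' with h0 | h0
    · rw [← h0]
      positivity
    · have h5 := tbound C P Q f T' J hC hQ hP hf h0 hJ x p y (Real.log C) rfl rfl rfl rfl h1 h2 h3 h4
        hm hd
      have h6 := Real.exp_le_exp.2 h5
      rw [Real.exp_log h0, Real.exp_add, ← hM] at h6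
      exact h6
  linarith

end Pool.Agent.Work.MP_81c58b_co.TG
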