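import Pool.Agent.Work.MP_81c58b_co.TG.Stmts

/-!
# MP_81c58b_co, block TG, item UTH: the unbalanced case
-/

set_option autoImplicit false

namespace Pool.Agent.Work.MP_81c58b_co.TG

open MvPolynomial

open scoped Classical

namespace I_UTH

lemma inc_split (R B B' : Finset E3) : inc R B ≤ inc R B' + inc R (B \ B') := by
  unfold inc
  have hsub : (R ×ˢ B).filter (fun z => Inc z.1 z.2) ⊆
      (R ×ˢ B').filter (fun z => Inc z.1 z.2) ∪ (R ×ˢ (B \ B')).filter (fun z => Inc z.1 z.2) := by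
    intro z hz
    simp only [Finset.mem_filter, Finset.mem_union, Finset.mem_product, Finset.mem_sdiff] at hz ⊢
    by_cases h : z.2 ∈ B'
    · exact Or.inl ⟨⟨hz.1.1, h⟩, hz.2⟩
    · exact Or.inr ⟨⟨hz.1.1, hz.1.2, h⟩, hz.2⟩
  exact (Finset.card_le_card hsub).trans (Finset.card_union_le _ _)

lemma str_mono {R B X : Finset E3} (h : Str R B) (hX : X ⊆ B) : Str R X :=
  ⟨fun r hr b hb b' hb' => h.h1 r hr b (hX hb) b' (hX hb'),
   fun b hb r hr r' hr' => h.h2 b (hX hb) r hr r' hr'⟩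

lemma inc_empty (R : Finset E3) : inc R ∅ = 0 := by
  unfold inc
  simp

/-- choice of the number of partition polynomials -/
lemma exists_t (z : ℝ) (hz : 1 ≤ z) : ∃ t : ℕ,
    z ^ ((1 : ℝ) / 20) ≤ (2 : ℝ) ^ ((t : ℝ) / 3) ∧
    (2 : ℝ) ^ ((t : ℝ) / 3) ≤ 2 * z ^ ((1 : ℝ) / 20) := by
  have hz0 : (0 : ℝ) < z := by linarith
  have hx : 1 ≤ z ^ ((3 : ℝ) / 20) := Real.one_le_rpow hz (by norm_num)
  obtain ⟨n, hn1, hn2⟩ := exists_nat_pow_near hx (by norm_num : (1 : ℝ) < 2)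
  have e1 : (2 : ℝ) ^ (((n + 1 : ℕ) : ℝ) / 3) = ((2 : ℝ) ^ (n + 1)) ^ ((1 : ℝ) / 3) := by
    rw [← Real.rpow_natCast, ← Real.rpow_mul (by norm_num)]
    congr 1
    ring
  have e2 : z ^ ((1 : ℝ) / 20) = (z ^ ((3 : ℝ) / 20)) ^ ((1 : ℝ) / 3) := by
    rw [← Real.rpow_mul hz0.le]
    congr 1
    norm_num
  refine ⟨n + 1, ?_, ?_⟩
  · rw [e1, e2]
    exact Real.rpow_le_rpow (by positivity) hn2.le (by norm_num)
  · rw [e1, e2]
    have h1 : (2 : ℝ) ^ (n + 1) ≤ 2 * z ^ ((3 : ℝ) / 20) := by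
      rw [pow_succ]
      linarith
    calc ((2 : ℝ) ^ (n + 1)) ^ ((1 : ℝ) / 3) ≤ (2 * z ^ ((3 : ℝ) / 20)) ^ ((1 : ℝ) / 3) :=
          Real.rpow_le_rpow (by positivity) h1 (by norm_num)
      _ = 2 ^ ((1 : ℝ) / 3) * (z ^ ((3 : ℝ) / 20)) ^ ((1 : ℝ) / 3) :=
          Real.mul_rpow (by norm_num) (by positivity)
      _ ≤ 2 * (z ^ ((3 : ℝ) / 20)) ^ ((1 : ℝ) / 3) := by
          apply mul_le_mul_of_nonneg_right _ (by positivity)
          calc (2 : ℝ) ^ ((1 : ℝ) / 3) ≤ 2 ^ (1 : ℝ) :=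
                Real.rpow_le_rpow_of_exponent_le (by norm_num) (by norm_num)
            _ = 2 := Real.rpow_one 2

lemma f_cube (t : ℕ) : ((2 : ℝ) ^ ((t : ℝ) / 3)) ^ 3 = 2 ^ t := by
  rw [← Real.rpow_natCast, ← Real.rpow_mul (by norm_num), ← Real.rpow_natCast]
  congr 1
  push_cast
  ring

lemma f_sq (t : ℕ) : ((2 : ℝ) ^ ((t : ℝ) / 3)) ^ 2 = 2 ^ (2 * (t : ℝ) / 3) := by
  rw [← Real.rpow_natCast, ← Real.rpow_mul (by norm_num)]
  congr 1
  push_cast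
  ring

/-- the surface term -/
lemma surf_term (C1 C2 X Q P f : ℝ) (hC1 : 1 ≤ C1) (hC2 : 0 < C2) (hX : 0 ≤ X) (hXQ : X ≤ Q)
    (hP : 0 ≤ P) (hf : 1 ≤ f) :
    C2 * (X ^ ((3 : ℝ) / 5) * ((C1 * f) * P) ^ ((4 : ℝ) / 5) + (C1 * f) ^ 2 * P + (C1 * f) * X) ≤
      (C2 * C1 ^ 2) * (Q ^ ((3 : ℝ) / 5) * (f * P) ^ ((4 : ℝ) / 5) + f ^ 2 * P + f * Q) := by
  have hC1' : C1 ≤ C1 ^ 2 := by nlinarith
  have h1 : X ^ ((3 : ℝ) / 5) * ((C1 * f) * P) ^ ((4 : ℝ) / 5) ≤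
      C1 ^ 2 * (Q ^ ((3 : ℝ) / 5) * (f * P) ^ ((4 : ℝ) / 5)) := by
    have e : ((C1 * f) * P) ^ ((4 : ℝ) / 5) = C1 ^ ((4 : ℝ) / 5) * (f * P) ^ ((4 : ℝ) / 5) := by
      rw [mul_assoc]
      exact Real.mul_rpow (by linarith) (by positivity)
    have e2 : C1 ^ ((4 : ℝ) / 5) ≤ C1 ^ 2 := by
      calc C1 ^ ((4 : ℝ) / 5) ≤ C1 ^ (1 : ℝ) :=
            Real.rpow_le_rpow_of_exponent_le hC1 (by norm_num)
        _ = C1 := Real.rpow_one C1
        _ ≤ C1 ^ 2 := hC1'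
    have e3 : X ^ ((3 : ℝ) / 5) ≤ Q ^ ((3 : ℝ) / 5) := Real.rpow_le_rpow hX hXQ (by norm_num)
    rw [e]
    calc X ^ ((3 : ℝ) / 5) * (C1 ^ ((4 : ℝ) / 5) * (f * P) ^ ((4 : ℝ) / 5))
        ≤ Q ^ ((3 : ℝ) / 5) * (C1 ^ 2 * (f * P) ^ ((4 : ℝ) / 5)) := by
          apply mul_le_mul e3 _ (by positivity) (by have := hX.trans hXQ; positivity)
          exact mul_le_mul_of_nonneg_right e2 (by positivity)
      _ = _ := by ring
  have h2 : (C1 * f) * X ≤ C1 ^ 2 * (f * Q) := by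
    calc (C1 * f) * X ≤ (C1 ^ 2 * f) * Q :=
          mul_le_mul (mul_le_mul_of_nonneg_right hC1' (by linarith)) hXQ hX (by positivity)
      _ = _ := by ring
  have h3 : (C1 * f) ^ 2 * P = C1 ^ 2 * (f ^ 2 * P) := by ring
  calc C2 * (X ^ ((3 : ℝ) / 5) * ((C1 * f) * P) ^ ((4 : ℝ) / 5) + (C1 * f) ^ 2 * P + (C1 * f) * X)
      ≤ C2 * (C1 ^ 2 * (Q ^ ((3 : ℝ) / 5) * (f * P) ^ ((4 : ℝ) / 5)) + C1 ^ 2 * (f ^ 2 * P) +
          C1 ^ 2 * (f * Q)) := by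
        apply mul_le_mul_of_nonneg_left _ hC2.le
        linarith
    _ = _ := by ring

lemma fin1 (K P a : ℝ) (hK : 0 ≤ K) (hP : 0 ≤ P) (ha : 0 ≤ a) : K * a ≤ (K + 4) * (P + a) := by
  have h1 := mul_nonneg hK hP
  have e : (K + 4) * (P + a) = K * a + (K * P + 4 * P + 4 * a) := by ring
  rw [e]
  linarith

lemma fin2 (K P a : ℝ) (hK : 0 ≤ K) (hP : 0 ≤ P) (ha : 0 ≤ a) : 4 * P ≤ (K + 4) * (P + a) := by
  have h1 := mul_nonneg hK hP
  have h2 := mul_nonneg hK ha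
  have e : (K + 4) * (P + a) = 4 * P + (K * P + K * a + 4 * a) := by ring
  rw [e]
  linarith

end I_UTH

open I_UTH in
theorem UTH_pf (h1 : KST) (h2 : JB) (h3 : SURF) (h4 : UCORE) (h5 : UAR) : UTH := by
  obtain ⟨C1, hC1, hJB⟩ := h2
  obtain ⟨C2, hC2, hSURF⟩ := h3
  obtain ⟨C3, hC3, hUC⟩ := h4
  have hsq : 0 < C2 * C1 ^ 2 := by positivity
  obtain ⟨K, hK, hUAR⟩ := h5 (C2 * C1 ^ 2 + C1 + C3) (by linarith)
  have hCa : C2 * C1 ^ 2 ≤ C2 * C1 ^ 2 + C1 + C3 := by linarith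
  have hCb : C1 ≤ C2 * C1 ^ 2 + C1 + C3 := by linarith
  have hCc : C3 ≤ C2 * C1 ^ 2 + C1 + C3 := by linarith
  have hC0 : 0 ≤ C2 * C1 ^ 2 + C1 + C3 := by linarith
  generalize C2 * C1 ^ 2 + C1 + C3 = C at hCa hCb hCc hC0 hUAR
  refine ⟨K + 4, by linarith, ?_⟩
  intro R B hS hQP
  have hP0 : (0 : ℝ) ≤ (R.card : ℝ) := Nat.cast_nonneg _
  have hQ0 : (0 : ℝ) ≤ (B.card : ℝ) := Nat.cast_nonneg _
  rcases Finset.eq_empty_or_nonempty B with hB | hB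
  · subst hB
    rw [inc_empty, Nat.cast_zero]
    positivity
  have hQ1 : (1 : ℝ) ≤ (B.card : ℝ) := by
    exact_mod_cast hB.card_pos
  have hP1 : (1 : ℝ) ≤ (R.card : ℝ) := (Real.one_le_rpow hQ1 (by norm_num)).trans hQP
  by_cases hPQ : (B.card : ℝ) ^ 3 < (R.card : ℝ)
  · -- many reds
    have hk := h1 R B hS
    have hq : (B.card : ℝ) ≤ (R.card : ℝ) ^ ((1 : ℝ) / 3) := by
      calc (B.card : ℝ) = ((B.card : ℝ) ^ 3) ^ ((1 : ℝ) / 3) := by
            rw [← Real.rpow_natCast, ← Real.rpow_mul hQ0]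
            norm_num
        _ ≤ (R.card : ℝ) ^ ((1 : ℝ) / 3) := Real.rpow_le_rpow (by positivity) hPQ.le (by norm_num)
    have hm : (B.card : ℝ) * (R.card : ℝ) ^ ((2 : ℝ) / 3) ≤ R.card := by
      calc (B.card : ℝ) * (R.card : ℝ) ^ ((2 : ℝ) / 3)
          ≤ (R.card : ℝ) ^ ((1 : ℝ) / 3) * (R.card : ℝ) ^ ((2 : ℝ) / 3) :=
            mul_le_mul_of_nonneg_right hq (by positivity)
        _ = (R.card : ℝ) ^ (1 : ℝ) := by
            rw [← Real.rpow_add (by linarith)]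
            norm_num
        _ = R.card := Real.rpow_one _
    have hpos : 0 ≤ (R.card : ℝ) ^ ((121 : ℝ) / 160) * (B.card : ℝ) ^ ((117 : ℝ) / 160) := by
      positivity
    calc (inc R B : ℝ) ≤ 4 * R.card := by linarith
      _ ≤ (K + 4) * (R.card + (R.card : ℝ) ^ ((121 : ℝ) / 160) *
            (B.card : ℝ) ^ ((117 : ℝ) / 160)) := fin2 _ _ _ hK.le hP0 hpos
  · have hPQ' : (R.card : ℝ) ≤ (B.card : ℝ) ^ 3 := not_lt.mp hPQ
    have hz : 1 ≤ (B.card : ℝ) ^ 3 / R.card := by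
      rw [le_div_iff₀ (by linarith)]
      linarith
    obtain ⟨t, ht1, ht2⟩ := exists_t _ hz
    obtain ⟨V, B', N, hV, hVd, hB', hV0, hNear, hT⟩ := hJB R B t
    have hf3 := f_cube t
    have hf2 := f_sq t
    rw [← hf2] at hT
    have hf1 : 1 ≤ (2 : ℝ) ^ ((t : ℝ) / 3) := Real.one_le_rpow (by norm_num) (by positivity)
    generalize (2 : ℝ) ^ ((t : ℝ) / 3) = f at ht1 ht2 hVd hT hf3 hf2 hf1
    have hS' : Str R B' := str_mono hS hB'
    have hSX : Str R (B \ B') := str_mono hS Finset.sdiff_subset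
    have hB'c : (B'.card : ℝ) ≤ B.card := by exact_mod_cast Finset.card_le_card hB'
    have hXc : ((B \ B').card : ℝ) ≤ B.card := by
      exact_mod_cast Finset.card_le_card Finset.sdiff_subset
    have hd1 : 1 ≤ C1 * f := by nlinarith
    have hT0 := hSURF V (C1 * f) R (B \ B') hV hd1 hVd hSX hV0
    have hT0' : (inc R (B \ B') : ℝ) ≤ C * ((B.card : ℝ) ^ ((3 : ℝ) / 5) *
        (f * R.card) ^ ((4 : ℝ) / 5) + f ^ 2 * R.card + f * B.card) := by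
      refine hT0.trans ((surf_term C1 C2 _ (B.card : ℝ) _ f hC1 hC2 (Nat.cast_nonneg _) hXc hP0
        hf1).trans ?_)
      apply mul_le_mul_of_nonneg_right hCa
      positivity
    have hf0 : 0 < f := by linarith
    have hM : (B.card : ℝ) / 2 ^ t = B.card / f ^ 3 := by rw [hf3]
    have hM0 : 0 < (B.card : ℝ) / 2 ^ t := by positivity
    have hM1 : (B.card : ℝ) / 2 ^ t ≤ B.card := by
      apply div_le_self hQ0
      exact one_le_pow₀ (by norm_num)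
    have hT' : (inc R B' : ℝ) ^ 2 ≤ C * R.card * f ^ 2 * ((JJ R N : ℕ) + (inc R B' : ℕ)) := by
      refine hT.trans ?_
      apply mul_le_mul_of_nonneg_right _ (by positivity)
      apply mul_le_mul_of_nonneg_right _ (by positivity)
      exact mul_le_mul_of_nonneg_right hCb hP0
    have hdis : ((JJ R N : ℕ) : ℝ) < 16 * (inc R B' : ℝ) ∨
        ((JJ R N : ℕ) : ℝ) ≤ C * B.card * (B.card / f ^ 3) ∨
        ((JJ R N : ℕ) : ℝ) ^ 4 ≤ C * (R.card : ℝ) ^ 2 * (B.card * (B.card / f ^ 3)) ^ 3 ∨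
        ((JJ R N : ℕ) : ℝ) ≤ C * (B.card * (B.card / f ^ 3) *
          ((JJ R N : ℕ) : ℝ) ^ ((251 : ℝ) / 1000) +
          B.card * ((JJ R N : ℕ) : ℝ) ^ ((501 : ℝ) / 1000)) := by
      by_cases hJ : ((JJ R N : ℕ) : ℝ) < 16 * (inc R B' : ℝ)
      · exact Or.inl hJ
      · right
        have hu := hUC R B' N (B.card : ℝ) ((B.card : ℝ) / 2 ^ t) (JJ R N : ℝ) hS' hNear hM0 hM1
          hB'c rfl (not_lt.mp hJ)
        rw [hM] at hu
        have hMf : 0 ≤ (B.card : ℝ) / f ^ 3 := by positivity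
        rcases hu with hu | hu | hu
        · left
          refine hu.trans ?_
          apply mul_le_mul_of_nonneg_right _ hMf
          exact mul_le_mul_of_nonneg_right hCc hQ0
        · right; left
          refine hu.trans ?_
          apply mul_le_mul_of_nonneg_right _ (by positivity)
          exact mul_le_mul_of_nonneg_right hCc (by positivity)
        · right; right
          refine hu.trans ?_
          exact mul_le_mul_of_nonneg_right hCc (by positivity)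
    have hfin := hUAR (R.card : ℝ) (B.card : ℝ) f (inc R B' : ℝ) (inc R (B \ B') : ℝ) (JJ R N : ℝ)
      hQ1 hQP hPQ' (Nat.cast_nonneg _) (Nat.cast_nonneg _) (Nat.cast_nonneg _) ht1 ht2 hT0' hT' hdis
    have hsplit : (inc R B : ℝ) ≤ inc R B' + inc R (B \ B') := by
      exact_mod_cast inc_split R B B'
    have hpos : 0 ≤ (R.card : ℝ) ^ ((121 : ℝ) / 160) * (B.card : ℝ) ^ ((117 : ℝ) / 160) := by
      positivity
    calc (inc R B : ℝ) ≤ K * ((R.card : ℝ) ^ ((121 : ℝ) / 160) *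
          (B.card : ℝ) ^ ((117 : ℝ) / 160)) := hsplit.trans hfin
      _ ≤ (K + 4) * (R.card + (R.card : ℝ) ^ ((121 : ℝ) / 160) *
            (B.card : ℝ) ^ ((117 : ℝ) / 160)) := fin1 _ _ _ hK.le hP0 hpos

end Pool.Agent.Work.MP_81c58b_co.TG
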