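import Pool.Agent.Work.MP_81c58b_co.TG.Stmts

/-!
# MP_81c58b_co, block TG, item UTH2: `UTH` for every size of `R`
-/

set_option autoImplicit false

namespace Pool.Agent.Work.MP_81c58b_co.TG

open scoped Classical

namespace I_UTH2

/-- the new points -/
def pt (M : ℝ) (j : ℕ) : E3 := ![M + 1 + j, 0, 0]

theorem pt_inj (M : ℝ) : Function.Injective (pt M) := by
  intro i j h
  have h0 := congrFun h 0
  simp only [pt, Matrix.cons_val_zero] at h0
  have : (i : ℝ) = j := by linarith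
  exact_mod_cast this

theorem pt_not_inc (M : ℝ) (j : ℕ) (b : E3) (h : |b 0| + |b 1 * b 2| ≤ M) :
    ¬ Inc (pt M j) b := by
  rintro ⟨hq, -⟩
  simp only [q, pt, Pi.sub_apply, Matrix.cons_val_zero, Matrix.cons_val_one,
    Matrix.cons_val_two, Matrix.head_cons, Matrix.tail_cons, sub_zero] at hq
  have h1 : b 0 ≤ |b 0| := le_abs_self _
  have h2 : -(b 1 * b 2) ≤ |b 1 * b 2| := neg_le_abs _
  have hj : (0 : ℝ) ≤ j := Nat.cast_nonneg j
  have hA : (0 : ℝ) ≤ |b 1 * b 2| := abs_nonneg _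
  have h3 : |b 1 * b 2| + 1 ≤ M + 1 + j - b 0 := by linarith
  have h4 : (|b 1 * b 2| + 1) ^ 2 ≤ (M + 1 + j - b 0) ^ 2 :=
    pow_le_pow_left₀ (by linarith) h3 2
  nlinarith [h4, hq, h2, hA]

theorem pt_notMem (M : ℝ) (j : ℕ) (R : Finset E3) (h : ∀ r ∈ R, |r 0| ≤ M) : pt M j ∉ R := by
  intro hm
  have h1 := h _ hm
  simp only [pt, Matrix.cons_val_zero] at h1
  have h2 : M + 1 + j ≤ |M + 1 + (j : ℝ)| := le_abs_self _
  have hj : (0 : ℝ) ≤ j := Nat.cast_nonneg j
  linarith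

/-- adding points without incidences -/
theorem extend (R B : Finset E3) (hS : Str R B) (k : ℕ) :
    ∃ R' : Finset E3, R ⊆ R' ∧ R'.card = R.card + k ∧ Str R' B := by
  set M : ℝ := (∑ b ∈ B, (|b 0| + |b 1 * b 2|)) + ∑ r ∈ R, |r 0| with hM
  have hMB : ∀ b ∈ B, |b 0| + |b 1 * b 2| ≤ M := by
    intro b hb
    have h1 : |b 0| + |b 1 * b 2| ≤ ∑ b ∈ B, (|b 0| + |b 1 * b 2|) :=
      Finset.single_le_sum (f := fun b : E3 => |b 0| + |b 1 * b 2|)
        (fun i _ => add_nonneg (abs_nonneg _) (abs_nonneg _)) hb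
    have h2 : 0 ≤ ∑ r ∈ R, |r 0| := Finset.sum_nonneg fun i _ => abs_nonneg _
    linarith
  have hMR : ∀ r ∈ R, |r 0| ≤ M := by
    intro r hr
    have h1 : |r 0| ≤ ∑ r ∈ R, |r 0| :=
      Finset.single_le_sum (f := fun r : E3 => |r 0|) (fun i _ => abs_nonneg _) hr
    have h2 : 0 ≤ ∑ b ∈ B, (|b 0| + |b 1 * b 2|) :=
      Finset.sum_nonneg fun i _ => add_nonneg (abs_nonneg _) (abs_nonneg _)
    linarith
  set D : Finset E3 := (Finset.range k).image (pt M) with hD
  have hDI : ∀ r ∈ D, ∀ b ∈ B, ¬ Inc r b := by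
    intro r hr b hb
    rw [hD, Finset.mem_image] at hr
    obtain ⟨j, -, rfl⟩ := hr
    exact pt_not_inc M j b (hMB b hb)
  have hdisj : Disjoint R D := by
    rw [Finset.disjoint_right]
    intro r hr
    rw [hD, Finset.mem_image] at hr
    obtain ⟨j, -, rfl⟩ := hr
    exact pt_notMem M j R hMR
  refine ⟨R ∪ D, Finset.subset_union_left, ?_, ?_⟩
  · rw [Finset.card_union_of_disjoint hdisj, hD, Finset.card_image_of_injective _ (pt_inj M),
      Finset.card_range]
  · constructor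
    · intro r hr b hb b' hb' h1 h2 h3
      rcases Finset.mem_union.mp hr with h | h
      · exact hS.h1 r h b hb b' hb' h1 h2 h3
      · exact absurd h1 (hDI r h b hb)
    · intro b hb r hr r' hr' h1 h2 h3
      rcases Finset.mem_union.mp hr with h | h
      · rcases Finset.mem_union.mp hr' with h' | h'
        · exact hS.h2 b hb r h r' h' h1 h2 h3
        · exact absurd h2 (hDI r' h' b hb)
      · exact absurd h1 (hDI r h b hb)

theorem inc_mono (R R' B : Finset E3) (h : R ⊆ R') : inc R B ≤ inc R' B := by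
  unfold inc
  apply Finset.card_le_card
  apply Finset.filter_subset_filter
  exact Finset.product_subset_product_left h

end I_UTH2

open I_UTH2 in
theorem UTH2_pf (h : UTH) : UTH2 := by
  obtain ⟨K, hK, hU⟩ := h
  refine ⟨4 * K, by positivity, ?_⟩
  intro R B hS
  have hR0 : (0 : ℝ) ≤ (R.card : ℝ) := Nat.cast_nonneg _
  have hB0 : (0 : ℝ) ≤ (B.card : ℝ) := Nat.cast_nonneg _
  have hRB : 0 ≤ (R.card : ℝ) ^ ((121 : ℝ) / 160) * (B.card : ℝ) ^ ((117 : ℝ) / 160) := by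
    positivity
  have hBB : 0 ≤ (B.card : ℝ) ^ ((1557 : ℝ) / 640) := by positivity
  by_cases hc : (B.card : ℝ) ^ ((9 : ℝ) / 4) ≤ R.card
  · have h1 := hU R B hS hc
    nlinarith [mul_nonneg hK.le hR0, mul_nonneg hK.le hRB, mul_nonneg hK.le hBB]
  · push Not at hc
    rcases Finset.eq_empty_or_nonempty B with hBe | hBe
    · have : inc R B = 0 := by
        unfold inc
        rw [hBe]
        simp
      rw [this]
      have h2 : 0 ≤ 4 * K * ((R.card : ℝ) + (R.card : ℝ) ^ ((121 : ℝ) / 160) *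
          (B.card : ℝ) ^ ((117 : ℝ) / 160) + (B.card : ℝ) ^ ((1557 : ℝ) / 640)) := by positivity
      exact_mod_cast h2
    · have hQ : (1 : ℝ) ≤ (B.card : ℝ) := by exact_mod_cast hBe.card_pos
      set Q : ℝ := (B.card : ℝ) with hQdef
      have hQ94 : (1 : ℝ) ≤ Q ^ ((9 : ℝ) / 4) := Real.one_le_rpow hQ (by norm_num)
      set N : ℕ := ⌈Q ^ ((9 : ℝ) / 4)⌉₊ with hN
      have hN1 : Q ^ ((9 : ℝ) / 4) ≤ (N : ℝ) := Nat.le_ceil _
      have hN2 : (N : ℝ) ≤ 2 * Q ^ ((9 : ℝ) / 4) := by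
        have := Nat.ceil_lt_add_one (a := Q ^ ((9 : ℝ) / 4)) (by linarith)
        rw [← hN] at this
        linarith
      have hRN : R.card ≤ N := by
        have : (R.card : ℝ) ≤ (N : ℝ) := by linarith
        exact_mod_cast this
      obtain ⟨R', hsub, hcard, hS'⟩ := extend R B hS (N - R.card)
      have hcard' : R'.card = N := by omega
      have h1 := hU R' B hS' (by rw [hcard']; exact hN1)
      rw [hcard'] at h1
      have h2 : (inc R B : ℝ) ≤ (inc R' B : ℝ) := by exact_mod_cast inc_mono R R' B hsub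
      have hN0 : (0 : ℝ) ≤ (N : ℝ) := Nat.cast_nonneg _
      have hNp : (N : ℝ) ^ ((121 : ℝ) / 160) ≤ 2 * Q ^ ((1089 : ℝ) / 640) := by
        calc (N : ℝ) ^ ((121 : ℝ) / 160) ≤ (2 * Q ^ ((9 : ℝ) / 4)) ^ ((121 : ℝ) / 160) :=
              Real.rpow_le_rpow hN0 hN2 (by norm_num)
          _ = (2 : ℝ) ^ ((121 : ℝ) / 160) * (Q ^ ((9 : ℝ) / 4)) ^ ((121 : ℝ) / 160) :=
              Real.mul_rpow (by norm_num) (Real.rpow_nonneg hB0 _)
          _ = (2 : ℝ) ^ ((121 : ℝ) / 160) * Q ^ ((1089 : ℝ) / 640) := by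
              rw [← Real.rpow_mul hB0]; norm_num
          _ ≤ 2 * Q ^ ((1089 : ℝ) / 640) := by
              apply mul_le_mul_of_nonneg_right _ (Real.rpow_nonneg hB0 _)
              calc (2 : ℝ) ^ ((121 : ℝ) / 160) ≤ (2 : ℝ) ^ (1 : ℝ) :=
                    Real.rpow_le_rpow_of_exponent_le (by norm_num) (by norm_num)
                _ = 2 := Real.rpow_one 2
      have h3 : (N : ℝ) ^ ((121 : ℝ) / 160) * Q ^ ((117 : ℝ) / 160) ≤
          2 * Q ^ ((1557 : ℝ) / 640) := by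
        calc (N : ℝ) ^ ((121 : ℝ) / 160) * Q ^ ((117 : ℝ) / 160) ≤
              2 * Q ^ ((1089 : ℝ) / 640) * Q ^ ((117 : ℝ) / 160) :=
              mul_le_mul_of_nonneg_right hNp (Real.rpow_nonneg hB0 _)
          _ = 2 * (Q ^ ((1089 : ℝ) / 640) * Q ^ ((117 : ℝ) / 160)) := by ring
          _ = 2 * Q ^ ((1557 : ℝ) / 640) := by
              rw [← Real.rpow_add (by linarith : (0 : ℝ) < Q)]; norm_num
      have h4 : Q ^ ((9 : ℝ) / 4) ≤ Q ^ ((1557 : ℝ) / 640) :=
        Real.rpow_le_rpow_of_exponent_le hQ (by norm_num)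
      have h5 : (inc R B : ℝ) ≤ K * (4 * Q ^ ((1557 : ℝ) / 640)) := by
        refine (h2.trans h1).trans (mul_le_mul_of_nonneg_left ?_ hK.le)
        linarith
      nlinarith [mul_nonneg hK.le hR0, mul_nonneg hK.le hRB, mul_nonneg hK.le hBB]

end Pool.Agent.Work.MP_81c58b_co.TG
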