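import Pool.Agent.Work.MP_81c58b_co.TG.Stmts

/-!
# MP_81c58b_co, block TG, item VISS3: sign classes visited by a (lifted) cone
-/

set_option autoImplicit false

namespace Pool.Agent.Work.MP_81c58b_co.TG

open MvPolynomial
open Pool.Agent.Work.MP_916cc8_co (sameCl Part War CW Bez Clr)

namespace I_VISS3

theorem inc_eq {r b : E3} (h : Inc r b) : b - r = ((b - r) 1) • nu (tt r b) := by
  obtain ⟨h0, h1⟩ := h
  unfold q at h0
  unfold tt nu
  set d : E3 := b - r with hd
  funext i
  fin_cases i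
  · simp only [Fin.zero_eta, Fin.isValue, Pi.smul_apply, Matrix.cons_val_zero, smul_eq_mul]
    field_simp
  · simp
  · simp only [Fin.reduceFinMk, Fin.isValue, Pi.smul_apply, Matrix.cons_val, smul_eq_mul]
    field_simp
    linarith

theorem eq_add {r b : E3} (h : Inc r b) : r + ((b - r) 1) • nu (tt r b) = b := by
  rw [← inc_eq h]; abel

theorem eq_sub {r b : E3} (h : Inc r b) : b + (-((b - r) 1)) • nu (tt r b) = r := by
  rw [neg_smul, ← inc_eq h]; abel

/-- the counting step -/
theorem count (hW : War) {t0 : ℕ} {α : Type} (F : Fin t0 → MvPolynomial (Fin 2) ℝ)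
    (Z : Finset α) (m : α → Fin 2 → ℝ) (D : ℕ)
    (hD : ∑ j, (F j).totalDegree ≤ 3 * D)
    (hne : ∀ z ∈ Z, ∀ j, eval (m z) (F j) ≠ 0)
    (hcl : ∀ z ∈ Z, ∀ w ∈ Z, sameCl F (m z) (m w) → z = w) :
    Z.card ≤ (6 * D + 2) ^ 2 := by
  classical
  have hinj : Set.InjOn m Z := by
    intro z hz w hw hzw
    apply hcl z hz w hw
    intro j
    rw [← hzw]
    exact mul_self_pos.mpr (hne z hz j)
  have h1 : (Z.image m).card = Z.card := Finset.card_image_of_injOn hinj
  have h2 := hW t0 F (Z.image m) (by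
    intro z hz j
    obtain ⟨x, hx, rfl⟩ := Finset.mem_image.mp hz
    exact hne x hx j) (by
    intro z hz w hw hs
    obtain ⟨x, hx, rfl⟩ := Finset.mem_image.mp hz
    obtain ⟨y, hy, rfl⟩ := Finset.mem_image.mp hw
    rw [hcl x hx y hy hs])
  rw [h1] at h2
  refine h2.trans ?_
  apply Nat.pow_le_pow_left
  omega

end I_VISS3

open I_VISS3

theorem VISS_pf (h : SP4) (hW : War) : VISS := by
  intro t0 f b Z hZ hcl
  choose F hF1 hF2 using fun j => h (f j) b
  set m : E3 → Fin 2 → ℝ := fun r => ![-((b - r) 1), tt r b] with hm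
  have key : ∀ r ∈ Z, ∀ j, eval (m r) (F j) = eval (pt4 r (tt r b)) (f j) := by
    intro r hr j
    rw [hm]
    simp only
    rw [hF2 j, eq_sub (hZ r hr).1]
  refine count hW F Z m _ ?_ ?_ ?_
  · rw [Finset.mul_sum]
    exact Finset.sum_le_sum fun j _ => hF1 j
  · intro r hr j
    rw [key r hr j]
    exact (hZ r hr).2 j
  · intro r hr r' hr' hs
    apply hcl r hr r' hr'
    intro j
    have := hs j
    rwa [key r hr j, key r' hr' j] at this

theorem VIS3_pf (h : SP3) (hW : War) : VIS3 := by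
  intro t0 f r Z hZ hcl
  choose F hF1 hF2 using fun j => h (f j) r
  set m : E3 → Fin 2 → ℝ := fun b => ![(b - r) 1, tt r b] with hm
  have key : ∀ b ∈ Z, ∀ j, eval (m b) (F j) = eval b (f j) := by
    intro b hb j
    rw [hm]
    simp only
    rw [hF2 j, eq_add (hZ b hb).1]
  refine count hW F Z m _ ?_ ?_ ?_
  · rw [Finset.mul_sum]
    exact Finset.sum_le_sum fun j _ => hF1 j
  · intro b hb j
    rw [key b hb j]
    exact (hZ b hb).2 j
  · intro b hb b' hb' hs
    apply hcl b hb b' hb'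
    intro j
    have := hs j
    rwa [key b hb j, key b' hb' j] at this

end Pool.Agent.Work.MP_81c58b_co.TG
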