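import Pool.Agent.Work.MP_81c58b_co.TG.Stmts

/-! Item [81c58b TG ZPART]: blues on the zero set of the planar partition. -/

set_option autoImplicit false

namespace Pool.Agent.Work.MP_81c58b_co.TG

open MvPolynomial

open scoped Classical

namespace I_ZPART

abbrev P2 := MvPolynomial (Fin 2) ℝ

theorem deg_pos {h : P2} (hh : Irreducible h) : 1 ≤ h.totalDegree := by
  by_contra hc
  have h0 : h.totalDegree = 0 := by omega
  rw [MvPolynomial.totalDegree_eq_zero_iff_eq_C] at h0
  apply hh.not_isUnit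
  rw [h0]
  have hne : coeff 0 h ≠ 0 := by
    intro hc'
    apply hh.ne_zero
    rw [h0, hc', C_0]
  exact (IsUnit.mk0 _ hne).map (C : ℝ →+* P2)

theorem deg_prod (s : Multiset P2) (hs : ∀ h ∈ s, Irreducible h) :
    (s.map totalDegree).sum = s.prod.totalDegree := by
  induction s using Multiset.induction_on with
  | empty => simp
  | cons a s ih =>
    have ha : a ≠ 0 := (hs a (Multiset.mem_cons_self a s)).ne_zero
    have hs' : ∀ h ∈ s, Irreducible h := fun h hh => hs h (Multiset.mem_cons_of_mem hh)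
    have hp : s.prod ≠ 0 := by
      apply Multiset.prod_ne_zero
      intro h0
      exact (hs' 0 h0).ne_zero rfl
    rw [Multiset.map_cons, Multiset.sum_cons, Multiset.prod_cons,
      MvPolynomial.totalDegree_mul_of_isDomain ha hp, ih hs']

/-- the irreducible factors -/
theorem factors (g : P2) (hg : g ≠ 0) : ∃ H : Finset P2,
    (∀ h ∈ H, Irreducible h) ∧ ∑ h ∈ H, h.totalDegree ≤ g.totalDegree ∧
    H.card ≤ g.totalDegree ∧
    ∀ x : Fin 2 → ℝ, eval x g = 0 → ∃ h ∈ H, eval x h = 0 := by
  obtain ⟨s, hs, hsg⟩ := WfDvdMonoid.exists_factors g hg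
  have hdeg : s.prod.totalDegree ≤ g.totalDegree := by
    obtain ⟨u, hu⟩ := hsg
    have hp : s.prod ≠ 0 := by
      intro h0
      apply hg
      rw [← hu, h0, zero_mul]
    rw [← hu, MvPolynomial.totalDegree_mul_of_isDomain hp u.ne_zero]
    omega
  have hsum : ∑ h ∈ s.toFinset, h.totalDegree ≤ g.totalDegree := by
    refine le_trans ?_ hdeg
    rw [← deg_prod s hs, Finset.sum_multiset_map_count]
    refine Finset.sum_le_sum ?_
    intro h hh
    have : 1 ≤ s.count h := Multiset.one_le_count_iff_mem.2 (Multiset.mem_toFinset.1 hh)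
    rw [smul_eq_mul]
    exact Nat.le_mul_of_pos_left _ this
  refine ⟨s.toFinset, fun h hh => hs h (Multiset.mem_toFinset.1 hh), hsum, ?_, ?_⟩
  · refine le_trans ?_ hsum
    rw [Finset.card_eq_sum_ones]
    exact Finset.sum_le_sum (fun h hh => deg_pos (hs h (Multiset.mem_toFinset.1 hh)))
  · intro x hx
    obtain ⟨u, hu⟩ := hsg
    have h1 : eval x s.prod * eval x (u : P2) = 0 := by
      rw [← map_mul, hu, hx]
    have h2 : eval x (u : P2) ≠ 0 := (u.isUnit.map (eval x)).ne_zero
    have h3 : eval x s.prod = 0 := by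
      rcases mul_eq_zero.1 h1 with h | h
      · exact h
      · exact absurd h h2
    rw [map_multiset_prod, Multiset.prod_eq_zero_iff, Multiset.mem_map] at h3
    obtain ⟨h, hh, h4⟩ := h3
    exact ⟨h, Multiset.mem_toFinset.2 hh, h4⟩

theorem inc_eq (R X : Finset E3) :
    inc R X = ∑ r ∈ R, (X.filter (fun b => Inc r b)).card := by
  unfold inc
  rw [Finset.card_filter, Finset.sum_product]
  refine Finset.sum_congr rfl ?_
  intro r _
  rw [Finset.card_filter]

end I_ZPART

open I_ZPART in
theorem ZPART_pf (h1 : RESP) (h2 : PIGE) (h3 : LINE2) (h4 : BEZ2) : ZPART := by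
  intro V e0 e1 g R X hD hg hS hX
  obtain ⟨H, hirr, hsum, hcard, hfac⟩ := factors g hg
  have hq := hD.1
  choose S hSr using fun r => h1 V e0 e1 hq r
  have hex : ∀ b : E3, ∃ h : P2, b ∈ X → h ∈ H ∧ eval (prE e0 e1 b) h = 0 := by
    intro b
    by_cases hb : b ∈ X
    · obtain ⟨h, hh, h0⟩ := hfac _ (hX b hb).2
      exact ⟨h, fun _ => ⟨hh, h0⟩⟩
    · exact ⟨0, fun h => absurd h hb⟩
  choose φ hφ using hex
  set D := V.totalDegree with hDdef
  -- the bad reds
  let bad : P2 → Finset E3 := fun h => R.filter (fun r => ¬ NL e0 e1 h r ∧ h ∣ S r)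
  have hbad : ∀ h ∈ H, (bad h).card ≤ 2 * D := by
    intro h hh
    refine h2 V e0 e1 h hD (hirr h hh) _ ?_
    intro r hr
    obtain ⟨_, hr1, hr2⟩ := Finset.mem_filter.1 hr
    refine ⟨hr1, ?_⟩
    intro x y hxy
    apply ((hSr r).2 x y).1
    obtain ⟨k, hk⟩ := hr2
    rw [hk, map_mul, hxy, zero_mul]
  have hY : ∀ r ∈ R, ∀ h ∈ H, ((X.filter (fun b => Inc r b)).filter (fun b => φ b = h)).card ≤
      (2 + 4 * D * h.totalDegree) +
        if r ∈ bad h then (X.filter (fun b => φ b = h)).card else 0 := by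
    intro r hr h hh
    by_cases hn : NL e0 e1 h r
    · have := h3 e0 e1 h r hq (hirr h hh) hn ((X.filter (fun b => Inc r b)).filter
        (fun b => φ b = h)) ?_ ?_
      · omega
      · intro b hb
        obtain ⟨hb1, hb2⟩ := Finset.mem_filter.1 hb
        obtain ⟨hb3, hb4⟩ := Finset.mem_filter.1 hb1
        exact ⟨hb4, by rw [← hb2]; exact (hφ b hb3).2⟩
      · intro b hb b' hb' ht
        obtain ⟨hb1, hb2⟩ := Finset.mem_filter.1 hb
        obtain ⟨hb3, hb4⟩ := Finset.mem_filter.1 hb1
        obtain ⟨hb1', hb2'⟩ := Finset.mem_filter.1 hb'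
        obtain ⟨hb3', hb4'⟩ := Finset.mem_filter.1 hb1'
        exact hS.h1 r hr b hb3 b' hb3' hb4 hb4' ht
    · by_cases hd : h ∣ S r
      · have hb : r ∈ bad h := Finset.mem_filter.2 ⟨hr, hn, hd⟩
        rw [if_pos hb]
        have : ((X.filter (fun b => Inc r b)).filter (fun b => φ b = h)).card ≤
            (X.filter (fun b => φ b = h)).card := by
          apply Finset.card_le_card
          intro b hb
          obtain ⟨hb1, hb2⟩ := Finset.mem_filter.1 hb
          exact Finset.mem_filter.2 ⟨(Finset.mem_filter.1 hb1).1, hb2⟩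
        omega
      · have := h4 V e0 e1 h (S r) r hq (hirr h hh) (hSr r) hd ((X.filter (fun b => Inc r b)).filter
          (fun b => φ b = h)) ?_
        · rw [← hDdef] at this
          omega
        · intro b hb
          obtain ⟨hb1, hb2⟩ := Finset.mem_filter.1 hb
          obtain ⟨hb3, hb4⟩ := Finset.mem_filter.1 hb1
          exact ⟨hb4, by rw [← hb2]; exact (hφ b hb3).2, (hX b hb3).1⟩
  have hrow : ∀ r ∈ R, (X.filter (fun b => Inc r b)).card ≤ ∑ h ∈ H, ((2 + 4 * D * h.totalDegree) +
        if r ∈ bad h then (X.filter (fun b => φ b = h)).card else 0) := by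
    intro r hr
    have hm : ∀ b ∈ X.filter (fun b => Inc r b), φ b ∈ H :=
      fun b hb => (hφ b (Finset.mem_filter.1 hb).1).1
    rw [Finset.card_eq_sum_card_fiberwise hm]
    exact Finset.sum_le_sum (fun h hh => hY r hr h hh)
  have hXs : ∑ h ∈ H, (X.filter (fun b => φ b = h)).card = X.card :=
    (Finset.card_eq_sum_card_fiberwise (fun b hb => (hφ b hb).1)).symm
  have hcol : ∀ h ∈ H, ∑ r ∈ R, (if r ∈ bad h then (X.filter (fun b => φ b = h)).card else 0) ≤
      2 * D * (X.filter (fun b => φ b = h)).card := by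
    intro h hh
    rw [← Finset.sum_filter, Finset.sum_const, smul_eq_mul]
    refine Nat.mul_le_mul_right _ ?_
    refine le_trans (Finset.card_le_card ?_) (hbad h hh)
    intro r hr
    exact (Finset.mem_filter.1 hr).2
  calc inc R X = ∑ r ∈ R, (X.filter (fun b => Inc r b)).card := inc_eq R X
    _ ≤ ∑ r ∈ R, ∑ h ∈ H, ((2 + 4 * D * h.totalDegree) +
        if r ∈ bad h then (X.filter (fun b => φ b = h)).card else 0) :=
      Finset.sum_le_sum hrow
    _ = ∑ h ∈ H, (R.card * (2 + 4 * D * h.totalDegree) +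
        ∑ r ∈ R, if r ∈ bad h then (X.filter (fun b => φ b = h)).card else 0) := by
      rw [Finset.sum_comm]
      refine Finset.sum_congr rfl ?_
      intro h _
      rw [Finset.sum_add_distrib, Finset.sum_const, smul_eq_mul]
    _ ≤ ∑ h ∈ H, (R.card * (2 + 4 * D * h.totalDegree) +
        2 * D * (X.filter (fun b => φ b = h)).card) :=
      Finset.sum_le_sum (fun h hh => Nat.add_le_add_left (hcol h hh) _)
    _ = R.card * (2 * H.card + 4 * D * ∑ h ∈ H, h.totalDegree) + 2 * D * X.card := by
      rw [Finset.sum_add_distrib, ← Finset.mul_sum, ← Finset.mul_sum, hXs,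
        Finset.sum_add_distrib, ← Finset.mul_sum, Finset.sum_const, smul_eq_mul, mul_comm H.card 2]
    _ ≤ R.card * (2 * g.totalDegree + 4 * D * g.totalDegree) + 2 * D * X.card := by
      gcongr
    _ = (4 * D * g.totalDegree + 2 * g.totalDegree) * R.card + 2 * D * X.card := by ring

end Pool.Agent.Work.MP_81c58b_co.TG
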