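import Pool.Agent.Work.MP_81c58b_co.TG.Stmts

set_option autoImplicit false

namespace Pool.Agent.Work.MP_81c58b_co.TG

open MvPolynomial
open Pool.Agent.Work.MP_916cc8_co (sameCl Part War CW Bez Clr)

namespace I_VISC

theorem ivt (P : Polynomial ℝ) {t u : ℝ} (htu : t < u) (h : P.eval t * P.eval u ≤ 0)
    (h1 : P.eval t ≠ 0) (h2 : P.eval u ≠ 0) : ∃ v, t < v ∧ v < u ∧ P.eval v = 0 := by
  have hc : ContinuousOn (fun x => P.eval x) (Set.Icc t u) := P.continuous.continuousOn
  rcases lt_or_gt_of_ne h1 with h3 | h3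
  · have h4 : 0 < P.eval u := by
      rcases lt_or_gt_of_ne h2 with h5 | h5
      · nlinarith [mul_pos_of_neg_of_neg h3 h5]
      · exact h5
    have := intermediate_value_Ioo htu.le hc
    obtain ⟨v, hv, hv'⟩ := this ⟨h3, h4⟩
    exact ⟨v, hv.1, hv.2, hv'⟩
  · have h4 : P.eval u < 0 := by
      rcases lt_or_gt_of_ne h2 with h5 | h5
      · exact h5
      · nlinarith [mul_pos h3 h5]
    have := intermediate_value_Ioo' htu.le hc
    obtain ⟨v, hv, hv'⟩ := this ⟨h4, h3⟩
    exact ⟨v, hv.1, hv.2, hv'⟩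

/-- `ell` as a polynomial -/
noncomputable def ellP (d : E3) : Polynomial ℝ :=
  Polynomial.C (- d 1) * Polynomial.X ^ 2 + Polynomial.C (2 * d 0) * Polynomial.X +
    Polynomial.C (d 2)

theorem ellP_eval (d : E3) (t : ℝ) : (ellP d).eval t = ell d t := by
  unfold ellP ell; simp

theorem ellP_deg (d : E3) : (ellP d).natDegree ≤ 2 := by
  unfold ellP; exact Polynomial.natDegree_quadratic_le

end I_VISC

open I_VISC

theorem VISC_pf (h : CP4) : VISC := by
  classical
  intro t0 f b b' Z hZ hcl
  choose P hP1 hP2 using fun j => h (f j) b b'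
  rcases Z.eq_empty_or_nonempty with rfl | ⟨t1, ht1⟩
  · simp
  set d := b' - b with hd
  set Q : Polynomial ℝ := ellP d * ∏ j, P j with hQ
  have hPne : ∀ t ∈ Z, ∀ j, (P j).eval t ≠ 0 := by
    intro t ht j
    rw [hP2 j t (hZ t ht).1]
    exact mul_ne_zero (pow_ne_zero _ (hZ t ht).1) ((hZ t ht).2 j)
  have hQ0 : Q ≠ 0 := by
    intro h0
    have h1 : Q.eval t1 = 0 := by rw [h0]; simp
    rw [hQ, Polynomial.eval_mul, Polynomial.eval_prod, ellP_eval] at h1
    rcases mul_eq_zero.1 h1 with h2 | h2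
    · exact (hZ t1 ht1).1 h2
    · obtain ⟨j, -, h3⟩ := Finset.prod_eq_zero_iff.1 h2
      exact hPne t1 ht1 j h3
  have hdeg : Q.natDegree ≤ 3 * (∑ j, (f j).totalDegree) + 2 := by
    have h1 : Q.natDegree ≤ (ellP d).natDegree + (∏ j, P j).natDegree :=
      Polynomial.natDegree_mul_le
    have h2 : (∏ j, P j).natDegree ≤ ∑ j, (P j).natDegree := Polynomial.natDegree_prod_le _ _
    have h3 : ∑ j, (P j).natDegree ≤ ∑ j, 3 * (f j).totalDegree :=
      Finset.sum_le_sum fun j _ => hP1 j
    rw [← Finset.mul_sum] at h3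
    have h4 := ellP_deg d
    omega
  set R := Q.roots.toFinset with hR
  have hRc : R.card ≤ 3 * (∑ j, (f j).totalDegree) + 2 :=
    (Multiset.toFinset_card_le _).trans ((Polynomial.card_roots' Q).trans hdeg)
  have hroot : ∀ t ∈ Z, ∀ u ∈ Z, t < u → ∃ v ∈ R, t < v ∧ v < u := by
    intro t ht u hu htu
    by_contra hcon
    push Not at hcon
    have hno : ∀ v, t < v → v < u → Q.eval v ≠ 0 := by
      intro v h1 h2 h3
      have : v ∈ R := by
        rw [hR, Multiset.mem_toFinset, Polynomial.mem_roots hQ0]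
        exact h3
      exact absurd h2 (not_lt.2 (hcon v this h1))
    have hel : 0 < ell d t * ell d u := by
      by_contra h1
      push Not at h1
      rw [← ellP_eval, ← ellP_eval] at h1
      obtain ⟨v, h2, h3, h4⟩ := ivt (ellP d) htu h1 (by rw [ellP_eval]; exact (hZ t ht).1)
        (by rw [ellP_eval]; exact (hZ u hu).1)
      apply hno v h2 h3
      rw [hQ, Polynomial.eval_mul, h4, zero_mul]
    have hPj : ∀ j, 0 < (P j).eval t * (P j).eval u := by
      intro j
      by_contra h1
      push Not at h1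
      obtain ⟨v, h2, h3, h4⟩ := ivt (P j) htu h1 (hPne t ht j) (hPne u hu j)
      apply hno v h2 h3
      rw [hQ, Polynomial.eval_mul, Polynomial.eval_prod,
        Finset.prod_eq_zero (Finset.mem_univ j) h4, mul_zero]
    have hcls : sameCl f (pt4 (crv b b' t) t) (pt4 (crv b b' u) u) := by
      intro j
      have h1 := hPj j
      rw [hP2 j t (hZ t ht).1, hP2 j u (hZ u hu).1] at h1
      have h2 : 0 < (ell d t * ell d u) ^ (f j).totalDegree := pow_pos hel _
      have h3 : 0 < (ell d t * ell d u) ^ (f j).totalDegree *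
          (eval (pt4 (crv b b' t) t) (f j) * eval (pt4 (crv b b' u) u) (f j)) := by
        rw [mul_pow]
        calc (0 : ℝ) < _ := h1
          _ = _ := by ring
      exact (pos_iff_pos_of_mul_pos h3).1 h2
    exact htu.ne (hcl t ht u hu hcls)
  have hmaps : ∀ t ∈ Z, (R.filter (· < t)).card ∈ Finset.range (R.card + 1) := by
    intro t _
    rw [Finset.mem_range, Nat.lt_succ_iff]
    exact Finset.card_le_card (Finset.filter_subset _ _)
  have hlt : ∀ t ∈ Z, ∀ u ∈ Z, t < u → (R.filter (· < t)).card < (R.filter (· < u)).card := by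
    intro t ht u hu htu
    obtain ⟨v, hv, h1, h2⟩ := hroot t ht u hu htu
    apply Finset.card_lt_card
    rw [Finset.ssubset_iff_of_subset]
    · exact ⟨v, Finset.mem_filter.2 ⟨hv, h2⟩, fun h3 => by
        exact absurd (Finset.mem_filter.1 h3).2 (not_lt.2 h1.le)⟩
    · intro w hw
      rw [Finset.mem_filter] at hw ⊢
      exact ⟨hw.1, hw.2.trans htu⟩
  have hinj : Set.InjOn (fun t => (R.filter (· < t)).card) (Z : Set ℝ) := by
    intro t ht u hu htu
    rcases lt_trichotomy t u with h1 | h1 | h1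
    · exact absurd htu (hlt t ht u hu h1).ne
    · exact h1
    · exact absurd htu (hlt u hu t ht h1).ne'
  have := Finset.card_le_card_of_injOn _ hmaps hinj
  rw [Finset.card_range] at this
  omega

end Pool.Agent.Work.MP_81c58b_co.TG
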