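import Pool.Agent.Work.MP_916cc8_co.Bd.B03
import Pool.Agent.Work.MP_916cc8_co.Bez
import Pool.Agent.Work.MP_81c58b_co.TG.I_K33
import Pool.Agent.Work.MP_81c58b_co.TG.I_PARS
import Pool.Agent.Work.MP_81c58b_co.TG.I_NOSWAP
import Pool.Agent.Work.MP_81c58b_co.TG.I_SWAP
import Pool.Agent.Work.MP_81c58b_co.TG.I_LENS
import Pool.Agent.Work.MP_81c58b_co.TG.I_GSYM
import Pool.Agent.Work.MP_81c58b_co.TG.I_THOM
import Pool.Agent.Work.MP_81c58b_co.TG.I_CPS
import Pool.Agent.Work.MP_81c58b_co.TG.I_SPS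
import Pool.Agent.Work.MP_81c58b_co.TG.I_CONT
import Pool.Agent.Work.MP_81c58b_co.TG.I_CONI
import Pool.Agent.Work.MP_81c58b_co.TG.I_DENZ
import Pool.Agent.Work.MP_81c58b_co.TG.VISCb
import Pool.Agent.Work.MP_81c58b_co.TG.I_VISS3
import Pool.Agent.Work.MP_81c58b_co.TG.I_FSTEP
import Pool.Agent.Work.MP_81c58b_co.TG.I_PAIR
import Pool.Agent.Work.MP_81c58b_co.TG.I_KILL
import Pool.Agent.Work.MP_81c58b_co.TG.I_SURFREM
import Pool.Agent.Work.MP_81c58b_co.TG.I_STEP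
import Pool.Agent.Work.MP_81c58b_co.TG.I_CUTI
import Pool.Agent.Work.MP_81c58b_co.TG.I_CUT
import Pool.Agent.Work.MP_81c58b_co.TG.I_CONS
import Pool.Agent.Work.MP_81c58b_co.TG.I_ESYM
import Pool.Agent.Work.MP_81c58b_co.TG.I_ETHIN
import Pool.Agent.Work.MP_81c58b_co.TG.I_ECOUNT
import Pool.Agent.Work.MP_81c58b_co.TG.I_INCL
import Pool.Agent.Work.MP_81c58b_co.TG.I_MASS
import Pool.Agent.Work.MP_81c58b_co.TG.I_JUP
import Pool.Agent.Work.MP_81c58b_co.TG.I_UCORE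
import Pool.Agent.Work.MP_81c58b_co.TG.I_JB
import Pool.Agent.Work.MP_81c58b_co.TG.I_KST
import Pool.Agent.Work.MP_81c58b_co.TG.I_SDIR
import Pool.Agent.Work.MP_81c58b_co.TG.I_RESP
import Pool.Agent.Work.MP_81c58b_co.TG.I_K33C
import Pool.Agent.Work.MP_81c58b_co.TG.I_PIGE
import Pool.Agent.Work.MP_81c58b_co.TG.I_LINE2
import Pool.Agent.Work.MP_81c58b_co.TG.I_BEZ2
import Pool.Agent.Work.MP_81c58b_co.TG.I_ZPART
import Pool.Agent.Work.MP_81c58b_co.TG.I_VISP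
import Pool.Agent.Work.MP_81c58b_co.TG.I_CELLP
import Pool.Agent.Work.MP_81c58b_co.TG.I_SURF
import Pool.Agent.Work.MP_81c58b_co.TG.I_UAR
import Pool.Agent.Work.MP_81c58b_co.TG.I_UTH
import Pool.Agent.Work.MP_81c58b_co.TG.I_UTH2
import Pool.Agent.Work.MP_81c58b_co.TG.I_SPLIT
import Pool.Agent.Work.MP_81c58b_co.TG.I_RECU
import Pool.Agent.Work.MP_81c58b_co.TG.I_CONTACT
import Pool.Agent.Work.MP_81c58b_co.TG.I_STRD
import Pool.Agent.Work.MP_81c58b_co.TG.I_FINAL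
import Pool.Agent.Work.MP_81c58b_co.TG.Final5

/-! Assembly of block TG. -/

set_option autoImplicit false

namespace Pool.Agent.Work.MP_81c58b_co.TG

open Pool.Agent.Work.MP_916cc8_co (HS HS_proof BU_proof FANC_proof CAN_proof LOC_proof Part
  Part_proof War War_proof RPS_proof Bez_proof CW CW_proof Clr_proof)

theorem hs_all : HS := HS_proof (BU_proof (FANC_proof CAN_proof LOC_proof))
theorem part_all (d : ℕ) (hd : 1 ≤ d) : Part d := Part_proof hs_all d hd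
theorem war_all : War := War_proof RPS_proof Bez_proof
theorem cw_all : CW := CW_proof RPS_proof Bez_proof

theorem NOSWAP_all : NOSWAP := NOSWAP_pf PAR_pf
theorem LENS_all : LENS := LENS_pf NOSWAP_all SWAP_pf
theorem GSYM_all : GSYM := GSYM_pf PAR2_pf
theorem CP4_all : CP4 := CP4_pf Clr_proof
theorem CP3_all : CP3 := CP3_pf Clr_proof
theorem CONI_all : CONI := CONI_pf SP3_pf
theorem VISC_all : VISC := VISC_pf CP4_all
theorem VISS_all : VISS := VISS_pf SP4_pf war_all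
theorem VIS3_all : VIS3 := VIS3_pf SP3_pf war_all
theorem FSTEP_all : FSTEP := FSTEP_pf CP4_all CP3_all
theorem PAIR_all : PAIR := PAIR_pf FSTEP_all THOM_pf PAR_pf
theorem SURFREM_all : SURFREM := SURFREM_pf K33_pf CONI_all PAR_pf
theorem STEP_all : STEP := STEP_pf (part_all 4 (by norm_num)) PAIR_all KILL_pf SURFREM_all
  VISC_all VISS_all NOSWAP_all CONT_pf DENZ_pf PAR_pf
theorem CUTI_all : CUTI := CUTI_pf STEP_all
theorem CUT_all : CUT := CUT_pf CUTI_all LENS_all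
theorem ESYM_all : ESYM := ESYM_pf GSYM_all PAR_pf PAR2_pf
theorem ECOUNT_all : ECOUNT := ECOUNT_pf CONS_pf CP3_all PAR_pf
theorem INCL_all : INCL := INCL_pf K33_pf
theorem MASS_all : MASS := MASS_pf INCL_all CONT_pf CONI_all PAR_pf
theorem JUP_all : JUP := JUP_pf INCL_all
theorem UCORE_all : UCORE := UCORE_pf (part_all 3 (by norm_num)) CUT_all ESYM_all ETHIN_pf
  ECOUNT_all MASS_all JUP_all
theorem JB_all : JB := JB_pf (part_all 3 (by norm_num)) VIS3_all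
theorem KST_all : KST := KST_pf K33_pf
theorem PIGE_all : PIGE := PIGE_pf K33C_pf
theorem BEZ2_all : BEZ2 := BEZ2_pf Bez_proof
theorem ZPART_all : ZPART := ZPART_pf RESP_pf PIGE_all LINE2_pf BEZ2_all
theorem VISP_all : VISP := VISP_pf SP3_pf cw_all
theorem CELLP_all : CELLP := CELLP_pf VISP_all KST_all
theorem SURF_all : SURF := SURF_pf (part_all 2 (by norm_num)) SDIR_pf ZPART_all CELLP_all CONT_pf
theorem UTH_all : UTH := UTH_pf KST_all JB_all SURF_all UCORE_all UAR_pf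
theorem UTH2_all : UTH2 := UTH2_pf UTH_all
theorem SPLIT_all : SPLIT := SPLIT_pf (part_all 3 (by norm_num)) VIS3_all SURF_all
theorem RECU_all : RECU := RECU_pf UTH2_all SPLIT_all
theorem MAIN5_all : MAIN5 := MAIN5_pf RECU_all UTH_all
theorem MAIN6_all : MAIN6 := MAIN6_pf MAIN5_all
theorem STRD_all : STRD := STRD_pf CONTACT_pf

theorem final5_all : ∃ C : ℝ, ∀ R B : Finset Disc,
    (∀ D ∈ R, 0 ≤ D.r) → (∀ D ∈ B, 0 ≤ D.r) → NoTriple ((R : Set Disc) ∪ B) →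
    (touching R B : ℝ) ≤ C * ((max R.card B.card : ℝ) ^ ((1501 : ℝ) / 2000) *
      (min R.card B.card : ℝ) ^ ((1497 : ℝ) / 2000) + R.card + B.card) :=
  final5 MAIN6_all CONTACT_pf STRD_all

end Pool.Agent.Work.MP_81c58b_co.TG
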