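import Pool.Agent.Work.MP_81c58b_co.TG.Stmts

/-!
MP_81c58b_co, block TG, item MAIN3: arithmetic of the main recursion.
-/

set_option autoImplicit false

namespace Pool.Agent.Work.MP_81c58b_co.TG

namespace I_MAIN3

lemma qbd {x M Q e : ℝ} (hx : 1 ≤ x) (hM : 1 ≤ M) (hQ : 0 ≤ Q) (hQ' : Q ≤ M * x ^ ((8 : ℝ) / 23))
    (he : 0 ≤ e) (he3 : e ≤ 3) : Q ^ e ≤ M ^ 3 * x ^ ((8 : ℝ) / 23 * e) := by
  have hx0 : (0 : ℝ) ≤ x := by linarith
  have hM0 : (0 : ℝ) ≤ M := by linarith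
  calc Q ^ e ≤ (M * x ^ ((8 : ℝ) / 23)) ^ e := Real.rpow_le_rpow hQ hQ' he
    _ = M ^ e * x ^ ((8 : ℝ) / 23 * e) := by
        rw [Real.mul_rpow hM0 (Real.rpow_nonneg hx0 _), ← Real.rpow_mul hx0]
    _ ≤ M ^ (3 : ℝ) * x ^ ((8 : ℝ) / 23 * e) :=
        mul_le_mul_of_nonneg_right (Real.rpow_le_rpow_of_exponent_le hM he3)
          (Real.rpow_nonneg hx0 _)
    _ = M ^ 3 * x ^ ((8 : ℝ) / 23 * e) := by
        congr 1
        exact_mod_cast Real.rpow_natCast M 3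

lemma ubd {x u e : ℝ} (hx : 1 ≤ x) (hu : 0 ≤ u) (hu' : u ≤ x ^ ((15 : ℝ) / 23))
    (he : 0 ≤ e) : u ^ e ≤ x ^ ((15 : ℝ) / 23 * e) := by
  have hx0 : (0 : ℝ) ≤ x := by linarith
  calc u ^ e ≤ (x ^ ((15 : ℝ) / 23)) ^ e := Real.rpow_le_rpow hu hu' he
    _ = x ^ ((15 : ℝ) / 23 * e) := by rw [← Real.rpow_mul hx0]

/-- the four terms -/
lemma terms {x M Q u P : ℝ} (hx : 1 ≤ x) (hM : 1 ≤ M) (hQ : 0 ≤ Q)
    (hQ' : Q ≤ M * x ^ ((8 : ℝ) / 23)) (hu : 0 ≤ u) (hu' : u ≤ x ^ ((15 : ℝ) / 23))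
    (hP : 0 ≤ P) (hP' : P ≤ x) :
    Q ^ ((117 : ℝ) / 160) * u ^ ((359 : ℝ) / 480) * P ^ ((121 : ℝ) / 160) +
      u * Q ^ ((1557 : ℝ) / 640) +
      Q ^ ((3 : ℝ) / 5) * u ^ ((11 : ℝ) / 15) * P ^ ((4 : ℝ) / 5) +
      u ^ ((2 : ℝ) / 3) * P ≤ 4 * M ^ 3 * x ^ ((2757 : ℝ) / 1840) := by
  have hx0 : (0 : ℝ) < x := by linarith
  have hM0 : (0 : ℝ) ≤ M := by linarith
  have hM3 : (0 : ℝ) ≤ M ^ 3 := by positivity
  have hM31 : (1 : ℝ) ≤ M ^ 3 := one_le_pow₀ hM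
  have hX : ∀ e : ℝ, 0 ≤ x ^ e := fun e => Real.rpow_nonneg hx0.le e
  have t1 : Q ^ ((117 : ℝ) / 160) * u ^ ((359 : ℝ) / 480) * P ^ ((121 : ℝ) / 160) ≤
      M ^ 3 * x ^ ((2757 : ℝ) / 1840) := by
    calc Q ^ ((117 : ℝ) / 160) * u ^ ((359 : ℝ) / 480) * P ^ ((121 : ℝ) / 160)
        ≤ (M ^ 3 * x ^ ((8 : ℝ) / 23 * (117 / 160))) * x ^ ((15 : ℝ) / 23 * (359 / 480)) *
            x ^ ((121 : ℝ) / 160) := by
          refine mul_le_mul (mul_le_mul (qbd hx hM hQ hQ' (by norm_num) (by norm_num))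
            (ubd hx hu hu' (by norm_num)) (Real.rpow_nonneg hu _) (by positivity))
            (Real.rpow_le_rpow hP hP' (by norm_num)) (Real.rpow_nonneg hP _) (by positivity)
      _ = M ^ 3 * (x ^ ((8 : ℝ) / 23 * (117 / 160)) * x ^ ((15 : ℝ) / 23 * (359 / 480)) *
            x ^ ((121 : ℝ) / 160)) := by ring
      _ = M ^ 3 * x ^ ((2757 : ℝ) / 1840) := by
          rw [← Real.rpow_add hx0, ← Real.rpow_add hx0]
          norm_num
  have t2 : u * Q ^ ((1557 : ℝ) / 640) ≤ M ^ 3 * x ^ ((2757 : ℝ) / 1840) := by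
    calc u * Q ^ ((1557 : ℝ) / 640)
        ≤ x ^ ((15 : ℝ) / 23) * (M ^ 3 * x ^ ((8 : ℝ) / 23 * (1557 / 640))) :=
          mul_le_mul hu' (qbd hx hM hQ hQ' (by norm_num) (by norm_num))
            (Real.rpow_nonneg hQ _) (hX _)
      _ = M ^ 3 * (x ^ ((15 : ℝ) / 23) * x ^ ((8 : ℝ) / 23 * (1557 / 640))) := by ring
      _ = M ^ 3 * x ^ ((2757 : ℝ) / 1840) := by
          rw [← Real.rpow_add hx0]
          norm_num
  have t3 : Q ^ ((3 : ℝ) / 5) * u ^ ((11 : ℝ) / 15) * P ^ ((4 : ℝ) / 5) ≤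
      M ^ 3 * x ^ ((2757 : ℝ) / 1840) := by
    calc Q ^ ((3 : ℝ) / 5) * u ^ ((11 : ℝ) / 15) * P ^ ((4 : ℝ) / 5)
        ≤ (M ^ 3 * x ^ ((8 : ℝ) / 23 * (3 / 5))) * x ^ ((15 : ℝ) / 23 * (11 / 15)) *
            x ^ ((4 : ℝ) / 5) := by
          refine mul_le_mul (mul_le_mul (qbd hx hM hQ hQ' (by norm_num) (by norm_num))
            (ubd hx hu hu' (by norm_num)) (Real.rpow_nonneg hu _) (by positivity))
            (Real.rpow_le_rpow hP hP' (by norm_num)) (Real.rpow_nonneg hP _) (by positivity)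
      _ = M ^ 3 * (x ^ ((8 : ℝ) / 23 * (3 / 5)) * x ^ ((15 : ℝ) / 23 * (11 / 15)) *
            x ^ ((4 : ℝ) / 5)) := by ring
      _ ≤ M ^ 3 * x ^ ((2757 : ℝ) / 1840) := by
          rw [← Real.rpow_add hx0, ← Real.rpow_add hx0]
          exact mul_le_mul_of_nonneg_left
            (Real.rpow_le_rpow_of_exponent_le hx (by norm_num)) hM3
  have t4 : u ^ ((2 : ℝ) / 3) * P ≤ M ^ 3 * x ^ ((2757 : ℝ) / 1840) := by
    calc u ^ ((2 : ℝ) / 3) * P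
        ≤ x ^ ((15 : ℝ) / 23 * (2 / 3)) * x ^ (1 : ℝ) := by
          refine mul_le_mul (ubd hx hu hu' (by norm_num)) ?_ hP (hX _)
          rw [Real.rpow_one]
          exact hP'
      _ = x ^ ((15 : ℝ) / 23 * (2 / 3) + 1) := by rw [← Real.rpow_add hx0]
      _ ≤ x ^ ((2757 : ℝ) / 1840) := Real.rpow_le_rpow_of_exponent_le hx (by norm_num)
      _ ≤ M ^ 3 * x ^ ((2757 : ℝ) / 1840) := le_mul_of_one_le_left (hX _) hM31
  linarith

end I_MAIN3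

open I_MAIN3 in
theorem MAIN3_pf (h : RECU) : MAIN3 := by
  obtain ⟨C, hC, h⟩ := h
  have hC0 : 0 < C := by linarith
  obtain ⟨t, ht⟩ := pow_unbounded_of_one_lt ((2 * C) ^ 5000) (one_lt_two (α := ℝ))
  have ht1 : 1 ≤ t := by
    rcases Nat.eq_zero_or_pos t with h0 | h0
    · exfalso
      rw [h0, pow_zero] at ht
      have : (1 : ℝ) ≤ (2 * C) ^ 5000 := one_le_pow₀ (by linarith)
      linarith
    · exact h0
  set M : ℝ := 2 ^ t with hMdef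
  have hM1 : (1 : ℝ) < M := one_lt_pow₀ one_lt_two (by omega)
  refine ⟨4 * C * M ^ 4, by positivity, fun R B n hS hR hB => ?_⟩
  rcases Nat.eq_zero_or_pos n with hn | hn
  · have hR0 : R = ∅ := by
      rw [← Finset.card_eq_zero]
      omega
    have : inc R B = 0 := by
      unfold inc
      rw [hR0]
      simp
    rw [this, hn]
    rw [Nat.cast_zero, Real.zero_rpow (by norm_num)]
    simp
  set x : ℝ := (n : ℝ) with hxdef
  have hx : 1 ≤ x := by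
    rw [hxdef]
    exact_mod_cast hn
  have hx0 : 0 < x := by linarith
  obtain ⟨j, hj1, hj2⟩ := exists_nat_pow_near (x := x ^ ((15 : ℝ) / 23)) (y := M)
    (Real.one_le_rpow hx (by norm_num)) hM1
  set u : ℝ := M ^ j with hudef
  have hu1 : 1 ≤ u := one_le_pow₀ hM1.le
  have hu0 : 0 < u := by linarith
  have hu2 : u = 2 ^ (t * j) := by rw [hudef, hMdef, ← pow_mul]
  have hab : x ^ ((15 : ℝ) / 23) * x ^ ((8 : ℝ) / 23) = x := by
    rw [← Real.rpow_add hx0]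
    norm_num
  have hb0 : 0 < x ^ ((8 : ℝ) / 23) := Real.rpow_pos_of_pos hx0 _
  have hb1 : 1 ≤ x ^ ((8 : ℝ) / 23) := Real.one_le_rpow hx (by norm_num)
  have hQ1 : x ^ ((8 : ℝ) / 23) ≤ x / u := by
    rw [le_div_iff₀ hu0]
    calc x ^ ((8 : ℝ) / 23) * u ≤ x ^ ((8 : ℝ) / 23) * x ^ ((15 : ℝ) / 23) :=
          mul_le_mul_of_nonneg_left hj1 hb0.le
      _ = x := by rw [mul_comm]; exact hab
  have hQ2 : x / u ≤ M * x ^ ((8 : ℝ) / 23) := by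
    rw [div_le_iff₀ hu0]
    calc x = x ^ ((15 : ℝ) / 23) * x ^ ((8 : ℝ) / 23) := hab.symm
      _ ≤ M ^ (j + 1) * x ^ ((8 : ℝ) / 23) := mul_le_mul_of_nonneg_right hj2.le hb0.le
      _ = M * x ^ ((8 : ℝ) / 23) * u := by rw [hudef, pow_succ]; ring
  have hBx : (B.card : ℝ) ≤ x / u * 2 ^ (t * j) := by
    rw [← hu2, div_mul_cancel₀ _ hu0.ne', hxdef]
    exact_mod_cast hB
  have hRx : (R.card : ℝ) ≤ x := by
    rw [hxdef]
    exact_mod_cast hR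
  have key := h t j (x / u) R B hS (le_trans hb1 hQ1) hBx
  have e0 : (2 : ℝ) ^ ((t : ℝ) * (j : ℝ)) = u := by
    rw [hu2, ← Real.rpow_natCast]
    push_cast
    rfl
  have e1 : (2 : ℝ) ^ ((t : ℝ) * (j : ℝ) * 359 / 480) = u ^ ((359 : ℝ) / 480) := by
    rw [← e0, ← Real.rpow_mul (by norm_num)]
    congr 1
    ring
  have e2 : (2 : ℝ) ^ ((t : ℝ) * (j : ℝ) * 11 / 15) = u ^ ((11 : ℝ) / 15) := by
    rw [← e0, ← Real.rpow_mul (by norm_num)]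
    congr 1
    ring
  have e3 : (2 : ℝ) ^ ((t : ℝ) * (j : ℝ) * 2 / 3) = u ^ ((2 : ℝ) / 3) := by
    rw [← e0, ← Real.rpow_mul (by norm_num)]
    congr 1
    ring
  rw [e0, e1, e2, e3] at key
  have hT := terms hx hM1.le (le_trans hb0.le hQ1) hQ2 hu0.le hj1 (Nat.cast_nonneg R.card) hRx
  have hT0 : 0 ≤ 4 * M ^ 3 * x ^ ((2757 : ℝ) / 1840) := by positivity
  -- the constant
  have hc1 : C ^ (j + 1) * ((j : ℝ) + 1) ≤ C * (2 * C) ^ j := by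
    have h2 : (j : ℝ) + 1 ≤ 2 ^ j := by
      have : j + 1 ≤ 2 ^ j := Nat.lt_two_pow_self
      exact_mod_cast this
    calc C ^ (j + 1) * ((j : ℝ) + 1) ≤ C ^ (j + 1) * 2 ^ j :=
          mul_le_mul_of_nonneg_left h2 (by positivity)
      _ = C * (2 * C) ^ j := by rw [mul_pow, pow_succ]; ring
  have hc2 : (2 * C) ^ j ≤ x ^ ((1 : ℝ) / 5000) := by
    have h1 : ((2 * C) ^ j) ^ 5000 ≤ x := by
      calc ((2 * C) ^ j) ^ 5000 = ((2 * C) ^ 5000) ^ j := by rw [← pow_mul, ← pow_mul, mul_comm j]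
        _ ≤ M ^ j := pow_le_pow_left₀ (by positivity) ht.le j
        _ ≤ x ^ ((15 : ℝ) / 23) := hj1
        _ ≤ x ^ (1 : ℝ) := Real.rpow_le_rpow_of_exponent_le hx (by norm_num)
        _ = x := Real.rpow_one x
    have h0 : (0 : ℝ) ≤ (2 * C) ^ j := by positivity
    calc (2 * C) ^ j = (((2 * C) ^ j) ^ 5000) ^ ((1 : ℝ) / 5000) := by
          rw [← Real.rpow_natCast ((2 * C) ^ j) 5000, ← Real.rpow_mul h0]
          norm_num
      _ ≤ x ^ ((1 : ℝ) / 5000) := Real.rpow_le_rpow (by positivity) h1 (by norm_num)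
  have hc3 : C ^ (j + 1) * ((j : ℝ) + 1) ≤ C * x ^ ((1 : ℝ) / 5000) :=
    hc1.trans (mul_le_mul_of_nonneg_left hc2 hC0.le)
  have hM0 : (0 : ℝ) ≤ M := by linarith
  calc (inc R B : ℝ) ≤ _ := key
    _ ≤ C ^ (j + 1) * ((j : ℝ) + 1) * 2 ^ t * (4 * M ^ 3 * x ^ ((2757 : ℝ) / 1840)) :=
        mul_le_mul_of_nonneg_left hT (by positivity)
    _ ≤ C * x ^ ((1 : ℝ) / 5000) * 2 ^ t * (4 * M ^ 3 * x ^ ((2757 : ℝ) / 1840)) :=
        mul_le_mul_of_nonneg_right (mul_le_mul_of_nonneg_right hc3 (by positivity)) hT0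
    _ = 4 * C * M ^ 4 * (x ^ ((1 : ℝ) / 5000) * x ^ ((2757 : ℝ) / 1840)) := by
        rw [← hMdef]
        ring
    _ = 4 * C * M ^ 4 * x ^ ((1 : ℝ) / 5000 + 2757 / 1840) := by rw [← Real.rpow_add hx0]
    _ ≤ 4 * C * M ^ 4 * x ^ ((1499 : ℝ) / 1000) :=
        mul_le_mul_of_nonneg_left (Real.rpow_le_rpow_of_exponent_le hx (by norm_num))
          (by positivity)

end Pool.Agent.Work.MP_81c58b_co.TG
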