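import Pool.Agent.Work.MP_81c58b_co.TG.Stmts

/-!
# MP_81c58b_co, block TG, items SP4 and SP3: substitution of the cone parametrisation
-/

set_option autoImplicit false

namespace Pool.Agent.Work.MP_81c58b_co.TG

open MvPolynomial

namespace I_SPS

theorem td_aeval {σ τ : Type*} (g : σ → MvPolynomial τ ℝ) (k : ℕ)
    (hg : ∀ i, (g i).totalDegree ≤ k) (f : MvPolynomial σ ℝ) :
    (aeval g f).totalDegree ≤ k * f.totalDegree := by
  classical
  rw [aeval_def, eval₂_eq]
  refine (totalDegree_finsetSum _ _).trans (Finset.sup_le fun m hm => ?_)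
  refine (totalDegree_mul _ _).trans ?_
  have h1 : (algebraMap ℝ (MvPolynomial τ ℝ) (coeff m f)).totalDegree = 0 := by
    rw [MvPolynomial.algebraMap_eq]; exact totalDegree_C _
  rw [h1, zero_add]
  refine (totalDegree_finsetProd _ _).trans ?_
  have h2 : ∀ i ∈ m.support, ((g i) ^ (m i)).totalDegree ≤ k * m i := fun i _ =>
    (totalDegree_pow _ _).trans (by rw [mul_comm]; exact Nat.mul_le_mul_right _ (hg i))
  refine (Finset.sum_le_sum h2).trans ?_
  rw [← Finset.mul_sum]
  exact Nat.mul_le_mul_left _ (le_totalDegree hm)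

theorem deg_a (c : ℝ) : (C c + X 0 * X 1 : MvPolynomial (Fin 2) ℝ).totalDegree ≤ 3 := by
  refine (totalDegree_add _ _).trans (max_le ?_ ?_)
  · rw [totalDegree_C]; norm_num
  · refine (totalDegree_mul _ _).trans ?_
    rw [totalDegree_X, totalDegree_X]; norm_num

theorem deg_b (c : ℝ) : (C c + X 0 : MvPolynomial (Fin 2) ℝ).totalDegree ≤ 3 := by
  refine (totalDegree_add _ _).trans (max_le ?_ ?_)
  · rw [totalDegree_C]; norm_num
  · rw [totalDegree_X]; norm_num

theorem deg_c (c : ℝ) : (C c - X 0 * X 1 ^ 2 : MvPolynomial (Fin 2) ℝ).totalDegree ≤ 3 := by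
  refine (totalDegree_sub _ _).trans (max_le ?_ ?_)
  · rw [totalDegree_C]; norm_num
  · refine (totalDegree_mul _ _).trans ?_
    have := totalDegree_pow (X 1 : MvPolynomial (Fin 2) ℝ) 2
    rw [totalDegree_X] at this ⊢
    omega

theorem deg_d : (X 1 : MvPolynomial (Fin 2) ℝ).totalDegree ≤ 3 := by
  rw [totalDegree_X]; norm_num

theorem eval_aeval {σ : Type*} [Fintype σ] (g : σ → MvPolynomial (Fin 2) ℝ) (f : MvPolynomial σ ℝ)
    (x : Fin 2 → ℝ) : eval x (aeval g f) = eval (fun i => eval x (g i)) f := by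
  rw [aeval_def, MvPolynomial.algebraMap_eq, eval₂_eq', map_sum, eval_eq']
  refine Finset.sum_congr rfl fun m _ => ?_
  simp [map_prod]

end I_SPS

theorem SP4_pf : SP4 := by
  intro f b
  refine ⟨aeval ![C (b 0) + X 0 * X 1, C (b 1) + X 0, C (b 2) - X 0 * X 1 ^ 2, X 1] f, ?_, ?_⟩
  · refine I_SPS.td_aeval _ 3 ?_ f
    intro i
    fin_cases i
    · exact I_SPS.deg_a _
    · exact I_SPS.deg_b _
    · exact I_SPS.deg_c _
    · exact I_SPS.deg_d
  · intro s t
    rw [I_SPS.eval_aeval]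
    congr 1
    congr 1
    funext i
    fin_cases i <;> simp [pt4, nu] <;> ring

theorem SP3_pf : SP3 := by
  intro f b
  refine ⟨aeval ![C (b 0) + X 0 * X 1, C (b 1) + X 0, C (b 2) - X 0 * X 1 ^ 2] f, ?_, ?_⟩
  · refine I_SPS.td_aeval _ 3 ?_ f
    intro i
    fin_cases i
    · exact I_SPS.deg_a _
    · exact I_SPS.deg_b _
    · exact I_SPS.deg_c _
  · intro s t
    rw [I_SPS.eval_aeval]
    congr 1
    congr 1
    funext i
    fin_cases i <;> simp [nu] <;> ring

end Pool.Agent.Work.MP_81c58b_co.TG
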