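import Pool.Agent.Work.MP_81c58b_co.TG.Stmts

/-!
MP_81c58b_co, block TG, item STEP: one step of the recursion of the cutting lemma.
-/

set_option autoImplicit false

namespace Pool.Agent.Work.MP_81c58b_co.TG

open MvPolynomial
open Pool.Agent.Work.MP_916cc8_co (sameCl Part War CW Bez Clr)

open scoped Classical

namespace I_STEP

/-- the elements with a given sign vector -/
noncomputable def chi {t0 : ℕ} (f : Fin t0 → MvPolynomial (Fin 4) ℝ) (A : Finset Tr)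
    (σ : Fin t0 → Bool) : Finset Tr :=
  A.filter (fun a => ∀ j, (σ j = true → 0 < eval (lift a) (f j)) ∧
    (σ j = false → eval (lift a) (f j) < 0))

theorem chi_ne {t0 : ℕ} {f : Fin t0 → MvPolynomial (Fin 4) ℝ} {A : Finset Tr}
    {σ : Fin t0 → Bool} {a : Tr} (ha : a ∈ chi f A σ) (j : Fin t0) :
    eval (lift a) (f j) ≠ 0 := by
  have h := (Finset.mem_filter.mp ha).2 j
  cases hs : σ j with
  | false => exact (h.2 hs).ne
  | true => exact (h.1 hs).ne'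

theorem chi_same {t0 : ℕ} {f : Fin t0 → MvPolynomial (Fin 4) ℝ} {A : Finset Tr}
    {σ : Fin t0 → Bool} {a a' : Tr} (ha : a ∈ chi f A σ) (ha' : a' ∈ chi f A σ) :
    sameCl f (lift a) (lift a') := by
  intro j
  have h := (Finset.mem_filter.mp ha).2 j
  have h' := (Finset.mem_filter.mp ha').2 j
  cases hs : σ j with
  | false => exact mul_pos_of_neg_of_neg (h.2 hs) (h'.2 hs)
  | true => exact mul_pos (h.1 hs) (h'.1 hs)

theorem chi_eq {t0 : ℕ} {f : Fin t0 → MvPolynomial (Fin 4) ℝ} {A : Finset Tr}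
    {σ σ' : Fin t0 → Bool} {a a' : Tr} (ha : a ∈ chi f A σ) (ha' : a' ∈ chi f A σ')
    (hs : sameCl f (lift a) (lift a')) : σ = σ' := by
  funext j
  have h := (Finset.mem_filter.mp ha).2 j
  have h' := (Finset.mem_filter.mp ha').2 j
  have hj := hs j
  cases h1 : σ j with
  | false =>
    cases h2 : σ' j with
    | false => rfl
    | true => exact absurd hj (not_lt.mpr (mul_nonpos_of_nonpos_of_nonneg (h.2 h1).le (h'.1 h2).le))
  | true =>
    cases h2 : σ' j with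
    | false => exact absurd hj (not_lt.mpr (mul_nonpos_of_nonneg_of_nonpos (h.1 h1).le (h'.2 h2).le))
    | true => rfl

theorem chi_self {t0 : ℕ} {f : Fin t0 → MvPolynomial (Fin 4) ℝ} {A : Finset Tr}
    {σ σ' : Fin t0 → Bool} {a a' : Tr} (ha : a ∈ chi f A σ) (ha' : a' ∈ chi f A σ')
    (hl : lift a = lift a') : σ = σ' := by
  refine chi_eq ha ha' fun j => ?_
  rw [← hl]
  exact mul_self_pos.mpr (chi_ne ha j)

theorem chi_card {t0 : ℕ} {f : Fin t0 → MvPolynomial (Fin 4) ℝ} {A : Finset Tr}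
    (hcl : ∀ x : Fin 4 → ℝ, 2 ^ t0 * (A.filter (fun a => sameCl f x (lift a))).card ≤ A.card)
    (σ : Fin t0 → Bool) : 2 ^ t0 * (chi f A σ).card ≤ A.card := by
  rcases (chi f A σ).eq_empty_or_nonempty with h0 | ⟨a0, ha0⟩
  · rw [h0]
    simp
  · refine le_trans (Nat.mul_le_mul_left _ (Finset.card_le_card ?_)) (hcl (lift a0))
    intro a ha
    exact Finset.mem_filter.mpr ⟨(Finset.mem_filter.mp ha).1, chi_same ha0 ha⟩

theorem count {α β : Type} [Fintype β] (P : Finset α) (img : β → Finset α)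
    (himg : ∀ σ, img σ ⊆ P) (K : ℕ)
    (h : ∀ p ∈ P, ∀ Sg : Finset β, (∀ σ ∈ Sg, p ∈ img σ) → Sg.card ≤ K) :
    ∑ σ, (img σ).card ≤ K * P.card := by
  have h1 : ∀ σ, (img σ).card = ∑ p ∈ P, if p ∈ img σ then 1 else 0 := by
    intro σ
    rw [← Finset.card_filter]
    congr 1
    ext p
    simp only [Finset.mem_filter]
    exact ⟨fun hp => ⟨himg σ hp, hp⟩, fun hp => hp.2⟩
  rw [Finset.sum_congr rfl fun σ _ => h1 σ, Finset.sum_comm]
  calc ∑ p ∈ P, ∑ σ, (if p ∈ img σ then 1 else 0)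
      ≤ ∑ p ∈ P, K := by
        refine Finset.sum_le_sum fun p hp => ?_
        rw [← Finset.card_filter]
        exact h p hp _ fun σ hσ => (Finset.mem_filter.mp hσ).2
    _ = K * P.card := by
        rw [Finset.sum_const, smul_eq_mul, mul_comm]

theorem pick {t0 : ℕ} (f : Fin t0 → MvPolynomial (Fin 4) ℝ) (A : Finset Tr) {α : Type}
    (π : Tr → α) (p : α) : ∃ a : (Fin t0 → Bool) → Tr,
    ∀ σ, (∃ a ∈ chi f A σ, π a = p) → a σ ∈ chi f A σ ∧ π (a σ) = p := by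
  have hex : ∀ σ : Fin t0 → Bool, ∃ a : Tr,
      (∃ a ∈ chi f A σ, π a = p) → a ∈ chi f A σ ∧ π a = p := by
    intro σ
    by_cases h : ∃ a ∈ chi f A σ, π a = p
    · obtain ⟨a, ha, hap⟩ := h
      exact ⟨a, fun _ => ⟨ha, hap⟩⟩
    · exact ⟨(0, 0, 0), fun h' => absurd h' h⟩
  choose a ha using hex
  exact ⟨a, fun σ hσ => ha σ hσ⟩

theorem visN {t0 : ℕ} (f : Fin t0 → MvPolynomial (Fin 4) ℝ) (R B : Finset E3) (A : Finset Tr)
    (hS : Str R B) (hV : Valid R B A) (h4 : VISC) (h9 : PAR) :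
    ∑ σ, nN (chi f A σ) ≤ (3 * (∑ j, (f j).totalDegree) + 3) * nN A := by
  refine count (A.image (fun a : Tr => (a.1, a.2.1)))
    (fun σ => (chi f A σ).image (fun a : Tr => (a.1, a.2.1)))
    (fun σ => Finset.image_subset_image (Finset.filter_subset _ _)) _ ?_
  intro p hp Sg hSg
  obtain ⟨a, ha0⟩ := pick f A (fun a : Tr => (a.1, a.2.1)) p
  have ha : ∀ σ ∈ Sg, a σ ∈ chi f A σ ∧ ((a σ).1, (a σ).2.1) = p :=
    fun σ hσ => ha0 σ (Finset.mem_image.mp (hSg σ hσ))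
  obtain ⟨b, b'⟩ := p
  have key : ∀ σ ∈ Sg, ell (b' - b) (tt (a σ).2.2 b) ≠ 0 ∧
      lift (a σ) = pt4 (crv b b' (tt (a σ).2.2 b)) (tt (a σ).2.2 b) := by
    intro σ hσ
    obtain ⟨h1, h2⟩ := ha σ hσ
    have hb : (a σ).1 = b := congrArg Prod.fst h2
    have hb' : (a σ).2.1 = b' := congrArg Prod.snd h2
    have hv := hV (a σ) (Finset.mem_filter.mp h1).1
    rw [hb, hb'] at hv
    obtain ⟨v1, v2, v3, v4, v5, v6⟩ := hv
    have hne : tt (a σ).2.2 b ≠ tt (a σ).2.2 b' := fun h =>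
      v4 (hS.h1 _ v3 _ v1 _ v2 v5 v6 h)
    obtain ⟨p1, p2, p3, p4, p5⟩ := h9 (a σ).2.2 b b' v4 v5 v6 hne
    refine ⟨p2, ?_⟩
    unfold lift
    rw [hb, ← p4]
  have hinj : Set.InjOn (fun σ => tt (a σ).2.2 b) (Sg : Set (Fin t0 → Bool)) := by
    intro σ hσ0 σ' hσ0' h
    have hσ : σ ∈ Sg := Finset.mem_coe.mp hσ0
    have hσ' : σ' ∈ Sg := Finset.mem_coe.mp hσ0'
    have h' : tt (a σ).2.2 b = tt (a σ').2.2 b := h
    refine chi_self (ha σ hσ).1 (ha σ' hσ').1 ?_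
    rw [(key σ hσ).2, (key σ' hσ').2, h']
  rw [← Finset.card_image_of_injOn hinj]
  refine h4 t0 f b b' _ ?_ ?_
  · intro t ht
    obtain ⟨σ, hσ, rfl⟩ := Finset.mem_image.mp ht
    refine ⟨(key σ hσ).1, fun j => ?_⟩
    rw [← (key σ hσ).2]
    exact chi_ne (ha σ hσ).1 j
  · intro t ht u hu hs
    obtain ⟨σ, hσ, rfl⟩ := Finset.mem_image.mp ht
    obtain ⟨σ', hσ', rfl⟩ := Finset.mem_image.mp hu
    rw [← (key σ hσ).2, ← (key σ' hσ').2] at hs
    rw [chi_eq (ha σ hσ).1 (ha σ' hσ').1 hs]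

theorem visQ {t0 : ℕ} (f : Fin t0 → MvPolynomial (Fin 4) ℝ) (R B : Finset E3) (A : Finset Tr)
    (hV : Valid R B A) (h5 : VISS) :
    ∑ σ, nQ (chi f A σ) ≤ (6 * (∑ j, (f j).totalDegree) + 2) ^ 2 * nQ A := by
  refine count (A.image (fun a : Tr => a.1)) (fun σ => (chi f A σ).image (fun a : Tr => a.1))
    (fun σ => Finset.image_subset_image (Finset.filter_subset _ _)) _ ?_
  intro b hb Sg hSg
  obtain ⟨a, ha0⟩ := pick f A (fun a : Tr => a.1) b
  have ha : ∀ σ ∈ Sg, a σ ∈ chi f A σ ∧ (a σ).1 = b :=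
    fun σ hσ => ha0 σ (Finset.mem_image.mp (hSg σ hσ))
  have key : ∀ σ ∈ Sg, Inc (a σ).2.2 b ∧
      lift (a σ) = pt4 (a σ).2.2 (tt (a σ).2.2 b) := by
    intro σ hσ
    obtain ⟨h1, h2⟩ := ha σ hσ
    have h2' : (a σ).1 = b := h2
    have hv := hV (a σ) (Finset.mem_filter.mp h1).1
    rw [h2'] at hv
    refine ⟨hv.2.2.2.2.1, ?_⟩
    unfold lift
    rw [h2']
  have hinj : Set.InjOn (fun σ => (a σ).2.2) (Sg : Set (Fin t0 → Bool)) := by
    intro σ hσ0 σ' hσ0' h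
    have hσ : σ ∈ Sg := Finset.mem_coe.mp hσ0
    have hσ' : σ' ∈ Sg := Finset.mem_coe.mp hσ0'
    have h' : (a σ).2.2 = (a σ').2.2 := h
    refine chi_self (ha σ hσ).1 (ha σ' hσ').1 ?_
    rw [(key σ hσ).2, (key σ' hσ').2, h']
  rw [← Finset.card_image_of_injOn hinj]
  refine h5 t0 f b _ ?_ ?_
  · intro t ht
    obtain ⟨σ, hσ, rfl⟩ := Finset.mem_image.mp ht
    refine ⟨(key σ hσ).1, fun j => ?_⟩
    rw [← (key σ hσ).2]
    exact chi_ne (ha σ hσ).1 j
  · intro t ht u hu hs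
    obtain ⟨σ, hσ, rfl⟩ := Finset.mem_image.mp ht
    obtain ⟨σ', hσ', rfl⟩ := Finset.mem_image.mp hu
    rw [← (key σ hσ).2, ← (key σ' hσ').2] at hs
    rw [chi_eq (ha σ hσ).1 (ha σ' hσ').1 hs]

/-- parameters at which the conic meets the cone of `b0` -/
def TS (b b' b0 : E3) : Set ℝ := {t | ell (b' - b) t ≠ 0 ∧ q (crv b b' t - b0) = 0}

noncomputable def TF (b b' b0 : E3) : Finset ℝ :=
  if h : (TS b b' b0).Finite then h.toFinset else ∅

theorem TS_fin (h8 : DENZ) {b b' b0 : E3} (hq : q (b' - b) ≠ 0) (h1 : b0 ≠ b) (h2 : b0 ≠ b') :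
    (TS b b' b0).Finite := by
  by_contra hinf
  obtain ⟨Z, hZ, hc⟩ := Set.Infinite.exists_subset_card_eq hinf 3
  have := h8 b b' b0 hq h1 h2 Z fun t ht => hZ ht
  omega

theorem TF_card (h8 : DENZ) {b b' b0 : E3} (hq : q (b' - b) ≠ 0) (h1 : b0 ≠ b) (h2 : b0 ≠ b') :
    (TF b b' b0).card ≤ 2 := by
  have hf := TS_fin h8 hq h1 h2
  unfold TF
  rw [dif_pos hf]
  refine h8 b b' b0 hq h1 h2 _ fun t ht => ?_
  exact hf.mem_toFinset.mp ht

theorem mem_TF (h8 : DENZ) {b b' b0 : E3} (hq : q (b' - b) ≠ 0) (h1 : b0 ≠ b) (h2 : b0 ≠ b')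
    {t : ℝ} (ht1 : ell (b' - b) t ≠ 0) (ht2 : q (crv b b' t - b0) = 0) : t ∈ TF b b' b0 := by
  have hf := TS_fin h8 hq h1 h2
  unfold TF
  rw [dif_pos hf, hf.mem_toFinset]
  exact ⟨ht1, ht2⟩

/-- further cut parameters -/
noncomputable def Yf (Cs : Finset E3) (b b' : E3) : Finset ℝ :=
  if q (b' - b) = 0 then ∅ else (Cs.filter (fun b0 => b0 ≠ b ∧ b0 ≠ b')).biUnion (TF b b')

theorem Yf_card (h8 : DENZ) (Cs : Finset E3) (b b' : E3) : (Yf Cs b b').card ≤ 2 * Cs.card := by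
  unfold Yf
  split_ifs with h
  · simp
  · refine le_trans (Finset.card_biUnion_le_card_mul _ _ 2 fun b0 hb0 => ?_) ?_
    · have := (Finset.mem_filter.mp hb0).2
      exact TF_card h8 h this.1 this.2
    · rw [mul_comm]
      exact Nat.mul_le_mul_left _ (Finset.card_filter_le _ _)

theorem mem_Yf (h8 : DENZ) {Cs : Finset E3} {b b' b0 : E3} (hb0 : b0 ∈ Cs)
    (hq : q (b' - b) ≠ 0) (h1 : b0 ≠ b) (h2 : b0 ≠ b')
    {t : ℝ} (ht1 : ell (b' - b) t ≠ 0) (ht2 : q (crv b b' t - b0) = 0) : t ∈ Yf Cs b b' := by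
  unfold Yf
  rw [if_neg hq]
  exact Finset.mem_biUnion.mpr ⟨b0, Finset.mem_filter.mpr ⟨hb0, h1, h2⟩,
    mem_TF h8 hq h1 h2 ht1 ht2⟩

theorem q_sub_comm (u v : E3) : q (u - v) = q (v - u) := by
  unfold q
  simp only [Pi.sub_apply]
  ring

theorem rp (t0 : ℕ) (Cp S : ℝ) (hCp : 0 < Cp) (hS : S ≤ Cp * (2 : ℝ) ^ ((t0 : ℝ) / 4))
    (hS0 : 0 ≤ S) :
    3 * S + 3 ≤ ((3 * Cp + 3) + (6 * Cp + 2) ^ 2) * (2 : ℝ) ^ ((t0 : ℝ) / 4) ∧
    (6 * S + 2) ^ 2 ≤ ((3 * Cp + 3) + (6 * Cp + 2) ^ 2) * (2 : ℝ) ^ ((t0 : ℝ) / 2) := by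
  have h1 : (1 : ℝ) ≤ (2 : ℝ) ^ ((t0 : ℝ) / 4) :=
    Real.one_le_rpow (by norm_num) (by positivity)
  have h2 : (2 : ℝ) ^ ((t0 : ℝ) / 2) = ((2 : ℝ) ^ ((t0 : ℝ) / 4)) ^ 2 := by
    rw [← Real.rpow_natCast, ← Real.rpow_mul (by norm_num)]
    congr 1
    push_cast
    ring
  set T := (2 : ℝ) ^ ((t0 : ℝ) / 4) with hT
  have hT0 : 0 < T := by linarith
  constructor
  · have : 0 ≤ (6 * Cp + 2) ^ 2 * T := by positivity
    nlinarith
  · rw [h2]
    have h3 : 6 * S + 2 ≤ (6 * Cp + 2) * T := by nlinarith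
    have h4 : (6 * S + 2) ^ 2 ≤ ((6 * Cp + 2) * T) ^ 2 :=
      pow_le_pow_left₀ (by linarith) h3 2
    have h5 : 0 ≤ (3 * Cp + 3) * T ^ 2 := by positivity
    nlinarith [h4, h5]

end I_STEP

open I_STEP in
theorem STEP_pf (hP : Part 4) (h1 : PAIR) (h2 : KILL) (h3 : SURFREM) (h4 : VISC) (h5 : VISS)
    (h6 : NOSWAP) (h7 : CONT) (h8 : DENZ) (h9 : PAR) : STEP := by
  obtain ⟨Cp, hCp, hPart⟩ := hP
  refine ⟨(3 * Cp + 3) + (6 * Cp + 2) ^ 2, by positivity, ?_⟩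
  intro t0
  set D0 : ℝ := Cp * (2 : ℝ) ^ ((t0 : ℝ) / 4) with hD0
  have hD0p : 0 < D0 := by positivity
  refine ⟨24 * t0 * (D0 + 1) ^ 2 + 4 * D0 + 1, by positivity, ?_⟩
  intro R B E A hStr hE hV
  obtain ⟨f, hf0, hdeg, hcl⟩ := hPart Tr A lift t0
  set S : ℕ := ∑ j, (f j).totalDegree with hS
  have hSD : (S : ℝ) ≤ D0 := by
    have := hdeg
    push_cast at this
    exact this
  have hdj : ∀ j, (f j).totalDegree ≤ S := fun j =>
    Finset.single_le_sum (f := fun j => (f j).totalDegree) (fun _ _ => Nat.zero_le _)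
      (Finset.mem_univ j)
  choose g hg0 hgd Z hZc hZp using fun j => h1 (f j) (hf0 j)
  have hCc : ∀ j, (B.filter (fun b => Cone (g j) b)).card ≤ (g j).totalDegree := fun j =>
    h7 (g j) (hg0 j) _ fun b hb => (Finset.mem_filter.mp hb).2
  let W : Fin t0 → E3 → E3 → Finset ℝ := fun j b b' =>
    Z j b b' ∪ Yf (B.filter (fun b => Cone (g j) b)) b b'
  have hW : ∀ j b b', (W j b b').card ≤ 6 * (S + 1) ^ 2 := by
    intro j b b'
    have e1 := Finset.card_union_le (Z j b b') (Yf (B.filter (fun b => Cone (g j) b)) b b')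
    have e2 := hZc j b b'
    have e3 := Yf_card h8 (B.filter (fun b => Cone (g j) b)) b b'
    have e4 := hCc j
    have e5 := hgd j
    have e6 := hdj j
    have e7 : ((f j).totalDegree + 1) ^ 2 ≤ (S + 1) ^ 2 := Nat.pow_le_pow_left (by omega) 2
    have e8 : (W j b b').card ≤ (Z j b b').card +
      (Yf (B.filter (fun b => Cone (g j) b)) b b').card := e1
    nlinarith [e2, e3, e4, e5, e6, e7, e8]
  have hX1 := fun j => h2 R B E A (W j) (6 * (S + 1) ^ 2) hE (hW j)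
  choose X2 hX2E hX2c hX2p using fun j => h3 R B E A (g j) hStr hE hV (hg0 j)
  let X1 : Fin t0 → Finset Ed := fun j => E.filter (fun e => (∃ r, (e.1, e.2.1, r) ∈ A) ∧
    ∃ z ∈ W j e.1 e.2.1, z ∈ Set.uIcc (tt e.2.2.1 e.1) (tt e.2.2.2 e.1))
  have hX1' : ∀ j, (X1 j).card ≤ 4 * (6 * (S + 1) ^ 2) * nN A := hX1
  have hrp := rp t0 Cp S hCp hSD (Nat.cast_nonneg _)
  refine ⟨Finset.univ.biUnion (fun j => X1 j ∪ X2 j), chi f A, ?_, ?_, ?_, ?_, ?_, ?_⟩
  · intro e he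
    obtain ⟨j, -, hj⟩ := Finset.mem_biUnion.mp he
    rcases Finset.mem_union.mp hj with h | h
    · exact (Finset.mem_filter.mp h).1
    · exact hX2E j h
  · have e1 : (Finset.univ.biUnion (fun j => X1 j ∪ X2 j)).card ≤
        ∑ j, ((X1 j).card + (X2 j).card) :=
      le_trans Finset.card_biUnion_le (Finset.sum_le_sum fun j _ => Finset.card_union_le _ _)
    have e2 : ((Finset.univ.biUnion (fun j => X1 j ∪ X2 j)).card : ℝ) ≤
        ∑ j, (((X1 j).card : ℝ) + ((X2 j).card : ℝ)) := by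
      exact_mod_cast e1
    have e3 : ∀ j, ((X1 j).card : ℝ) + ((X2 j).card : ℝ) ≤
        24 * ((S : ℝ) + 1) ^ 2 * nN A +
          4 * ((f j).totalDegree : ℝ) * (nQ A * Real.sqrt A.card) := by
      intro j
      have a1 : ((X1 j).card : ℝ) ≤ 4 * (6 * ((S : ℝ) + 1) ^ 2) * nN A := by
        exact_mod_cast hX1' j
      have a2 := hX2c j
      have a3 : ((g j).totalDegree : ℝ) ≤ ((f j).totalDegree : ℝ) := by exact_mod_cast hgd j
      have a4 : 0 ≤ (nQ A : ℝ) * Real.sqrt A.card := by positivity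
      have a5 : 4 * ((g j).totalDegree : ℝ) * nQ A * Real.sqrt A.card ≤
          4 * ((f j).totalDegree : ℝ) * (nQ A * Real.sqrt A.card) := by
        nlinarith
      linarith
    have e4 : ∑ j, (((X1 j).card : ℝ) + ((X2 j).card : ℝ)) ≤
        t0 * (24 * ((S : ℝ) + 1) ^ 2 * nN A) + 4 * (S : ℝ) * (nQ A * Real.sqrt A.card) := by
      refine le_trans (Finset.sum_le_sum fun j _ => e3 j) ?_
      rw [Finset.sum_add_distrib, Finset.sum_const, Finset.card_univ, Fintype.card_fin,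
        nsmul_eq_mul, ← Finset.sum_mul, ← Finset.mul_sum]
      have : (∑ j, ((f j).totalDegree : ℝ)) = (S : ℝ) := by
        rw [hS]
        push_cast
        rfl
      rw [this]
    have b1 : 0 ≤ (nQ A : ℝ) * Real.sqrt A.card := by positivity
    have b2 : (0 : ℝ) ≤ nN A := Nat.cast_nonneg _
    have b3 : ((S : ℝ) + 1) ^ 2 ≤ (D0 + 1) ^ 2 :=
      pow_le_pow_left₀ (by positivity) (by linarith) 2
    have b4 : (t0 : ℝ) * (24 * ((S : ℝ) + 1) ^ 2 * nN A) ≤ 24 * t0 * (D0 + 1) ^ 2 * nN A := by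
      have c1 : ((S : ℝ) + 1) ^ 2 * nN A ≤ (D0 + 1) ^ 2 * nN A :=
        mul_le_mul_of_nonneg_right b3 b2
      have c2 : (0 : ℝ) ≤ 24 * t0 := by positivity
      calc (t0 : ℝ) * (24 * ((S : ℝ) + 1) ^ 2 * nN A)
          = 24 * t0 * (((S : ℝ) + 1) ^ 2 * nN A) := by ring
        _ ≤ 24 * t0 * ((D0 + 1) ^ 2 * nN A) := mul_le_mul_of_nonneg_left c1 c2
        _ = _ := by ring
    have b5 : 4 * (S : ℝ) * (nQ A * Real.sqrt A.card) ≤ 4 * D0 * (nQ A * Real.sqrt A.card) :=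
      mul_le_mul_of_nonneg_right (by linarith) b1
    have b6 : 0 ≤ 24 * (t0 : ℝ) * (D0 + 1) ^ 2 * (nQ A * Real.sqrt A.card) := by positivity
    have b7 : 0 ≤ 4 * D0 * (nN A : ℝ) := by positivity
    have b8 : (24 * t0 * (D0 + 1) ^ 2 + 4 * D0 + 1) * (nN A + nQ A * Real.sqrt A.card) =
        24 * t0 * (D0 + 1) ^ 2 * nN A + 24 * t0 * (D0 + 1) ^ 2 * (nQ A * Real.sqrt A.card) +
          4 * D0 * nN A + 4 * D0 * (nQ A * Real.sqrt A.card) + nN A +
          nQ A * Real.sqrt A.card := by ring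
    rw [b8]
    linarith
  · intro σ
    exact ⟨Finset.filter_subset _ _, chi_card hcl σ⟩
  · have e1 := visN f R B A hStr hV h4 h9
    have e2 : (∑ σ, (nN (chi f A σ) : ℝ)) ≤ (3 * (S : ℝ) + 3) * nN A := by
      exact_mod_cast e1
    exact le_trans e2 (mul_le_mul_of_nonneg_right hrp.1 (Nat.cast_nonneg _))
  · have e1 := visQ f R B A hV h5
    have e2 : (∑ σ, (nQ (chi f A σ) : ℝ)) ≤ (6 * (S : ℝ) + 2) ^ 2 * nQ A := by
      exact_mod_cast e1
    exact le_trans e2 (mul_le_mul_of_nonneg_right hrp.2 (Nat.cast_nonneg _))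
  · intro e he e' he' hrr hA hA' hsw
    obtain ⟨heE, heX⟩ := Finset.mem_sdiff.mp he
    obtain ⟨heE', heX'⟩ := Finset.mem_sdiff.mp he'
    have hr : e'.2.2.1 = e.2.2.1 := by rw [hrr]
    have hr' : e'.2.2.2 = e.2.2.2 := by rw [hrr]
    have hed := hE.edge e heE
    have hed' := hE.edge e' heE'
    rw [hr, hr'] at hed'
    obtain ⟨b1, b2, r1, r2, ed⟩ := hed
    obtain ⟨b1', b2', -, -, ed'⟩ := hed'
    have edd := ed
    have edd' := ed'
    obtain ⟨n1, n2, i1, i2, i3, i4, -⟩ := ed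
    obtain ⟨n1', -, i1', i2', i3', i4', -⟩ := ed'
    have t1 : tt e.2.2.1 e.1 ≠ tt e.2.2.1 e.2.1 := fun h => n1 (hStr.h1 _ r1 _ b1 _ b2 i1 i2 h)
    have t2 : tt e.2.2.2 e.1 ≠ tt e.2.2.2 e.2.1 := fun h => n1 (hStr.h1 _ r2 _ b1 _ b2 i3 i4 h)
    have t3 : tt e.2.2.1 e'.1 ≠ tt e.2.2.1 e'.2.1 := fun h =>
      n1' (hStr.h1 _ r1 _ b1' _ b2' i1' i2' h)
    have t4 : tt e.2.2.2 e'.1 ≠ tt e.2.2.2 e'.2.1 := fun h =>
      n1' (hStr.h1 _ r2 _ b1' _ b2' i3' i4' h)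
    have hne12 : e.1 ≠ e'.1 := by
      intro h
      unfold Swapped at hsw
      rw [h, sub_self, zero_mul] at hsw
      exact lt_irrefl _ hsw
    have hne1 : e.1 ≠ e'.2.1 := by
      intro h
      unfold Swapped at hsw
      rw [h] at hsw
      have := (h6 _ _ _ _ edd').2
      nlinarith
    have hne2 : e'.1 ≠ e.2.1 := by
      intro h
      unfold Swapped at hsw
      rw [h] at hsw
      have := (h6 _ _ _ _ edd).2
      nlinarith
    have main : ∀ j, 0 < eval (lift (el e)) (f j) * eval (lift (el e')) (f j) := by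
      intro j
      have k1 : ∀ z ∈ W j e.1 e.2.1, z ∉ Set.uIcc (tt e.2.2.1 e.1) (tt e.2.2.2 e.1) := by
        intro z hz hzI
        apply heX
        refine Finset.mem_biUnion.mpr ⟨j, Finset.mem_univ _, Finset.mem_union_left _ ?_⟩
        exact Finset.mem_filter.mpr ⟨heE, ⟨e.2.2.1, hA⟩, z, hz, hzI⟩
      have k2 : ∀ z ∈ W j e'.1 e'.2.1, z ∉ Set.uIcc (tt e.2.2.1 e'.1) (tt e.2.2.2 e'.1) := by
        intro z hz hzI
        apply heX'
        refine Finset.mem_biUnion.mpr ⟨j, Finset.mem_univ _, Finset.mem_union_left _ ?_⟩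
        refine Finset.mem_filter.mpr ⟨heE', ⟨e'.2.2.1, hA'⟩, z, hz, ?_⟩
        rw [hr, hr']
        exact hzI
      have hp := hZp j e.1 e.2.1 e'.1 e'.2.1 e.2.2.1 e.2.2.2 edd edd' t1 t2 t3 t4
        (fun z hz => k1 z (Finset.mem_union_left _ hz))
        (fun z hz => k2 z (Finset.mem_union_left _ hz)) hsw
      rcases hp with hp | ⟨c1, c2⟩
      · have l1 : lift (el e) = pt4 e.2.2.1 (tt e.2.2.1 e.1) := rfl
        have l2 : lift (el e') = pt4 e.2.2.1 (tt e.2.2.1 e'.1) := by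
          have : lift (el e') = pt4 e'.2.2.1 (tt e'.2.2.1 e'.1) := rfl
          rw [this, hr]
        rw [l1, l2]
        exact hp
      · exfalso
        by_cases q1 : Cone (g j) e.1
        · obtain ⟨p1, p2, -, p4, -⟩ := h9 e.2.2.1 e'.1 e'.2.1 n1' i1' i2' t3
          refine k2 (tt e.2.2.1 e'.1) (Finset.mem_union_right _ ?_) Set.left_mem_uIcc
          refine mem_Yf h8 (Finset.mem_filter.mpr ⟨b1, q1⟩) p1 hne12 hne1 p2 ?_
          rw [← p4, q_sub_comm]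
          exact i1.1
        · by_cases q2 : Cone (g j) e'.1
          · obtain ⟨p1, p2, -, p4, -⟩ := h9 e.2.2.1 e.1 e.2.1 n1 i1 i2 t1
            refine k1 (tt e.2.2.1 e.1) (Finset.mem_union_right _ ?_) Set.left_mem_uIcc
            refine mem_Yf h8 (Finset.mem_filter.mpr ⟨b1', q2⟩) p1 (Ne.symm hne12) hne2 p2 ?_
            rw [← p4, q_sub_comm]
            exact i1'.1
          · have m1 : e ∈ E \ X2 j := by
              refine Finset.mem_sdiff.mpr ⟨heE, fun h => heX ?_⟩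
              exact Finset.mem_biUnion.mpr ⟨j, Finset.mem_univ _, Finset.mem_union_right _ h⟩
            have m2 : e' ∈ E \ X2 j := by
              refine Finset.mem_sdiff.mpr ⟨heE', fun h => heX' ?_⟩
              exact Finset.mem_biUnion.mpr ⟨j, Finset.mem_univ _, Finset.mem_union_right _ h⟩
            rcases hX2p j e m1 e' m2 hrr hA hA' q1 c1 q2 c2 with h | h
            · exact hne12 h.1
            · exact hne1 h.1
    refine ⟨fun j => decide (0 < eval (lift (el e)) (f j)), ?_, ?_⟩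
    · refine Finset.mem_filter.mpr ⟨hA, fun j => ⟨fun h => of_decide_eq_true h, fun h => ?_⟩⟩
      have h' := of_decide_eq_false h
      have hm := main j
      have hne : eval (lift (el e)) (f j) ≠ 0 := by
        intro h0
        rw [h0, zero_mul] at hm
        exact lt_irrefl _ hm
      exact lt_of_le_of_ne (not_lt.mp h') hne
    · refine Finset.mem_filter.mpr ⟨hA', fun j => ⟨fun h => ?_, fun h => ?_⟩⟩
      · have h' := of_decide_eq_true h
        exact (pos_iff_pos_of_mul_pos (main j)).mp h'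
      · have h' := of_decide_eq_false h
        have hm := main j
        by_contra hcon
        have h2 : 0 ≤ eval (lift (el e')) (f j) := not_lt.mp hcon
        have h3 : eval (lift (el e)) (f j) ≤ 0 := not_lt.mp h'
        nlinarith [mul_nonneg (neg_nonneg.mpr h3) h2]

end Pool.Agent.Work.MP_81c58b_co.TG
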