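import Pool.Agent.Work.MP_81c58b_co.TG.Stmts

/-!
# MP_81c58b_co, block TG, item UCORE: the core estimate
-/

set_option autoImplicit false

namespace Pool.Agent.Work.MP_81c58b_co.TG

open MvPolynomial
open Pool.Agent.Work.MP_916cc8_co (sameCl Part War CW Bez Clr)
open scoped Classical

namespace I_UCORE

/-- all edges -/
noncomputable def ES (R B : Finset E3) (N : Finset (E3 × E3)) {t : ℕ}
    (f : Fin t → MvPolynomial (Fin 3) ℝ) : Finset Ed :=
  (B ×ˢ B ×ˢ R ×ˢ R).filter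
    (fun e => (e.1, e.2.1) ∈ N ∧ EdgeP R f e.1 e.2.1 e.2.2.1 e.2.2.2)

lemma mem_ES {R B : Finset E3} {N : Finset (E3 × E3)} {t : ℕ}
    {f : Fin t → MvPolynomial (Fin 3) ℝ} {e : Ed} :
    e ∈ ES R B N f ↔ (e.1 ∈ B ∧ e.2.1 ∈ B ∧ e.2.2.1 ∈ R ∧ e.2.2.2 ∈ R) ∧
      (e.1, e.2.1) ∈ N ∧ EdgeP R f e.1 e.2.1 e.2.2.1 e.2.2.2 := by
  unfold ES
  simp only [Finset.mem_filter, Finset.mem_product]

lemma card_N {B : Finset E3} {N : Finset (E3 × E3)} {M Q : ℝ} (hN : Near B N M) (hM : 0 ≤ M)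
    (hBQ : (B.card : ℝ) ≤ Q) : (N.card : ℝ) ≤ Q * M := by
  have h := Finset.card_eq_sum_card_fiberwise (f := fun z : E3 × E3 => z.1) (s := N) (t := B)
    (fun z hz => (hN.mem z hz).1)
  rw [h]
  push_cast
  calc (∑ b ∈ B, ((N.filter (fun z => z.1 = b)).card : ℝ)) ≤ ∑ b ∈ B, M :=
        Finset.sum_le_sum (fun b hb => hN.card b hb)
    _ = B.card * M := by rw [Finset.sum_const, nsmul_eq_mul]
    _ ≤ Q * M := mul_le_mul_of_nonneg_right hBQ hM

lemma card_pairs {R B : Finset E3} {N : Finset (E3 × E3)} {t : ℕ}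
    {f : Fin t → MvPolynomial (Fin 3) ℝ} :
    ((ES R B N f).image (fun e => (e.1, e.2.1))).card ≤ N.card := by
  apply Finset.card_le_card
  intro z hz
  rw [Finset.mem_image] at hz
  obtain ⟨e, he, rfl⟩ := hz
  exact (mem_ES.1 he).2.1

lemma card_el {R B : Finset E3} {N : Finset (E3 × E3)} {t : ℕ}
    {f : Fin t → MvPolynomial (Fin 3) ℝ} :
    ((ES R B N f).image el).card ≤ JJ R N := by
  have hsub : (ES R B N f).image el ⊆
      N.biUnion (fun z => (cn R z.1 z.2).image (fun r => ((z.1, z.2, r) : Tr))) := by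
    intro a ha
    rw [Finset.mem_image] at ha
    obtain ⟨e, he, rfl⟩ := ha
    have h := mem_ES.1 he
    rw [Finset.mem_biUnion]
    refine ⟨(e.1, e.2.1), h.2.1, ?_⟩
    rw [Finset.mem_image]
    refine ⟨e.2.2.1, ?_, rfl⟩
    unfold cn
    rw [Finset.mem_filter]
    exact ⟨h.1.2.2.1, h.2.2.1.2.2.1, h.2.2.1.2.2.2.1⟩
  calc ((ES R B N f).image el).card ≤ _ := Finset.card_le_card hsub
    _ ≤ ∑ z ∈ N, ((cn R z.1 z.2).image (fun r => ((z.1, z.2, r) : Tr))).card :=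
        Finset.card_biUnion_le
    _ ≤ ∑ z ∈ N, (cn R z.1 z.2).card := Finset.sum_le_sum (fun z _ => Finset.card_image_le)
    _ = JJ R N := rfl

lemma sum_le_ES {R B : Finset E3} {N : Finset (E3 × E3)} {M : ℝ} (hN : Near B N M) {t : ℕ}
    {f : Fin t → MvPolynomial (Fin 3) ℝ} :
    ∑ z ∈ N, ((R ×ˢ R).filter (fun w => EdgeP R f z.1 z.2 w.1 w.2)).card ≤
      (ES R B N f).card := by
  have h := Finset.card_eq_sum_card_fiberwise (f := fun e : Ed => (e.1, e.2.1))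
    (s := ES R B N f) (t := N) (fun e he => (mem_ES.1 he).2.1)
  rw [h]
  apply Finset.sum_le_sum
  intro z hz
  apply Finset.card_le_card_of_injOn (fun w : E3 × E3 => ((z.1, z.2, w.1, w.2) : Ed))
  · intro w hw
    have hw' := (Finset.mem_filter.1 hw)
    have hwR := Finset.mem_product.1 hw'.1
    have hzB := hN.mem z hz
    apply Finset.mem_coe.2
    rw [Finset.mem_filter]
    refine ⟨mem_ES.2 ⟨⟨hzB.1, hzB.2.1, hwR.1, hwR.2⟩, hz, hw'.2⟩, rfl⟩
  · intro w _ w' _ h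
    simp only [Prod.mk.injEq, true_and] at h
    exact Prod.ext h.1 h.2

lemma edgeSet {R B : Finset E3} {N : Finset (E3 × E3)} {t : ℕ}
    {f : Fin t → MvPolynomial (Fin 3) ℝ} (hS : Str R B) (h3 : ETHIN) :
    EdgeSet R B (ES R B N f) := by
  constructor
  · intro e he
    have h := mem_ES.1 he
    exact ⟨h.1.1, h.1.2.1, h.1.2.2.1, h.1.2.2.2, h.2.2.1⟩
  · intro b b' s
    by_cases hb : b ∈ B ∧ b' ∈ B
    · refine le_trans ?_ (h3 R B t f hS b hb.1 b' hb.2 s)
      apply Finset.card_le_card_of_injOn (fun e : Ed => e.2.2)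
      · intro e he
        have he' := Finset.mem_filter.1 (Finset.mem_coe.1 he)
        obtain ⟨heE, hb1, hb2, hs⟩ := he'
        have h := mem_ES.1 heE
        apply Finset.mem_coe.2
        rw [Finset.mem_filter, Finset.mem_product]
        refine ⟨⟨h.1.2.2.1, h.1.2.2.2⟩, ?_, ?_⟩
        · have := h.2.2
          rw [hb1, hb2] at this
          exact this
        · exact hs
      · intro e he e' he' h
        have h1 := Finset.mem_filter.1 (Finset.mem_coe.1 he)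
        have h2 := Finset.mem_filter.1 (Finset.mem_coe.1 he')
        have hh : e.2.2 = e'.2.2 := h
        apply Prod.ext
        · rw [h1.2.1, h2.2.1]
        · apply Prod.ext
          · rw [h1.2.2.1, h2.2.2.1]
          · exact hh
    · have : (ES R B N f).filter (fun e => e.1 = b ∧ e.2.1 = b' ∧
          s ∈ Set.uIcc (tt e.2.2.1 b) (tt e.2.2.2 b)) = ∅ := by
        apply Finset.eq_empty_of_forall_notMem
        intro e he
        have he' := Finset.mem_filter.1 he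
        have h := mem_ES.1 he'.1
        apply hb
        rw [← he'.2.1, ← he'.2.2.1]
        exact ⟨h.1.1, h.1.2.1⟩
      rw [this]
      simp

lemma esym {R B : Finset E3} {N : Finset (E3 × E3)} {M : ℝ} (hN : Near B N M) {t : ℕ}
    {f : Fin t → MvPolynomial (Fin 3) ℝ} (hS : Str R B) (h2 : ESYM) {e : Ed}
    (he : e ∈ ES R B N f) :
    EdgeP R f e.2.1 e.1 e.2.2.1 e.2.2.2 ∧ EdgeP R f e.1 e.2.1 e.2.2.2 e.2.2.1 ∧
      sameCl f e.2.2.1 e.2.2.2 := by
  have h := mem_ES.1 he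
  obtain ⟨⟨hb, hb', hr, hr'⟩, hz, hE⟩ := h
  have hne : e.1 ≠ e.2.1 := (hN.mem _ hz).2.2
  have hed := hE.1
  apply h2
  · intro hh
    exact hne (hS.h1 _ hr _ hb _ hb' hed.2.2.1 hed.2.2.2.1 hh)
  · intro hh
    exact hne (hS.h1 _ hr' _ hb _ hb' hed.2.2.2.2.1 hed.2.2.2.2.2.1 hh)
  · intro p hp h1 h1' hh
    exact hne (hS.h1 _ hp _ hb _ hb' h1 h1' hh)
  · exact hE

lemma flip {R B : Finset E3} {N : Finset (E3 × E3)} {M : ℝ} (hN : Near B N M) {t : ℕ}
    {f : Fin t → MvPolynomial (Fin 3) ℝ} (hS : Str R B) (h2 : ESYM) :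
    ∀ e ∈ ES R B N f, ((e.2.1, e.1, e.2.2.1, e.2.2.2) : Ed) ∈ ES R B N f := by
  intro e he
  have h := mem_ES.1 he
  obtain ⟨⟨hb, hb', hr, hr'⟩, hz, hE⟩ := h
  exact mem_ES.2 ⟨⟨hb', hb, hr, hr'⟩, hN.sym _ hz, (esym hN hS h2 he).1⟩

/-- number of pairs of reds in the same class -/
lemma card_same {R : Finset E3} {t : ℕ} {f : Fin t → MvPolynomial (Fin 3) ℝ}
    (hfc : ∀ x : Fin 3 → ℝ, 2 ^ t * (R.filter (fun a => sameCl f x (id a))).card ≤ R.card) :
    2 ^ t * ((R ×ˢ R).filter (fun w => sameCl f w.1 w.2)).card ≤ R.card * R.card := by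
  have h := Finset.card_eq_sum_card_fiberwise (f := fun w : E3 × E3 => w.1)
    (s := (R ×ˢ R).filter (fun w => sameCl f w.1 w.2)) (t := R)
    (fun w hw => (Finset.mem_product.1 (Finset.mem_filter.1 (Finset.mem_coe.1 hw)).1).1)
  rw [h, Finset.mul_sum]
  calc ∑ r ∈ R, 2 ^ t * (((R ×ˢ R).filter (fun w => sameCl f w.1 w.2)).filter
        (fun w => w.1 = r)).card ≤ ∑ r ∈ R, R.card := by
        apply Finset.sum_le_sum
        intro r hr
        refine le_trans (Nat.mul_le_mul_left _ ?_) (hfc r)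
        apply Finset.card_le_card_of_injOn (fun w : E3 × E3 => w.2)
        · intro w hw
          have hw' := Finset.mem_filter.1 (Finset.mem_coe.1 hw)
          have hw2 := Finset.mem_filter.1 hw'.1
          apply Finset.mem_coe.2
          rw [Finset.mem_filter]
          refine ⟨(Finset.mem_product.1 hw2.1).2, ?_⟩
          have := hw2.2
          rw [hw'.2] at this
          exact this
        · intro w hw w' hw' h
          have h1 := Finset.mem_filter.1 (Finset.mem_coe.1 hw)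
          have h2 := Finset.mem_filter.1 (Finset.mem_coe.1 hw')
          exact Prod.ext (by rw [h1.2, h2.2]) h
    _ = R.card * R.card := by rw [Finset.sum_const, smul_eq_mul]

/-- surviving edges: at most two for every pair of reds -/
lemma card_surv {R B : Finset E3} {N : Finset (E3 × E3)} {M : ℝ} (hN : Near B N M) {t : ℕ}
    {f : Fin t → MvPolynomial (Fin 3) ℝ} (hS : Str R B) (h2 : ESYM) (X : Finset Ed)
    (hX : ∀ e ∈ ES R B N f \ X, ∀ e' ∈ ES R B N f \ X, e.2.2 = e'.2.2 →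
      (e.1 = e'.1 ∧ e.2.1 = e'.2.1) ∨ (e.1 = e'.2.1 ∧ e.2.1 = e'.1)) :
    (ES R B N f \ X).card ≤ 2 * ((R ×ˢ R).filter (fun w => sameCl f w.1 w.2)).card := by
  have h1 : (ES R B N f \ X).card ≤ 2 * ((ES R B N f \ X).image (fun e => e.2.2)).card := by
    apply Finset.card_le_mul_card_image
    intro w hw
    rw [Finset.mem_image] at hw
    obtain ⟨e0, he0, hw0⟩ := hw
    have hsub : (ES R B N f \ X).filter (fun e => e.2.2 = w) ⊆
        {e0, ((e0.2.1, e0.1, e0.2.2) : Ed)} := by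
      intro e he
      have he' := Finset.mem_filter.1 he
      rw [Finset.mem_insert, Finset.mem_singleton]
      have hh : e.2.2 = e0.2.2 := by rw [he'.2, hw0]
      rcases hX e he'.1 e0 he0 hh with h | h
      · left
        exact Prod.ext h.1 (Prod.ext h.2 hh)
      · right
        exact Prod.ext h.1 (Prod.ext h.2 hh)
    refine le_trans (Finset.card_le_card hsub) ?_
    exact Finset.card_le_two
  refine le_trans h1 (Nat.mul_le_mul_left _ (Finset.card_le_card ?_))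
  intro w hw
  rw [Finset.mem_image] at hw
  obtain ⟨e, he, rfl⟩ := hw
  have heE := (Finset.mem_sdiff.1 he).1
  have h := mem_ES.1 heE
  rw [Finset.mem_filter, Finset.mem_product]
  exact ⟨⟨h.1.2.2.1, h.1.2.2.2⟩, (esym hN hS h2 heE).2.2⟩

/-- lower bound for the number of edges -/
lemma card_lower {R B : Finset E3} {N : Finset (E3 × E3)} {M : ℝ} (hN : Near B N M) {t : ℕ}
    {f : Fin t → MvPolynomial (Fin 3) ℝ} (hS : Str R B) (h4 : ECOUNT) :
    2 * JJ R N ≤ (ES R B N f).card +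
      2 * (∑ z ∈ N.filter (fun z => ∃ j, Conic (f j) z.1 z.2), (cn R z.1 z.2).card) +
      N.card * (8 * (∑ j, (f j).totalDegree) + 14) := by
  have hsplit : JJ R N = (∑ z ∈ N.filter (fun z => ∃ j, Conic (f j) z.1 z.2),
      (cn R z.1 z.2).card) + ∑ z ∈ N.filter (fun z => ¬ ∃ j, Conic (f j) z.1 z.2),
      (cn R z.1 z.2).card := by
    unfold JJ
    exact (Finset.sum_filter_add_sum_filter_not N _ _).symm
  have hgood : 2 * (∑ z ∈ N.filter (fun z => ¬ ∃ j, Conic (f j) z.1 z.2),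
      (cn R z.1 z.2).card) ≤ (ES R B N f).card +
      N.card * (8 * (∑ j, (f j).totalDegree) + 14) := by
    rw [Finset.mul_sum]
    calc ∑ z ∈ N.filter (fun z => ¬ ∃ j, Conic (f j) z.1 z.2), 2 * (cn R z.1 z.2).card
        ≤ ∑ z ∈ N.filter (fun z => ¬ ∃ j, Conic (f j) z.1 z.2),
          (((R ×ˢ R).filter (fun w => EdgeP R f z.1 z.2 w.1 w.2)).card +
            (8 * (∑ j, (f j).totalDegree) + 14)) := by
          apply Finset.sum_le_sum
          intro z hz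
          have hz' := Finset.mem_filter.1 hz
          have hm := hN.mem z hz'.1
          have := h4 R B t f hS z.1 hm.1 z.2 hm.2.1 hm.2.2
            (fun j hj => hz'.2 ⟨j, hj⟩)
          omega
      _ ≤ ∑ z ∈ N, (((R ×ˢ R).filter (fun w => EdgeP R f z.1 z.2 w.1 w.2)).card +
            (8 * (∑ j, (f j).totalDegree) + 14)) :=
          Finset.sum_le_sum_of_subset (Finset.filter_subset _ _)
      _ = (∑ z ∈ N, ((R ×ˢ R).filter (fun w => EdgeP R f z.1 z.2 w.1 w.2)).card) +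
            N.card * (8 * (∑ j, (f j).totalDegree) + 14) := by
          rw [Finset.sum_add_distrib, Finset.sum_const, smul_eq_mul]
      _ ≤ _ := Nat.add_le_add_right (sum_le_ES hN) _
  omega

lemma rpow_third {t : ℕ} {y : ℝ} (hy : 0 ≤ y) (h : (2 : ℝ) ^ t ≤ y ^ 3) :
    (2 : ℝ) ^ ((t : ℝ) / ((3 : ℕ) : ℝ)) ≤ y := by
  have h3 : ((2 : ℝ) ^ ((t : ℝ) / ((3 : ℕ) : ℝ))) ^ 3 = 2 ^ t := by
    rw [← Real.rpow_natCast, ← Real.rpow_mul (by norm_num)]
    rw [div_mul_cancel₀ _ (by norm_num), Real.rpow_natCast]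
  apply le_of_pow_le_pow_left₀ (n := 3) (by norm_num) hy
  rw [h3]
  exact h

end I_UCORE

open I_UCORE in
theorem UCORE_pf (hP : Part 3) (h1 : CUT) (h2 : ESYM) (h3 : ETHIN) (h4 : ECOUNT) (h5 : MASS)
    (h6 : JUP) : UCORE := by
  obtain ⟨Cp', hCp', hpart⟩ := hP
  obtain ⟨K, hK, hcut⟩ := h1
  obtain ⟨Cp, hCp1, hCple⟩ : ∃ Cp : ℝ, 1 ≤ Cp ∧ Cp' ≤ Cp :=
    ⟨max Cp' 1, le_max_right _ _, le_max_left _ _⟩
  have hCp0 : 0 < Cp := by linarith
  obtain ⟨CC, hCC⟩ : ∃ CC : ℝ, CC = 10 ^ 6 * Cp + 8 * (1000 * Cp) ^ 3 + 2 * K := ⟨_, rfl⟩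
  have hc1 : 0 < 10 ^ 6 * Cp := by positivity
  have hc2 : 0 < 8 * (1000 * Cp) ^ 3 := by positivity
  refine ⟨CC, by rw [hCC]; positivity, ?_⟩
  intro R B N Q M J hS hN hM hMQ hBQ hJ h16
  by_cases hsmall : J ≤ CC * Q * M
  · exact Or.inl hsmall
  right
  have hsmall' : CC * Q * M < J := not_le.1 hsmall
  have hQ : 0 < Q := lt_of_lt_of_le hM hMQ
  have hQM : 0 < Q * M := mul_pos hQ hM
  have hJbig : 10 ^ 6 * Cp * (Q * M) < J := by
    have : 10 ^ 6 * Cp * (Q * M) ≤ CC * (Q * M) := by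
      apply mul_le_mul_of_nonneg_right _ hQM.le
      rw [hCC]; linarith
    calc 10 ^ 6 * Cp * (Q * M) ≤ CC * (Q * M) := this
      _ = CC * Q * M := by ring
      _ < J := hsmall'
  have hJpos : 0 < J := lt_trans (by positivity) hJbig
  have hJ1 : 1 ≤ J := by
    rw [hJ] at hJpos ⊢
    exact_mod_cast hJpos
  obtain ⟨R0, hR0⟩ : ∃ R0 : ℝ, R0 = J / (Q * M) := ⟨_, rfl⟩
  have hR0J : R0 * (Q * M) = J := by rw [hR0]; field_simp
  have hR0big : 10 ^ 6 * Cp < R0 := by rw [hR0, lt_div_iff₀ hQM]; exact hJbig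
  have hR0pos : 0 < R0 := by linarith
  obtain ⟨y, hy⟩ : ∃ y : ℝ, y = R0 / (1000 * Cp) := ⟨_, rfl⟩
  have hyR : y * (1000 * Cp) = R0 := by rw [hy]; field_simp
  have hy1 : 1 ≤ y := by
    rw [hy, le_div_iff₀ (by positivity)]
    nlinarith
  have hy0 : 0 < y := by linarith
  obtain ⟨t, ht1, ht2⟩ := exists_nat_pow_near (x := y ^ 3) (y := (2 : ℝ))
    (one_le_pow₀ hy1) one_lt_two
  obtain ⟨f, hf0, hfD, hfc⟩ := hpart E3 R id t
  obtain ⟨D, hDdef⟩ : ∃ D : ℕ, D = ∑ j, (f j).totalDegree := ⟨_, rfl⟩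
  have hD : (D : ℝ) ≤ R0 / 1000 := by
    rw [hDdef]
    calc (((∑ j, (f j).totalDegree : ℕ)) : ℝ) ≤ Cp' * (2 : ℝ) ^ ((t : ℝ) / ((3 : ℕ) : ℝ)) := hfD
      _ ≤ Cp * y := mul_le_mul hCple (rpow_third hy0.le ht1) (by positivity) hCp0.le
      _ = R0 / 1000 := by rw [← hyR]; ring
  have hD0 : (0 : ℝ) ≤ D := Nat.cast_nonneg D
  -- R0 ≤ (16/15) M
  have hjup := h6 R B N M hS hN hM.le
  rw [← hJ] at hjup
  have hBM : (B.card : ℝ) * M ^ 2 ≤ Q * M ^ 2 := mul_le_mul_of_nonneg_right hBQ (by positivity)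
  have hJM : 15 * J ≤ 16 * (Q * M ^ 2) := by linarith
  have hR0M : 15 * R0 ≤ 16 * M := by
    have : 15 * R0 * (Q * M) ≤ 16 * M * (Q * M) := by
      calc 15 * R0 * (Q * M) = 15 * J := by rw [← hR0J]; ring
        _ ≤ 16 * (Q * M ^ 2) := hJM
        _ = 16 * M * (Q * M) := by ring
    exact le_of_mul_le_mul_right this hQM
  -- mass of the contained conics
  have hmass := h5 R B N M t f hS hN hM.le hf0
  rw [← hDdef] at hmass
  obtain ⟨m, hm⟩ : ∃ m : ℕ, m = ∑ z ∈ N.filter (fun z => ∃ j, Conic (f j) z.1 z.2),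
    (cn R z.1 z.2).card := ⟨_, rfl⟩
  rw [← hm] at hmass
  have hBD : (B.card : ℝ) * (D : ℝ) ^ 2 ≤ J / 1000 := by
    have hD2 : (D : ℝ) ^ 2 ≤ (R0 / 1000) ^ 2 := pow_le_pow_left₀ hD0 hD 2
    have hQR : Q * R0 ^ 2 ≤ 16 / 15 * J := by
      have h5' : Q * R0 * (15 * R0) ≤ Q * R0 * (16 * M) :=
        mul_le_mul_of_nonneg_left hR0M (by positivity)
      have h6' : Q * R0 * (16 * M) = 16 * J := by rw [← hR0J]; ring
      nlinarith
    calc (B.card : ℝ) * (D : ℝ) ^ 2 ≤ Q * (R0 / 1000) ^ 2 :=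
          mul_le_mul hBQ hD2 (by positivity) hQ.le
      _ = Q * R0 ^ 2 / 10 ^ 6 := by ring
      _ ≤ J / 1000 := by
          rw [div_le_div_iff₀ (by norm_num) (by norm_num)]
          nlinarith
  have hDM : (D : ℝ) * M ^ 2 ≤ J / 1000 := by
    calc (D : ℝ) * M ^ 2 ≤ R0 / 1000 * M ^ 2 := mul_le_mul_of_nonneg_right hD (by positivity)
      _ = R0 * (M * M) / 1000 := by ring
      _ ≤ R0 * (Q * M) / 1000 := by
          apply div_le_div_of_nonneg_right _ (by norm_num)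
          exact mul_le_mul_of_nonneg_left (mul_le_mul_of_nonneg_right hMQ hM.le) hR0pos.le
      _ = J / 1000 := by rw [hR0J]
  have hm8 : (m : ℝ) ≤ J / 8 := by linarith
  -- number of edges
  have hNc : (N.card : ℝ) ≤ Q * M := card_N hN hM.le hBQ
  have hlow := card_lower (R := R) (f := f) hN hS h4
  rw [← hm, ← hDdef] at hlow
  have hlow' : 2 * J ≤ ((ES R B N f).card : ℝ) + 2 * m + N.card * (8 * D + 14) := by
    rw [hJ]
    exact_mod_cast hlow
  have hND : (N.card : ℝ) * (8 * D + 14) ≤ J / 4 := by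
    have h8 : 8 * (D : ℝ) + 14 ≤ R0 / 4 := by linarith
    calc (N.card : ℝ) * (8 * D + 14) ≤ (Q * M) * (R0 / 4) :=
          mul_le_mul hNc h8 (by positivity) hQM.le
      _ = J / 4 := by rw [← hR0J]; ring
  have hE : J ≤ ((ES R B N f).card : ℝ) := by linarith
  -- the cutting lemma
  have hcardp : (((ES R B N f).image (fun e => (e.1, e.2.1))).card : ℝ) ≤ Q * M :=
    le_trans (by exact_mod_cast card_pairs) hNc
  have hcarde : (((ES R B N f).image el).card : ℝ) ≤ J := by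
    rw [hJ]
    exact_mod_cast card_el
  obtain ⟨X, hXE, hXc, hX⟩ := hcut R B (ES R B N f) (Q * M) J hS (edgeSet hS h3)
    (flip hN hS h2) hcardp hcarde hJ1
  have hbr : K * (Q * M * J ^ ((251 : ℝ) / 1000) + B.card * J ^ ((501 : ℝ) / 1000)) ≤
      K * (Q * M * J ^ ((251 : ℝ) / 1000) + Q * J ^ ((501 : ℝ) / 1000)) := by
    apply mul_le_mul_of_nonneg_left _ hK.le
    have : (B.card : ℝ) * J ^ ((501 : ℝ) / 1000) ≤ Q * J ^ ((501 : ℝ) / 1000) :=
      mul_le_mul_of_nonneg_right hBQ (Real.rpow_nonneg hJpos.le _)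
    linarith
  have hbr0 : 0 ≤ Q * M * J ^ ((251 : ℝ) / 1000) + Q * J ^ ((501 : ℝ) / 1000) := by
    have ha : 0 ≤ J ^ ((251 : ℝ) / 1000) := Real.rpow_nonneg hJpos.le _
    have hb : 0 ≤ J ^ ((501 : ℝ) / 1000) := Real.rpow_nonneg hJpos.le _
    positivity
  by_cases hXbig : J / 2 < (X.card : ℝ)
  · right
    have h2K : J ≤ 2 * K * (Q * M * J ^ ((251 : ℝ) / 1000) + Q * J ^ ((501 : ℝ) / 1000)) := by
      nlinarith
    refine le_trans h2K (mul_le_mul_of_nonneg_right ?_ hbr0)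
    rw [hCC]; linarith
  · left
    have hXs : (X.card : ℝ) ≤ J / 2 := not_lt.1 hXbig
    have hsurv := card_surv hN hS h2 X hX
    have hsd : ((ES R B N f \ X).card : ℝ) = (ES R B N f).card - X.card := by
      rw [Finset.card_sdiff_of_subset hXE, Nat.cast_sub (Finset.card_le_card hXE)]
    have hsame := card_same hfc
    obtain ⟨s, hs⟩ : ∃ s : ℕ, s = ((R ×ˢ R).filter (fun w => sameCl f w.1 w.2)).card := ⟨_, rfl⟩
    rw [← hs] at hsurv hsame
    have hsurv' : ((ES R B N f \ X).card : ℝ) ≤ 2 * s := by exact_mod_cast hsurv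
    have hsame' : (2 : ℝ) ^ t * s ≤ R.card * R.card := by exact_mod_cast hsame
    have hJs : J ≤ 4 * s := by linarith
    have hs0 : (0 : ℝ) ≤ s := Nat.cast_nonneg s
    have hy3 : y ^ 3 ≤ 2 * 2 ^ t := by
      have := ht2.le
      rw [pow_succ (2 : ℝ) t] at this
      linarith
    have hkey : J * y ^ 3 ≤ 8 * (R.card : ℝ) ^ 2 := by
      calc J * y ^ 3 ≤ (4 * s) * (2 * 2 ^ t) :=
            mul_le_mul hJs hy3 (by positivity) (by positivity)
        _ = 8 * (2 ^ t * s) := by ring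
        _ ≤ 8 * (R.card * R.card) := by linarith
        _ = 8 * (R.card : ℝ) ^ 2 := by ring
    have hJ4 : J ^ 4 = J * y ^ 3 * ((1000 * Cp) ^ 3 * (Q * M) ^ 3) := by
      have : J = y * (1000 * Cp) * (Q * M) := by rw [hyR, hR0J]
      calc J ^ 4 = J * J ^ 3 := by ring
        _ = J * (y * (1000 * Cp) * (Q * M)) ^ 3 := by rw [← this]
        _ = J * y ^ 3 * ((1000 * Cp) ^ 3 * (Q * M) ^ 3) := by ring
    rw [hJ4]
    calc J * y ^ 3 * ((1000 * Cp) ^ 3 * (Q * M) ^ 3)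
        ≤ 8 * (R.card : ℝ) ^ 2 * ((1000 * Cp) ^ 3 * (Q * M) ^ 3) :=
          mul_le_mul_of_nonneg_right hkey (by positivity)
      _ = 8 * (1000 * Cp) ^ 3 * ((R.card : ℝ) ^ 2 * (Q * M) ^ 3) := by ring
      _ ≤ CC * ((R.card : ℝ) ^ 2 * (Q * M) ^ 3) := by
          apply mul_le_mul_of_nonneg_right _ (by positivity)
          rw [hCC]; linarith
      _ = CC * (R.card : ℝ) ^ 2 * (Q * M) ^ 3 := by ring

end Pool.Agent.Work.MP_81c58b_co.TG
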