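import Pool.Agent.Work.MP_81c58b_co.TG.Stmts

/-!
MP_81c58b_co, block TG, item VISP: planar sign classes visited by the curve cone of `r` on `V = 0`.
-/

set_option autoImplicit false

namespace Pool.Agent.Work.MP_81c58b_co.TG
namespace I_VISP

open MvPolynomial
open Pool.Agent.Work.MP_916cc8_co (sameCl Part War CW Bez Clr)

/-- the projection as a tuple of polynomials -/
noncomputable def lft (e0 e1 : ℝ) : Fin 2 → MvPolynomial (Fin 3) ℝ :=
  ![X 0 - C e0 * X 2, X 1 - C e1 * X 2]

lemma deg_lft (e0 e1 : ℝ) (i : Fin 2) : (lft e0 e1 i).totalDegree ≤ 1 := by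
  have h : ∀ (a b : Fin 3) (e : ℝ),
      (X a - C e * X b : MvPolynomial (Fin 3) ℝ).totalDegree ≤ 1 := by
    intro a b e
    refine (totalDegree_sub _ _).trans (max_le (totalDegree_X a).le ?_)
    refine (totalDegree_mul _ _).trans ?_
    rw [totalDegree_C, totalDegree_X]
  fin_cases i
  · exact h 0 2 e0
  · exact h 1 2 e1

lemma deg_comp (e0 e1 : ℝ) (p : MvPolynomial (Fin 2) ℝ) :
    (aeval (lft e0 e1) p : MvPolynomial (Fin 3) ℝ).totalDegree ≤ p.totalDegree := by
  rw [aeval_def, eval₂_eq]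
  refine (totalDegree_finsetSum _ _).trans (Finset.sup_le fun m hm => ?_)
  refine (totalDegree_mul _ _).trans ?_
  rw [algebraMap_eq, totalDegree_C, zero_add]
  refine (totalDegree_finsetProd _ _).trans ?_
  refine le_trans (Finset.sum_le_sum fun i _ => ?_) (le_totalDegree hm)
  refine (totalDegree_pow _ _).trans ?_
  calc m i * (lft e0 e1 i).totalDegree ≤ m i * 1 := Nat.mul_le_mul_left _ (deg_lft e0 e1 i)
    _ = m i := mul_one _

lemma eval_comp (e0 e1 : ℝ) (p : MvPolynomial (Fin 2) ℝ) (x : E3) :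
    eval x (aeval (lft e0 e1) p) = eval (prE e0 e1 x) p := by
  have h : (fun i => eval x (lft e0 e1 i)) = prE e0 e1 x := by
    funext i
    fin_cases i <;> simp [lft, prE]
  rw [← h, ← coe_aeval_eq_eval, ← coe_aeval_eq_eval]
  change aeval x (aeval (lft e0 e1) p) = aeval (fun i => aeval x (lft e0 e1 i)) p
  rw [← comp_aeval_apply]

lemma point_eq {r b : E3} (h : Inc r b) : r + (b - r) 1 • nu (tt r b) = b := by
  obtain ⟨hq, h1⟩ := h
  have h2 : (b - r) 2 = - ((b - r) 0 ^ 2) / (b - r) 1 := by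
    rw [eq_div_iff h1]
    unfold q at hq
    linarith
  have h3 : (b - r) 1 • nu (tt r b) = b - r := by
    funext i
    fin_cases i
    · show (b - r) 1 * ((b - r) 0 / (b - r) 1) = (b - r) 0
      field_simp
    · show (b - r) 1 * 1 = (b - r) 1
      ring
    · show (b - r) 1 * (- ((b - r) 0 / (b - r) 1) ^ 2) = (b - r) 2
      rw [h2]
      field_simp
  rw [h3]
  abel

theorem main (h : SP3) (hC : CW) : VISP := by
  classical
  intro V e0 e1 t g r Z hV hZ hZ2
  obtain ⟨G, hG, hGe⟩ := h V r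
  have hG0 : G ≠ 0 := by
    intro h0
    apply hV
    intro s u
    rw [← hGe s u, h0, map_zero]
  choose F hF hFe using fun j => h (aeval (lft e0 e1) (g j)) r
  set φ : E3 → (Fin 2 → ℝ) := fun b => ![(b - r) 1, tt r b] with hφ
  have hinj : Set.InjOn φ Z := by
    intro b hb b' hb' heq
    have h1 : (b - r) 1 = (b' - r) 1 := congrFun heq 0
    have h2 : tt r b = tt r b' := congrFun heq 1
    rw [← point_eq (hZ b hb).1, ← point_eq (hZ b' hb').1, h1, h2]
  have hGz : ∀ b ∈ Z, eval (φ b) G = eval b V := by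
    intro b hb
    rw [hφ, hGe, point_eq (hZ b hb).1]
  have hFz : ∀ b ∈ Z, ∀ j, eval (φ b) (F j) = eval (prE e0 e1 b) (g j) := by
    intro b hb j
    rw [hφ, hFe, point_eq (hZ b hb).1, eval_comp]
  have hcw := hC G t F (Z.image φ) hG0 (by
    intro z hz
    obtain ⟨b, hb, rfl⟩ := Finset.mem_image.1 hz
    refine ⟨by rw [hGz b hb]; exact (hZ b hb).2.1, fun j => ?_⟩
    rw [hFz b hb]
    exact (hZ b hb).2.2 j) (by
    intro z hz w hw hs
    obtain ⟨b, hb, rfl⟩ := Finset.mem_image.1 hz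
    obtain ⟨b', hb', rfl⟩ := Finset.mem_image.1 hw
    rw [hZ2 b hb b' hb' (fun j => by
      have := hs j
      rwa [hFz b hb, hFz b' hb'] at this)])
  rw [Finset.card_image_of_injOn hinj] at hcw
  have hsum : ∑ j, (F j).totalDegree ≤ 3 * ∑ j, (g j).totalDegree := by
    rw [Finset.mul_sum]
    exact Finset.sum_le_sum fun j _ =>
      (hF j).trans (Nat.mul_le_mul_left _ (deg_comp e0 e1 (g j)))
  refine hcw.trans ?_
  refine Nat.mul_le_mul (Nat.mul_le_mul_left _ hG) ?_
  omega

end I_VISP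

open Pool.Agent.Work.MP_916cc8_co (CW) in
theorem VISP_pf (h : SP3) (hC : CW) : VISP := I_VISP.main h hC

end Pool.Agent.Work.MP_81c58b_co.TG
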