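import Pool.Agent.Work.MP_81c58b_co.TG.Stmts

/-! The uniform bound for all sizes, from `RECU` and `UTH`. -/

set_option autoImplicit false

namespace Pool.Agent.Work.MP_81c58b_co.TG

def MAIN5 : Prop := ∃ C : ℝ, 0 < C ∧ ∀ R B : Finset E3, Str R B → B.card ≤ R.card →
  (inc R B : ℝ) ≤ C * ((R.card : ℝ) ^ ((1501 : ℝ) / 2000) * (B.card : ℝ) ^ ((1497 : ℝ) / 2000) +
    R.card)

namespace Main5

open Real

lemma rpow_exp {a y : ℝ} (ha : 0 < a) : a ^ y = exp (y * log a) := by
  rw [Real.rpow_def_of_pos ha, mul_comm]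

/-- arithmetic of case A -/
lemma caseA {P Q : ℝ} (hP : 1 ≤ P) (hQ : 1 ≤ Q) :
    P ^ ((121 : ℝ) / 160) * Q ^ ((117 : ℝ) / 160) ≤
      P ^ ((1501 : ℝ) / 2000) * Q ^ ((1497 : ℝ) / 2000) + P := by
  have hP0 : 0 < P := by linarith
  have hQ0 : 0 < Q := by linarith
  have hp : 0 ≤ log P := log_nonneg hP
  have hq : 0 ≤ log Q := log_nonneg hQ
  rcases le_total (log P) (3 * log Q) with h | h
  · have : P ^ ((121 : ℝ) / 160) * Q ^ ((117 : ℝ) / 160) ≤
        P ^ ((1501 : ℝ) / 2000) * Q ^ ((1497 : ℝ) / 2000) := by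
      rw [rpow_exp hP0, rpow_exp hP0, rpow_exp hQ0, rpow_exp hQ0, ← exp_add, ← exp_add]
      apply exp_le_exp.mpr
      linarith
    linarith
  · have : P ^ ((121 : ℝ) / 160) * Q ^ ((117 : ℝ) / 160) ≤ P := by
      rw [rpow_exp hP0, rpow_exp hQ0, ← exp_add]
      calc exp _ ≤ exp (log P) := exp_le_exp.mpr (by linarith)
        _ = P := exp_log hP0
    have h2 : 0 ≤ P ^ ((1501 : ℝ) / 2000) * Q ^ ((1497 : ℝ) / 2000) := by positivity
    linarith

/-- arithmetic of case B: `u = log X`, `v = log 2^(t j)`, `s = log 2^t` -/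
lemma caseB {P Q p x u v s : ℝ} (hp : P = exp p) (hq : Q = exp x) (hx : 0 ≤ x) (hxp : x ≤ p)
    (hpx : p ≤ 9 / 4 * x) (hu : u = (12 / 23) * (9 / 4 * x - p)) (hvu : v ≤ u) (huv : u ≤ v + s)
    (hs : 0 ≤ s) (hv : 0 ≤ v) :
    exp (v / 10000) * (exp ((117 / 160) * (x - v)) * exp (v * 359 / 480) * exp (121 / 160 * p) +
      exp v * exp ((1557 / 640) * (x - v)) +
      exp ((3 / 5) * (x - v)) * exp (v * 11 / 15) * exp (4 / 5 * p) +
      exp (v * 2 / 3) * exp p) ≤
    4 * exp (3 * s) * (exp (1501 / 2000 * p) * exp (1497 / 2000 * x)) := by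
  have e1 : exp (v / 10000) * (exp ((117 / 160) * (x - v)) * exp (v * 359 / 480) *
      exp (121 / 160 * p)) ≤ exp (3 * s) * (exp (1501 / 2000 * p) * exp (1497 / 2000 * x)) := by
    rw [← exp_add, ← exp_add, ← exp_add, ← exp_add, ← exp_add]
    apply exp_le_exp.mpr
    nlinarith
  have e2 : exp (v / 10000) * (exp v * exp ((1557 / 640) * (x - v))) ≤
      exp (3 * s) * (exp (1501 / 2000 * p) * exp (1497 / 2000 * x)) := by
    rw [← exp_add, ← exp_add, ← exp_add, ← exp_add]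
    apply exp_le_exp.mpr
    nlinarith
  have e3 : exp (v / 10000) * (exp ((3 / 5) * (x - v)) * exp (v * 11 / 15) * exp (4 / 5 * p)) ≤
      exp (3 * s) * (exp (1501 / 2000 * p) * exp (1497 / 2000 * x)) := by
    rw [← exp_add, ← exp_add, ← exp_add, ← exp_add, ← exp_add]
    apply exp_le_exp.mpr
    nlinarith
  have e4 : exp (v / 10000) * (exp (v * 2 / 3) * exp p) ≤
      exp (3 * s) * (exp (1501 / 2000 * p) * exp (1497 / 2000 * x)) := by
    rw [← exp_add, ← exp_add, ← exp_add, ← exp_add]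
    apply exp_le_exp.mpr
    nlinarith
  nlinarith [e1, e2, e3, e4]

end Main5

theorem MAIN5_pf (h1 : RECU) (h2 : UTH) : MAIN5 := by
  obtain ⟨C, hC1, hC⟩ := h1
  obtain ⟨K, hK0, hK⟩ := h2
  -- choose t with 2 C ≤ 2^(t/10000)
  obtain ⟨t, ht1, h2C⟩ : ∃ t : ℕ, (1 : ℝ) ≤ t ∧ 2 * C ≤ (2 : ℝ) ^ ((t : ℝ) / 10000) := by
    obtain ⟨t0, ht0⟩ := exists_nat_gt (Real.logb 2 (2 * C))
    refine ⟨10000 * t0 + 1, ?_, ?_⟩
    · push_cast
      have : (0 : ℝ) ≤ t0 := by positivity
      linarith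
    · have h0 : 0 < 2 * C := by linarith
      have h3 : (2 : ℝ) ^ (Real.logb 2 (2 * C)) = 2 * C :=
        Real.rpow_logb (by norm_num) (by norm_num) h0
      rw [← h3]
      apply Real.rpow_le_rpow_of_exponent_le (by norm_num)
      push_cast
      linarith
  refine ⟨2 * K + C * 2 ^ t * (4 * (2 ^ t) ^ 3), by positivity, ?_⟩
  intro R B hS hcard
  set P : ℝ := (R.card : ℝ) with hPdef
  set Q : ℝ := (B.card : ℝ) with hQdef
  rcases Nat.eq_zero_or_pos B.card with hB | hB
  · have hB' : B = ∅ := Finset.card_eq_zero.mp hB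
    have : inc R B = 0 := by
      unfold inc
      rw [hB']
      simp
    rw [this]
    have : (0 : ℝ) ≤ P := by positivity
    have : (0 : ℝ) ≤ Q := by positivity
    push_cast
    positivity
  have hQ1 : 1 ≤ Q := by rw [hQdef]; exact_mod_cast hB
  have hP1 : 1 ≤ P := by
    rw [hPdef]; exact_mod_cast le_trans hB hcard
  have hQP : Q ≤ P := by rw [hPdef, hQdef]; exact_mod_cast hcard
  have hP0 : 0 < P := by linarith
  have hQ0 : 0 < Q := by linarith
  rcases le_or_gt (Q ^ ((9 : ℝ) / 4)) P with hA | hBc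
  · -- case A
    have h := hK R B hS hA
    have h3 := Main5.caseA hP1 hQ1
    have h4 : 0 ≤ C * 2 ^ t * (4 * (2 ^ t) ^ 3) *
        (P ^ ((1501 : ℝ) / 2000) * Q ^ ((1497 : ℝ) / 2000) + P) := by positivity
    have h5 : 0 ≤ P ^ ((1501 : ℝ) / 2000) * Q ^ ((1497 : ℝ) / 2000) := by positivity
    have h6 : K * (P + P ^ ((121 : ℝ) / 160) * Q ^ ((117 : ℝ) / 160)) ≤
        2 * K * (P ^ ((1501 : ℝ) / 2000) * Q ^ ((1497 : ℝ) / 2000) + P) := by
      have := mul_le_mul_of_nonneg_left h3 hK0.le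
      nlinarith
    calc (inc R B : ℝ) ≤ _ := h
      _ ≤ _ := h6
      _ ≤ _ := by linarith
  · -- case B
    set x : ℝ := Real.log Q with hx
    set p : ℝ := Real.log P with hp
    have hQe : Q = Real.exp x := (Real.exp_log hQ0).symm
    have hPe : P = Real.exp p := (Real.exp_log hP0).symm
    have hx0 : 0 ≤ x := Real.log_nonneg hQ1
    have hxp : x ≤ p := Real.log_le_log hQ0 hQP
    have hpx : p ≤ 9 / 4 * x := by
      have := Real.log_le_log hP0 hBc.le
      rw [Real.log_rpow hQ0] at this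
      exact this
    set u : ℝ := (12 / 23) * (9 / 4 * x - p) with hu
    have hu0 : 0 ≤ u := by rw [hu]; nlinarith
    set s : ℝ := (t : ℝ) * Real.log 2 with hs
    have hl2 : 0 < Real.log 2 := Real.log_pos (by norm_num)
    have hs0 : 0 < s := by rw [hs]; positivity
    set j : ℕ := ⌊u / s⌋₊ with hj
    have hj1 : (j : ℝ) ≤ u / s := Nat.floor_le (by positivity)
    have hj2 : u / s < j + 1 := Nat.lt_floor_add_one _
    set v : ℝ := (j : ℝ) * s with hv
    have hvu : v ≤ u := by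
      rw [hv]; rw [le_div_iff₀ hs0] at hj1; exact hj1
    have huv : u ≤ v + s := by
      rw [hv]; rw [div_lt_iff₀ hs0] at hj2; nlinarith
    have hv0 : 0 ≤ v := by rw [hv]; positivity
    have h2tj : ∀ a : ℝ, (2 : ℝ) ^ ((t * j : ℝ) * a) = Real.exp (v * a) := by
      intro a
      rw [Main5.rpow_exp (by norm_num), hv, hs]
      congr 1
      ring
    have h2tjn : (2 : ℝ) ^ (t * j) = Real.exp v := by
      have := h2tj 1
      rw [mul_one, mul_one] at this
      rw [← this, ← Nat.cast_mul, Real.rpow_natCast]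
    have hvx : v ≤ x := by
      rw [hu] at hvu
      nlinarith
    -- Q0
    set Q0 : ℝ := Real.exp (x - v) with hQ0def
    have hQ01 : 1 ≤ Q0 := by
      rw [hQ0def]; exact Real.one_le_exp (by linarith)
    have hQ0pos : 0 < Q0 := by linarith
    have hBQ : (B.card : ℝ) ≤ Q0 * 2 ^ (t * j) := by
      rw [h2tjn, hQ0def, ← Real.exp_add]
      have : x - v + v = x := by ring
      rw [this, ← hQe]
    have hmain := hC t j Q0 R B hS hQ01 hBQ
    have hlogQ0 : Real.log Q0 = x - v := by rw [hQ0def, Real.log_exp]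
    have t1 : Q0 ^ ((117 : ℝ) / 160) * (2 : ℝ) ^ ((t * j : ℝ) * 359 / 480) *
        (R.card : ℝ) ^ ((121 : ℝ) / 160) =
        Real.exp ((117 / 160) * (x - v)) * Real.exp (v * 359 / 480) * Real.exp (121 / 160 * p) := by
      have e2 := h2tj (359 / 480)
      have e3 : (t * j : ℝ) * 359 / 480 = (t * j : ℝ) * (359 / 480) := by ring
      rw [e3, e2, Main5.rpow_exp hQ0pos, hlogQ0, ← hPdef, Main5.rpow_exp hP0, ← hp]
      have e4 : v * (359 / 480) = v * 359 / 480 := by ring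
      rw [e4]
    have t2 : (2 : ℝ) ^ (t * j : ℝ) * Q0 ^ ((1557 : ℝ) / 640) =
        Real.exp v * Real.exp ((1557 / 640) * (x - v)) := by
      have e2 := h2tj 1
      rw [mul_one, mul_one] at e2
      rw [e2, Main5.rpow_exp hQ0pos, hlogQ0]
    have t3 : Q0 ^ ((3 : ℝ) / 5) * (2 : ℝ) ^ ((t * j : ℝ) * 11 / 15) *
        (R.card : ℝ) ^ ((4 : ℝ) / 5) =
        Real.exp ((3 / 5) * (x - v)) * Real.exp (v * 11 / 15) * Real.exp (4 / 5 * p) := by
      have e2 := h2tj (11 / 15)
      have e3 : (t * j : ℝ) * 11 / 15 = (t * j : ℝ) * (11 / 15) := by ring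
      rw [e3, e2, Main5.rpow_exp hQ0pos, hlogQ0, ← hPdef, Main5.rpow_exp hP0, ← hp]
      have e4 : v * (11 / 15) = v * 11 / 15 := by ring
      rw [e4]
    have t4 : (2 : ℝ) ^ ((t * j : ℝ) * 2 / 3) * R.card = Real.exp (v * 2 / 3) * Real.exp p := by
      have e2 := h2tj (2 / 3)
      have e3 : (t * j : ℝ) * 2 / 3 = (t * j : ℝ) * (2 / 3) := by ring
      rw [e3, e2, ← hPdef, ← hPe]
      have e4 : v * (2 / 3) = v * 2 / 3 := by ring
      rw [e4]
    rw [t1, t2, t3, t4] at hmain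
    -- the factor
    have hfac : C ^ (j + 1) * ((j : ℝ) + 1) ≤ C * Real.exp (v / 10000) := by
      have hj' : ((j : ℝ) + 1) ≤ 2 ^ j := by
        have := Nat.lt_two_pow_self (n := j)
        exact_mod_cast this
      have hpow : (2 * C) ^ j ≤ Real.exp (v / 10000) := by
        have h7 : (2 * C) ^ j ≤ ((2 : ℝ) ^ ((t : ℝ) / 10000)) ^ j :=
          pow_le_pow_left₀ (by linarith) h2C j
        refine h7.trans (le_of_eq ?_)
        rw [← Real.rpow_natCast, ← Real.rpow_mul (by norm_num), Main5.rpow_exp (by norm_num), hv,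
          hs]
        congr 1
        ring
      calc C ^ (j + 1) * ((j : ℝ) + 1) ≤ C ^ (j + 1) * 2 ^ j := by
            apply mul_le_mul_of_nonneg_left hj'; positivity
        _ = C * (2 * C) ^ j := by rw [mul_pow, pow_succ]; ring
        _ ≤ C * Real.exp (v / 10000) := by
            apply mul_le_mul_of_nonneg_left hpow; linarith
    have hB5 := Main5.caseB (P := P) (Q := Q) hPe hQe hx0 hxp hpx hu hvu huv hs0.le hv0
    set TT : ℝ := Real.exp ((117 / 160) * (x - v)) * Real.exp (v * 359 / 480) *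
        Real.exp (121 / 160 * p) + Real.exp v * Real.exp ((1557 / 640) * (x - v)) +
        Real.exp ((3 / 5) * (x - v)) * Real.exp (v * 11 / 15) * Real.exp (4 / 5 * p) +
        Real.exp (v * 2 / 3) * Real.exp p with hTT
    have hTT0 : 0 ≤ TT := by rw [hTT]; positivity
    have hes : Real.exp (3 * s) = (2 ^ t) ^ 3 := by
      have : (2 : ℝ) ^ t = Real.exp s := by
        rw [← Real.rpow_natCast, Main5.rpow_exp (by norm_num)]
      rw [this, ← Real.exp_nat_mul]
      norm_num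
    have hPQ : Real.exp (1501 / 2000 * p) * Real.exp (1497 / 2000 * x) =
        P ^ ((1501 : ℝ) / 2000) * Q ^ ((1497 : ℝ) / 2000) := by
      rw [Main5.rpow_exp hP0, Main5.rpow_exp hQ0]
    have hfin : (inc R B : ℝ) ≤ C * 2 ^ t * (4 * (2 ^ t) ^ 3) *
        (P ^ ((1501 : ℝ) / 2000) * Q ^ ((1497 : ℝ) / 2000)) := by
      calc (inc R B : ℝ) ≤ C ^ (j + 1) * ((j : ℝ) + 1) * 2 ^ t * TT := hmain
        _ ≤ (C * Real.exp (v / 10000)) * 2 ^ t * TT := by
            apply mul_le_mul_of_nonneg_right _ hTT0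
            apply mul_le_mul_of_nonneg_right hfac; positivity
        _ = C * 2 ^ t * (Real.exp (v / 10000) * TT) := by ring
        _ ≤ C * 2 ^ t * (4 * Real.exp (3 * s) * (Real.exp (1501 / 2000 * p) *
            Real.exp (1497 / 2000 * x))) := by
            apply mul_le_mul_of_nonneg_left hB5; positivity
        _ = _ := by rw [hes, hPQ]; ring
    have h11 : 0 ≤ P ^ ((1501 : ℝ) / 2000) * Q ^ ((1497 : ℝ) / 2000) :=
      mul_nonneg (Real.rpow_nonneg hP0.le _) (Real.rpow_nonneg hQ0.le _)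
    have h12 : 0 ≤ C * 2 ^ t * (4 * (2 ^ t) ^ 3) :=
      mul_nonneg (mul_nonneg (by linarith) (pow_nonneg (by norm_num) _))
        (mul_nonneg (by norm_num) (pow_nonneg (pow_nonneg (by norm_num) _) _))
    generalize P ^ ((1501 : ℝ) / 2000) * Q ^ ((1497 : ℝ) / 2000) = A at *
    generalize C * 2 ^ t * (4 * (2 ^ t) ^ 3) = D at *
    have h13 : 0 ≤ 2 * K * (A + P) := mul_nonneg (by linarith) (by linarith)
    have h14 : 0 ≤ D * P := mul_nonneg h12 hP0.le
    linarith [add_mul (2 * K) D (A + P), mul_add D A P]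

end Pool.Agent.Work.MP_81c58b_co.TG
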