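import Pool.Agent.Work.MP_916cc8_co.Stmts

/-!
# MP_81c58b_co, block TG: tangencies of n red and n blue discs, exponent 3/2 - c

Paper proof: team note 3234 (TG-1).  All `def ... : Prop` below are items; the proof of item `X`
is a theorem `x_proof : X` (or with hypotheses as listed in the item).

Coordinates: the disc with centre `(c1,c2)` and signed radius `ρ` is the point
`(c1, c2+ρ, c2-ρ)` of `ℝ^3`, `q (x,y,w) = x^2 + y w`, touching is `q (b - r) = 0`.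
-/

set_option autoImplicit false

namespace Pool.Agent.Work.MP_81c58b_co.TG

open MvPolynomial
open Pool.Agent.Work.MP_916cc8_co (sameCl Part War CW Bez Clr)

section Defs

open scoped Classical

abbrev E3 := Fin 3 → ℝ

/-- the quadratic form -/
def q (p : E3) : ℝ := p 0 ^ 2 + p 1 * p 2

/-- the polar form, `q (u + v) = q u + bil u v + q v` -/
def bil (u v : E3) : ℝ := 2 * u 0 * v 0 + u 1 * v 2 + u 2 * v 1

/-- the null vectors with `y = 1` -/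
def nu (t : ℝ) : E3 := ![t, 1, - t ^ 2]

/-- `b - r` is a non-zero multiple of some `nu t` -/
def Inc (r b : E3) : Prop := q (b - r) = 0 ∧ (b - r) 1 ≠ 0

/-- the parameter `t` of the null direction of `b - r` -/
noncomputable def tt (r b : E3) : ℝ := (b - r) 0 / (b - r) 1

/-- `bil d (nu t)` -/
def ell (d : E3) (t : ℝ) : ℝ := - d 1 * t ^ 2 + 2 * d 0 * t + d 2

/-- the point with parameter `t` on the conic of all `r` incident to `b` and `b'` -/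
noncomputable def crv (b b' : E3) (t : ℝ) : E3 := b + (q (b' - b) / ell (b' - b) t) • nu t

/-- the parameter with respect to `b'` of the point with parameter `t` with respect to `b` -/
noncomputable def mob (d : E3) (t : ℝ) : ℝ := (d 0 * t + d 2) / (d 1 * t - d 0)

/-- no three touch in one point -/
structure Str (R B : Finset E3) : Prop where
  h1 : ∀ r ∈ R, ∀ b ∈ B, ∀ b' ∈ B, Inc r b → Inc r b' → tt r b = tt r b' → b = b'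
  h2 : ∀ b ∈ B, ∀ r ∈ R, ∀ r' ∈ R, Inc r b → Inc r' b → tt r b = tt r' b → r = r'

/-- number of incident pairs -/
noncomputable def inc (R B : Finset E3) : ℕ := ((R ×ˢ B).filter (fun z => Inc z.1 z.2)).card

/-- common neighbours -/
noncomputable def cn (R : Finset E3) (b b' : E3) : Finset E3 :=
  R.filter (fun r => Inc r b ∧ Inc r b')

/-- the interval between `t` and `t'` has no pole of the conic `b,b'` -/
def Good (b b' : E3) (t t' : ℝ) : Prop :=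
  ∀ u ∈ Set.uIcc t t', ell (b' - b) u ≠ 0 ∧ (b' - b) 1 * u ≠ (b' - b) 0

def Edge (b b' r r' : E3) : Prop :=
  b ≠ b' ∧ r ≠ r' ∧ Inc r b ∧ Inc r b' ∧ Inc r' b ∧ Inc r' b' ∧ Good b b' (tt r b) (tt r' b)

/-- the directions of `b` and `c` are in different order at `r` and at `r'` -/
def Swapped (r r' b c : E3) : Prop := (tt r b - tt r c) * (tt r' b - tt r' c) < 0

/-- `(b, b', r)` -/
abbrev Tr := E3 × E3 × E3
/-- `(b, b', r, r')` -/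
abbrev Ed := E3 × E3 × E3 × E3

def pt4 (p : E3) (t : ℝ) : Fin 4 → ℝ := ![p 0, p 1, p 2, t]

noncomputable def lift (a : Tr) : Fin 4 → ℝ := pt4 a.2.2 (tt a.2.2 a.1)

def Valid (R B : Finset E3) (A : Finset Tr) : Prop :=
  ∀ a ∈ A, a.1 ∈ B ∧ a.2.1 ∈ B ∧ a.2.2 ∈ R ∧ a.1 ≠ a.2.1 ∧ Inc a.2.2 a.1 ∧ Inc a.2.2 a.2.1

noncomputable def nN (A : Finset Tr) : ℕ := (A.image (fun a => (a.1, a.2.1))).card
noncomputable def nQ (A : Finset Tr) : ℕ := (A.image (fun a => a.1)).card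

structure EdgeSet (R B : Finset E3) (E : Finset Ed) : Prop where
  edge : ∀ e ∈ E, e.1 ∈ B ∧ e.2.1 ∈ B ∧ e.2.2.1 ∈ R ∧ e.2.2.2 ∈ R ∧
    Edge e.1 e.2.1 e.2.2.1 e.2.2.2
  thin : ∀ (b b' : E3) (t : ℝ), (E.filter (fun e => e.1 = b ∧ e.2.1 = b' ∧
    t ∈ Set.uIcc (tt e.2.2.1 b) (tt e.2.2.2 b))).card ≤ 4

/-- univariate slice of a polynomial in four variables -/
noncomputable def slice (f : MvPolynomial (Fin 4) ℝ) (p : E3) : Polynomial ℝ :=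
  aeval ![Polynomial.C (p 0), Polynomial.C (p 1), Polynomial.C (p 2), Polynomial.X] f

/-- the cone of `b` is contained in the zero set of `g` -/
def Cone (g : MvPolynomial (Fin 3) ℝ) (b : E3) : Prop := ∀ s t : ℝ, eval (b + s • nu t) g = 0

/-- the conic of `b, b'` is contained in the zero set of `g` -/
def Conic (g : MvPolynomial (Fin 3) ℝ) (b b' : E3) : Prop :=
  ∀ t : ℝ, ell (b' - b) t ≠ 0 → eval (crv b b' t) g = 0

/-- the element `(b, b', r)` of the edge `(b, b', r, r')` -/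
def el (e : Ed) : Tr := (e.1, e.2.1, e.2.2.1)

/-- near relation on `B`: symmetric, irreflexive, at most `M` partners -/
structure Near (B : Finset E3) (N : Finset (E3 × E3)) (M : ℝ) : Prop where
  mem : ∀ z ∈ N, z.1 ∈ B ∧ z.2 ∈ B ∧ z.1 ≠ z.2
  sym : ∀ z ∈ N, (z.2, z.1) ∈ N
  card : ∀ b ∈ B, ((N.filter (fun z => z.1 = b)).card : ℝ) ≤ M

/-- edges between consecutive common neighbours, avoiding the zero sets of the `f j` -/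
def EdgeP (R : Finset E3) {t0 : ℕ} (f : Fin t0 → MvPolynomial (Fin 3) ℝ) (b b' r r' : E3) :
    Prop :=
  Edge b b' r r' ∧
  (∀ p ∈ R, Inc p b → Inc p b' → tt p b ∈ Set.uIcc (tt r b) (tt r' b) → p = r ∨ p = r') ∧
  ∀ u ∈ Set.uIcc (tt r b) (tt r' b), ∀ j, eval (crv b b' u) (f j) ≠ 0

/-- number of triples `(b, b', r)`, `(b,b')` near, `r` incident to both -/
noncomputable def JJ (R : Finset E3) (N : Finset (E3 × E3)) : ℕ :=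
  ∑ z ∈ N, (cn R z.1 z.2).card

/-- complex points over a point of the plane -/
noncomputable def LC (e0 e1 : ℝ) (x y z : ℂ) : Fin 3 → ℂ := ![x + e0 * z, y + e1 * z, z]

/-- the quadratic form over `ℂ`, centred at the real point `r` -/
noncomputable def qC (r : E3) (p : Fin 3 → ℂ) : ℂ :=
  (p 0 - r 0) ^ 2 + (p 1 - r 1) * (p 2 - r 2)

/-- the projection along `(e0, e1, 1)` -/
def prE (e0 e1 : ℝ) (p : E3) : Fin 2 → ℝ := ![p 0 - e0 * p 2, p 1 - e1 * p 2]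

/-- `V` does not vanish on a (complex) line of direction `(e0, e1, 1)` -/
def Dir (V : MvPolynomial (Fin 3) ℝ) (e0 e1 : ℝ) : Prop :=
  e0 ^ 2 + e1 ≠ 0 ∧ ∀ x y : ℂ, ∃ p : Polynomial ℂ, p ≠ 0 ∧ p.natDegree ≤ V.totalDegree ∧
    ∀ z : ℂ, p.eval z = aeval (LC e0 e1 x y z) V

/-- `h` vanishes on the projection of a null line through `r` -/
def NL (e0 e1 : ℝ) (h : MvPolynomial (Fin 2) ℝ) (r : E3) : Prop :=
  ∃ v : E3, v ≠ 0 ∧ q v = 0 ∧ ∀ s : ℝ, eval (prE e0 e1 (r + s • v)) h = 0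

/-- `S` is the resultant of `V` and the cone of `r` along `(e0, e1, 1)` -/
def Res (V : MvPolynomial (Fin 3) ℝ) (e0 e1 : ℝ) (r : E3) (S : MvPolynomial (Fin 2) ℝ) : Prop :=
  S.totalDegree ≤ 2 * V.totalDegree ∧ ∀ x y : ℂ, aeval ![x, y] S = 0 ↔
    ∃ z : ℂ, qC r (LC e0 e1 x y z) = 0 ∧ aeval (LC e0 e1 x y z) V = 0

end Defs

/-! ## Part A: algebra of the cone -/

section A

/-- three cones with different directions at the common points have at most two common points -/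
def K33 : Prop := ∀ r1 r2 r3 : E3, ∀ Z : Finset E3,
  (∀ b ∈ Z, Inc r1 b ∧ Inc r2 b ∧ Inc r3 b ∧ tt r1 b ≠ tt r2 b ∧ tt r1 b ≠ tt r3 b ∧
    tt r2 b ≠ tt r3 b) → Z.card ≤ 2

/-- parametrisation of the conic: `r` is the point with parameter `tt r b` -/
def PAR : Prop := ∀ r b b' : E3, b ≠ b' → Inc r b → Inc r b' → tt r b ≠ tt r b' →
  q (b' - b) ≠ 0 ∧ ell (b' - b) (tt r b) ≠ 0 ∧ (b' - b) 1 * tt r b ≠ (b' - b) 0 ∧
  r = crv b b' (tt r b) ∧ tt r b' = mob (b' - b) (tt r b)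

/-- converse: points of the conic are incident to both -/
def PAR2 : Prop := ∀ (b b' : E3) (t : ℝ), q (b' - b) ≠ 0 → ell (b' - b) t ≠ 0 →
  Inc (crv b b' t) b ∧ tt (crv b b' t) b = t ∧ q (b' - crv b b' t) = 0 ∧
  ((b' - b) 1 * t ≠ (b' - b) 0 → Inc (crv b b' t) b' ∧ tt (crv b b' t) b' = mob (b' - b) t ∧
    crv b' b (mob (b' - b) t) = crv b b' t ∧ mob (b - b') (mob (b' - b) t) = t)

/-- edges are space-like, and `b`, `b'` are not swapped -/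
def NOSWAP : Prop := ∀ b b' r r' : E3, Edge b b' r r' →
  0 < q (r' - r) ∧ 0 < (tt r b - tt r b') * (tt r' b - tt r' b')

/-- the swap formula -/
def SWAP : Prop := ∀ r r' b c : E3, Inc r b → Inc r' b → Inc r c → Inc r' c →
  tt r b ≠ tt r' b → tt r c ≠ tt r' c →
  (r' - r) 1 * tt r b - (r' - r) 0 ≠ 0 ∧ (r' - r) 1 * tt r c - (r' - r) 0 ≠ 0 ∧
  (tt r' b - tt r' c) * (((r' - r) 1 * tt r b - (r' - r) 0) * ((r' - r) 1 * tt r c - (r' - r) 0))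
    = - q (r' - r) * (tt r b - tt r c)

/-- two edges with the same ends on different conics have a swapped cross pair -/
def LENS : Prop := ∀ b1 b1' b2 b2' r r' : E3, Edge b1 b1' r r' → Edge b2 b2' r r' →
  ¬ (b1 = b2 ∧ b1' = b2') → ¬ (b1 = b2' ∧ b1' = b2) →
  (∀ x ∈ ({b1, b1', b2, b2'} : Set E3), ∀ y ∈ ({b1, b1', b2, b2'} : Set E3),
    x ≠ y → tt r x ≠ tt r y) →
  Swapped r r' b1 b2 ∨ Swapped r r' b1 b2' ∨ Swapped r r' b1' b2 ∨ Swapped r r' b1' b2'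

/-- reversing the roles of `b` and `b'` on a good interval -/
def GSYM : Prop := ∀ (b b' : E3) (t t' : ℝ), q (b' - b) ≠ 0 → Good b b' t t' →
  Good b' b (mob (b' - b) t) (mob (b' - b) t') ∧
  ∀ u ∈ Set.uIcc (mob (b' - b) t) (mob (b' - b) t'), mob (b - b') u ∈ Set.uIcc t t'

/-- Thom's lemma for two polynomials -/
def THOM : Prop := ∀ (a a' : Polynomial ℝ) (t1 t2 t1' t2' : ℝ), a ≠ 0 → t1 < t2 → t2' < t1' →
  (∀ k : ℕ, SignType.sign ((Polynomial.derivative^[k] a).eval t1) =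
    SignType.sign ((Polynomial.derivative^[k] a').eval t1')) →
  (∀ k : ℕ, SignType.sign ((Polynomial.derivative^[k] a).eval t2) =
    SignType.sign ((Polynomial.derivative^[k] a').eval t2')) →
  0 < a.eval t1 * a.eval t2

/-- a polynomial in four variables along the lifted conic -/
def CP4 : Prop := ∀ (f : MvPolynomial (Fin 4) ℝ) (b b' : E3),
  ∃ P : Polynomial ℝ, P.natDegree ≤ 3 * f.totalDegree ∧ ∀ t : ℝ, ell (b' - b) t ≠ 0 →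
    P.eval t = ell (b' - b) t ^ f.totalDegree * eval (pt4 (crv b b' t) t) f

/-- a polynomial in three variables along the conic -/
def CP3 : Prop := ∀ (g : MvPolynomial (Fin 3) ℝ) (b b' : E3),
  ∃ P : Polynomial ℝ, P.natDegree ≤ 2 * g.totalDegree ∧ ∀ t : ℝ, ell (b' - b) t ≠ 0 →
    P.eval t = ell (b' - b) t ^ g.totalDegree * eval (crv b b' t) g

/-- polynomials on the (lifted) cone -/
def SP4 : Prop := ∀ (f : MvPolynomial (Fin 4) ℝ) (b : E3),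
  ∃ F : MvPolynomial (Fin 2) ℝ, F.totalDegree ≤ 3 * f.totalDegree ∧ ∀ s t : ℝ,
    eval ![s, t] F = eval (pt4 (b + s • nu t) t) f

def SP3 : Prop := ∀ (g : MvPolynomial (Fin 3) ℝ) (b : E3),
  ∃ F : MvPolynomial (Fin 2) ℝ, F.totalDegree ≤ 3 * g.totalDegree ∧ ∀ s t : ℝ,
    eval ![s, t] F = eval (b + s • nu t) g

/-- number of contained cones -/
def CONT : Prop := ∀ g : MvPolynomial (Fin 3) ℝ, g ≠ 0 → ∀ Z : Finset E3,
  (∀ b ∈ Z, Cone g b) → Z.card ≤ g.totalDegree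

/-- number of contained conics on a cone that is not contained -/
def CONI : Prop := ∀ (g : MvPolynomial (Fin 3) ℝ) (b : E3), ¬ Cone g b → ∀ Z : Finset E3,
  (∀ b' ∈ Z, q (b' - b) ≠ 0 ∧ Conic g b b') → Z.card ≤ g.totalDegree

/-- a conic meets the cone of a third point at most twice -/
def DENZ : Prop := ∀ b b' b0 : E3, q (b' - b) ≠ 0 → b0 ≠ b → b0 ≠ b' → ∀ Z : Finset ℝ,
  (∀ t ∈ Z, ell (b' - b) t ≠ 0 ∧ q (crv b b' t - b0) = 0) → Z.card ≤ 2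

/-- sign classes visited by a lifted conic -/
def VISC : Prop := ∀ (t0 : ℕ) (f : Fin t0 → MvPolynomial (Fin 4) ℝ) (b b' : E3) (Z : Finset ℝ),
  (∀ t ∈ Z, ell (b' - b) t ≠ 0 ∧ ∀ j, eval (pt4 (crv b b' t) t) (f j) ≠ 0) →
  (∀ t ∈ Z, ∀ u ∈ Z, sameCl f (pt4 (crv b b' t) t) (pt4 (crv b b' u) u) → t = u) →
  Z.card ≤ 3 * (∑ j, (f j).totalDegree) + 3

/-- sign classes visited by a lifted cone -/
def VISS : Prop := ∀ (t0 : ℕ) (f : Fin t0 → MvPolynomial (Fin 4) ℝ) (b : E3) (Z : Finset E3),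
  (∀ r ∈ Z, Inc r b ∧ ∀ j, eval (pt4 r (tt r b)) (f j) ≠ 0) →
  (∀ r ∈ Z, ∀ r' ∈ Z, sameCl f (pt4 r (tt r b)) (pt4 r' (tt r' b)) → r = r') →
  Z.card ≤ (6 * (∑ j, (f j).totalDegree) + 2) ^ 2

/-- sign classes visited by a cone -/
def VIS3 : Prop := ∀ (t0 : ℕ) (f : Fin t0 → MvPolynomial (Fin 3) ℝ) (r : E3) (Z : Finset E3),
  (∀ b ∈ Z, Inc r b ∧ ∀ j, eval b (f j) ≠ 0) →
  (∀ b ∈ Z, ∀ b' ∈ Z, sameCl f b b' → b = b') →
  Z.card ≤ (6 * (∑ j, (f j).totalDegree) + 2) ^ 2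

end A

/-! ## Part B: the cutting lemma -/

section B

open scoped Classical

/-- one partition polynomial: cut parameters on the conics -/
def FSTEP : Prop := ∀ f : MvPolynomial (Fin 4) ℝ, f ≠ 0 → ∃ g : MvPolynomial (Fin 3) ℝ,
  g ≠ 0 ∧ g.totalDegree ≤ f.totalDegree ∧ ∀ b b' : E3, ∃ Z : Finset ℝ,
    Z.card ≤ 4 * (f.totalDegree + 1) ^ 2 ∧
    ∀ t t' : ℝ, Good b b' t t' → (∀ z ∈ Z, z ∉ Set.uIcc t t') →
      (eval (crv b b' t) g ≠ 0 → slice f (crv b b' t) ≠ 0 ∧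
        ∀ k : ℕ, SignType.sign ((Polynomial.derivative^[k] (slice f (crv b b' t))).eval t) =
          SignType.sign ((Polynomial.derivative^[k] (slice f (crv b b' t'))).eval t')) ∧
      (eval (crv b b' t) g = 0 → Conic g b b')

/-- two surviving edges with swapped `b1, b2` have the same non-zero sign -/
def PAIR : Prop := ∀ f : MvPolynomial (Fin 4) ℝ, f ≠ 0 → ∃ g : MvPolynomial (Fin 3) ℝ,
  g ≠ 0 ∧ g.totalDegree ≤ f.totalDegree ∧ ∃ Z : E3 → E3 → Finset ℝ,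
    (∀ b b', (Z b b').card ≤ 4 * (f.totalDegree + 1) ^ 2) ∧
    ∀ b1 b1' b2 b2' r r' : E3, Edge b1 b1' r r' → Edge b2 b2' r r' →
      tt r b1 ≠ tt r b1' → tt r' b1 ≠ tt r' b1' → tt r b2 ≠ tt r b2' → tt r' b2 ≠ tt r' b2' →
      (∀ z ∈ Z b1 b1', z ∉ Set.uIcc (tt r b1) (tt r' b1)) →
      (∀ z ∈ Z b2 b2', z ∉ Set.uIcc (tt r b2) (tt r' b2)) →
      Swapped r r' b1 b2 →
      (0 < eval (pt4 r (tt r b1)) f * eval (pt4 r (tt r b2)) f) ∨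
        (Conic g b1 b1' ∧ Conic g b2 b2')

/-- cutting kills few edges -/
def KILL : Prop := ∀ (R B : Finset E3) (E : Finset Ed) (A : Finset Tr) (Z : E3 → E3 → Finset ℝ)
  (c : ℕ), EdgeSet R B E → (∀ b b', (Z b b').card ≤ c) →
  (E.filter (fun e => (∃ r, (e.1, e.2.1, r) ∈ A) ∧ ∃ z ∈ Z e.1 e.2.1,
    z ∈ Set.uIcc (tt e.2.2.1 e.1) (tt e.2.2.2 e.1))).card ≤ 4 * c * nN A

/-- coincidences of conics inside a surface -/
def SURFREM : Prop := ∀ (R B : Finset E3) (E : Finset Ed) (A : Finset Tr)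
  (g : MvPolynomial (Fin 3) ℝ), Str R B → EdgeSet R B E → Valid R B A → g ≠ 0 →
  ∃ X ⊆ E, (X.card : ℝ) ≤ 4 * g.totalDegree * nQ A * Real.sqrt A.card ∧
    ∀ e ∈ E \ X, ∀ e' ∈ E \ X, e.2.2 = e'.2.2 → el e ∈ A → el e' ∈ A →
      ¬ Cone g e.1 → Conic g e.1 e.2.1 → ¬ Cone g e'.1 → Conic g e'.1 e'.2.1 →
      (e.1 = e'.1 ∧ e.2.1 = e'.2.1) ∨ (e.1 = e'.2.1 ∧ e.2.1 = e'.1)

/-- one step of the recursion -/
def STEP : Prop := ∃ C : ℝ, 0 < C ∧ ∀ t0 : ℕ, ∃ C0 : ℝ, 0 < C0 ∧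
  ∀ (R B : Finset E3) (E : Finset Ed) (A : Finset Tr), Str R B → EdgeSet R B E → Valid R B A →
  ∃ (X : Finset Ed) (ch : (Fin t0 → Bool) → Finset Tr), X ⊆ E ∧
    (X.card : ℝ) ≤ C0 * (nN A + nQ A * Real.sqrt A.card) ∧
    (∀ σ, ch σ ⊆ A ∧ 2 ^ t0 * (ch σ).card ≤ A.card) ∧
    (∑ σ, (nN (ch σ) : ℝ)) ≤ C * (2 : ℝ) ^ ((t0 : ℝ) / 4) * nN A ∧
    (∑ σ, (nQ (ch σ) : ℝ)) ≤ C * (2 : ℝ) ^ ((t0 : ℝ) / 2) * nQ A ∧
    ∀ e ∈ E \ X, ∀ e' ∈ E \ X, e.2.2 = e'.2.2 → el e ∈ A → el e' ∈ A →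
      Swapped e.2.2.1 e.2.2.2 e.1 e'.1 → ∃ σ, el e ∈ ch σ ∧ el e' ∈ ch σ

/-- the induction -/
def CUTI : Prop := ∃ K : ℝ, 0 < K ∧
  ∀ (R B : Finset E3) (E : Finset Ed), Str R B → EdgeSet R B E →
  ∀ A : Finset Tr, Valid R B A → ∃ X ⊆ E,
    (X.card : ℝ) ≤ K * (nN A * (A.card : ℝ) ^ ((251 : ℝ) / 1000) +
      nQ A * (A.card : ℝ) ^ ((501 : ℝ) / 1000)) ∧
    ∀ e ∈ E \ X, ∀ e' ∈ E \ X, e.2.2 = e'.2.2 → el e ∈ A → el e' ∈ A →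
      ¬ Swapped e.2.2.1 e.2.2.2 e.1 e'.1

/-- the cutting lemma -/
def CUT : Prop := ∃ K : ℝ, 0 < K ∧
  ∀ (R B : Finset E3) (E : Finset Ed) (N J : ℝ), Str R B → EdgeSet R B E →
  (∀ e ∈ E, (e.2.1, e.1, e.2.2.1, e.2.2.2) ∈ E) →
  ((E.image (fun e => (e.1, e.2.1))).card : ℝ) ≤ N → ((E.image el).card : ℝ) ≤ J → 1 ≤ J →
  ∃ X ⊆ E, (X.card : ℝ) ≤ K * (N * J ^ ((251 : ℝ) / 1000) +
      B.card * J ^ ((501 : ℝ) / 1000)) ∧
    ∀ e ∈ E \ X, ∀ e' ∈ E \ X, e.2.2 = e'.2.2 →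
      (e.1 = e'.1 ∧ e.2.1 = e'.2.1) ∨ (e.1 = e'.2.1 ∧ e.2.1 = e'.1)

end B

/-! ## Part C: edges, red partition -/

section C

open scoped Classical

/-- consecutive elements of a finite set of reals -/
def CONS : Prop := ∀ S Z : Finset ℝ,
  S.card ≤ ((S ×ˢ S).filter (fun x => x.1 < x.2 ∧ (∀ s ∈ S, s ∈ Set.Icc x.1 x.2 → s = x.1 ∨ s = x.2)
    ∧ ∀ z ∈ Z, z ∉ Set.Icc x.1 x.2)).card + 1 + 2 * Z.card

def ESYM : Prop := ∀ (R : Finset E3) (t0 : ℕ) (f : Fin t0 → MvPolynomial (Fin 3) ℝ)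
  (b b' r r' : E3), tt r b ≠ tt r b' → tt r' b ≠ tt r' b' →
  (∀ p ∈ R, Inc p b → Inc p b' → tt p b ≠ tt p b') → EdgeP R f b b' r r' →
  EdgeP R f b' b r r' ∧ EdgeP R f b b' r' r ∧ sameCl f r r'

def ETHIN : Prop := ∀ (R B : Finset E3) (t0 : ℕ) (f : Fin t0 → MvPolynomial (Fin 3) ℝ),
  Str R B → ∀ b ∈ B, ∀ b' ∈ B, ∀ t : ℝ,
  ((R ×ˢ R).filter (fun z => EdgeP R f b b' z.1 z.2 ∧
    t ∈ Set.uIcc (tt z.1 b) (tt z.2 b))).card ≤ 4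

def ECOUNT : Prop := ∀ (R B : Finset E3) (t0 : ℕ) (f : Fin t0 → MvPolynomial (Fin 3) ℝ),
  Str R B → ∀ b ∈ B, ∀ b' ∈ B, b ≠ b' → (∀ j, ¬ Conic (f j) b b') →
  2 * (cn R b b').card ≤ ((R ×ˢ R).filter (fun z => EdgeP R f b b' z.1 z.2)).card +
    8 * (∑ j, (f j).totalDegree) + 14

/-- inclusion-exclusion on one cone -/
def INCL : Prop := ∀ (R B K : Finset E3) (b : E3), Str R B → b ∈ B → K ⊆ B → b ∉ K →
  ∑ b' ∈ K, (cn R b b').card ≤ (R.filter (fun r => Inc r b)).card + K.card ^ 2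

def MASS : Prop := ∀ (R B : Finset E3) (N : Finset (E3 × E3)) (M : ℝ) (t0 : ℕ)
  (f : Fin t0 → MvPolynomial (Fin 3) ℝ), Str R B → Near B N M → 0 ≤ M → (∀ j, f j ≠ 0) →
  ((∑ z ∈ N.filter (fun z => ∃ j, Conic (f j) z.1 z.2), (cn R z.1 z.2).card : ℕ) : ℝ) ≤
    inc R B + B.card * ((∑ j, (f j).totalDegree : ℕ) : ℝ) ^ 2 +
      ((∑ j, (f j).totalDegree : ℕ) : ℝ) * M ^ 2

def JUP : Prop := ∀ (R B : Finset E3) (N : Finset (E3 × E3)) (M : ℝ), Str R B → Near B N M →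
  0 ≤ M → (JJ R N : ℝ) ≤ inc R B + B.card * M ^ 2

/-- the core estimate -/
def UCORE : Prop := ∃ C : ℝ, 0 < C ∧ ∀ (R B : Finset E3) (N : Finset (E3 × E3)) (Q M J : ℝ),
  Str R B → Near B N M → 0 < M → M ≤ Q → (B.card : ℝ) ≤ Q → J = JJ R N →
  16 * (inc R B : ℝ) ≤ J →
  J ≤ C * Q * M ∨ J ^ 4 ≤ C * (R.card : ℝ) ^ 2 * (Q * M) ^ 3 ∨
    J ≤ C * (Q * M * J ^ ((251 : ℝ) / 1000) + Q * J ^ ((501 : ℝ) / 1000))

/-- blue partition -/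
def JB : Prop := ∃ C : ℝ, 1 ≤ C ∧ ∀ (R B : Finset E3) (t : ℕ),
  ∃ (V : MvPolynomial (Fin 3) ℝ) (B' : Finset E3) (N : Finset (E3 × E3)),
    V ≠ 0 ∧ (V.totalDegree : ℝ) ≤ C * (2 : ℝ) ^ ((t : ℝ) / 3) ∧ B' ⊆ B ∧
    (∀ b ∈ B \ B', eval b V = 0) ∧ Near B' N (B.card / 2 ^ t) ∧
    (inc R B' : ℝ) ^ 2 ≤ C * R.card * (2 : ℝ) ^ (2 * (t : ℝ) / 3) * (JJ R N + inc R B')

end C

/-! ## Part D: few incidences on a surface -/

section D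

open scoped Classical

def KST : Prop := ∀ R B : Finset E3, Str R B →
  (inc R B : ℝ) ≤ 2 * (B.card * (R.card : ℝ) ^ ((2 : ℝ) / 3) + R.card)

def SDIR : Prop := ∀ V : MvPolynomial (Fin 3) ℝ, V ≠ 0 → ∃ e0 e1 : ℝ, Dir V e0 e1

def RESP : Prop := ∀ (V : MvPolynomial (Fin 3) ℝ) (e0 e1 : ℝ), e0 ^ 2 + e1 ≠ 0 → ∀ r : E3,
  ∃ S : MvPolynomial (Fin 2) ℝ, Res V e0 e1 r S

/-- three cones with infinitely many common complex points -/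
def K33C : Prop := ∀ r1 r2 r3 : E3, r1 ≠ r2 → r1 ≠ r3 → r2 ≠ r3 → ∀ p1 p2 p3 : Fin 3 → ℂ,
  p1 ≠ p2 → p1 ≠ p3 → p2 ≠ p3 →
  (∀ r ∈ ({r1, r2, r3} : Set E3), ∀ p ∈ ({p1, p2, p3} : Set (Fin 3 → ℂ)), qC r p = 0) →
  q (r2 - r1) = 0 ∧ ∀ p ∈ ({p1, p2, p3} : Set (Fin 3 → ℂ)),
    ∃ s : ℂ, ∀ i, p i = r1 i + s * (r2 - r1) i

/-- few bad reds -/
def PIGE : Prop := ∀ (V : MvPolynomial (Fin 3) ℝ) (e0 e1 : ℝ) (h : MvPolynomial (Fin 2) ℝ),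
  Dir V e0 e1 → Irreducible h → ∀ Z : Finset E3,
  (∀ r ∈ Z, ¬ NL e0 e1 h r ∧ ∀ x y : ℂ, aeval ![x, y] h = 0 →
    ∃ z : ℂ, qC r (LC e0 e1 x y z) = 0 ∧ aeval (LC e0 e1 x y z) V = 0) →
  Z.card ≤ 2 * V.totalDegree

def LINE2 : Prop := ∀ (e0 e1 : ℝ) (h : MvPolynomial (Fin 2) ℝ) (r : E3), e0 ^ 2 + e1 ≠ 0 →
  Irreducible h → NL e0 e1 h r → ∀ Z : Finset E3,
  (∀ b ∈ Z, Inc r b ∧ eval (prE e0 e1 b) h = 0) →
  (∀ b ∈ Z, ∀ b' ∈ Z, tt r b = tt r b' → b = b') → Z.card ≤ 2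

def BEZ2 : Prop := ∀ (V : MvPolynomial (Fin 3) ℝ) (e0 e1 : ℝ) (h S : MvPolynomial (Fin 2) ℝ)
  (r : E3), e0 ^ 2 + e1 ≠ 0 → Irreducible h → Res V e0 e1 r S → ¬ h ∣ S → ∀ Z : Finset E3,
  (∀ b ∈ Z, Inc r b ∧ eval (prE e0 e1 b) h = 0 ∧ eval b V = 0) →
  Z.card ≤ 4 * V.totalDegree * h.totalDegree

/-- blues on the zero set of the planar partition -/
def ZPART : Prop := ∀ (V : MvPolynomial (Fin 3) ℝ) (e0 e1 : ℝ) (g : MvPolynomial (Fin 2) ℝ)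
  (R X : Finset E3), Dir V e0 e1 → g ≠ 0 → Str R X →
  (∀ b ∈ X, eval b V = 0 ∧ eval (prE e0 e1 b) g = 0) →
  inc R X ≤ (4 * V.totalDegree * g.totalDegree + 2 * g.totalDegree) * R.card +
    2 * V.totalDegree * X.card

/-- planar sign classes visited by the curve cone of `r` on the surface `V = 0` -/
def VISP : Prop := ∀ (V : MvPolynomial (Fin 3) ℝ) (e0 e1 : ℝ) (t : ℕ)
  (g : Fin t → MvPolynomial (Fin 2) ℝ) (r : E3) (Z : Finset E3), ¬ Cone V r →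
  (∀ b ∈ Z, Inc r b ∧ eval b V = 0 ∧ ∀ j, eval (prE e0 e1 b) (g j) ≠ 0) →
  (∀ b ∈ Z, ∀ b' ∈ Z, sameCl g (prE e0 e1 b) (prE e0 e1 b') → b = b') →
  Z.card ≤ 2 * (3 * V.totalDegree) * (3 * V.totalDegree + 6 * (∑ j, (g j).totalDegree) + 2)

/-- blues in the cells of the planar partition -/
def CELLP : Prop := ∃ C : ℝ, 0 < C ∧ ∀ (V : MvPolynomial (Fin 3) ℝ) (e0 e1 d m0 : ℝ) (t : ℕ)
  (g : Fin t → MvPolynomial (Fin 2) ℝ) (R X : Finset E3), Str R X → 1 ≤ d →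
  (V.totalDegree : ℝ) ≤ d → (∀ r ∈ R, ¬ Cone V r) →
  (∀ b ∈ X, eval b V = 0 ∧ ∀ j, eval (prE e0 e1 b) (g j) ≠ 0) →
  (∀ x : Fin 2 → ℝ,
    (2 : ℝ) ^ t * (X.filter (fun b => sameCl g x (prE e0 e1 b))).card ≤ m0) →
  ∀ W : ℝ, W = d * (d + ((∑ j, (g j).totalDegree : ℕ) : ℝ)) →
  (inc R X : ℝ) ≤ C * (R.card * W + m0 * (R.card * W / 2 ^ t) ^ ((2 : ℝ) / 3))

/-- the surface lemma -/
def SURF : Prop := ∃ C : ℝ, 0 < C ∧ ∀ (V : MvPolynomial (Fin 3) ℝ) (d : ℝ) (R X : Finset E3),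
  V ≠ 0 → 1 ≤ d → (V.totalDegree : ℝ) ≤ d → Str R X → (∀ b ∈ X, eval b V = 0) →
  (inc R X : ℝ) ≤ C * ((X.card : ℝ) ^ ((3 : ℝ) / 5) * (d * R.card) ^ ((4 : ℝ) / 5) +
    d ^ 2 * R.card + d * X.card)

end D

/-! ## Part E: the theorem -/

section Ex

open scoped Classical

/-- unbalanced case -/
def UTH : Prop := ∃ K : ℝ, 0 < K ∧ ∀ R B : Finset E3, Str R B →
  (B.card : ℝ) ^ ((9 : ℝ) / 4) ≤ R.card →
  (inc R B : ℝ) ≤ K * (R.card + (R.card : ℝ) ^ ((121 : ℝ) / 160) *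
    (B.card : ℝ) ^ ((117 : ℝ) / 160))

/-- the arithmetic of `UTH` -/
def UAR : Prop := ∀ C : ℝ, 1 ≤ C → ∃ K : ℝ, 0 < K ∧ ∀ P Q f T' T0 J : ℝ, 1 ≤ Q →
  Q ^ ((9 : ℝ) / 4) ≤ P → P ≤ Q ^ 3 → 0 ≤ T' → 0 ≤ T0 → 0 ≤ J →
  (Q ^ 3 / P) ^ ((1 : ℝ) / 20) ≤ f → f ≤ 2 * (Q ^ 3 / P) ^ ((1 : ℝ) / 20) →
  T0 ≤ C * (Q ^ ((3 : ℝ) / 5) * (f * P) ^ ((4 : ℝ) / 5) + f ^ 2 * P + f * Q) →
  T' ^ 2 ≤ C * P * f ^ 2 * (J + T') →
  (J < 16 * T' ∨ J ≤ C * Q * (Q / f ^ 3) ∨ J ^ 4 ≤ C * P ^ 2 * (Q * (Q / f ^ 3)) ^ 3 ∨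
    J ≤ C * (Q * (Q / f ^ 3) * J ^ ((251 : ℝ) / 1000) + Q * J ^ ((501 : ℝ) / 1000))) →
  T' + T0 ≤ K * (P ^ ((121 : ℝ) / 160) * Q ^ ((117 : ℝ) / 160))

/-- `UTH` for every size of `R` -/
def UTH2 : Prop := ∃ K : ℝ, 0 < K ∧ ∀ R B : Finset E3, Str R B →
  (inc R B : ℝ) ≤ K * (R.card + (R.card : ℝ) ^ ((121 : ℝ) / 160) *
    (B.card : ℝ) ^ ((117 : ℝ) / 160) + (B.card : ℝ) ^ ((1557 : ℝ) / 640))

/-- one step of the coarse partition -/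
def SPLIT : Prop := ∃ C : ℝ, 1 ≤ C ∧ ∀ (R B : Finset E3) (t : ℕ), Str R B →
  ∃ (Rc Bc : (Fin t → Bool) → Finset E3),
    (∀ σ, Rc σ ⊆ R ∧ Bc σ ⊆ B ∧ 2 ^ t * (Bc σ).card ≤ B.card) ∧
    (∑ σ, ((Rc σ).card : ℝ)) ≤ C * (2 : ℝ) ^ (2 * (t : ℝ) / 3) * R.card ∧
    (inc R B : ℝ) ≤ (∑ σ, (inc (Rc σ) (Bc σ) : ℝ)) + C * 2 ^ t *
      ((B.card : ℝ) ^ ((3 : ℝ) / 5) * (R.card : ℝ) ^ ((4 : ℝ) / 5) + R.card + B.card)

/-- `j` steps of the coarse partition -/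
def RECU : Prop := ∃ C : ℝ, 1 ≤ C ∧ ∀ (t j : ℕ) (Q0 : ℝ) (R B : Finset E3), Str R B →
  1 ≤ Q0 → (B.card : ℝ) ≤ Q0 * 2 ^ (t * j) →
  (inc R B : ℝ) ≤ C ^ (j + 1) * (j + 1) * 2 ^ t *
    (Q0 ^ ((117 : ℝ) / 160) * (2 : ℝ) ^ ((t * j : ℝ) * 359 / 480) *
        (R.card : ℝ) ^ ((121 : ℝ) / 160) +
      (2 : ℝ) ^ (t * j : ℝ) * Q0 ^ ((1557 : ℝ) / 640) +
      Q0 ^ ((3 : ℝ) / 5) * (2 : ℝ) ^ ((t * j : ℝ) * 11 / 15) * (R.card : ℝ) ^ ((4 : ℝ) / 5) +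
      (2 : ℝ) ^ ((t * j : ℝ) * 2 / 3) * R.card)

def MAIN3 : Prop := ∃ C : ℝ, 0 < C ∧ ∀ (R B : Finset E3) (n : ℕ), Str R B → R.card ≤ n →
  B.card ≤ n → (inc R B : ℝ) ≤ C * (n : ℝ) ^ ((1499 : ℝ) / 1000)

/-! discs -/

/-- A disc of the plane: centre `(x, y)`, radius `r` (a point if `r = 0`). -/
@[ext] structure Disc where
  x : ℝ
  y : ℝ
  r : ℝ

/-- The boundary circle of a disc. -/
def Disc.circle (D : Disc) : Set (ℝ × ℝ) :=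
  {p | (p.1 - D.x) ^ 2 + (p.2 - D.y) ^ 2 = D.r ^ 2}

/-- Two discs touch if their boundary circles have exactly one point in common. -/
def Touch (D E : Disc) : Prop := ∃! p : ℝ × ℝ, p ∈ D.circle ∩ E.circle

/-- The number of touching pairs `(D, E)`, `D ∈ R`, `E ∈ B`. -/
noncomputable def touching (R B : Finset Disc) : ℕ :=
  {P : Disc × Disc | P.1 ∈ R ∧ P.2 ∈ B ∧ Touch P.1 P.2}.ncard

/-- No three different discs of `S` touch pairwise in one common point. -/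
def NoTriple (S : Set Disc) : Prop :=
  ∀ D ∈ S, ∀ E ∈ S, ∀ F ∈ S, D ≠ E → D ≠ F → E ≠ F → Touch D E → Touch D F → Touch E F →
    D.circle ∩ E.circle ∩ F.circle = ∅

/-- `ρ = ±1`: the point of `ℝ^3` of a disc with the sign `ρ` of the radius -/
def emb (ρ : ℝ) (D : Disc) : E3 := ![D.x, D.y + ρ * D.r, D.y - ρ * D.r]

/-- geometry of contacts: `ρ = 1` internal, `ρ = -1` external contact -/
def CONTACT : Prop := ∀ D E : Disc, 0 ≤ D.r → 0 ≤ E.r → D ≠ E →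
  (Touch D E ↔ (q (emb 1 E - emb 1 D) = 0 ∨ q (emb (-1) E - emb 1 D) = 0))

def STRD : Prop := ∀ (ρ : ℝ) (R B : Finset Disc), ρ = 1 ∨ ρ = -1 →
  (∀ D ∈ R, 0 ≤ D.r) → (∀ D ∈ B, 0 ≤ D.r) → NoTriple ((R : Set Disc) ∪ B) →
  Str (R.image (emb 1)) (B.image (emb ρ)) ∧
  ∀ D ∈ R, (B.filter (fun E => q (emb ρ E - emb 1 D) = 0 ∧ (emb ρ E - emb 1 D) 1 = 0 ∧
    E ≠ D)).card ≤ 1

/-- the final theorem -/
def FINAL : Prop := ∃ c : ℝ, 0 < c ∧ ∃ C : ℝ, ∀ (n : ℕ) (R B : Finset Disc),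
  R.card ≤ n → B.card ≤ n → (∀ D ∈ R, 0 ≤ D.r) → (∀ D ∈ B, 0 ≤ D.r) →
  NoTriple ((R : Set Disc) ∪ B) → (touching R B : ℝ) ≤ C * (n : ℝ) ^ (3 / 2 - c)

end Ex

end Pool.Agent.Work.MP_81c58b_co.TG
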