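import Pool.Agent.Work.MP_81c58b_co.TG.Main5

/-! Symmetry in the two colours. -/

set_option autoImplicit false

namespace Pool.Agent.Work.MP_81c58b_co.TG

namespace Sym5

lemma inc_comm' {r b : E3} (h : Inc r b) : Inc b r := by
  obtain ⟨h1, h2⟩ := h
  constructor
  · have : r - b = -(b - r) := by abel
    rw [this]
    unfold q at *
    simp only [Pi.neg_apply]
    linarith
  · simp only [Pi.sub_apply] at *
    intro h3
    apply h2
    linarith

lemma tt_comm (r b : E3) : tt b r = tt r b := by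
  unfold tt
  have h0 : (r - b) 0 = -((b - r) 0) := by simp
  have h1 : (r - b) 1 = -((b - r) 1) := by simp
  rw [h0, h1, neg_div_neg_eq]

lemma str_symm {R B : Finset E3} (h : Str R B) : Str B R := by
  constructor
  · intro b hb r hr r' hr' h1 h2 h3
    exact h.h2 b hb r hr r' hr' (inc_comm' h1) (inc_comm' h2)
      (by rw [tt_comm b r, tt_comm b r']; exact h3)
  · intro r hr b hb b' hb' h1 h2 h3
    exact h.h1 r hr b hb b' hb' (inc_comm' h1) (inc_comm' h2)
      (by rw [tt_comm b r, tt_comm b' r]; exact h3)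

lemma inc_symm (R B : Finset E3) : inc R B = inc B R := by
  unfold inc
  apply Finset.card_bij (fun z _ => (z.2, z.1))
  · intro z hz
    simp only [Finset.mem_filter, Finset.mem_product] at hz ⊢
    exact ⟨⟨hz.1.2, hz.1.1⟩, inc_comm' hz.2⟩
  · intro z _ w _ h
    simp only [Prod.mk.injEq] at h
    exact Prod.ext h.2 h.1
  · intro z hz
    simp only [Finset.mem_filter, Finset.mem_product] at hz
    refine ⟨(z.2, z.1), ?_, rfl⟩
    simp only [Finset.mem_filter, Finset.mem_product]
    exact ⟨⟨hz.1.2, hz.1.1⟩, inc_comm' hz.2⟩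

end Sym5

/-- uniform bound, symmetric in the colours -/
def MAIN6 : Prop := ∃ C : ℝ, 0 < C ∧ ∀ R B : Finset E3, Str R B →
  (inc R B : ℝ) ≤ C * ((max R.card B.card : ℝ) ^ ((1501 : ℝ) / 2000) *
    (min R.card B.card : ℝ) ^ ((1497 : ℝ) / 2000) + (max R.card B.card : ℝ))

theorem MAIN6_pf (h : MAIN5) : MAIN6 := by
  obtain ⟨C, hC0, hC⟩ := h
  refine ⟨C, hC0, ?_⟩
  intro R B hS
  rcases le_total B.card R.card with h | h
  · have h' : (B.card : ℝ) ≤ R.card := by exact_mod_cast h
    rw [max_eq_left h', min_eq_right h']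
    exact hC R B hS h
  · have h' : (R.card : ℝ) ≤ B.card := by exact_mod_cast h
    rw [max_eq_right h', min_eq_left h', Sym5.inc_symm]
    exact hC B R (Sym5.str_symm hS) h

end Pool.Agent.Work.MP_81c58b_co.TG
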